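import Mathlib

/-!
# SMP/Asy: two asymptotic inequalities (owner)
-/

set_option autoImplicit false

namespace Pool.Agent.SMP

theorem asy (C a b : ℝ) (h : a < b) : ∃ T0 : ℝ, 1 ≤ T0 ∧ ∀ T : ℝ, T0 ≤ T → C * T ^ a ≤ T ^ b := by
  have h1 := (tendsto_rpow_atTop (sub_pos.2 h)).eventually_ge_atTop C
  obtain ⟨T1, hT1⟩ := Filter.eventually_atTop.1 h1
  refine ⟨max T1 1, le_max_right _ _, fun T hT => ?_⟩
  have hT0 : (0 : ℝ) < T := by linarith [le_max_right T1 1]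
  have h2 := hT1 T ((le_max_left _ _).trans hT)
  have h3 : T ^ b = T ^ (b - a) * T ^ a := by
    rw [← Real.rpow_add hT0]
    congr 1
    ring
  rw [h3]
  exact mul_le_mul_of_nonneg_right h2 (Real.rpow_nonneg hT0.le _)

theorem asyl (C a b : ℝ) (h : a < b) :
    ∃ T0 : ℝ, 1 ≤ T0 ∧ ∀ T : ℝ, T0 ≤ T → C * Real.log T * T ^ a ≤ T ^ b := by
  have hd : 0 < (b - a) / 2 := by linarith
  obtain ⟨T1, hT1, h1⟩ := asy (|C| / ((b - a) / 2)) (a + (b - a) / 2) b (by linarith)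
  refine ⟨T1, hT1, fun T hT => ?_⟩
  have hT0 : (1 : ℝ) ≤ T := hT1.trans hT
  have hT00 : (0 : ℝ) < T := by linarith
  have h2 : Real.log T ≤ T ^ ((b - a) / 2) / ((b - a) / 2) := Real.log_le_rpow_div hT00.le hd
  have h3 := h1 T hT
  have h4 : T ^ (a + (b - a) / 2) = T ^ a * T ^ ((b - a) / 2) := Real.rpow_add hT00 _ _
  have h5 : (0 : ℝ) ≤ Real.log T := Real.log_nonneg hT0
  have h6 : (0 : ℝ) < T ^ a := Real.rpow_pos_of_pos hT00 _
  calc C * Real.log T * T ^ a ≤ |C| * (T ^ ((b - a) / 2) / ((b - a) / 2)) * T ^ a := by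
        apply mul_le_mul_of_nonneg_right _ h6.le
        exact mul_le_mul (le_abs_self C) h2 h5 (abs_nonneg C)
    _ = |C| / ((b - a) / 2) * T ^ (a + (b - a) / 2) := by rw [h4]; ring
    _ ≤ T ^ b := h3

end Pool.Agent.SMP
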