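import Pool.Agent.SMP.FamN
import Pool.Agent.SMP.Asy
import Pool.Agent.SLB.EndB

/-!
# SMP/Goo (size 4): (A11) THEOREM A', the good part of the family

PROOF.  `η = δ / 2`; `Pool.Agent.SLB.bad` gives `eps`, `Y0`.  `c = min (δ / 100) (eps / 10)`, `c ≤ 1 / 1000` (`eps ≤ 1` may be assumed: `eps` may be
replaced by `min eps 1`).  `T` large, `Y = T ^ (1 - 3 c)`, `S = Y ^ eps` (if `eps` was decreased: still `S ≤ Y ^ eps`), `V0` the set
of `famn`.  Let `V` be the set of the `v ∈ V0` with `F5` (`Finset.filter`).  For the others the object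
`o = ((y 0, y 1), (p, y 2))`, `p = W p1`, is in `Bad Y S (Y ^ (-η))`:
`Adm`: `y 0, y 1 ≥ T ^ (1 - 3 c) = Y`, `≤ T ^ (1 - c) ≤ S Y` (`S Y = T ^ ((1 - 3 c) (1 + eps))`, `(1 - 3 c)(1 + eps) > 1`), `≥ 2`, squarefree,
coprime.  `p ≤ 4 W T ≤ S Y` for `T` large; `y 2 ≤ T ≤ S Y`; `IsCoprime (y 2) (y 0 * y 1)`;
`DlO o = y 0 y 1 y 2 - p ^ 3 = -m`, `|DlO o| = m ≥ T ^ 3 - ... `: `m = p ^ 3 - y 0 y 1 y 2 ≥ (W T) ^ 3 - T ^ 3 ≥ T ^ 3 ≥ Y ^ 3 / S`;
`k ≠ 0` with `|k i| ≤ T ^ (1 - δ) ≤ Y ^ (1 - η) = Y ^ (-η) * Y` (`(1 - 3 c)(1 - δ / 2) ≥ 1 - δ`) and `m ∣ Cv`: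
`PhiO o ![k 2, k 0, k 1] = Cv p y k` (`ring`).
The map `v ↦ o` is injective on `V0` (`W ≥ 1`), so `#(V0 \ V) ≤ Y ^ (4 - η / 4) ≤ T ^ (4 - δ / 8) ≤ T ^ (4 - 9 c) / 2` for `T` large
(`(1 - 3 c)(4 - η / 4) ≤ 4 - δ / 8`, `9 c ≤ 9 δ / 100 < δ / 8`, `asy`), and `T ^ (4 - 9 c) / 2 ≥ T ^ (4 - 10 c)`.
(`m` is determined by `v`: `Fam.hm`.)
-/

set_option autoImplicit false

namespace Pool.Agent.SMP

open Pool.Agent.SLB (V3 det3)

private theorem goo_mem {W : ℕ} (hW : WP W) {δ c e T Y S : ℝ} (h0 : 0 < δ) (h1 : δ ≤ 1 / 10)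
    (hc : 0 < c) (hcd : c ≤ δ / 100) (hce : c ≤ e / 10) (hT : 1 ≤ T)
    (hY : Y = T ^ (1 - 3 * c)) (hS : S = Y ^ e) (hY2 : 2 ≤ Y)
    (hWT : 4 * (W : ℝ) * T ^ (1 : ℝ) ≤ T ^ (1 + 6 * c))
    {p1 m : ℕ} {y : V3} (hF : Fam W T c p1 y m) {k : V3} (hk0 : k ≠ 0)
    (hk : ∀ i, |(k i : ℝ)| ≤ T ^ (1 - δ)) (hm : (m : ℤ) ∣ Cv ((W * p1 : ℕ) : ℤ) y k) :
    (((y 0, y 1), (((W * p1 : ℕ) : ℤ), y 2)) : Pool.Agent.SLB.Ob) ∈
      Pool.Agent.SLB.Bad Y S (Y ^ (-(δ / 2))) := by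
  have hTp : (0 : ℝ) < T := by linarith
  have hYp : (0 : ℝ) < Y := by linarith
  have he : 0 < e := by linarith
  have hW2 : 2 ≤ W := by
    have h2 : 2 ∣ W := (hW.dv 2 Nat.prime_two).2 (by norm_num)
    exact Nat.le_of_dvd (by have := hW.one; omega) h2
  have hW2' : (2 : ℝ) ≤ (W : ℝ) := by exact_mod_cast hW2
  have hS1 : 1 ≤ S := by
    rw [hS]
    exact Real.one_le_rpow (by linarith) he.le
  have hSp : 0 < S := by linarith
  have hSY : T ^ (1 + 6 * c) ≤ S * Y := by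
    have h2 : S * Y = T ^ ((1 - 3 * c) * e + (1 - 3 * c)) := by
      rw [hS, hY, ← Real.rpow_mul hTp.le, ← Real.rpow_add hTp]
    rw [h2]
    apply Real.rpow_le_rpow_of_exponent_le hT
    nlinarith
  have hTc : T ^ (1 - c) ≤ S * Y :=
    (Real.rpow_le_rpow_of_exponent_le hT (by linarith)).trans hSY
  have hT1 : T ^ (1 - c) ≤ T := by
    calc T ^ (1 - c) ≤ T ^ (1 : ℝ) := Real.rpow_le_rpow_of_exponent_le hT (by linarith)
      _ = T := Real.rpow_one T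
  have hYT : Y ≤ T := by
    rw [hY]
    calc T ^ (1 - 3 * c) ≤ T ^ (1 : ℝ) := Real.rpow_le_rpow_of_exponent_le hT (by linarith)
      _ = T := Real.rpow_one T
  have hyp : ∀ i, (1 : ℝ) ≤ (y i : ℝ) := fun i => by exact_mod_cast hF.y1 i
  have hyT : ∀ i, (y i : ℝ) ≤ T := fun i => (hF.y2 i).trans hT1
  have hp1 : (p1 : ℝ) ≤ 4 * T := hF.p3
  have hp2 : T < (p1 : ℝ) := hF.p2
  have hl0 : Y ≤ (y 0 : ℝ) := by rw [hY]; exact hF.yl0
  have hl1 : Y ≤ (y 1 : ℝ) := by rw [hY]; exact hF.yl1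
  have hmr : (m : ℝ) = ((W : ℝ) * p1) ^ 3 - y 0 * y 1 * y 2 := by
    have h2 := hF.hm
    have h3 : ((m : ℤ) : ℝ) = ((((W * p1 : ℕ) : ℤ) ^ 3 - y 0 * y 1 * y 2 : ℤ) : ℝ) := by rw [h2]
    push_cast at h3
    exact h3
  have hmT : T ^ 3 ≤ (m : ℝ) := by
    have h2 : (2 * T) ^ 3 ≤ ((W : ℝ) * p1) ^ 3 := by
      apply pow_le_pow_left₀ (by positivity)
      exact mul_le_mul hW2' hp2.le hTp.le (by positivity)
    have h3 : (y 0 : ℝ) * y 1 * y 2 ≤ T * T * T := by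
      have a0 := hyp 0
      have a1 := hyp 1
      have a2 := hyp 2
      apply mul_le_mul (mul_le_mul (hyT 0) (hyT 1) (by linarith) (by linarith)) (hyT 2)
        (by linarith) (by positivity)
    have h4 : T * T * T = T ^ 3 := by ring
    have h5 : (0 : ℝ) < T ^ 3 := by positivity
    rw [hmr]
    nlinarith
  have hDl : Pool.Agent.SLB.DlO ((y 0, y 1), (((W * p1 : ℕ) : ℤ), y 2)) = -(m : ℤ) := by
    show y 0 * y 1 * y 2 - ((W * p1 : ℕ) : ℤ) ^ 3 = -(m : ℤ)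
    rw [hF.hm]
    ring
  refine ⟨⟨⟨?_, ?_, hF.sq0, hF.sq1, hF.co 0 1 (by decide)⟩, hl0, hl1, (hF.y2 0).trans hTc,
    (hF.y2 1).trans hTc⟩, ?_, ?_, ?_, ?_, ?_, ?_, ?_⟩
  · have : (2 : ℝ) ≤ (y 0 : ℝ) := hY2.trans hl0
    exact_mod_cast this
  · have : (2 : ℝ) ≤ (y 1 : ℝ) := hY2.trans hl1
    exact_mod_cast this
  · show ((W * p1 : ℕ) : ℤ) ≠ 0
    have h2 : 0 < W * p1 := Nat.mul_pos hW.one hF.pp.pos
    exact_mod_cast h2.ne'
  · show y 2 ≠ 0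
    have := hF.y1 2
    omega
  · show |((((W * p1 : ℕ) : ℤ) : ℤ) : ℝ)| ≤ S * Y
    have h2 : ((((W * p1 : ℕ) : ℤ) : ℤ) : ℝ) = (W : ℝ) * p1 := by push_cast; ring
    rw [h2, abs_of_nonneg (by positivity)]
    calc (W : ℝ) * p1 ≤ W * (4 * T) := mul_le_mul_of_nonneg_left hp1 (by positivity)
      _ = 4 * (W : ℝ) * T ^ (1 : ℝ) := by rw [Real.rpow_one]; ring
      _ ≤ T ^ (1 + 6 * c) := hWT
      _ ≤ S * Y := hSY
  · show |((y 2 : ℤ) : ℝ)| ≤ S * Y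
    rw [abs_of_nonneg (by linarith [hyp 2])]
    exact (hF.y2 2).trans hTc
  · show IsCoprime (y 2) (y 0 * y 1)
    exact (hF.co 2 0 (by decide)).mul_right (hF.co 2 1 (by decide))
  · rw [hDl]
    push_cast
    rw [abs_neg, abs_of_nonneg (Nat.cast_nonneg m)]
    calc Y ^ 3 / S ≤ Y ^ 3 := div_le_self (by positivity) hS1
      _ ≤ T ^ 3 := pow_le_pow_left₀ hYp.le hYT 3
      _ ≤ (m : ℝ) := hmT
  · refine ⟨![k 2, k 0, k 1], ?_, ?_, ?_⟩
    · intro h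
      apply hk0
      have e0 := congrFun h 0
      have e1 := congrFun h 1
      have e2 := congrFun h 2
      funext i
      fin_cases i
      · exact e1
      · exact e2
      · exact e0
    · have h2 : T ^ (1 - δ) ≤ Y ^ (-(δ / 2)) * Y := by
        have h3 : Y ^ (-(δ / 2)) * Y = T ^ ((1 - 3 * c) * (-(δ / 2)) + (1 - 3 * c)) := by
          rw [hY, ← Real.rpow_mul hTp.le, ← Real.rpow_add hTp]
        rw [h3]
        apply Real.rpow_le_rpow_of_exponent_le hT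
        nlinarith
      intro i
      fin_cases i
      · exact (hk 2).trans h2
      · exact (hk 0).trans h2
      · exact (hk 1).trans h2
    · rw [hDl, neg_dvd]
      have h2 : Pool.Agent.SLB.PhiO ((y 0, y 1), (((W * p1 : ℕ) : ℤ), y 2)) ![k 2, k 0, k 1] =
          Cv ((W * p1 : ℕ) : ℤ) y k := by
        show y 2 * (k 2) ^ 3 + y 0 * (k 0) ^ 3 + y 1 * (k 1) ^ 3 -
          3 * ((W * p1 : ℕ) : ℤ) * (k 2) * (k 0) * (k 1) = _
        unfold Cv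
        ring
      rw [h2]
      exact hm

theorem goo (W : ℕ) (hW : WP W) (δ : ℝ) (h0 : 0 < δ) (h1 : δ ≤ 1 / 10) :
    ∃ c : ℝ, 0 < c ∧ c ≤ δ / 100 ∧ ∃ T0 : ℝ, ∀ T : ℝ, T0 ≤ T → ∃ V : Finset (ℕ × V3),
      (∀ v ∈ V, ∃ m : ℕ, Fam W T c v.1 v.2 m ∧ F5 W T δ v.1 v.2 m) ∧
        T ^ (4 - 10 * c) ≤ (V.card : ℝ) := by
  classical
  obtain ⟨eps, heps, Y0, hY0, hbad⟩ := Pool.Agent.SLB.bad (eta := δ / 2) (by linarith)
    (by linarith)
  obtain ⟨e, he⟩ : ∃ e : ℝ, e = min eps 1 := ⟨_, rfl⟩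
  have he0 : 0 < e := by rw [he]; exact lt_min heps one_pos
  have hee : e ≤ eps := by rw [he]; exact min_le_left _ _
  have he1 : e ≤ 1 := by rw [he]; exact min_le_right _ _
  obtain ⟨c, hcdef⟩ : ∃ c : ℝ, c = min (δ / 100) (e / 10) := ⟨_, rfl⟩
  have hc : 0 < c := by rw [hcdef]; exact lt_min (by linarith) (by linarith)
  have hcd : c ≤ δ / 100 := by rw [hcdef]; exact min_le_left _ _
  have hce : c ≤ e / 10 := by rw [hcdef]; exact min_le_right _ _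
  obtain ⟨T1, hT1⟩ := famn W hW c hc (by linarith)
  obtain ⟨T2, hT21, hT2⟩ := asy Y0 0 (1 - 3 * c) (by linarith)
  obtain ⟨T3, hT31, hT3⟩ := asy (4 * (W : ℝ)) 1 (1 + 6 * c) (by linarith)
  obtain ⟨T4, hT41, hT4⟩ := asy 2 (4 - 12 * c) (4 - 9 * c) (by linarith)
  obtain ⟨T5, hT51, hT5⟩ := asy 2 (4 - 10 * c) (4 - 9 * c) (by linarith)
  refine ⟨c, hc, hcd, max T1 (max T2 (max T3 (max T4 T5))), fun T hT => ?_⟩
  have hTT1 : T1 ≤ T := (le_max_left _ _).trans hT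
  have hT' := (le_max_right _ _).trans hT
  have hTT2 : T2 ≤ T := (le_max_left _ _).trans hT'
  have hT'' := (le_max_right _ _).trans hT'
  have hTT3 : T3 ≤ T := (le_max_left _ _).trans hT''
  have hT''' := (le_max_right _ _).trans hT''
  have hTT4 : T4 ≤ T := (le_max_left _ _).trans hT'''
  have hTT5 : T5 ≤ T := (le_max_right _ _).trans hT'''
  have hT0 : 1 ≤ T := hT21.trans hTT2
  have hTp : 0 < T := by linarith
  obtain ⟨V0, hV0, hcard⟩ := hT1 T hTT1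
  obtain ⟨Y, hY⟩ : ∃ Y : ℝ, Y = T ^ (1 - 3 * c) := ⟨_, rfl⟩
  have hYY : Y0 ≤ Y := by
    have h2 := hT2 T hTT2
    rw [Real.rpow_zero, mul_one] at h2
    rw [hY]
    exact h2
  have hY2 : 2 ≤ Y := hY0.trans hYY
  obtain ⟨S, hS⟩ : ∃ S : ℝ, S = Y ^ e := ⟨_, rfl⟩
  have hS1 : 1 ≤ S := by
    rw [hS]
    exact Real.one_le_rpow (by linarith) he0.le
  have hSe : S ≤ Y ^ eps := by
    rw [hS]
    exact Real.rpow_le_rpow_of_exponent_le (by linarith) hee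
  obtain ⟨hfin, hncard⟩ := hbad Y hYY S hS1 hSe
  obtain ⟨V, hV⟩ : ∃ V : Finset (ℕ × V3), V = V0.filter (fun v => ∃ m : ℕ,
      Fam W T c v.1 v.2 m ∧ F5 W T δ v.1 v.2 m) := ⟨_, rfl⟩
  refine ⟨V, ?_, ?_⟩
  · intro v hv
    rw [hV, Finset.mem_filter] at hv
    exact hv.2
  · obtain ⟨f, hf⟩ : ∃ f : ℕ × V3 → Pool.Agent.SLB.Ob, ∀ v, f v =
        ((v.2 0, v.2 1), (((W * v.1 : ℕ) : ℤ), v.2 2)) := ⟨_, fun _ => rfl⟩
    have hinj : Function.Injective f := by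
      intro v w hvw
      rw [hf, hf] at hvw
      have e1 := congrArg (fun x : Pool.Agent.SLB.Ob => x.1.1) hvw
      have e2 := congrArg (fun x : Pool.Agent.SLB.Ob => x.1.2) hvw
      have e3 := congrArg (fun x : Pool.Agent.SLB.Ob => x.2.1) hvw
      have e4 := congrArg (fun x : Pool.Agent.SLB.Ob => x.2.2) hvw
      simp only at e1 e2 e3 e4
      have e5 : W * v.1 = W * w.1 := by exact_mod_cast e3
      have e6 : v.1 = w.1 := Nat.eq_of_mul_eq_mul_left hW.one e5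
      have e7 : v.2 = w.2 := by
        funext i
        fin_cases i
        · exact e1
        · exact e2
        · exact e4
      exact Prod.ext e6 e7
    have hmem : ∀ v ∈ V0 \ V, f v ∈ Pool.Agent.SLB.Bad Y S (Y ^ (-(δ / 2))) := by
      intro v hv
      rw [Finset.mem_sdiff, hV, Finset.mem_filter] at hv
      obtain ⟨hv0, hv1⟩ := hv
      obtain ⟨m, hm⟩ := hV0 v hv0
      have hnF : ¬ F5 W T δ v.1 v.2 m := fun h => hv1 ⟨hv0, m, hm, h⟩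
      unfold F5 at hnF
      push Not at hnF
      obtain ⟨k, hk0, hk, hkm⟩ := hnF
      rw [hf]
      exact goo_mem hW h0 h1 hc hcd hce hT0 hY hS hY2 (hT3 T hTT3) hm hk0 hk hkm
    have hle : ((V0 \ V).card : ℝ) ≤ Y ^ (4 - δ / 2 / 4) := by
      refine le_trans ?_ hncard
      have h2 : (V0 \ V).card = ((V0 \ V).image f).card :=
        (Finset.card_image_of_injective _ hinj).symm
      rw [h2, ← Set.ncard_coe_finset]
      have h3 : (((V0 \ V).image f : Finset Pool.Agent.SLB.Ob) : Set Pool.Agent.SLB.Ob) ⊆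
          Pool.Agent.SLB.Bad Y S (Y ^ (-(δ / 2))) := by
        intro x hx
        rw [Finset.mem_coe, Finset.mem_image] at hx
        obtain ⟨v, hv, rfl⟩ := hx
        exact hmem v hv
      exact_mod_cast Set.ncard_le_ncard h3 hfin
    have hle2 : Y ^ (4 - δ / 2 / 4) ≤ T ^ (4 - 12 * c) := by
      rw [hY, ← Real.rpow_mul hTp.le]
      apply Real.rpow_le_rpow_of_exponent_le hT0
      nlinarith
    have h4 := hT4 T hTT4
    have h5 := hT5 T hTT5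
    have hVV : V ⊆ V0 := by rw [hV]; exact Finset.filter_subset _ _
    have hsum : ((V0 \ V).card : ℝ) + (V.card : ℝ) = (V0.card : ℝ) := by
      exact_mod_cast Finset.card_sdiff_add_card_eq_card hVV
    linarith

end Pool.Agent.SMP
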