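import Pool.Agent.SMP.Evs

/-!
# SMP/All (size 3): (P15) points divisible by a large prime

PROOF.  Let `g ∈ Q` with the prime `l`.  `l ∤ m` (`g 0` is prime to `m`), `g / l ∈ Lam m e` is not 0 (`G ≥ 1` unless `Z0 ⊆ {0}`: if
`G = 0` then `g = 0`, and `l ∣ g 0 = 0`, `m = 1`...; assume `hG : 1 ≤ G`), so by `shv'` `l r ^ 2 / 3 ≤ |g i| ≤ 2 G` for some `i`:
`l ≤ 6 G / r ^ 2`.  Union bound over the primes `L0 < l ≤ 6 G / r ^ 2` with `ev4`: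
`∑_l 162 G ^ 3 / (W ^ 3 m ^ 2 l ^ 3) ≤ (162 G ^ 3 / m ^ 2) ∑_{n > L0} 1 / n ^ 3 ≤ 162 G ^ 3 / (m ^ 2 L0 ^ 2)` (`1 / n ^ 3 ≤ (1 / L0) (1 / n ^ 2)`,
`∑_{n > L0} 1 / n ^ 2 ≤ 1 / L0`), and `(12 G / (W l r ^ 2) + 1) ^ 2 ≤ (12 G / (L0 r ^ 2) + 1) ^ 2` for at most `6 G / r ^ 2` primes.
-/

set_option autoImplicit false

namespace Pool.Agent.SMP

open Pool.Agent.SLB (V3 det3)

private theorem lem_long {W p1 m r : ℕ} {y e : V3} (h : Ps W p1 m r y e) (g0 : V3) (G : ℕ)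
    (hG : 1 ≤ G) (g : V3) (hg : g ∈ Z0 W m e g0 G) (hc : IsCoprime (g 0) (m : ℤ)) (l : ℕ)
    (hl : l.Prime) (hd : ∀ i, (l : ℤ) ∣ g i) : (l : ℝ) ≤ 6 * (G : ℝ) / (r : ℝ) ^ 2 := by
  have hlm : ¬ (l : ℤ) ∣ (m : ℤ) := by
    intro hdm
    have h1 : IsUnit (l : ℤ) := hc.isUnit_of_dvd' (hd 0) hdm
    have h2 := Int.isUnit_iff.1 h1
    have h3 := hl.two_le
    omega
  have hpl : Prime (l : ℤ) := Nat.prime_iff_prime_int.1 hl
  have hcop : IsCoprime (m : ℤ) (l : ℤ) := by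
    rcases (Prime.coprime_iff_not_dvd hpl).2 hlm with ⟨a, b, hab⟩
    exact ⟨b, a, by linarith⟩
  rw [mem_Z0] at hg
  obtain ⟨hbox, hlam, _⟩ := hg
  choose x hx using hd
  have hxl : x ∈ Lam m e := by
    rw [mem_Lam] at hlam ⊢
    intro a b
    have h1 := hlam a b
    rw [hx a, hx b] at h1
    have e1 : (l : ℤ) * x a * e b - (l : ℤ) * x b * e a = (l : ℤ) * (x a * e b - x b * e a) := by
      ring
    rw [e1] at h1
    exact hcop.dvd_of_dvd_mul_left h1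
  have hx0 : x ≠ 0 := by
    intro h0
    have h1 := (hbox 0).1
    rw [hx 0, h0] at h1
    simp only [Pi.zero_apply, mul_zero] at h1
    have : (1 : ℤ) ≤ (G : ℤ) := by exact_mod_cast hG
    omega
  obtain ⟨i, hi⟩ := shv' h.lat x hxl hx0
  have hr : (0 : ℝ) < (r : ℝ) ^ 2 := by
    have : (1 : ℝ) ≤ (r : ℝ) := by exact_mod_cast h.lat.hr
    positivity
  have hl0 : (0 : ℝ) < (l : ℝ) := by exact_mod_cast hl.pos
  have hgi : |(g i : ℝ)| = (l : ℝ) * |(x i : ℝ)| := by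
    rw [hx i]
    push_cast
    rw [abs_mul, abs_of_pos hl0]
  have hg2 : |(g i : ℝ)| ≤ 2 * (G : ℝ) := by
    have h1 := hbox i
    have h2 : (0 : ℤ) ≤ g i := le_trans (by positivity) h1.1
    have h3 : (0 : ℝ) ≤ (g i : ℝ) := by exact_mod_cast h2
    rw [abs_of_nonneg h3]
    exact_mod_cast h1.2
  rw [le_div_iff₀ hr]
  have h4 : (l : ℝ) * ((r : ℝ) ^ 2 / 3) ≤ (l : ℝ) * |(x i : ℝ)| :=
    mul_le_mul_of_nonneg_left hi hl0.le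
  rw [← hgi] at h4
  linarith

private theorem lem_sum (L0 N : ℕ) (hL : 1 ≤ L0) (S : Finset ℕ)
    (hS : ∀ l ∈ S, L0 < l ∧ l ≤ N) :
    ∑ l ∈ S, 1 / (l : ℝ) ^ 3 ≤ 1 / (L0 : ℝ) ^ 2 := by
  have hL0 : (0 : ℝ) < (L0 : ℝ) := by exact_mod_cast hL
  have h1 : ∑ l ∈ S, 1 / (l : ℝ) ^ 3 ≤ ∑ l ∈ Finset.Ioc L0 (max L0 N), 1 / (L0 : ℝ) * ((l : ℝ) ^ 2)⁻¹ := by
    calc ∑ l ∈ S, 1 / (l : ℝ) ^ 3 ≤ ∑ l ∈ S, 1 / (L0 : ℝ) * ((l : ℝ) ^ 2)⁻¹ := by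
          apply Finset.sum_le_sum
          intro l hl
          have h2 : (L0 : ℝ) ≤ (l : ℝ) := by exact_mod_cast (hS l hl).1.le
          have h3 : (0 : ℝ) < (l : ℝ) := lt_of_lt_of_le hL0 h2
          have e1 : 1 / (l : ℝ) ^ 3 = 1 / (l : ℝ) * ((l : ℝ) ^ 2)⁻¹ := by
            field_simp
          rw [e1]
          apply mul_le_mul_of_nonneg_right _ (by positivity)
          exact one_div_le_one_div_of_le hL0 h2
      _ ≤ _ := by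
          apply Finset.sum_le_sum_of_subset_of_nonneg
          · intro l hl
            rw [Finset.mem_Ioc]
            exact ⟨(hS l hl).1, le_trans (hS l hl).2 (le_max_right _ _)⟩
          · intro l _ _
            positivity
  have h2 : ∑ l ∈ Finset.Ioc L0 (max L0 N), ((l : ℝ) ^ 2)⁻¹ ≤ (L0 : ℝ)⁻¹ - ((max L0 N : ℕ) : ℝ)⁻¹ :=
    sum_Ioc_inv_sq_le_sub (by omega) (le_max_left _ _)
  have h3 : (0 : ℝ) ≤ ((max L0 N : ℕ) : ℝ)⁻¹ := by positivity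
  rw [← Finset.mul_sum] at h1
  calc ∑ l ∈ S, 1 / (l : ℝ) ^ 3 ≤ 1 / (L0 : ℝ) * ∑ l ∈ Finset.Ioc L0 (max L0 N), ((l : ℝ) ^ 2)⁻¹ := h1
    _ ≤ 1 / (L0 : ℝ) * (L0 : ℝ)⁻¹ := by
        apply mul_le_mul_of_nonneg_left _ (by positivity)
        linarith
    _ = 1 / (L0 : ℝ) ^ 2 := by
        field_simp

theorem all3 {W p1 m r : ℕ} {y e : V3} (h : Ps W p1 m r y e) (g0 : V3) (G L0 : ℕ) (hG : 1 ≤ G)
    (hL0 : 10 ^ 6 ≤ L0) (Q : Finset V3)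
    (hQ : ∀ g ∈ Q, g ∈ Z0 W m e g0 G ∧ IsCoprime (g 0) (m : ℤ) ∧
      ∃ l : ℕ, l.Prime ∧ L0 < l ∧ ∀ i, (l : ℤ) ∣ g i) :
    (Q.card : ℝ) ≤ 162 * (G : ℝ) ^ 3 / ((m : ℝ) ^ 2 * (L0 : ℝ) ^ 2) +
      6 * (G : ℝ) / (r : ℝ) ^ 2 * (12 * (G : ℝ) / (L0 * (r : ℝ) ^ 2) + 1) ^ 2 := by
  classical
  set N : ℕ := ⌊6 * (G : ℝ) / (r : ℝ) ^ 2⌋₊ with hN
  set S : Finset ℕ := (Finset.Ioc L0 N).filter Nat.Prime with hS
  have hB0 : (0 : ℝ) ≤ 6 * (G : ℝ) / (r : ℝ) ^ 2 := by positivity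
  have hW1 : (1 : ℝ) ≤ (W : ℝ) := by exact_mod_cast h.hW.one
  have hm1 : (1 : ℝ) ≤ (m : ℝ) := by exact_mod_cast h.lat.hm
  have hr1 : (1 : ℝ) ≤ (r : ℝ) := by exact_mod_cast h.lat.hr
  have hL1 : (1 : ℝ) ≤ (L0 : ℝ) := by exact_mod_cast (le_trans (by norm_num) hL0)
  have hG1 : (1 : ℝ) ≤ (G : ℝ) := by exact_mod_cast hG
  have hsub : Q ⊆ S.biUnion (fun l => Q.filter (fun g => ∀ i, (l : ℤ) ∣ g i)) := by
    intro g hg
    obtain ⟨h1, h2, l, hl, hlL, hd⟩ := hQ g hg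
    rw [Finset.mem_biUnion]
    refine ⟨l, ?_, ?_⟩
    · rw [hS, Finset.mem_filter, Finset.mem_Ioc]
      refine ⟨⟨hlL, ?_⟩, hl⟩
      rw [hN]
      exact Nat.le_floor (lem_long h g0 G hG g h1 h2 l hl hd)
    · rw [Finset.mem_filter]
      exact ⟨hg, hd⟩
  have hc1 : (Q.card : ℝ) ≤ ∑ l ∈ S, ((Q.filter (fun g => ∀ i, (l : ℤ) ∣ g i)).card : ℝ) := by
    have h1 : Q.card ≤ ∑ l ∈ S, (Q.filter (fun g => ∀ i, (l : ℤ) ∣ g i)).card :=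
      le_trans (Finset.card_le_card hsub) Finset.card_biUnion_le
    exact_mod_cast h1
  have hterm : ∀ l ∈ S, ((Q.filter (fun g => ∀ i, (l : ℤ) ∣ g i)).card : ℝ) ≤
      162 * (G : ℝ) ^ 3 / (m : ℝ) ^ 2 * (1 / (l : ℝ) ^ 3) +
        (12 * (G : ℝ) / (L0 * (r : ℝ) ^ 2) + 1) ^ 2 := by
    intro l hl
    rw [hS, Finset.mem_filter, Finset.mem_Ioc] at hl
    obtain ⟨⟨hlL, _⟩, hlp⟩ := hl
    have h1 := ev4 h g0 G l hlp (lt_of_le_of_lt hL0 hlL) (Q.filter (fun g => ∀ i, (l : ℤ) ∣ g i))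
      (by
        intro g hg
        rw [Finset.mem_filter] at hg
        exact ⟨(hQ g hg.1).1, (hQ g hg.1).2.1, hg.2⟩)
    have hlL' : (L0 : ℝ) ≤ (l : ℝ) := by exact_mod_cast hlL.le
    have hl0 : (0 : ℝ) < (l : ℝ) := by linarith
    refine le_trans h1 (add_le_add ?_ ?_)
    · apply mul_le_mul_of_nonneg_right _ (by positivity)
      apply div_le_div_of_nonneg_left (by positivity) (by positivity)
      have h2 : (1 : ℝ) ≤ (W : ℝ) ^ 3 := one_le_pow₀ hW1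
      have h3 : (0 : ℝ) ≤ (m : ℝ) ^ 2 := by positivity
      nlinarith
    · apply pow_le_pow_left₀ (by positivity)
      apply add_le_add _ le_rfl
      apply div_le_div_of_nonneg_left (by positivity) (by positivity)
      have h2 : (L0 : ℝ) * (r : ℝ) ^ 2 ≤ (l : ℝ) * (r : ℝ) ^ 2 :=
        mul_le_mul_of_nonneg_right hlL' (by positivity)
      have h3 : (0 : ℝ) ≤ (l : ℝ) * (r : ℝ) ^ 2 := by positivity
      nlinarith
  have hNr : (N : ℝ) ≤ 6 * (G : ℝ) / (r : ℝ) ^ 2 := by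
    rw [hN]
    exact Nat.floor_le hB0
  have hSN : (S.card : ℝ) ≤ 6 * (G : ℝ) / (r : ℝ) ^ 2 := by
    have h1 : S.card ≤ N := by
      calc S.card ≤ (Finset.Ioc L0 N).card := by
            rw [hS]
            exact Finset.card_filter_le _ _
        _ = N - L0 := Nat.card_Ioc _ _
        _ ≤ N := Nat.sub_le _ _
    have h2 : (S.card : ℝ) ≤ (N : ℝ) := by exact_mod_cast h1
    linarith
  have hs3 : ∑ l ∈ S, 1 / (l : ℝ) ^ 3 ≤ 1 / (L0 : ℝ) ^ 2 := by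
    apply lem_sum L0 N (le_trans (by norm_num) hL0) S
    intro l hl
    rw [hS, Finset.mem_filter, Finset.mem_Ioc] at hl
    exact hl.1
  calc (Q.card : ℝ) ≤ ∑ l ∈ S, ((Q.filter (fun g => ∀ i, (l : ℤ) ∣ g i)).card : ℝ) := hc1
    _ ≤ ∑ l ∈ S, (162 * (G : ℝ) ^ 3 / (m : ℝ) ^ 2 * (1 / (l : ℝ) ^ 3) +
        (12 * (G : ℝ) / (L0 * (r : ℝ) ^ 2) + 1) ^ 2) := Finset.sum_le_sum hterm
    _ = 162 * (G : ℝ) ^ 3 / (m : ℝ) ^ 2 * ∑ l ∈ S, (1 / (l : ℝ) ^ 3) +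
        S.card * (12 * (G : ℝ) / (L0 * (r : ℝ) ^ 2) + 1) ^ 2 := by
        rw [Finset.sum_add_distrib, ← Finset.mul_sum, Finset.sum_const, nsmul_eq_mul]
    _ ≤ 162 * (G : ℝ) ^ 3 / (m : ℝ) ^ 2 * (1 / (L0 : ℝ) ^ 2) +
        6 * (G : ℝ) / (r : ℝ) ^ 2 * (12 * (G : ℝ) / (L0 * (r : ℝ) ^ 2) + 1) ^ 2 := by
        apply add_le_add
        · apply mul_le_mul_of_nonneg_left hs3 (by positivity)
        · apply mul_le_mul_of_nonneg_right hSN (by positivity)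
    _ = _ := by
        congr 1
        field_simp

end Pool.Agent.SMP
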