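import Pool.Agent.SMP.SetP

/-!
# SMP/Cla (size 3): (P12) the point outside the bad events

Here `p = W p1`, `N i = Nn p m y g i`, `m N i = p g_i² - y_i g_{i+1} g_{i+2}` (`dvdL`, `Int.ediv_mul_cancel`).
PROOF of `cla`.  All coprimality statements are proved by excluding a common prime `l` (a natural number:
`Int.isCoprime_iff_gcd_eq_one`, `Nat.Coprime`, `Nat.coprime_of_dvd`-like; helper lemma `copr`).
`g i` is prime to `W`: `g i ≡ g0 i`.  `m` is prime to `W p y_i` (`psW`).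
`c0`: `E1`.  `cg`: `l ∣ g i`, `l ∣ p y_i`: `l ∣ W` no; `l = p1` against `E2'`; `l ∣ y_i` against `E2`.
`cW`: `l ∣ W`, `l ∣ N i`: `l ∣ m N i = p g_i² - y_i g_{i+1} g_{i+2}`, `l ∣ p`, so `l ∣ y_i g_{i+1} g_{i+2}`, all prime to `W`.
`cN`: `l ∣ N i`, `l ∣ y i`: `l ∣ p g_i²`, `l ∤ p`, so `l ∣ g i`: against `E2`.
`cc` (`i ≠ j`, `k` the third index; the pairs are `(k + 1, k + 2)` and `(k + 2, k + 1)`): `l ∣ N i`, `l ∣ N j`.  `l ∤ W` (`cW`), `l ∤ y_i y_j` (`cN`),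
`l ≠ p1`: otherwise `l ∣ y_i g_{i+1} g_{i+2}`, against `cp` and `E2'`.  If `l ∣ g i`: from `N j` (its product contains `g i`)
`l ∣ p g_j²`, `l ∣ g j`; if `l ∤ m` this is `E4` for `k`; if `l ∣ m` then `l ∣ g 0` (`g i e 0 ≡ g 0 e i` modulo `l`, `e i` prime to `m`):
against `E1`.  `l ∣ g j`: the same.  If `l ∣ g k`: `l ∣ p g_i²`, so `l ∣ g i`.  Otherwise `E3` for `k`.
-/

set_option autoImplicit false

namespace Pool.Agent.SMP

open Pool.Agent.SLB (V3 det3)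

/-- two integers without a common prime divisor are coprime -/
theorem copr {a b : ℤ} (h : ∀ l : ℕ, l.Prime → (l : ℤ) ∣ a → ¬ (l : ℤ) ∣ b) : IsCoprime a b := by
  rw [Int.isCoprime_iff_gcd_eq_one]
  by_contra hne
  obtain ⟨l, hl, hd⟩ := Nat.exists_prime_and_dvd hne
  have hd' : (l : ℤ) ∣ (Int.gcd a b : ℤ) := Int.natCast_dvd_natCast.mpr hd
  exact h l hl (dvd_trans hd' (Int.gcd_dvd_left ..)) (dvd_trans hd' (Int.gcd_dvd_right ..))

private theorem Cla_n {a b : ℤ} (h : IsCoprime a b) {l : ℕ} (hl : l.Prime) (ha : (l : ℤ) ∣ a)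
    (hb : (l : ℤ) ∣ b) : False :=
  (Nat.prime_iff_prime_int.mp hl).not_isUnit (h.isUnit_of_dvd' ha hb)

theorem cla {W p1 m r : ℕ} {y e : V3} (h : Ps W p1 m r y e) {g0 g : V3}
    (hg0 : ∀ i, IsCoprime (g0 i) (W : ℤ)) (hg : g ∈ Lam m e) (hgW : ∀ i, (W : ℤ) ∣ g i - g0 i)
    (E1 : ∀ l : ℕ, l.Prime → l ∣ m → ¬ (l : ℤ) ∣ g 0)
    (E2 : ∀ (l : ℕ) (i : Fin 3), l.Prime → (l : ℤ) ∣ y i → ¬ (l : ℤ) ∣ g i)
    (E2' : ∀ i, ¬ (p1 : ℤ) ∣ g i)
    (E4 : ∀ (l : ℕ) (k : Fin 3), l.Prime → 10 ^ 6 < l → ¬ l ∣ m →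
      ¬ ((l : ℤ) ∣ g (k + 1) ∧ (l : ℤ) ∣ g (k + 2)))
    (E3 : ∀ (l : ℕ) (k : Fin 3), l.Prime → 10 ^ 6 < l → l ≠ p1 → ¬ (l : ℤ) ∣ y (k + 1) →
      ¬ (l : ℤ) ∣ y (k + 2) → (∀ i, ¬ (l : ℤ) ∣ g i) →
      ¬ ((l : ℤ) ∣ Nn ((W * p1 : ℕ) : ℤ) m y g (k + 1) ∧
        (l : ℤ) ∣ Nn ((W * p1 : ℕ) : ℤ) m y g (k + 2))) :
    Pg W p1 m y g := by
  have hd : ∀ i : Fin 3, (m : ℤ) ∣ ((W * p1 : ℕ) : ℤ) * g i ^ 2 - y i * (g (i + 1) * g (i + 2)) :=
    fun i => dvdL m _ y e g (h.lat.co 0) h.ee hg i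
  have hN : ∀ i : Fin 3, (m : ℤ) * Nn ((W * p1 : ℕ) : ℤ) m y g i =
      ((W * p1 : ℕ) : ℤ) * g i ^ 2 - y i * (g (i + 1) * g (i + 2)) := fun i => by
    unfold Nn
    exact Int.mul_ediv_cancel' (hd i)
  have hWP : (W : ℤ) ∣ ((W * p1 : ℕ) : ℤ) := by
    push_cast
    exact dvd_mul_right _ _
  have hgcW : ∀ i, ∀ l : ℕ, l.Prime → (l : ℤ) ∣ (W : ℤ) → ¬ (l : ℤ) ∣ g i := by
    intro i l hl hlW hlg
    have h1 : (l : ℤ) ∣ g i - g0 i := dvd_trans hlW (hgW i)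
    have h2 : (l : ℤ) ∣ g0 i := by
      have := dvd_sub hlg h1
      rwa [sub_sub_cancel] at this
    exact Cla_n (hg0 i) hl h2 hlW
  -- the primes dividing `p`
  have hP : ∀ l : ℕ, l.Prime → (l : ℤ) ∣ ((W * p1 : ℕ) : ℤ) → (l : ℤ) ∣ (W : ℤ) ∨ l = p1 := by
    intro l hl hlP
    rw [Int.natCast_dvd_natCast, hl.dvd_mul] at hlP
    rcases hlP with h1 | h1
    · exact Or.inl (Int.natCast_dvd_natCast.mpr h1)
    · exact Or.inr ((Nat.prime_dvd_prime_iff_eq hl h.pp).mp h1)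
  have hprime : ∀ l : ℕ, l.Prime → Prime (l : ℤ) := fun l hl => Nat.prime_iff_prime_int.mp hl
  have hcW : ∀ i, ∀ l : ℕ, l.Prime → (l : ℤ) ∣ Nn ((W * p1 : ℕ) : ℤ) m y g i → ¬ (l : ℤ) ∣ (W : ℤ) := by
    intro i l hl h1 h2
    have h3 : (l : ℤ) ∣ ((W * p1 : ℕ) : ℤ) * g i ^ 2 := Dvd.dvd.mul_right (dvd_trans h2 hWP) _
    have h4 : (l : ℤ) ∣ (m : ℤ) * Nn ((W * p1 : ℕ) : ℤ) m y g i := Dvd.dvd.mul_left h1 _
    rw [hN i] at h4
    have h5 : (l : ℤ) ∣ y i * (g (i + 1) * g (i + 2)) := by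
      have := dvd_sub h3 h4
      rwa [sub_sub_cancel] at this
    rcases (hprime l hl).dvd_or_dvd h5 with h6 | h6
    · exact Cla_n (h.cp i) hl h6 (dvd_trans h2 hWP)
    · rcases (hprime l hl).dvd_or_dvd h6 with h7 | h7
      · exact hgcW _ l hl h2 h7
      · exact hgcW _ l hl h2 h7
  have hcN : ∀ i, ∀ l : ℕ, l.Prime → (l : ℤ) ∣ Nn ((W * p1 : ℕ) : ℤ) m y g i → ¬ (l : ℤ) ∣ y i := by
    intro i l hl h1 h2
    have h4 : (l : ℤ) ∣ (m : ℤ) * Nn ((W * p1 : ℕ) : ℤ) m y g i := Dvd.dvd.mul_left h1 _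
    rw [hN i] at h4
    have h5 : (l : ℤ) ∣ ((W * p1 : ℕ) : ℤ) * g i ^ 2 := by
      have := dvd_add h4 (Dvd.dvd.mul_right h2 (g (i + 1) * g (i + 2)))
      rwa [sub_add_cancel] at this
    rcases (hprime l hl).dvd_or_dvd h5 with h6 | h6
    · exact Cla_n (h.cp i) hl h2 h6
    · exact E2 l i hl h2 ((hprime l hl).dvd_of_dvd_pow h6)
  have core : ∀ k : Fin 3, IsCoprime (Nn ((W * p1 : ℕ) : ℤ) m y g (k + 1))
      (Nn ((W * p1 : ℕ) : ℤ) m y g (k + 2)) := by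
    intro k
    refine copr fun l hl h1 h2 => ?_
    have i1 : k + 1 + 1 = k + 2 := by fin_cases k <;> rfl
    have i2 : k + 1 + 2 = k := by fin_cases k <;> rfl
    have i3 : k + 2 + 1 = k := by fin_cases k <;> rfl
    have i4 : k + 2 + 2 = k + 1 := by fin_cases k <;> rfl
    have A1 : (l : ℤ) ∣ ((W * p1 : ℕ) : ℤ) * g (k + 1) ^ 2 - y (k + 1) * (g (k + 2) * g k) := by
      have := hN (k + 1)
      rw [i1, i2] at this
      rw [← this]
      exact Dvd.dvd.mul_left h1 _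
    have A2 : (l : ℤ) ∣ ((W * p1 : ℕ) : ℤ) * g (k + 2) ^ 2 - y (k + 2) * (g k * g (k + 1)) := by
      have := hN (k + 2)
      rw [i3, i4] at this
      rw [← this]
      exact Dvd.dvd.mul_left h2 _
    have hlW := hcW (k + 1) l hl h1
    have h6 : 10 ^ 6 < l := by
      by_contra hcon
      apply hlW
      exact Int.natCast_dvd_natCast.mpr ((h.hW.dv l hl).mpr (not_lt.mp hcon))
    have hy1 := hcN (k + 1) l hl h1
    have hy2 := hcN (k + 2) l hl h2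
    have hp1 : l ≠ p1 := by
      intro hlp
      have h3 : (l : ℤ) ∣ ((W * p1 : ℕ) : ℤ) := by
        rw [hlp]
        push_cast
        exact dvd_mul_left _ _
      have h5 : (l : ℤ) ∣ y (k + 1) * (g (k + 2) * g k) := by
        have := dvd_sub (Dvd.dvd.mul_right h3 (g (k + 1) ^ 2)) A1
        rwa [sub_sub_cancel] at this
      rcases (hprime l hl).dvd_or_dvd h5 with h7 | h7
      · exact hy1 h7
      · rcases (hprime l hl).dvd_or_dvd h7 with h8 | h8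
        · exact E2' _ (hlp ▸ h8)
        · exact E2' _ (hlp ▸ h8)
    have hlP : ¬ (l : ℤ) ∣ ((W * p1 : ℕ) : ℤ) := by
      intro h3
      rcases hP l hl h3 with h4 | h4
      · exact hlW h4
      · exact hp1 h4
    -- if one of the products is divisible by `l`, so is the square
    have s1 : (l : ℤ) ∣ g (k + 2) * g k → (l : ℤ) ∣ g (k + 1) := by
      intro h3
      have h4 : (l : ℤ) ∣ ((W * p1 : ℕ) : ℤ) * g (k + 1) ^ 2 := by
        have := dvd_add A1 (Dvd.dvd.mul_left h3 (y (k + 1)))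
        rwa [sub_add_cancel] at this
      rcases (hprime l hl).dvd_or_dvd h4 with h5 | h5
      · exact absurd h5 hlP
      · exact (hprime l hl).dvd_of_dvd_pow h5
    have s2 : (l : ℤ) ∣ g k * g (k + 1) → (l : ℤ) ∣ g (k + 2) := by
      intro h3
      have h4 : (l : ℤ) ∣ ((W * p1 : ℕ) : ℤ) * g (k + 2) ^ 2 := by
        have := dvd_add A2 (Dvd.dvd.mul_left h3 (y (k + 2)))
        rwa [sub_add_cancel] at this
      rcases (hprime l hl).dvd_or_dvd h4 with h5 | h5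
      · exact absurd h5 hlP
      · exact (hprime l hl).dvd_of_dvd_pow h5
    by_cases hall : ∀ i, ¬ (l : ℤ) ∣ g i
    · exact E3 l k hl h6 hp1 hy1 hy2 hall ⟨h1, h2⟩
    · push Not at hall
      obtain ⟨n, hn⟩ := hall
      have hn3 : n = k ∨ n = k + 1 ∨ n = k + 2 := by
        fin_cases k <;> fin_cases n <;> simp
      have hboth : (l : ℤ) ∣ g (k + 1) ∧ (l : ℤ) ∣ g (k + 2) := by
        rcases hn3 with h3 | h3 | h3
        · rw [h3] at hn
          have h4 := s1 (Dvd.dvd.mul_left hn _)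
          exact ⟨h4, s2 (Dvd.dvd.mul_right hn _)⟩
        · rw [h3] at hn
          exact ⟨hn, s2 (Dvd.dvd.mul_left hn _)⟩
        · rw [h3] at hn
          exact ⟨s1 (Dvd.dvd.mul_right hn _), hn⟩
      by_cases hlm : l ∣ m
      · have h3 := (mem_Lam m e g).mp hg (k + 1) 0
        have hlm' : (l : ℤ) ∣ (m : ℤ) := Int.natCast_dvd_natCast.mpr hlm
        have h4 : (l : ℤ) ∣ g (k + 1) * e 0 - g 0 * e (k + 1) := dvd_trans hlm' h3
        have h5 : (l : ℤ) ∣ g 0 * e (k + 1) := by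
          have := dvd_sub (Dvd.dvd.mul_right hboth.1 (e 0)) h4
          rwa [sub_sub_cancel] at this
        rcases (hprime l hl).dvd_or_dvd h5 with h7 | h7
        · exact E1 l hl hlm h7
        · exact Cla_n (h.lat.co (k + 1)) hl h7 hlm'
      · exact E4 l k hl h6 hlm hboth
  refine ⟨hd, ?_, ?_, ?_, ?_, ?_⟩
  · exact copr fun l hl h1 h2 => E1 l hl (Int.natCast_dvd_natCast.mp h2) h1
  · intro i
    refine copr fun l hl h1 h2 => ?_
    rcases (hprime l hl).dvd_or_dvd h2 with h3 | h3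
    · rcases hP l hl h3 with h4 | h4
      · exact hgcW i l hl h4 h1
      · exact E2' i (h4 ▸ h1)
    · exact E2 l i hl h3 h1
  · intro i
    exact copr fun l hl h1 h2 => hcN i l hl h1 h2
  · intro i j hij
    have c0 := core 0
    have c1 := core 1
    have c2 := core 2
    have e1 : (0 : Fin 3) + 1 = 1 := rfl
    have e2 : (0 : Fin 3) + 2 = 2 := rfl
    have e3 : (1 : Fin 3) + 1 = 2 := rfl
    have e4 : (1 : Fin 3) + 2 = 0 := rfl
    have e5 : (2 : Fin 3) + 1 = 0 := rfl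
    have e6 : (2 : Fin 3) + 2 = 1 := rfl
    rw [e1, e2] at c0
    rw [e3, e4] at c1
    rw [e5, e6] at c2
    fin_cases i <;> fin_cases j
    · exact absurd rfl hij
    · exact c2
    · exact c1.symm
    · exact c2.symm
    · exact absurd rfl hij
    · exact c0
    · exact c1
    · exact c0.symm
    · exact absurd rfl hij
  · intro i
    exact copr fun l hl h1 h2 => hcW i l hl h1 h2

end Pool.Agent.SMP
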