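import Pool.Agent.SMP.SetP
import Pool.Agent.SLB.Desc

/-!
# SMP/Alg (size 4): (P17) the integer `E_k`

Let `i = k + 1`, `j = k + 2`, `p = W p1`, `NF = y_i² y_j κ_i³ + y_i y_j² κ_j³ + p³ κ_k³ - 3 p y_i y_j κ_0 κ_1 κ_2`.
`NF = y_i y_j Cv(κ) + m κ_k³` (`m = p³ - y_0 y_1 y_2`, `ring`) `= m E_k` (`m ∣ Cv(κ)` by `Ps.cv`).
PROOF of `alg`.  Put `A1 = p g_i² - y_i g_j g_k = m N_i`, `A2 = p g_j² - y_j g_k g_i = m N_j` (`dvdL`), both divisible by `l m`.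
If `l ∣ g_k`: `l ∣ p g_i²`, `l ∣ p g_j²`, `l ∤ p` (`l > 10 ^ 6`, `l ≠ p1`), so `l` divides all: excluded.  If `l ∣ g_i` then `l ∣ p g_j²` (`A2`), and
if `l ∣ g_j` then `l ∣ g_i` (`A1`); in both cases `l ∣ κ_k g_k` (`κ_i g_i + κ_j g_j + κ_k g_k = 0`), so `l ∣ κ_k`.
Otherwise no `g_n` is divisible by `l`, and all are prime to `m` (`g 0` is).  Identity modulo `A1, A2`:
`g_i² g_j² g_k³ NF ≡ p³ g_i² g_j² ((g_i κ_i)³ + (g_j κ_j)³ + (g_k κ_k)³ - 3 g_i g_j g_k κ_i κ_j κ_k)`, using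
`(y_i g_j g_k)² (y_j g_k g_i) ≡ p³ g_i⁴ g_j²` etc. (write `y_i g_j g_k = p g_i² - A1`, `y_j g_k g_i = p g_j² - A2` and expand; `ring` checks
an explicit combination), and the bracket is divisible by `g_i κ_i + g_j κ_j + g_k κ_k = 0`.  So `l m ∣ g_i² g_j² g_k³ m E_k`; cancel
`m` and the units modulo `l`: `l ∣ E_k`.
PROOF of `nfz`.  `m E_k = NF = Nm y_i y_j (p κ_k) κ_i κ_j` (`Pool.Agent.SLB.Nm`).  One of the two numbers `y_i, y_j` has index 0 or 1, so is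
squarefree and `≥ 2`; let `q` be a prime divisor of it, say of `y_i = q t`, `q ∤ t`, `q ∤ y_j` (coprime).
`Pool.Agent.SLB.descent` with all exponents: if `NF = 0` then all powers of `q` divide `p κ_k, κ_i, κ_j`, so they are 0 and
`κ = 0`.  (If it is `y_j`: `Nm y_i y_j al u w = Nm y_j y_i al w u`, `ring`.)
-/

set_option autoImplicit false

namespace Pool.Agent.SMP

open Pool.Agent.SLB (V3 det3)

private theorem algCore {l P yi yj a b c u v w E m : ℤ} (hl : Prime l) (hm : m ≠ 0)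
    (hP : ¬ l ∣ P) (h1 : l * m ∣ P * a ^ 2 - yi * (b * c)) (h2 : l * m ∣ P * b ^ 2 - yj * (c * a))
    (hs : a * u + b * v + c * w = 0)
    (hE : m * E = yi ^ 2 * yj * u ^ 3 + yi * yj ^ 2 * v ^ 3 + P ^ 3 * w ^ 3 -
      3 * P * yi * yj * u * v * w)
    (h3 : ¬ (l ∣ a ∧ l ∣ b ∧ l ∣ c)) : l ∣ w * E := by
  have hl1 : l ∣ P * a ^ 2 - yi * (b * c) := (Dvd.intro _ rfl).trans h1
  have hl2 : l ∣ P * b ^ 2 - yj * (c * a) := (Dvd.intro _ rfl).trans h2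
  have keya : l ∣ yi * (b * c) → l ∣ a := by
    intro h
    have h4 : l ∣ P * a ^ 2 := by
      have := dvd_add hl1 h
      simpa using this
    rcases hl.dvd_or_dvd h4 with h5 | h5
    · exact absurd h5 hP
    · exact hl.dvd_of_dvd_pow h5
  have keyb : l ∣ yj * (c * a) → l ∣ b := by
    intro h
    have h4 : l ∣ P * b ^ 2 := by
      have := dvd_add hl2 h
      simpa using this
    rcases hl.dvd_or_dvd h4 with h5 | h5
    · exact absurd h5 hP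
    · exact hl.dvd_of_dvd_pow h5
  have hnc : ¬ l ∣ c := by
    intro hc
    refine h3 ⟨keya ?_, keyb ?_, hc⟩
    · exact (hc.mul_left b).mul_left yi
    · exact (hc.mul_right a).mul_left yj
  by_cases hab : l ∣ a ∨ l ∣ b
  · have hboth : l ∣ a ∧ l ∣ b := by
      rcases hab with ha | hb
      · exact ⟨ha, keyb ((ha.mul_left c).mul_left yj)⟩
      · exact ⟨keya ((hb.mul_right c).mul_left yi), hb⟩
    have h4 : l ∣ c * w := by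
      have e1 : c * w = -(a * u + b * v) := by linarith
      rw [e1]
      exact (dvd_neg (a := l)).2 (dvd_add (hboth.1.mul_right u) (hboth.2.mul_right v))
    rcases hl.dvd_or_dvd h4 with h5 | h5
    · exact absurd h5 hnc
    · exact h5.mul_right E
  · rw [not_or] at hab
    obtain ⟨A1, hA1⟩ := h1
    obtain ⟨A2, hA2⟩ := h2
    have e1 : yi * (b * c) = P * a ^ 2 - l * m * A1 := by linarith
    have e2 : yj * (c * a) = P * b ^ 2 - l * m * A2 := by linarith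
    have e3 : a ^ 2 * b ^ 2 * c ^ 3 * (m * E) =
        a * (yi * (b * c)) ^ 2 * (yj * (c * a)) * u ^ 3 +
        b * (yi * (b * c)) * (yj * (c * a)) ^ 2 * v ^ 3 + P ^ 3 * a ^ 2 * b ^ 2 * c ^ 3 * w ^ 3 -
        3 * P * (a * b * c) * (yi * (b * c)) * (yj * (c * a)) * u * v * w := by
      rw [hE]
      ring
    have e4 : P ^ 3 * a ^ 2 * b ^ 2 * ((a * u) ^ 3 + (b * v) ^ 3 + (c * w) ^ 3 -
        3 * (a * u) * (b * v) * (c * w)) = 0 := by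
      have e5 : (a * u) ^ 3 + (b * v) ^ 3 + (c * w) ^ 3 - 3 * (a * u) * (b * v) * (c * w) =
          (a * u + b * v + c * w) * ((a * u) ^ 2 + (b * v) ^ 2 + (c * w) ^ 2 - a * u * (b * v) -
            b * v * (c * w) - c * w * (a * u)) := by ring
      rw [e5, hs]
      ring
    have h4 : l * m ∣ a ^ 2 * b ^ 2 * c ^ 3 * (m * E) := by
      rw [e3, e1, e2]
      have e6 : a * (P * a ^ 2 - l * m * A1) ^ 2 * (P * b ^ 2 - l * m * A2) * u ^ 3 +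
          b * (P * a ^ 2 - l * m * A1) * (P * b ^ 2 - l * m * A2) ^ 2 * v ^ 3 +
          P ^ 3 * a ^ 2 * b ^ 2 * c ^ 3 * w ^ 3 -
          3 * P * (a * b * c) * (P * a ^ 2 - l * m * A1) * (P * b ^ 2 - l * m * A2) * u * v * w =
          P ^ 3 * a ^ 2 * b ^ 2 * ((a * u) ^ 3 + (b * v) ^ 3 + (c * w) ^ 3 -
            3 * (a * u) * (b * v) * (c * w)) +
          l * m * (a * u ^ 3 * (-(P * a ^ 2) ^ 2 * A2 - 2 * (P * a ^ 2) * A1 * (P * b ^ 2) +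
              2 * (P * a ^ 2) * A1 * (l * m * A2) + l * m * A1 ^ 2 * (P * b ^ 2 - l * m * A2)) +
            b * v ^ 3 * (-(P * b ^ 2) ^ 2 * A1 - 2 * (P * b ^ 2) * A2 * (P * a ^ 2) +
              2 * (P * b ^ 2) * A2 * (l * m * A1) + l * m * A2 ^ 2 * (P * a ^ 2 - l * m * A1)) +
            3 * P * (a * b * c) * u * v * w * (A1 * (P * b ^ 2) + A2 * (P * a ^ 2) -
              l * m * A1 * A2)) := by ring
      rw [e6, e4, zero_add]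
      exact Dvd.intro _ rfl
    have h5 : l ∣ a ^ 2 * b ^ 2 * c ^ 3 * E := by
      have e7 : a ^ 2 * b ^ 2 * c ^ 3 * (m * E) = (a ^ 2 * b ^ 2 * c ^ 3 * E) * m := by ring
      rw [e7] at h4
      exact (mul_dvd_mul_iff_right hm).1 h4
    rcases hl.dvd_or_dvd h5 with h6 | h6
    · rcases hl.dvd_or_dvd h6 with h7 | h7
      · rcases hl.dvd_or_dvd h7 with h8 | h8
        · exact absurd (hl.dvd_of_dvd_pow h8) hab.1
        · exact absurd (hl.dvd_of_dvd_pow h8) hab.2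
      · exact absurd (hl.dvd_of_dvd_pow h7) hnc
    · exact h6.mul_left w

private theorem mEk {W p1 m r : ℕ} {y e : V3} (h : Ps W p1 m r y e) {κ : V3} (hκM : κ ∈ Mm m e)
    (k : Fin 3) : (m : ℤ) * Ek ((W * p1 : ℕ) : ℤ) m y κ k =
      y (k + 1) * y (k + 2) * Cv ((W * p1 : ℕ) : ℤ) y κ + m * κ k ^ 3 := by
  have hd := h.cv κ hκM
  have h1 := Int.mul_ediv_cancel' hd
  unfold Ek
  calc (m : ℤ) * (y (k + 1) * y (k + 2) * (Cv ((W * p1 : ℕ) : ℤ) y κ / (m : ℤ)) + κ k ^ 3)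
      = y (k + 1) * y (k + 2) * ((m : ℤ) * (Cv ((W * p1 : ℕ) : ℤ) y κ / (m : ℤ))) +
        m * κ k ^ 3 := by ring
    _ = _ := by rw [h1]

private theorem mEk2 {W p1 m r : ℕ} {y e : V3} (h : Ps W p1 m r y e) {κ : V3} (hκM : κ ∈ Mm m e)
    (k : Fin 3) : (m : ℤ) * Ek ((W * p1 : ℕ) : ℤ) m y κ k =
      y (k + 1) ^ 2 * y (k + 2) * κ (k + 1) ^ 3 + y (k + 1) * y (k + 2) ^ 2 * κ (k + 2) ^ 3 +
        ((W * p1 : ℕ) : ℤ) ^ 3 * κ k ^ 3 -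
      3 * ((W * p1 : ℕ) : ℤ) * y (k + 1) * y (k + 2) * κ (k + 1) * κ (k + 2) * κ k := by
  rw [mEk h hκM k]
  have hm := h.hm
  generalize ((W * p1 : ℕ) : ℤ) = P at hm ⊢
  fin_cases k
  · show y 1 * y 2 * Cv P y κ + m * κ 0 ^ 3 = y 1 ^ 2 * y 2 * κ 1 ^ 3 + y 1 * y 2 ^ 2 * κ 2 ^ 3 +
      P ^ 3 * κ 0 ^ 3 - 3 * P * y 1 * y 2 * κ 1 * κ 2 * κ 0
    rw [hm]
    unfold Cv
    ring
  · show y 2 * y 0 * Cv P y κ + m * κ 1 ^ 3 = y 2 ^ 2 * y 0 * κ 2 ^ 3 + y 2 * y 0 ^ 2 * κ 0 ^ 3 +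
      P ^ 3 * κ 1 ^ 3 - 3 * P * y 2 * y 0 * κ 2 * κ 0 * κ 1
    rw [hm]
    unfold Cv
    ring
  · show y 0 * y 1 * Cv P y κ + m * κ 2 ^ 3 = y 0 ^ 2 * y 1 * κ 0 ^ 3 + y 0 * y 1 ^ 2 * κ 1 ^ 3 +
      P ^ 3 * κ 2 ^ 3 - 3 * P * y 0 * y 1 * κ 0 * κ 1 * κ 2
    rw [hm]
    unfold Cv
    ring

private theorem Nm0 {y2 y3 : ℤ} (h2 : 2 ≤ y2) (hsq : Squarefree y2) (hco : IsCoprime y2 y3)
    {al u w : ℤ} (h0 : Pool.Agent.SLB.Nm y2 y3 al u w = 0) : al = 0 ∧ u = 0 ∧ w = 0 := by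
  obtain ⟨l, hl, hld⟩ := Nat.exists_prime_and_dvd (n := y2.natAbs) (by omega)
  have hlz : Prime (l : ℤ) := Nat.prime_iff_prime_int.1 hl
  have hd : (l : ℤ) ∣ y2 := Int.natCast_dvd.2 hld
  obtain ⟨t, rfl⟩ := hd
  have ht : ¬ (l : ℤ) ∣ t := by
    rintro ⟨s, rfl⟩
    have := hsq (l : ℤ) ⟨s, by ring⟩
    exact hlz.not_isUnit this
  have h3 : ¬ (l : ℤ) ∣ y3 := by
    intro h4
    have := hco.isUnit_of_dvd' (Dvd.intro _ rfl) h4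
    exact hlz.not_isUnit this
  have hall : ∀ N : ℕ, (l : ℤ) ^ N ∣ al ∧ (l : ℤ) ^ N ∣ u ∧ (l : ℤ) ^ N ∣ w := by
    intro N
    have h5 := Pool.Agent.SLB.descent hl ht h3 (3 * N) al u w (by rw [h0]; exact dvd_zero _)
    have e1 : (3 * N + 2) / 3 = N := by omega
    have e2 : 3 * N / 3 = N := by omega
    have e3 : (3 * N + 1) / 3 = N := by omega
    rw [e1, e2, e3] at h5
    exact h5
  have hz : ∀ x : ℤ, (∀ N : ℕ, (l : ℤ) ^ N ∣ x) → x = 0 := by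
    intro x hx
    by_contra hne
    have hx1 : 0 < x.natAbs := Int.natAbs_pos.2 hne
    have h6 := hx x.natAbs
    have h7 : l ^ x.natAbs ∣ x.natAbs := by
      have := Int.natAbs_dvd_natAbs.2 h6
      simpa [Int.natAbs_pow] using this
    have h8 := Nat.le_of_dvd hx1 h7
    have h9 : x.natAbs < l ^ x.natAbs := Nat.lt_pow_self hl.one_lt
    omega
  exact ⟨hz al fun N => (hall N).1, hz u fun N => (hall N).2.1, hz w fun N => (hall N).2.2⟩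

theorem alg {W p1 m r : ℕ} {y e : V3} (h : Ps W p1 m r y e) {g κ : V3} (hg : g ∈ Lam m e)
    (hg0 : IsCoprime (g 0) (m : ℤ)) (hκ : dt κ g = 0) (hκM : κ ∈ Mm m e) (l : ℕ) (hl : l.Prime)
    (hl6 : 10 ^ 6 < l) (hlp : l ≠ p1) (k : Fin 3) (hy1 : ¬ (l : ℤ) ∣ y (k + 1))
    (hy2 : ¬ (l : ℤ) ∣ y (k + 2)) (h1 : (l : ℤ) ∣ Nn ((W * p1 : ℕ) : ℤ) m y g (k + 1))
    (h2 : (l : ℤ) ∣ Nn ((W * p1 : ℕ) : ℤ) m y g (k + 2)) (h3 : ¬ ∀ i, (l : ℤ) ∣ g i) :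
    (l : ℤ) ∣ κ k * Ek ((W * p1 : ℕ) : ℤ) m y κ k := by
  have hlz : Prime (l : ℤ) := Nat.prime_iff_prime_int.1 hl
  have hm0 : (m : ℤ) ≠ 0 := by
    have := h.lat.hm
    exact_mod_cast (by omega : m ≠ 0)
  have hP : ¬ (l : ℤ) ∣ ((W * p1 : ℕ) : ℤ) := by
    intro h4
    have h5 : l ∣ W * p1 := by exact_mod_cast h4
    rcases (Nat.Prime.dvd_mul hl).1 h5 with h6 | h6
    · have := (h.hW.dv l hl).1 h6
      omega
    · exact hlp ((Nat.prime_dvd_prime_iff_eq hl h.pp).1 h6)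
  have hN : ∀ i : Fin 3, (l : ℤ) ∣ Nn ((W * p1 : ℕ) : ℤ) m y g i →
      (l : ℤ) * m ∣ ((W * p1 : ℕ) : ℤ) * g i ^ 2 - y i * (g (i + 1) * g (i + 2)) := by
    intro i hi
    have hd := dvdL m _ y e g (h.lat.co 0) h.ee hg i
    have h4 := Int.mul_ediv_cancel' hd
    unfold Nn at hi
    rw [← h4, mul_comm (l : ℤ) (m : ℤ)]
    exact mul_dvd_mul_left _ hi
  have hA1 := hN _ h1
  have hA2 := hN _ h2
  have hE := mEk2 h hκM k
  generalize ((W * p1 : ℕ) : ℤ) = P at hP hA1 hA2 hE ⊢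
  have hs : κ 0 * g 0 + κ 1 * g 1 + κ 2 * g 2 = 0 := hκ
  fin_cases k
  · change (l : ℤ) * m ∣ P * g 1 ^ 2 - y 1 * (g 2 * g 0) at hA1
    change (l : ℤ) * m ∣ P * g 2 ^ 2 - y 2 * (g 0 * g 1) at hA2
    change (m : ℤ) * Ek P m y κ 0 = y 1 ^ 2 * y 2 * κ 1 ^ 3 + y 1 * y 2 ^ 2 * κ 2 ^ 3 +
        P ^ 3 * κ 0 ^ 3 - 3 * P * y 1 * y 2 * κ 1 * κ 2 * κ 0 at hE
    show (l : ℤ) ∣ κ 0 * Ek P m y κ 0
    refine algCore hlz hm0 hP hA1 hA2 (by linarith) hE ?_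
    rintro ⟨ha, hb, hc⟩
    refine h3 fun i => ?_
    fin_cases i
    · exact hc
    · exact ha
    · exact hb
  · change (l : ℤ) * m ∣ P * g 2 ^ 2 - y 2 * (g 0 * g 1) at hA1
    change (l : ℤ) * m ∣ P * g 0 ^ 2 - y 0 * (g 1 * g 2) at hA2
    change (m : ℤ) * Ek P m y κ 1 = y 2 ^ 2 * y 0 * κ 2 ^ 3 + y 2 * y 0 ^ 2 * κ 0 ^ 3 +
        P ^ 3 * κ 1 ^ 3 - 3 * P * y 2 * y 0 * κ 2 * κ 0 * κ 1 at hE
    show (l : ℤ) ∣ κ 1 * Ek P m y κ 1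
    refine algCore hlz hm0 hP hA1 hA2 (by linarith) hE ?_
    rintro ⟨ha, hb, hc⟩
    refine h3 fun i => ?_
    fin_cases i
    · exact hb
    · exact hc
    · exact ha
  · change (l : ℤ) * m ∣ P * g 0 ^ 2 - y 0 * (g 1 * g 2) at hA1
    change (l : ℤ) * m ∣ P * g 1 ^ 2 - y 1 * (g 2 * g 0) at hA2
    change (m : ℤ) * Ek P m y κ 2 = y 0 ^ 2 * y 1 * κ 0 ^ 3 + y 0 * y 1 ^ 2 * κ 1 ^ 3 +
        P ^ 3 * κ 2 ^ 3 - 3 * P * y 0 * y 1 * κ 0 * κ 1 * κ 2 at hE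
    show (l : ℤ) ∣ κ 2 * Ek P m y κ 2
    refine algCore hlz hm0 hP hA1 hA2 (by linarith) hE ?_
    rintro ⟨ha, hb, hc⟩
    refine h3 fun i => ?_
    fin_cases i
    · exact ha
    · exact hb
    · exact hc

theorem nfz {W p1 m r : ℕ} {y e : V3} (h : Ps W p1 m r y e) {κ : V3} (hκM : κ ∈ Mm m e)
    (hκ0 : κ ≠ 0) (k : Fin 3) : Ek ((W * p1 : ℕ) : ℤ) m y κ k ≠ 0 := by
  intro hE0
  have hE := mEk2 h hκM k
  rw [hE0, mul_zero] at hE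
  have hP : ((W * p1 : ℕ) : ℤ) ≠ 0 := by
    have h1 := h.hW.one
    have h2 := h.pp.pos
    have h3 : 0 < W * p1 := Nat.mul_pos (by omega) h2
    exact_mod_cast h3.ne'
  generalize ((W * p1 : ℕ) : ℤ) = P at hP hE
  have c01 := h.co 0 1 (by decide)
  have c02 := h.co 0 2 (by decide)
  have c12 := h.co 1 2 (by decide)
  apply hκ0
  have key : κ 0 = 0 ∧ κ 1 = 0 ∧ κ 2 = 0 := by
    fin_cases k
    · change 0 = y 1 ^ 2 * y 2 * κ 1 ^ 3 + y 1 * y 2 ^ 2 * κ 2 ^ 3 +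
        P ^ 3 * κ 0 ^ 3 - 3 * P * y 1 * y 2 * κ 1 * κ 2 * κ 0 at hE
      have h4 := Nm0 h.y1' h.sq1 c12 (al := P * κ 0) (u := κ 1) (w := κ 2) (by
        unfold Pool.Agent.SLB.Nm
        linarith)
      exact ⟨(mul_eq_zero.1 h4.1).resolve_left hP, h4.2.1, h4.2.2⟩
    · change 0 = y 2 ^ 2 * y 0 * κ 2 ^ 3 + y 2 * y 0 ^ 2 * κ 0 ^ 3 +
        P ^ 3 * κ 1 ^ 3 - 3 * P * y 2 * y 0 * κ 2 * κ 0 * κ 1 at hE
      have h4 := Nm0 h.y0 h.sq0 c02 (al := P * κ 1) (u := κ 0) (w := κ 2) (by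
        unfold Pool.Agent.SLB.Nm
        linarith)
      exact ⟨h4.2.1, (mul_eq_zero.1 h4.1).resolve_left hP, h4.2.2⟩
    · change 0 = y 0 ^ 2 * y 1 * κ 0 ^ 3 + y 0 * y 1 ^ 2 * κ 1 ^ 3 +
        P ^ 3 * κ 2 ^ 3 - 3 * P * y 0 * y 1 * κ 0 * κ 1 * κ 2 at hE
      have h4 := Nm0 h.y0 h.sq0 c01 (al := P * κ 2) (u := κ 0) (w := κ 1) (by
        unfold Pool.Agent.SLB.Nm
        linarith)
      exact ⟨h4.2.1, h4.2.2, (mul_eq_zero.1 h4.1).resolve_left hP⟩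
  funext i
  fin_cases i
  · exact key.1
  · exact key.2.1
  · exact key.2.2

end Pool.Agent.SMP
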