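import Pool.Agent.SMP.Defs

/-!
# SMP/Pck (size 2): (P1) few vectors in the dual lattice

PROOF.  The map `k ↦ (fun i => k i / r)` (integer floor division) is injective on `Q`: if `k i / r = k' i / r` then
`|k i - k' i| < r` for all `i`, so `k - k' ∈ Mm m e` is 0 (`Lat.hyp`).  The values `k i / r` lie in
`[-(R / r) - 1, R / r]` (`2 (R / r) + 2` integers).  `Finset.card_le_card_of_injOn` into
`Fintype.piFinset (fun _ => Finset.Icc ..)` (`Fintype.card_piFinset`).  For `pack0` the coordinate `c` is `0 / r = 0`: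
use the two other coordinates (`Fintype.piFinset (fun i => if i = c then {0} else Finset.Icc ..)`).
-/

set_option autoImplicit false

namespace Pool.Agent.SMP

open Pool.Agent.SLB (V3 det3)

private theorem inj_aux {m r : ℕ} {e : V3} (h : Lat m e r) (k k' : V3) (hk : k ∈ Mm m e)
    (hk' : k' ∈ Mm m e) (he : ∀ i, k i / (r : ℤ) = k' i / (r : ℤ)) : k = k' := by
  have hr : (0 : ℤ) < r := by exact_mod_cast h.hr
  have h0 : k - k' = 0 := by
    apply h.hyp _ ((Mm m e).sub_mem hk hk')
    intro i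
    have h1 := Int.mul_ediv_add_emod (k i) r
    have h2 := Int.mul_ediv_add_emod (k' i) r
    have h3 := Int.emod_nonneg (k i) hr.ne'
    have h4 := Int.emod_nonneg (k' i) hr.ne'
    have h5 := Int.emod_lt_of_pos (k i) hr
    have h6 := Int.emod_lt_of_pos (k' i) hr
    have h7 := he i
    rw [h7] at h1
    simp only [Pi.sub_apply]
    rw [abs_le]
    constructor <;> linarith
  exact sub_eq_zero.1 h0

private theorem bd_aux {r R : ℕ} (hr : 1 ≤ r) (x : ℤ) (hx : |x| ≤ (R : ℤ)) :
    -((R / r : ℕ) : ℤ) - 1 ≤ x / (r : ℤ) ∧ x / (r : ℤ) ≤ ((R / r : ℕ) : ℤ) := by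
  have hr' : (0 : ℤ) < r := by exact_mod_cast hr
  have h1 := abs_le.1 hx
  push_cast
  constructor
  · rw [Int.le_ediv_iff_mul_le hr']
    have h2 := Int.lt_ediv_add_one_mul_self (R : ℤ) hr'
    nlinarith [h1.1]
  · exact Int.ediv_le_ediv hr' h1.2

private theorem card_aux (q : ℕ) : (Finset.Icc (-(q : ℤ) - 1) (q : ℤ)).card = 2 * q + 2 := by
  rw [Int.card_Icc]
  omega

theorem pack {m r : ℕ} {e : V3} (h : Lat m e r) (R : ℕ) (Q : Finset V3)
    (hQ : ∀ k ∈ Q, k ∈ Mm m e ∧ ∀ i, |k i| ≤ (R : ℤ)) : Q.card ≤ (2 * (R / r) + 2) ^ 3 := by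
  classical
  have h1 : Q.card ≤ (Fintype.piFinset (fun _ : Fin 3 =>
      Finset.Icc (-((R / r : ℕ) : ℤ) - 1) ((R / r : ℕ) : ℤ))).card := by
    apply Finset.card_le_card_of_injOn (fun (k : V3) (i : Fin 3) => k i / (r : ℤ))
    · intro k hk
      have := (hQ k hk).2
      simp only [Finset.mem_coe, Fintype.mem_piFinset, Finset.mem_Icc]
      intro i
      exact bd_aux h.hr (k i) (this i)
    · intro k hk k' hk' he
      exact inj_aux h k k' (hQ k hk).1 (hQ k' hk').1 (fun i => congrFun he i)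
  rw [Fintype.card_piFinset] at h1
  simp only [card_aux, Finset.prod_const, Finset.card_univ, Fintype.card_fin] at h1
  exact h1

theorem pack0 {m r : ℕ} {e : V3} (h : Lat m e r) (R : ℕ) (c : Fin 3) (Q : Finset V3)
    (hQ : ∀ k ∈ Q, k ∈ Mm m e ∧ (∀ i, |k i| ≤ (R : ℤ)) ∧ k c = 0) :
    Q.card ≤ (2 * (R / r) + 2) ^ 2 := by
  classical
  have h1 : Q.card ≤ (Fintype.piFinset (fun i : Fin 3 => if i = c then ({0} : Finset ℤ) else
      Finset.Icc (-((R / r : ℕ) : ℤ) - 1) ((R / r : ℕ) : ℤ))).card := by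
    apply Finset.card_le_card_of_injOn (fun (k : V3) (i : Fin 3) => k i / (r : ℤ))
    · intro k hk
      have h2 := (hQ k hk).2
      simp only [Finset.mem_coe, Fintype.mem_piFinset]
      intro i
      by_cases hi : i = c
      · rw [if_pos hi, hi, h2.2]
        simp
      · rw [if_neg hi, Finset.mem_Icc]
        exact bd_aux h.hr (k i) (h2.1 i)
    · intro k hk k' hk' he
      exact inj_aux h k k' (hQ k hk).1 (hQ k' hk').1 (fun i => congrFun he i)
  rw [Fintype.card_piFinset] at h1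
  refine h1.trans (le_of_eq ?_)
  have h3 : ∀ i : Fin 3, (if i = c then ({0} : Finset ℤ) else
      Finset.Icc (-((R / r : ℕ) : ℤ) - 1) ((R / r : ℕ) : ℤ)).card =
      if i = c then 1 else 2 * (R / r) + 2 := by
    intro i
    split_ifs
    · simp
    · exact card_aux _
  rw [Finset.prod_congr rfl (fun i _ => h3 i), Fin.prod_univ_three]
  generalize 2 * (R / r) + 2 = q
  fin_cases c <;> simp <;> ring

end Pool.Agent.SMP
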