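import Pool.Agent.SMP.SetP

/-!
# SMP/Rts (size 4): (P13) the points of the event `E3` lie in three classes

Let `i = k + 1`, `j = k + 2` (so the three indices are `i, j, k`), `p = W p1`, `M = l m`.  `g ∈ Q`: all `g n` are prime to `m`
(`g 0` is, and `g n e 0 ≡ g 0 e n` modulo `m`) and to `l`, so to `M`.
`m N_i = p g_i² - y_i g_j g_k`, `m N_j = p g_j² - y_j g_k g_i`, both divisible by `M`.
`g_j² (m N_i) - g_i² (m N_j) = g_k (y_j g_i³ - y_i g_j³)`, so `M ∣ y_j g_i³ - y_i g_j³`.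
Let `z = g_j / g_i` in `ZMod M` (unit); `y_i z³ = y_j` in `ZMod M`, and `z ≡ e_j / e_i` modulo `m`.
CLAIM: at most three values of `z`.  Fix one `z0` (an integer representing the value for one `g`); every other is
`z = z0 + m t` modulo `M`, `t` modulo `l`, and `0 = (y_i z³ - y_j - (y_i z0³ - y_j)) / m = 3 y_i z0² t + 3 y_i z0 m t² + y_i m² t³` modulo `l`:
a polynomial in `t` over `ZMod l` of degree `≤ 3`, nonzero: `l ∤ m`: coefficient `y_i m²` of `t³`; `l ∣ m`: coefficient `3 y_i z0²` of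
`t` (`l > 3`, `l ∤ y_i z0`).  So at most 3 roots (`Polynomial.card_roots'`, `Polynomial.natDegree_le..`).
CLAIM: two elements `g, g'` of `Q` with the same `z` are parallel modulo `M`: `g_i g'_j ≡ g_j g'_i`; and
`g_k ≡ p g_i² / (y_i g_j) = (p / (y_i z)) g_i` modulo `M` (`y_i` is prime to `M`: `psW`), so `g ≡ g_i (1, z, p / (y_i z))`.
So `E` = one element of `Q` for each value of `z`.
-/

set_option autoImplicit false

namespace Pool.Agent.SMP

open Pool.Agent.SLB (V3 det3)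

private theorem f3 : ∀ k n : Fin 3, n = k ∨ n = k + 1 ∨ n = k + 2 := by decide

private theorem cz (l m : ℕ) (hl : l.Prime) (h3 : 3 < l) (hm : 1 ≤ m) (a b : ℤ)
    (ha : ¬ (l : ℤ) ∣ a) (hb : ¬ (l : ℤ) ∣ b) (Z : Finset (ZMod (l * m)))
    (hZ : ∀ w : ℤ, (w : ZMod (l * m)) ∈ Z → ((l * m : ℕ) : ℤ) ∣ a * w ^ 3 - b)
    (hc : ∀ w w' : ℤ, (w : ZMod (l * m)) ∈ Z → (w' : ZMod (l * m)) ∈ Z → (m : ℤ) ∣ w - w') :
    Z.card ≤ 3 := by
  classical
  have : Fact l.Prime := ⟨hl⟩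
  rcases Finset.eq_empty_or_nonempty Z with h0 | ⟨z0, hz0⟩
  · rw [h0]
    simp
  obtain ⟨w0, rfl⟩ := ZMod.intCast_surjective z0
  have hlp : Prime (l : ℤ) := Nat.prime_iff_prime_int.1 hl
  have hm0 : (m : ℤ) ≠ 0 := by
    have : (1 : ℤ) ≤ m := by exact_mod_cast hm
    omega
  have ht : ∀ z ∈ Z, ∃ t : ℤ, z = ((w0 + m * t : ℤ) : ZMod (l * m)) := by
    intro z hz
    obtain ⟨w, rfl⟩ := ZMod.intCast_surjective z
    obtain ⟨t, ht⟩ := hc w w0 hz hz0
    exact ⟨t, by rw [← ht]; congr 1; ring⟩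
  choose! t ht using ht
  have key : ∀ z ∈ Z, (l : ℤ) ∣ a * m ^ 2 * (t z) ^ 3 + 3 * a * w0 * m * (t z) ^ 2 +
      3 * a * w0 ^ 2 * (t z) := by
    intro z hz
    have h1 := hZ w0 hz0
    have h2 := hZ (w0 + m * t z) (by rw [← ht z hz]; exact hz)
    have h4 := dvd_sub h2 h1
    have e : a * (w0 + m * t z) ^ 3 - b - (a * w0 ^ 3 - b) =
        m * (a * m ^ 2 * (t z) ^ 3 + 3 * a * w0 * m * (t z) ^ 2 + 3 * a * w0 ^ 2 * (t z)) := by
      ring
    rw [e] at h4
    have e2 : ((l * m : ℕ) : ℤ) = m * l := by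
      push_cast
      ring
    rw [e2] at h4
    exact (mul_dvd_mul_iff_left hm0).1 h4
  have hw0 : ¬ (l : ℤ) ∣ w0 := by
    intro hd
    apply hb
    have h1 := hZ w0 hz0
    have h2 : (l : ℤ) ∣ a * w0 ^ 3 - b :=
      (Dvd.intro (m : ℤ) (by push_cast; ring)).trans h1
    have h4 : (l : ℤ) ∣ a * w0 ^ 3 := (hd.trans (dvd_pow_self _ (by norm_num))).mul_left a
    have h5 := dvd_sub h4 h2
    have e : a * w0 ^ 3 - (a * w0 ^ 3 - b) = b := by ring
    rwa [e] at h5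
  have hc1 : ((3 * a * w0 ^ 2 : ℤ) : ZMod l) ≠ 0 := by
    intro h
    rw [ZMod.intCast_zmod_eq_zero_iff_dvd] at h
    rcases hlp.dvd_or_dvd h with h | h
    · rcases hlp.dvd_or_dvd h with h | h
      · have := Int.le_of_dvd (by norm_num) h
        omega
      · exact ha h
    · exact hw0 (hlp.dvd_of_dvd_pow h)
  set F : Polynomial (ZMod l) := Polynomial.C ((a * m ^ 2 : ℤ) : ZMod l) * Polynomial.X ^ 3 +
    Polynomial.C ((3 * a * w0 * m : ℤ) : ZMod l) * Polynomial.X ^ 2 +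
    Polynomial.C ((3 * a * w0 ^ 2 : ℤ) : ZMod l) * Polynomial.X with hF
  have hF0 : F ≠ 0 := by
    intro h
    apply hc1
    have h1 : F.coeff 1 = ((3 * a * w0 ^ 2 : ℤ) : ZMod l) := by
      rw [hF, Polynomial.coeff_add, Polynomial.coeff_add, Polynomial.coeff_C_mul,
        Polynomial.coeff_C_mul, Polynomial.coeff_C_mul, Polynomial.coeff_X_pow,
        Polynomial.coeff_X_pow, Polynomial.coeff_X_one]
      norm_num
    rw [← h1, h]
    simp
  have hdeg : F.natDegree ≤ 3 := by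
    rw [hF]
    compute_degree
  have hcard : Z.card ≤ F.roots.toFinset.card := by
    refine Finset.card_le_card_of_injOn (fun z => ((t z : ℤ) : ZMod l)) ?_ ?_
    · intro z hz
      have hz' : z ∈ Z := hz
      simp only [Finset.mem_coe, Multiset.mem_toFinset]
      rw [Polynomial.mem_roots hF0, Polynomial.IsRoot.def, hF]
      simp only [Polynomial.eval_add, Polynomial.eval_mul, Polynomial.eval_C, Polynomial.eval_pow,
        Polynomial.eval_X]
      have := (ZMod.intCast_zmod_eq_zero_iff_dvd _ l).2 (key z hz')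
      push_cast at this ⊢
      exact this
    · intro z hz z' hz' he
      have hz1 : z ∈ Z := hz
      have hz2 : z' ∈ Z := hz'
      have he' : ((t z : ℤ) : ZMod l) = ((t z' : ℤ) : ZMod l) := he
      rw [ZMod.intCast_eq_intCast_iff_dvd_sub] at he'
      rw [ht z hz1, ht z' hz2, ZMod.intCast_eq_intCast_iff_dvd_sub]
      have e : w0 + m * t z' - (w0 + m * t z) = m * (t z' - t z) := by ring
      have e2 : ((l * m : ℕ) : ℤ) = m * l := by
        push_cast
        ring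
      rw [e, e2]
      exact mul_dvd_mul_left _ he'
  calc Z.card ≤ F.roots.toFinset.card := hcard
    _ ≤ Multiset.card F.roots := Multiset.toFinset_card_le _
    _ ≤ F.natDegree := Polynomial.card_roots' F
    _ ≤ 3 := hdeg

private theorem dml {a b x M : ℤ} (h : IsCoprime x M) (hd : M ∣ x * (a - b)) : M ∣ a - b :=
  h.symm.dvd_of_dvd_mul_left hd

theorem rts {W p1 m r : ℕ} {y e : V3} (h : Ps W p1 m r y e) (l : ℕ) (hl : l.Prime)
    (hl6 : 10 ^ 6 < l) (hlp : l ≠ p1) (k : Fin 3) (hy1 : ¬ (l : ℤ) ∣ y (k + 1))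
    (hy2 : ¬ (l : ℤ) ∣ y (k + 2)) (Q : Finset V3)
    (hQ : ∀ g ∈ Q, g ∈ Lam m e ∧ IsCoprime (g 0) (m : ℤ) ∧ (∀ i, ¬ (l : ℤ) ∣ g i) ∧
      (l : ℤ) ∣ Nn ((W * p1 : ℕ) : ℤ) m y g (k + 1) ∧
      (l : ℤ) ∣ Nn ((W * p1 : ℕ) : ℤ) m y g (k + 2)) :
    ∃ E : Finset V3, E.card ≤ 3 ∧ (∀ e' ∈ E, e' ∈ Lam m e ∧
      ∀ i, IsCoprime (e' i) ((l * m : ℕ) : ℤ)) ∧ ∀ g ∈ Q, ∃ e' ∈ E, g ∈ Lam (l * m) e' := by
  classical
  have hlI : Prime (l : ℤ) := Nat.prime_iff_prime_int.1 hl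
  have cpl : ∀ x : ℤ, ¬ (l : ℤ) ∣ x → IsCoprime x (l : ℤ) := fun x hx =>
    (hlI.irreducible.coprime_iff_not_dvd.2 hx).symm
  obtain ⟨-, hpm, hym⟩ := psW h
  have hm1 := h.lat.hm
  have hm0 : (m : ℤ) ≠ 0 := by
    have : (1 : ℤ) ≤ m := by exact_mod_cast hm1
    omega
  set p : ℤ := ((W * p1 : ℕ) : ℤ) with hp
  set M : ℤ := ((l * m : ℕ) : ℤ) with hM
  have hMe : M = (l : ℤ) * m := by
    rw [hM]
    push_cast
    ring
  -- `p` is prime to `l`
  have hpl : ¬ (l : ℤ) ∣ p := by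
    rw [hp]
    intro hd
    have hd' : l ∣ W * p1 := by exact_mod_cast hd
    rcases (Nat.Prime.dvd_mul hl).1 hd' with hd1 | hd1
    · have := (h.hW.dv l hl).1 hd1
      omega
    · exact hlp ((Nat.prime_dvd_prime_iff_eq hl h.pp).1 hd1)
  have cM : ∀ x : ℤ, ¬ (l : ℤ) ∣ x → IsCoprime x (m : ℤ) → IsCoprime x M := by
    intro x hx hx2
    rw [hMe]
    exact (cpl x hx).mul_right hx2
  have hpM : IsCoprime p M := cM p hpl hpm
  have hy1M : IsCoprime (y (k + 1)) M := cM _ hy1 (hym _)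
  have hy2M : IsCoprime (y (k + 2)) M := cM _ hy2 (hym _)
  -- the coordinates of `g` are prime to `M`
  have hgm : ∀ g ∈ Q, ∀ n, IsCoprime (g n) (m : ℤ) := by
    intro g hg n
    obtain ⟨hL, h0, -, -, -⟩ := hQ g hg
    have h1 := (mem_Lam m e g).1 hL n 0
    have h2 : IsCoprime (g 0 * e n) (m : ℤ) := h0.mul_left (h.lat.co n)
    obtain ⟨c, hc⟩ := h1
    have h4 : g n * e 0 = g 0 * e n + m * c := by linarith
    have h5 : IsCoprime (g n * e 0) (m : ℤ) := by
      rw [h4]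
      exact IsCoprime.add_mul_left_left h2 c
    exact h5.of_mul_left_left
  have hgM : ∀ g ∈ Q, ∀ n, IsCoprime (g n) M := fun g hg n =>
    cM _ ((hQ g hg).2.2.1 n) (hgm g hg n)
  -- the two congruences modulo `M`
  have i1 : ∀ k : Fin 3, k + 1 + 1 = k + 2 ∧ k + 1 + 2 = k ∧ k + 2 + 1 = k ∧ k + 2 + 2 = k + 1 := by
    decide
  obtain ⟨j1, j2, j3, j4⟩ := i1 k
  have hN : ∀ g ∈ Q, ∀ i : Fin 3, (l : ℤ) ∣ Nn p m y g i →
      M ∣ p * g i ^ 2 - y i * (g (i + 1) * g (i + 2)) := by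
    intro g hg i hi
    have hd := dvdL m p y e g (h.lat.co 0) h.ee (hQ g hg).1 i
    have e1 : (m : ℤ) * Nn p m y g i = p * g i ^ 2 - y i * (g (i + 1) * g (i + 2)) := by
      unfold Nn
      exact Int.mul_ediv_cancel' hd
    rw [← e1, hMe, mul_comm (l : ℤ) m]
    exact mul_dvd_mul_left _ hi
  have hA : ∀ g ∈ Q, M ∣ p * g (k + 1) ^ 2 - y (k + 1) * (g (k + 2) * g k) := by
    intro g hg
    have := hN g hg (k + 1) (hQ g hg).2.2.2.1
    rwa [j1, j2] at this
  have hB : ∀ g ∈ Q, M ∣ p * g (k + 2) ^ 2 - y (k + 2) * (g k * g (k + 1)) := by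
    intro g hg
    have := hN g hg (k + 2) (hQ g hg).2.2.2.2
    rwa [j3, j4] at this
  -- the quotient
  have hz : ∀ g ∈ Q, ∃ z : ℤ, M ∣ z * g (k + 1) - g (k + 2) := by
    intro g hg
    obtain ⟨a, b, hab⟩ := hgM g hg (k + 1)
    refine ⟨a * g (k + 2), ⟨-(b * g (k + 2)), ?_⟩⟩
    linear_combination (g (k + 2)) * hab
  choose! z hz using hz
  have hmM : (m : ℤ) ∣ M := by
    rw [hMe]
    exact dvd_mul_left _ _
  -- everything in `ZMod M`
  have zc : ∀ x : ℤ, M ∣ x ↔ ((x : ℤ) : ZMod (l * m)) = 0 := fun x =>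
    (ZMod.intCast_zmod_eq_zero_iff_dvd x (l * m)).symm
  have un : ∀ x : ℤ, IsCoprime x M → IsUnit ((x : ℤ) : ZMod (l * m)) := fun x hx =>
    (ZMod.coe_int_isUnit_iff_isCoprime x (l * m)).2 hx.symm
  have e3 : ∀ g ∈ Q, ((z g : ℤ) : ZMod (l * m)) * ((g (k + 1) : ℤ) : ZMod (l * m)) =
      ((g (k + 2) : ℤ) : ZMod (l * m)) := by
    intro g hg
    have := (zc _).1 (hz g hg)
    push_cast at this
    linear_combination this
  have e1 : ∀ g ∈ Q, ((p : ℤ) : ZMod (l * m)) * ((g (k + 1) : ℤ) : ZMod (l * m)) =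
      ((y (k + 1) : ℤ) : ZMod (l * m)) * ((z g : ℤ) : ZMod (l * m)) *
        ((g k : ℤ) : ZMod (l * m)) := by
    intro g hg
    have h1 := (zc _).1 (hA g hg)
    push_cast at h1
    rw [← e3 g hg] at h1
    refine (un _ (hgM g hg (k + 1))).mul_left_cancel ?_
    linear_combination h1
  have e2 : ∀ g ∈ Q, ((p : ℤ) : ZMod (l * m)) * ((z g : ℤ) : ZMod (l * m)) ^ 2 *
      ((g (k + 1) : ℤ) : ZMod (l * m)) =
      ((y (k + 2) : ℤ) : ZMod (l * m)) * ((g k : ℤ) : ZMod (l * m)) := by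
    intro g hg
    have h1 := (zc _).1 (hB g hg)
    push_cast at h1
    rw [← e3 g hg] at h1
    refine (un _ (hgM g hg (k + 1))).mul_left_cancel ?_
    linear_combination h1
  -- the cubic congruence
  have hcu : ∀ g ∈ Q, ((y (k + 1) : ℤ) : ZMod (l * m)) * ((z g : ℤ) : ZMod (l * m)) ^ 3 =
      ((y (k + 2) : ℤ) : ZMod (l * m)) := by
    intro g hg
    refine (un _ (hgM g hg k)).mul_left_cancel ?_
    linear_combination (e2 g hg) - ((z g : ℤ) : ZMod (l * m)) ^ 2 * (e1 g hg)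
  -- modulo `m`
  have hcm : ∀ g ∈ Q, (m : ℤ) ∣ z g * e (k + 1) - e (k + 2) := by
    intro g hg
    have h1 := hmM.trans (hz g hg)
    have h2 := (mem_Lam m e g).1 (hQ g hg).1 (k + 2) (k + 1)
    have h4 : (m : ℤ) ∣ g (k + 1) * (z g * e (k + 1) - e (k + 2)) := by
      have h5 := dvd_add (h1.mul_right (e (k + 1))) h2
      have e5 : (z g * g (k + 1) - g (k + 2)) * e (k + 1) +
          (g (k + 2) * e (k + 1) - g (k + 1) * e (k + 2)) =
          g (k + 1) * (z g * e (k + 1) - e (k + 2)) := by ring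
      rwa [e5] at h5
    exact (hgm g hg (k + 1)).symm.dvd_of_dvd_mul_left h4
  set Z : Finset (ZMod (l * m)) := Q.image (fun g => ((z g : ℤ) : ZMod (l * m))) with hZ
  have hZc : Z.card ≤ 3 := by
    refine cz l m hl (by omega) hm1 (y (k + 1)) (y (k + 2)) hy1 hy2 Z ?_ ?_
    · intro w hw
      obtain ⟨g, hg, he⟩ := Finset.mem_image.1 hw
      refine (zc _).2 ?_
      push_cast
      rw [← he, hcu g hg]
      ring
    · intro w w' hw hw'
      obtain ⟨g, hg, he⟩ := Finset.mem_image.1 hw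
      obtain ⟨g', hg', he'⟩ := Finset.mem_image.1 hw'
      have a1 : (m : ℤ) ∣ w - z g := hmM.trans ((ZMod.intCast_eq_intCast_iff_dvd_sub _ _ _).1 he)
      have a2 : (m : ℤ) ∣ w' - z g' :=
        hmM.trans ((ZMod.intCast_eq_intCast_iff_dvd_sub _ _ _).1 he')
      have a3 : (m : ℤ) ∣ e (k + 1) * (z g - z g') := by
        have h5 := dvd_sub (hcm g hg) (hcm g' hg')
        have e5 : z g * e (k + 1) - e (k + 2) - (z g' * e (k + 1) - e (k + 2)) =
          e (k + 1) * (z g - z g') := by ring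
        rwa [e5] at h5
      have a4 := (h.lat.co (k + 1)).symm.dvd_of_dvd_mul_left a3
      have h6 := dvd_add (dvd_sub a1 a2) a4
      have e6 : w - z g - (w' - z g') + (z g - z g') = w - w' := by ring
      rwa [e6] at h6
  have hch : ∀ v ∈ Z, ∃ g ∈ Q, ((z g : ℤ) : ZMod (l * m)) = v := fun v hv =>
    Finset.mem_image.1 hv
  choose! c hcQ hcz using hch
  refine ⟨Z.image c, Finset.card_image_le.trans hZc, ?_, ?_⟩
  · intro e' he'
    obtain ⟨v, hv, rfl⟩ := Finset.mem_image.1 he'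
    exact ⟨(hQ _ (hcQ v hv)).1, hgM _ (hcQ v hv)⟩
  · intro g hg
    have hv : ((z g : ℤ) : ZMod (l * m)) ∈ Z := Finset.mem_image_of_mem _ hg
    refine ⟨c ((z g : ℤ) : ZMod (l * m)), Finset.mem_image_of_mem _ hv, ?_⟩
    have hg' := hcQ _ hv
    have hzz := hcz _ hv
    generalize c ((z g : ℤ) : ZMod (l * m)) = g' at hg' hzz
    -- `g` and `g'` are parallel
    have q1 : ((g (k + 1) : ℤ) : ZMod (l * m)) * ((g' (k + 2) : ℤ) : ZMod (l * m)) =
        ((g (k + 2) : ℤ) : ZMod (l * m)) * ((g' (k + 1) : ℤ) : ZMod (l * m)) := by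
      rw [← e3 g hg, ← e3 g' hg', hzz]
      ring
    have uz : IsUnit ((z g : ℤ) : ZMod (l * m)) := by
      have := un _ (hgM g hg (k + 2))
      rw [← e3 g hg] at this
      exact isUnit_of_mul_isUnit_left this
    have q2 : ((g (k + 1) : ℤ) : ZMod (l * m)) * ((g' k : ℤ) : ZMod (l * m)) =
        ((g k : ℤ) : ZMod (l * m)) * ((g' (k + 1) : ℤ) : ZMod (l * m)) := by
      refine ((un _ hy1M).mul uz).mul_left_cancel ?_
      have a1 := e1 g hg
      have a2 := e1 g' hg'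
      rw [hzz] at a2
      linear_combination ((g' (k + 1) : ℤ) : ZMod (l * m)) * a1 -
        ((g (k + 1) : ℤ) : ZMod (l * m)) * a2
    have q3 : ((g (k + 2) : ℤ) : ZMod (l * m)) * ((g' k : ℤ) : ZMod (l * m)) =
        ((g k : ℤ) : ZMod (l * m)) * ((g' (k + 2) : ℤ) : ZMod (l * m)) := by
      rw [← e3 g hg, ← e3 g' hg', hzz]
      linear_combination ((z g : ℤ) : ZMod (l * m)) * q2
    rw [mem_Lam]
    intro a b
    refine (zc _).2 ?_
    push_cast
    rcases f3 k a with ha | ha | ha <;> rcases f3 k b with hb | hb | hb <;> rw [ha, hb] <;>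
      first
      | ring1
      | linear_combination q1
      | linear_combination -q1
      | linear_combination q2
      | linear_combination -q2
      | linear_combination q3
      | linear_combination -q3

end Pool.Agent.SMP
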