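import Pool.Agent.SMP.Defs

/-!
# SMP/Shv (size 3): (P2) the nonzero vectors of `Lam m e` are long

PROOF.  `d = Int.gcd (x 0) m` (`1 ≤ d`).  `d ∣ x j` for all `j`: `m ∣ x 0 * e j - x j * e 0`, so `d ∣ x j * e 0`, and `e 0` is
prime to `m`.  So `d ≤ B` (some `x j ≠ 0`).  Consider the `(r + 1) ^ 3` vectors `k ∈ [0, r] ^ 3` and the pairs
`(dt k x, dt k e mod m)`.  `dt k x = d s`, `s` integer, `- r N1 ≤ dt k x ≤ r N2` with `N1 + N2 = ∑ |x i| ≤ 3 B`: at most
`3 r B / d + 1` values of `s` (as a real number; or: the values `dt k x` lie in an interval of length `3 r B` and are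
multiples of `d`).  `e 0 * dt k x ≡ x 0 * dt k e` modulo `m`; so for a given `s` the number
`(x 0 / d) (dt k e)` is determined modulo `m / d`, `x 0 / d` is prime to `m / d`: `dt k e` lies in one class modulo `m / d`,
i.e. in `d` classes modulo `m`.  If `(r + 1) ^ 3 > (3 r B / d + 1) d` then two different vectors `k, k'` have the same
pair; `k - k' ∈ Mm m e`, `|k i - k' i| ≤ r`, `k - k' ≠ 0`: contradiction to `Lat.hyp`.
So `(r + 1) ^ 3 ≤ 3 r B + d ≤ (3 r + 1) B`, and `3 (r + 1) ^ 3 ≥ r ^ 2 (3 r + 1)`.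
(Simplest form of the pigeonhole: the map `k ↦ ((dt k x - min) / d, (dt k e / (m / d)) mod d)`, or: pairs with
the same `dt k x` have `dt (k - k') e ≡ 0` modulo `m / d`; among more than `d` vectors with the same `dt k x` two have
the same `dt k e` modulo `m`, because `dt k e mod m` is `c0 + (m / d) t`, `0 ≤ t < d`.)
-/

set_option autoImplicit false

namespace Pool.Agent.SMP

open Pool.Agent.SLB (V3 det3)

private theorem term_bd (r k a : ℤ) (h0 : 0 ≤ k) (h1 : k ≤ r) :
    min 0 (r * a) ≤ k * a ∧ k * a ≤ max 0 (r * a) := by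
  rcases le_total 0 a with ha | ha
  · constructor
    · exact (min_le_left _ _).trans (mul_nonneg h0 ha)
    · exact (mul_le_mul_of_nonneg_right h1 ha).trans (le_max_right _ _)
  · constructor
    · exact (min_le_right _ _).trans (mul_le_mul_of_nonpos_right h1 ha)
    · exact (mul_nonpos_of_nonneg_of_nonpos h0 ha).trans (le_max_left _ _)

private theorem max_sub_min (r : ℕ) (a : ℤ) :
    max 0 ((r : ℤ) * a) - min 0 ((r : ℤ) * a) = r * |a| := by
  rw [max_sub_min_eq_abs, sub_zero, abs_mul, Nat.abs_cast]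

theorem shv {m r : ℕ} {e : V3} (h : Lat m e r) (x : V3) (hx : x ∈ Lam m e) (x0 : x ≠ 0) (B : ℕ)
    (hB : ∀ i, |x i| ≤ (B : ℤ)) : r ^ 2 ≤ 3 * B := by
  classical
  have hm : 1 ≤ m := h.hm
  set D : ℕ := Int.gcd (x 0) m with hD
  have hDpos : 0 < D := Int.gcd_pos_of_ne_zero_right _ (by exact_mod_cast (by omega : m ≠ 0))
  have hDm : (D : ℤ) ∣ (m : ℤ) := Int.gcd_dvd_right _ _
  have hDx0 : (D : ℤ) ∣ x 0 := Int.gcd_dvd_left _ _
  have hx' := (mem_Lam m e x).1 hx
  have hcoD : IsCoprime (e 0) (D : ℤ) := (h.co 0).of_isCoprime_of_dvd_right hDm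
  have hDx : ∀ j, (D : ℤ) ∣ x j := by
    intro j
    have h1 : (D : ℤ) ∣ x 0 * e j - x j * e 0 := hDm.trans (hx' 0 j)
    have h2 : (D : ℤ) ∣ x j * e 0 := by
      have h3 : (D : ℤ) ∣ x 0 * e j := Dvd.dvd.mul_right hDx0 _
      have := dvd_sub h3 h1
      rwa [sub_sub_cancel] at this
    exact hcoD.symm.dvd_of_dvd_mul_right h2
  choose y hy using hDx
  obtain ⟨m', hm'⟩ := hDm
  have hDZ : (0 : ℤ) < D := by exact_mod_cast hDpos
  have hDne : (D : ℤ) ≠ 0 := hDZ.ne'
  have hm'pos : 0 < m' := by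
    have h1 : (0 : ℤ) < (D : ℤ) * m' := by
      rw [← hm']
      exact_mod_cast hm
    exact (mul_pos_iff_of_pos_left hDZ).1 h1
  have hco : IsCoprime (y 0) m' := by
    have h1 := Int.gcd_eq_gcd_ab (x 0) m
    rw [← hD] at h1
    refine ⟨Int.gcdA (x 0) m, Int.gcdB (x 0) m, ?_⟩
    have h2 : (D : ℤ) * (Int.gcdA (x 0) m * y 0 + Int.gcdB (x 0) m * m') = D * 1 := by
      calc (D : ℤ) * (Int.gcdA (x 0) m * y 0 + Int.gcdB (x 0) m * m')
          = (D * y 0) * Int.gcdA (x 0) m + (D * m') * Int.gcdB (x 0) m := by ring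
        _ = x 0 * Int.gcdA (x 0) m + m * Int.gcdB (x 0) m := by rw [← hy 0, ← hm']
        _ = D * 1 := by rw [← h1, mul_one]
    exact mul_left_cancel₀ hDne h2
  -- `D ≤ B`
  have hDB : D ≤ B := by
    obtain ⟨j, hj⟩ := Function.ne_iff.1 x0
    have h1 : (D : ℤ) ≤ |x j| := Int.le_of_dvd (abs_pos.2 hj) ((dvd_abs _ _).2 ⟨y j, hy j⟩)
    exact_mod_cast h1.trans (hB j)
  -- the box
  set S : Finset V3 := Fintype.piFinset (fun _ : Fin 3 => Finset.Icc (0 : ℤ) r) with hS
  have hScard : S.card = (r + 1) ^ 3 := by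
    rw [hS, Fintype.card_piFinset]
    simp
  set Lo : ℤ := min 0 ((r : ℤ) * y 0) + min 0 ((r : ℤ) * y 1) + min 0 ((r : ℤ) * y 2) with hLo
  set Up : ℤ := max 0 ((r : ℤ) * y 0) + max 0 ((r : ℤ) * y 1) + max 0 ((r : ℤ) * y 2) with hUp
  have hUL : Up - Lo = r * (|y 0| + |y 1| + |y 2|) := by
    have e0 := max_sub_min r (y 0)
    have e1 := max_sub_min r (y 1)
    have e2 := max_sub_min r (y 2)
    rw [hUp, hLo]
    linarith
  have hmaps : ∀ k ∈ S, dt k y ∈ Finset.Icc Lo Up := by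
    intro k hk
    rw [hS, Fintype.mem_piFinset] at hk
    have hk0 := Finset.mem_Icc.1 (hk 0)
    have hk1 := Finset.mem_Icc.1 (hk 1)
    have hk2 := Finset.mem_Icc.1 (hk 2)
    have t0 := term_bd r (k 0) (y 0) hk0.1 hk0.2
    have t1 := term_bd r (k 1) (y 1) hk1.1 hk1.2
    have t2 := term_bd r (k 2) (y 2) hk2.1 hk2.2
    rw [Finset.mem_Icc, hLo, hUp]
    unfold dt
    constructor
    · linarith [t0.1, t1.1, t2.1]
    · linarith [t0.2, t1.2, t2.2]
  -- the fibres
  have hfib : ∀ s ∈ Finset.Icc Lo Up, (S.filter (fun k => dt k y = s)).card ≤ D := by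
    intro s _
    rcases (S.filter (fun k => dt k y = s)).eq_empty_or_nonempty with he | ⟨k0, hk0⟩
    · rw [he]
      simp
    have key : ∀ k ∈ S.filter (fun k => dt k y = s), m' ∣ dt k e - dt k0 e := by
      intro k hk
      have hks := (Finset.mem_filter.1 hk).2
      have hk0s := (Finset.mem_filter.1 hk0).2
      have h1 : (m : ℤ) ∣ (k 0 - k0 0) * (x 0 * e 0 - x 0 * e 0) +
          (k 1 - k0 1) * (x 0 * e 1 - x 1 * e 0) + (k 2 - k0 2) * (x 0 * e 2 - x 2 * e 0) :=
        dvd_add (dvd_add (Dvd.dvd.mul_left (hx' 0 0) _) (Dvd.dvd.mul_left (hx' 0 1) _))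
          (Dvd.dvd.mul_left (hx' 0 2) _)
      have h2 : (k 0 - k0 0) * (x 0 * e 0 - x 0 * e 0) +
          (k 1 - k0 1) * (x 0 * e 1 - x 1 * e 0) + (k 2 - k0 2) * (x 0 * e 2 - x 2 * e 0) =
          D * (y 0 * (dt k e - dt k0 e)) := by
        unfold dt at hks hk0s ⊢
        have h3 : (k 0 - k0 0) * y 0 + (k 1 - k0 1) * y 1 + (k 2 - k0 2) * y 2 = 0 := by
          linarith
        rw [hy 0, hy 1, hy 2]
        linear_combination (-(D : ℤ) * e 0) * h3
      rw [h2, hm'] at h1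
      have h4 : m' ∣ y 0 * (dt k e - dt k0 e) := (mul_dvd_mul_iff_left hDne).1 h1
      exact hco.symm.dvd_of_dvd_mul_left h4
    have h5 : (S.filter (fun k => dt k y = s)).card ≤ (Finset.Ico (0 : ℤ) D).card := by
      apply Finset.card_le_card_of_injOn (fun k => ((dt k e - dt k0 e) / m') % (D : ℤ))
      · intro k _
        simp only [Finset.coe_Ico, Set.mem_Ico]
        exact ⟨Int.emod_nonneg _ hDne, Int.emod_lt_of_pos _ hDZ⟩
      · intro k hk k' hk' hkk
        simp only at hkk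
        have hk1 := key k hk
        have hk1' := key k' hk'
        obtain ⟨a, ha⟩ := hk1
        obtain ⟨a', ha'⟩ := hk1'
        rw [ha, ha', Int.mul_ediv_cancel_left _ hm'pos.ne', Int.mul_ediv_cancel_left _ hm'pos.ne'] at hkk
        have h6 : (D : ℤ) ∣ a - a' := (Int.ModEq.symm hkk).dvd
        have h7 : (m : ℤ) ∣ dt (k - k') e := by
          obtain ⟨b, hb⟩ := h6
          refine ⟨b, ?_⟩
          have h8 : dt (k - k') e = (dt k e - dt k0 e) - (dt k' e - dt k0 e) := by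
            unfold dt
            simp only [Pi.sub_apply]
            ring
          rw [h8, ha, ha', hm', ← mul_sub, hb]
          ring
        have h9 : k - k' = 0 := by
          apply h.hyp _ h7
          intro i
          have hkS := (Finset.mem_filter.1 hk).1
          have hkS' := (Finset.mem_filter.1 hk').1
          rw [hS, Fintype.mem_piFinset] at hkS hkS'
          have u1 := Finset.mem_Icc.1 (hkS i)
          have u2 := Finset.mem_Icc.1 (hkS' i)
          simp only [Pi.sub_apply]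
          rw [abs_le]
          constructor <;> linarith [u1.1, u1.2, u2.1, u2.2]
        exact sub_eq_zero.1 h9
    simpa using h5
  have hmain := Finset.card_le_mul_card_image_of_maps_to hmaps D hfib
  rw [hScard, Int.card_Icc] at hmain
  have hnn : 0 ≤ Up - Lo := by
    rw [hUL]
    positivity
  have hmainZ : ((r : ℤ) + 1) ^ 3 ≤ D * (Up - Lo + 1) := by
    have h1 : ((Up + 1 - Lo).toNat : ℤ) = Up - Lo + 1 := by
      rw [Int.toNat_of_nonneg (by linarith)]
      ring
    have h2 : (((r + 1) ^ 3 : ℕ) : ℤ) ≤ ((D * (Up + 1 - Lo).toNat : ℕ) : ℤ) := by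
      exact_mod_cast hmain
    push_cast at h2
    rw [h1] at h2
    exact h2
  have hsum : (D : ℤ) * (|y 0| + |y 1| + |y 2|) ≤ 3 * B := by
    have e0 : ∀ i, (D : ℤ) * |y i| = |x i| := by
      intro i
      rw [hy i, abs_mul, Nat.abs_cast]
    have := hB 0
    have := hB 1
    have := hB 2
    have e1 := e0 0
    have e2 := e0 1
    have e3 := e0 2
    nlinarith
  have hfin : ((r : ℤ) + 1) ^ 3 ≤ (3 * r + 1) * B := by
    rw [hUL] at hmainZ
    have h3 : (D : ℤ) * (r * (|y 0| + |y 1| + |y 2|) + 1) = r * (D * (|y 0| + |y 1| + |y 2|)) + D := by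
      ring
    rw [h3] at hmainZ
    have h4 : (r : ℤ) * (D * (|y 0| + |y 1| + |y 2|)) ≤ r * (3 * B) :=
      mul_le_mul_of_nonneg_left hsum (by positivity)
    have h5 : (D : ℤ) ≤ B := by exact_mod_cast hDB
    linarith
  have hr0 : (0 : ℤ) ≤ r := by positivity
  have hfin2 : (r : ℤ) ^ 2 * (3 * r + 1) ≤ (3 * B) * (3 * r + 1) := by
    nlinarith [mul_nonneg hr0 hr0]
  have hfin3 : (r : ℤ) ^ 2 ≤ 3 * B := le_of_mul_le_mul_right hfin2 (by positivity)
  exact_mod_cast hfin3

/-- the same with a long coordinate (from `shv` with `B = max |x i|`) -/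
theorem shv' {m r : ℕ} {e : V3} (h : Lat m e r) (x : V3) (hx : x ∈ Lam m e) (x0 : x ≠ 0) :
    ∃ i, (r : ℝ) ^ 2 / 3 ≤ |(x i : ℝ)| := by
  obtain ⟨i, -, hi⟩ := Finset.exists_max_image Finset.univ (fun i : Fin 3 => |x i|)
    ⟨0, Finset.mem_univ _⟩
  refine ⟨i, ?_⟩
  have h1 := shv h x hx x0 (x i).natAbs (by
    intro j
    rw [Int.natCast_natAbs]
    exact hi j (Finset.mem_univ j))
  have h2 : (r : ℝ) ^ 2 ≤ 3 * ((x i).natAbs : ℝ) := by exact_mod_cast h1
  have h3 : ((x i).natAbs : ℝ) = |(x i : ℝ)| := by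
    rw [Nat.cast_natAbs, Int.cast_abs]
  rw [h3] at h2
  linarith

end Pool.Agent.SMP
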