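import Pool.Agent.SMP.SbA
import Pool.Agent.SMP.Shv

/-!
# SMP/SbC (size 3): (P10) (c), (d), (e), (f)

PROOF of `sbC_cr`.  By `sbA_cr` `cr h h' = m w0`, `w0 ∈ Mm m e`.  Every component of `cr h h'` is `h a h' b - h b h' a`, `a ≠ b`, and
`{a, b}` meets `{i, j}` (`i ≠ j`): it is divisible by `l`.  `l` is prime to `m`, so `l ∣ w0 a`; `w0 = l w`, and `l dt w e = dt w0 e`
is divisible by `m`, so `m ∣ dt w e`.
PROOF of `sbC_det`.  Every term of `det3 a b c` is a product of an entry with index 0, an entry with index 1, an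
entry with index 2; two of them are divisible by `l`.  So `l ^ 2 ∣ det3`, `m ^ 2 ∣ det3` (`sbA_det`), coprime.
PROOF of `sbD`.  `l ∤ m`: `l ∣ det3` (every term has an entry with index `i`), coprime to `m ^ 2`.
`l ∣ m`, `m = l m'`: `a ∈ Lam m e`, `l ∣ a i`: `a j e i ≡ a i e j ≡ 0` modulo `l`, `e i` is prime to `l`, so `l ∣ a j` for all `j`:
`a = l a'`, `a' ∈ Lam m' e`; `det3 a b c = l ^ 3 det3 a' b' c'` is divisible by `l ^ 3 m' ^ 2 = l m ^ 2`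
(`sbA_det` for `m'`; `e i` is prime to `m'`).
PROOF of `sbE`.  `a = l a'`, `a' ∈ Lam m e` (`l` prime to `m`); `det3 = l ^ 3 det3`, and `shv'` for `h'`.
PROOF of `sbF`.  `h ∈ U ⊓ Dv W univ`: `h = W h'`, `h' ∈ U` (`hd`); `det3` gets the factor `W ^ 3`, the length the factor `W`.
-/

set_option autoImplicit false

namespace Pool.Agent.SMP

open Pool.Agent.SLB (V3 det3)

private theorem f3 (i : Fin 3) : i = 0 ∨ i = 1 ∨ i = 2 := by
  revert i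
  decide

private theorem meet : ∀ i j a b : Fin 3, i ≠ j → a ≠ b → ((a = i ∨ a = j) ∨ (b = i ∨ b = j)) := by
  decide

private theorem cop {l m : ℕ} (hl : l.Prime) (hlm : ¬ l ∣ m) : IsCoprime (l : ℤ) (m : ℤ) :=
  Nat.isCoprime_iff_coprime.2 ((Nat.Prime.coprime_iff_not_dvd hl).2 hlm)

private theorem dvu {l : ℕ} {h : V3} (hh : h ∈ Dv l Finset.univ) :
    ∃ h' : V3, h = fun i => (l : ℤ) * h' i := by
  have h1 : ∀ i, (l : ℤ) ∣ h i := fun i => hh i (Finset.mem_univ i)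
  choose h' hh' using h1
  exact ⟨h', funext hh'⟩

private theorem dsc (l : ℤ) (a b c : V3) :
    det3 (fun i => l * a i) (fun i => l * b i) (fun i => l * c i) = l ^ 3 * det3 a b c := by
  unfold det3
  ring

private theorem cmp {l : ℤ} {h h' : V3} {i j : Fin 3} (hij : i ≠ j) (hi : l ∣ h i) (hj : l ∣ h j)
    (hi' : l ∣ h' i) (hj' : l ∣ h' j) (a b : Fin 3) (hab : a ≠ b) :
    l ∣ h a * h' b - h b * h' a := by
  rcases meet i j a b hij hab with (h1 | h1) | (h1 | h1)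
  · subst h1
    exact dvd_sub (Dvd.dvd.mul_right hi _) (Dvd.dvd.mul_left hi' _)
  · subst h1
    exact dvd_sub (Dvd.dvd.mul_right hj _) (Dvd.dvd.mul_left hj' _)
  · subst h1
    exact dvd_sub (Dvd.dvd.mul_left hi' _) (Dvd.dvd.mul_right hi _)
  · subst h1
    exact dvd_sub (Dvd.dvd.mul_left hj' _) (Dvd.dvd.mul_right hj _)

private theorem crd {l : ℤ} {h h' : V3} {i j : Fin 3} (hij : i ≠ j) (hi : l ∣ h i) (hj : l ∣ h j)
    (hi' : l ∣ h' i) (hj' : l ∣ h' j) (a : Fin 3) : l ∣ cr h h' a := by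
  have key := cmp hij hi hj hi' hj'
  rcases f3 a with rfl | rfl | rfl
  · exact key 1 2 (by decide)
  · exact key 2 0 (by decide)
  · exact key 0 1 (by decide)

private theorem d2 (l : ℤ) (a b c : V3) (i j : Fin 3) (hij : i ≠ j)
    (ha : l ∣ a i) (ha' : l ∣ a j) (hb : l ∣ b i) (hb' : l ∣ b j) (hc : l ∣ c i) (hc' : l ∣ c j) :
    l ^ 2 ∣ det3 a b c := by
  obtain ⟨a0, ha⟩ := ha
  obtain ⟨a1, ha'⟩ := ha'
  obtain ⟨b0, hb⟩ := hb
  obtain ⟨b1, hb'⟩ := hb'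
  obtain ⟨c0, hc⟩ := hc
  obtain ⟨c1, hc'⟩ := hc'
  unfold det3
  rcases f3 i with rfl | rfl | rfl <;> rcases f3 j with rfl | rfl | rfl
  · exact absurd rfl hij
  · refine ⟨a0 * (b1 * c 2 - b 2 * c1) - a1 * (b0 * c 2 - b 2 * c0) + a 2 * (b0 * c1 - b1 * c0), ?_⟩
    rw [ha, ha', hb, hb', hc, hc']
    ring
  · refine ⟨a0 * (b 1 * c1 - b1 * c 1) - a 1 * (b0 * c1 - b1 * c0) + a1 * (b0 * c 1 - b 1 * c0), ?_⟩
    rw [ha, ha', hb, hb', hc, hc']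
    ring
  · refine ⟨a1 * (b0 * c 2 - b 2 * c0) - a0 * (b1 * c 2 - b 2 * c1) + a 2 * (b1 * c0 - b0 * c1), ?_⟩
    rw [ha, ha', hb, hb', hc, hc']
    ring
  · exact absurd rfl hij
  · refine ⟨a 0 * (b0 * c1 - b1 * c0) - a0 * (b 0 * c1 - b1 * c 0) + a1 * (b 0 * c0 - b0 * c 0), ?_⟩
    rw [ha, ha', hb, hb', hc, hc']
    ring
  · refine ⟨a1 * (b 1 * c0 - b0 * c 1) - a 1 * (b1 * c0 - b0 * c1) + a0 * (b1 * c 1 - b 1 * c1), ?_⟩
    rw [ha, ha', hb, hb', hc, hc']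
    ring
  · refine ⟨a 0 * (b1 * c0 - b0 * c1) - a1 * (b 0 * c0 - b0 * c 0) + a0 * (b 0 * c1 - b1 * c 0), ?_⟩
    rw [ha, ha', hb, hb', hc, hc']
    ring
  · exact absurd rfl hij

private theorem d1 (l : ℤ) (a b c : V3) (i : Fin 3)
    (ha : l ∣ a i) (hb : l ∣ b i) (hc : l ∣ c i) : l ∣ det3 a b c := by
  obtain ⟨a0, ha⟩ := ha
  obtain ⟨b0, hb⟩ := hb
  obtain ⟨c0, hc⟩ := hc
  unfold det3
  rcases f3 i with rfl | rfl | rfl
  · refine ⟨a0 * (b 1 * c 2 - b 2 * c 1) - a 1 * (b0 * c 2 - b 2 * c0) +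
      a 2 * (b0 * c 1 - b 1 * c0), ?_⟩
    rw [ha, hb, hc]
    ring
  · refine ⟨a 0 * (b0 * c 2 - b 2 * c0) - a0 * (b 0 * c 2 - b 2 * c 0) +
      a 2 * (b 0 * c0 - b0 * c 0), ?_⟩
    rw [ha, hb, hc]
    ring
  · refine ⟨a 0 * (b 1 * c0 - b0 * c 1) - a 1 * (b 0 * c0 - b0 * c 0) +
      a0 * (b 0 * c 1 - b 1 * c 0), ?_⟩
    rw [ha, hb, hc]
    ring

private theorem two {l : ℕ} {i j : Fin 3} {h : V3} (hh : h ∈ Dv l {i, j}) :
    (l : ℤ) ∣ h i ∧ (l : ℤ) ∣ h j :=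
  ⟨hh i (by simp), hh j (by simp)⟩

theorem sbC_cr {m l : ℕ} {e : V3} (hm : 1 ≤ m) (he : ∀ i, IsCoprime (e i) (m : ℤ)) (hl : l.Prime)
    (hlm : ¬ l ∣ m) {i j : Fin 3} (hij : i ≠ j) {h h' : V3} (h1 : h ∈ Lam m e ⊓ Dv l {i, j})
    (h2 : h' ∈ Lam m e ⊓ Dv l {i, j}) : ∃ w ∈ Mm m e, ∀ a, cr h h' a = (l : ℤ) * m * w a := by
  obtain ⟨w0, hw0, hc⟩ := sbA_cr hm he h1.1 h2.1
  obtain ⟨ha, ha'⟩ := two h1.2
  obtain ⟨hb, hb'⟩ := two h2.2
  have hcop := cop hl hlm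
  have hd : ∀ a, (l : ℤ) ∣ w0 a := by
    intro a
    have h3 := crd hij ha ha' hb hb' a
    rw [hc a] at h3
    exact hcop.dvd_of_dvd_mul_left h3
  choose w hw using hd
  refine ⟨w, ?_, ?_⟩
  · rw [mem_Mm] at hw0 ⊢
    have h3 : dt w0 e = (l : ℤ) * dt w e := by
      simp only [dt]
      rw [hw 0, hw 1, hw 2]
      ring
    rw [h3] at hw0
    exact hcop.symm.dvd_of_dvd_mul_left hw0
  · intro a
    rw [hc a, hw a]
    ring

theorem sbC_det {m l : ℕ} {e : V3} (hm : 1 ≤ m) (he : ∀ i, IsCoprime (e i) (m : ℤ)) (hl : l.Prime)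
    (hlm : ¬ l ∣ m) {i j : Fin 3} (hij : i ≠ j) {a b c : V3} (ha : a ∈ Lam m e ⊓ Dv l {i, j})
    (hb : b ∈ Lam m e ⊓ Dv l {i, j}) (hc : c ∈ Lam m e ⊓ Dv l {i, j}) :
    ((l ^ 2 * m ^ 2 : ℕ) : ℤ) ∣ det3 a b c := by
  have h1 := sbA_det hm he ha.1 hb.1 hc.1
  have h2 := d2 (l : ℤ) a b c i j hij (two ha.2).1 (two ha.2).2 (two hb.2).1 (two hb.2).2
    (two hc.2).1 (two hc.2).2
  have h3 : IsCoprime ((l : ℤ) ^ 2) ((m : ℤ) ^ 2) := (cop hl hlm).pow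
  push_cast at h1 ⊢
  exact h3.mul_dvd h2 h1

theorem sbD {m l : ℕ} {e : V3} (hm : 1 ≤ m) (he : ∀ i, IsCoprime (e i) (m : ℤ)) (hl : l.Prime)
    {i : Fin 3} {a b c : V3} (ha : a ∈ Lam m e ⊓ Dv l {i}) (hb : b ∈ Lam m e ⊓ Dv l {i})
    (hc : c ∈ Lam m e ⊓ Dv l {i}) : ((l * m ^ 2 : ℕ) : ℤ) ∣ det3 a b c := by
  have ha1 : (l : ℤ) ∣ a i := ha.2 i (by simp)
  have hb1 : (l : ℤ) ∣ b i := hb.2 i (by simp)
  have hc1 : (l : ℤ) ∣ c i := hc.2 i (by simp)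
  by_cases hlm : l ∣ m
  · obtain ⟨m', rfl⟩ := hlm
    have hl0 : (l : ℤ) ≠ 0 := by exact_mod_cast hl.ne_zero
    have hm' : 1 ≤ m' := by
      rcases Nat.eq_zero_or_pos m' with h | h
      · rw [h] at hm
        simp at hm
      · exact h
    have hel : IsCoprime (e i) (l : ℤ) := by
      have := he i
      push_cast at this
      exact IsCoprime.of_mul_right_left this
    have hem : ∀ k, IsCoprime (e k) (m' : ℤ) := by
      intro k
      have := he k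
      push_cast at this
      exact IsCoprime.of_mul_right_right this
    have key : ∀ x : V3, x ∈ Lam (l * m') e → (l : ℤ) ∣ x i →
        ∃ x' : V3, x = (fun k => (l : ℤ) * x' k) ∧ x' ∈ Lam m' e := by
      intro x hx hxi
      have h1 : ∀ k, (l : ℤ) ∣ x k := by
        intro k
        have h2 := hx k i
        push_cast at h2
        have h3 : (l : ℤ) ∣ x k * e i - x i * e k := dvd_trans (Dvd.intro _ rfl) h2
        have h4 : (l : ℤ) ∣ x k * e i := by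
          have h5 : (l : ℤ) ∣ x i * e k := Dvd.dvd.mul_right hxi _
          have h6 := dvd_add h3 h5
          simpa using h6
        exact hel.symm.dvd_of_dvd_mul_right h4
      choose x' hx' using h1
      refine ⟨x', funext hx', ?_⟩
      rw [mem_Lam]
      intro p q
      have h2 := hx p q
      rw [hx' p, hx' q] at h2
      push_cast at h2
      have h3 : (l : ℤ) * x' p * e q - (l : ℤ) * x' q * e p =
          (l : ℤ) * (x' p * e q - x' q * e p) := by ring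
      rw [h3] at h2
      exact (mul_dvd_mul_iff_left hl0).1 h2
    obtain ⟨a', rfl, ha2⟩ := key a ha.1 ha1
    obtain ⟨b', rfl, hb2⟩ := key b hb.1 hb1
    obtain ⟨c', rfl, hc2⟩ := key c hc.1 hc1
    obtain ⟨t, ht⟩ := sbA_det hm' hem ha2 hb2 hc2
    rw [dsc, ht]
    refine ⟨t, ?_⟩
    push_cast
    ring
  · have h1 := sbA_det hm he ha.1 hb.1 hc.1
    have h2 := d1 (l : ℤ) a b c i ha1 hb1 hc1
    have h3 : IsCoprime (l : ℤ) ((m : ℤ) ^ 2) := (cop hl hlm).pow_right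
    push_cast at h1 ⊢
    exact h3.mul_dvd h2 h1

theorem sbE {m r l : ℕ} {e : V3} (hL : Lat m e r) (hl : l.Prime) (hlm : ¬ l ∣ m) :
    Ok (Lam m e ⊓ Dv l Finset.univ) (l ^ 3 * m ^ 2) (l * ((r : ℝ) ^ 2 / 3)) := by
  have hl1 : 1 ≤ l := hl.one_le
  have hlR : (0 : ℝ) < l := by exact_mod_cast hl.pos
  have hrR : (0 : ℝ) < r := by exact_mod_cast (Nat.lt_of_lt_of_le Nat.zero_lt_one hL.hr)
  have hcop := cop hl hlm
  have key : ∀ x : V3, x ∈ Lam m e ⊓ Dv l Finset.univ →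
      ∃ x' : V3, x = (fun k => (l : ℤ) * x' k) ∧ x' ∈ Lam m e := by
    intro x hx
    obtain ⟨x', rfl⟩ := dvu hx.2
    refine ⟨x', rfl, ?_⟩
    rw [mem_Lam]
    intro p q
    have h2 := hx.1 p q
    have h3 : (l : ℤ) * x' p * e q - (l : ℤ) * x' q * e p =
        (l : ℤ) * (x' p * e q - x' q * e p) := by ring
    have h4 : (m : ℤ) ∣ (l : ℤ) * (x' p * e q - x' q * e p) := by
      rw [← h3]
      exact h2
    exact hcop.symm.dvd_of_dvd_mul_left h4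
  refine ⟨?_, by positivity, ?_, ?_⟩
  · exact Nat.one_le_iff_ne_zero.2 (Nat.mul_ne_zero (pow_ne_zero _ (by omega))
      (pow_ne_zero _ (by have := hL.hm; omega)))
  · intro a ha b hb c hc
    obtain ⟨a', rfl, ha2⟩ := key a ha
    obtain ⟨b', rfl, hb2⟩ := key b hb
    obtain ⟨c', rfl, hc2⟩ := key c hc
    obtain ⟨t, ht⟩ := sbA_det hL.hm hL.co ha2 hb2 hc2
    rw [dsc, ht]
    refine ⟨t, ?_⟩
    push_cast
    ring
  · intro h hh h0
    obtain ⟨h', rfl, hh2⟩ := key h hh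
    have h0' : h' ≠ 0 := by
      rintro rfl
      apply h0
      funext k
      simp
    obtain ⟨i, hi⟩ := shv' hL h' hh2 h0'
    refine ⟨i, ?_⟩
    have h3 : (((l : ℤ) * h' i : ℤ) : ℝ) = (l : ℝ) * (h' i : ℝ) := by push_cast; ring
    show (l : ℝ) * ((r : ℝ) ^ 2 / 3) ≤ |(((l : ℤ) * h' i : ℤ) : ℝ)|
    rw [h3, abs_mul, abs_of_pos hlR]
    exact mul_le_mul_of_nonneg_left hi hlR.le

theorem sbF (U : AddSubgroup V3) (m0 : ℕ) (s : ℝ) (hU : Ok U m0 s) (W : ℕ) (hW : 1 ≤ W)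
    (hd : ∀ h : V3, (fun i => (W : ℤ) * h i) ∈ U → h ∈ U) :
    Ok (U ⊓ Dv W Finset.univ) (W ^ 3 * m0) (W * s) := by
  have hWR : (0 : ℝ) < W := by exact_mod_cast (Nat.lt_of_lt_of_le Nat.zero_lt_one hW)
  have key : ∀ x : V3, x ∈ U ⊓ Dv W Finset.univ →
      ∃ x' : V3, x = (fun k => (W : ℤ) * x' k) ∧ x' ∈ U := by
    intro x hx
    obtain ⟨x', rfl⟩ := dvu hx.2
    exact ⟨x', rfl, hd x' hx.1⟩
  refine ⟨?_, mul_pos hWR hU.hs, ?_, ?_⟩
  · exact Nat.one_le_iff_ne_zero.2 (Nat.mul_ne_zero (pow_ne_zero _ (by omega))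
      (by have := hU.hm; omega))
  · intro a ha b hb c hc
    obtain ⟨a', rfl, ha2⟩ := key a ha
    obtain ⟨b', rfl, hb2⟩ := key b hb
    obtain ⟨c', rfl, hc2⟩ := key c hc
    obtain ⟨t, ht⟩ := hU.det a' ha2 b' hb2 c' hc2
    rw [dsc, ht]
    refine ⟨t, ?_⟩
    push_cast
    ring
  · intro h hh h0
    obtain ⟨h', rfl, hh2⟩ := key h hh
    have h0' : h' ≠ 0 := by
      rintro rfl
      apply h0
      funext k
      simp
    obtain ⟨i, hi⟩ := hU.sh h' hh2 h0'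
    refine ⟨i, ?_⟩
    have h3 : (((W : ℤ) * h' i : ℤ) : ℝ) = (W : ℝ) * (h' i : ℝ) := by push_cast; ring
    show (W : ℝ) * s ≤ |(((W : ℤ) * h' i : ℤ) : ℝ)|
    rw [h3, abs_mul, abs_of_pos hWR]
    exact mul_le_mul_of_nonneg_left hi hWR.le

end Pool.Agent.SMP
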