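import Pool.Agent.SMP.Pln
import Pool.Agent.SMP.SbC
import Pool.Agent.SMP.Pck
import Pool.Agent.SMP.Alg
import Pool.Agent.SMP.Rts

/-!
# SMP/CnL (size 4): (P18) points with a large common prime factor of two `N`

PROOF.  `Q` is covered by the sets `Q(k0, l, k)` of the `g ∈ Q` with `κ g = k0` for which `(l, k)` is as in the hypothesis:
`k0` has at most `(2 (H / r) + 2) ^ 3` values (`pack` with `R = H`), `k` 3 values, and `l` divides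
`n = |∏_k κ_k E_k|` (`alg`), which is not 0 (`nfz`) and `≤ (7 Y ^ 3 H ^ 4) ^ 3`: `|Cv| ≤ 6 Y H ^ 3`, `m ≥ 1`,
`|E_k| ≤ 6 Y ^ 3 H ^ 3 + H ^ 3 ≤ 7 Y ^ 3 H ^ 3`; so `l` has at most `B` values (`hB`).
Each `Q(k0, l, k)` is contained in the union of at most 4 sets which are in a subgroup `U` with `m1 = l`:
(a) no `g i` is divisible by `l`: `rts` gives 3 classes, `U = Lam (l m) e'`; `sbB`, `sbA_cr` for `(l m, e')`: `cr h h' = l m w`,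
`w ∈ Mm (l m) e' ≤ Mm m e`.
(b) some `g i` is divisible by `l`, not all: then `l ∣ g (k + 1)` and `l ∣ g (k + 2)`: with `i = k + 1`, `j = k + 2`: if `l ∣ g_k` then `l ∣ p g_i²`
and `l ∣ p g_j²`, so all (excluded); if `l ∣ g_i` then from `N_j` `l ∣ p g_j²`, and conversely.  `l ∤ m` (`g 0` prime to `m`, and
`g_i e_0 ≡ g_0 e_i`).  `U = Lam m e ⊓ Dv l {k + 1, k + 2}`, `sbC_cr`.
`pln` with `m1 = l`, `B = 2 G`, `K = r`: at most `24 G / r ^ 2 + 2 + 216 G ^ 2 / (l m r)`, `l > L0`.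
Total: `(2 (H / r) + 2) ^ 3 * 3 B * 4 * (..)`.
-/

set_option autoImplicit false

namespace Pool.Agent.SMP

open Pool.Agent.SLB (V3 det3)

/-- the bound for one lattice -/
private noncomputable def XX (G r L0 m : ℕ) : ℝ :=
  24 * (G : ℝ) / (r : ℝ) ^ 2 + 2 + 216 * (G : ℝ) ^ 2 / ((L0 : ℝ) * m * r)

private theorem plX {m r : ℕ} {e : V3} (hL : Lat m e r) (κ : V3) (hκ : Prim κ) (U : AddSubgroup V3)
    (hU : U ≤ Lam m e) (l L0 G : ℕ) (hL0 : 1 ≤ L0) (hl : L0 < l)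
    (hcr : ∀ h ∈ U, ∀ h' ∈ U, ∃ w ∈ Mm m e, ∀ i, cr h h' i = (l : ℤ) * m * w i)
    (Q : Finset V3) (hQ : ∀ q ∈ Q, q ∈ U ∧ dt κ q = 0 ∧ ∀ i, |q i| ≤ ((2 * G : ℕ) : ℤ)) :
    (Q.card : ℝ) ≤ XX G r L0 m := by
  have h := pln hL κ hκ U hU l (by omega) hcr (2 * G) r hL.hr (Or.inl le_rfl) Q hQ
  have hm : (0 : ℝ) < m := by exact_mod_cast hL.hm
  have hr : (0 : ℝ) < r := by exact_mod_cast hL.hr
  have hL0' : (0 : ℝ) < L0 := by exact_mod_cast hL0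
  have hl' : (L0 : ℝ) ≤ l := by exact_mod_cast hl.le
  refine h.trans ?_
  unfold XX
  have e1 : 12 * ((2 * G : ℕ) : ℝ) / (r : ℝ) ^ 2 = 24 * (G : ℝ) / (r : ℝ) ^ 2 := by
    push_cast; ring
  have e2 : 54 * ((2 * G : ℕ) : ℝ) ^ 2 / ((l : ℝ) * m * r) ≤
      216 * (G : ℝ) ^ 2 / ((L0 : ℝ) * m * r) := by
    have e3 : 54 * ((2 * G : ℕ) : ℝ) ^ 2 = 216 * (G : ℝ) ^ 2 := by push_cast; ring
    rw [e3]
    gcongr
  rw [e1]
  linarith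

private theorem fin3 (k : Fin 3) : k + 1 + 1 = k + 2 ∧ k + 1 + 2 = k ∧ k + 2 + 1 = k ∧
    k + 2 + 2 = k + 1 ∧ k + 1 ≠ k + 2 ∧ ∀ i : Fin 3, i = k ∨ i = k + 1 ∨ i = k + 2 := by
  revert k
  decide

private theorem stepA {W p1 m r : ℕ} {y e : V3} (h : Ps W p1 m r y e) (g0 : V3) (G L0 : ℕ)
    (hL0 : 10 ^ 6 ≤ L0) (k0 : V3) (l : ℕ) (k : Fin 3) (hl : l.Prime) (hlL : L0 < l) (hlp : l ≠ p1)
    (hy1 : ¬ (l : ℤ) ∣ y (k + 1)) (hy2 : ¬ (l : ℤ) ∣ y (k + 2)) (Q : Finset V3)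
    (hQ : ∀ g ∈ Q, g ∈ Z0 W m e g0 G ∧ IsCoprime (g 0) (m : ℤ) ∧ Prim k0 ∧ dt k0 g = 0 ∧
      (l : ℤ) ∣ Nn ((W * p1 : ℕ) : ℤ) m y g (k + 1) ∧
      (l : ℤ) ∣ Nn ((W * p1 : ℕ) : ℤ) m y g (k + 2) ∧ ¬ ∀ i, (l : ℤ) ∣ g i) :
    (Q.card : ℝ) ≤ 4 * XX G r L0 m := by
  classical
  have hX0 : 0 ≤ XX G r L0 m := by unfold XX; positivity
  rcases Q.eq_empty_or_nonempty with rfl | ⟨q0, hq0⟩
  · simpa using hX0
  have hPr : Prim k0 := (hQ q0 hq0).2.2.1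
  have hl6 : 10 ^ 6 < l := lt_of_le_of_lt hL0 hlL
  have hlZ : Prime (l : ℤ) := Nat.prime_iff_prime_int.1 hl
  have hlpp : ¬ (l : ℤ) ∣ ((W * p1 : ℕ) : ℤ) := by
    intro hd
    have hd' : l ∣ W * p1 := by exact_mod_cast hd
    rcases (Nat.Prime.dvd_mul hl).1 hd' with h1 | h1
    · exact absurd ((h.hW.dv l hl).1 h1) (by omega)
    · exact hlp ((Nat.prime_dvd_prime_iff_eq hl h.pp).1 h1)
  have hgb : ∀ g ∈ Q, ∀ i, |g i| ≤ ((2 * G : ℕ) : ℤ) := by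
    intro g hg i
    have h1 := ((mem_Z0 W m e g0 G g).1 (hQ g hg).1).1 i
    rw [abs_of_nonneg (by have : (0 : ℤ) ≤ (G : ℤ) := by positivity
                          linarith)]
    push_cast
    linarith
  have hgL : ∀ g ∈ Q, g ∈ Lam m e := fun g hg => ((mem_Z0 W m e g0 G g).1 (hQ g hg).1).2.1
  -- the two parts
  have hsplit : Q = Q.filter (fun g => ∀ i, ¬ (l : ℤ) ∣ g i) ∪
      Q.filter (fun g => ¬ ∀ i, ¬ (l : ℤ) ∣ g i) := (Finset.filter_union_filter_not_eq _ Q).symm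
  have hcard : (Q.card : ℝ) ≤ ((Q.filter (fun g => ∀ i, ¬ (l : ℤ) ∣ g i)).card : ℝ) +
      ((Q.filter (fun g => ¬ ∀ i, ¬ (l : ℤ) ∣ g i)).card : ℝ) := by
    have h1 := Finset.card_union_le (Q.filter (fun g => ∀ i, ¬ (l : ℤ) ∣ g i))
      (Q.filter (fun g => ¬ ∀ i, ¬ (l : ℤ) ∣ g i))
    rw [← hsplit] at h1
    exact_mod_cast h1
  -- part A
  have hA : ((Q.filter (fun g => ∀ i, ¬ (l : ℤ) ∣ g i)).card : ℝ) ≤ 3 * XX G r L0 m := by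
    obtain ⟨E, hE3, hE, hQE⟩ := rts h l hl hl6 hlp k hy1 hy2
      (Q.filter (fun g => ∀ i, ¬ (l : ℤ) ∣ g i)) (fun g hg => by
        rw [Finset.mem_filter] at hg
        obtain ⟨h1, h2, h3, h4, h5, h6, h7⟩ := hQ g hg.1
        exact ⟨hgL g hg.1, h2, hg.2, h5, h6⟩)
    have hsub : Q.filter (fun g => ∀ i, ¬ (l : ℤ) ∣ g i) ⊆
        E.biUnion (fun e' => (Q.filter (fun g => ∀ i, ¬ (l : ℤ) ∣ g i)).filter
          (fun g => g ∈ Lam (l * m) e')) := by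
      intro g hg
      obtain ⟨e', he', hge⟩ := hQE g hg
      rw [Finset.mem_biUnion]
      exact ⟨e', he', Finset.mem_filter.2 ⟨hg, hge⟩⟩
    have h1 := (Finset.card_le_card hsub).trans Finset.card_biUnion_le
    have h2 : ((Q.filter (fun g => ∀ i, ¬ (l : ℤ) ∣ g i)).card : ℝ) ≤ ∑ e' ∈ E,
        (((Q.filter (fun g => ∀ i, ¬ (l : ℤ) ∣ g i)).filter
          (fun g => g ∈ Lam (l * m) e')).card : ℝ) := by exact_mod_cast h1
    have h3 : ∀ e' ∈ E, (((Q.filter (fun g => ∀ i, ¬ (l : ℤ) ∣ g i)).filter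
        (fun g => g ∈ Lam (l * m) e')).card : ℝ) ≤ XX G r L0 m := by
      intro e' he'
      obtain ⟨hel, hec⟩ := hE e' he'
      obtain ⟨hb1, hb2⟩ := sbB h.lat.co hec hel
      refine plX h.lat k0 hPr (Lam (l * m) e') hb1 l L0 G (by omega) hlL ?_ _ ?_
      · intro u hu u' hu'
        have hlm1 : 1 ≤ l * m := Nat.mul_pos hl.pos h.lat.hm
        obtain ⟨w, hw, hw'⟩ := sbA_cr hlm1 hec hu hu'
        refine ⟨w, hb2 hw, fun i => ?_⟩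
        rw [hw' i]
        push_cast
        ring
      · intro q hq
        rw [Finset.mem_filter, Finset.mem_filter] at hq
        exact ⟨hq.2, (hQ q hq.1.1).2.2.2.1, hgb q hq.1.1⟩
    have h4 : ∑ e' ∈ E, (((Q.filter (fun g => ∀ i, ¬ (l : ℤ) ∣ g i)).filter
          (fun g => g ∈ Lam (l * m) e')).card : ℝ) ≤ E.card • XX G r L0 m :=
      Finset.sum_le_card_nsmul _ _ _ h3
    rw [nsmul_eq_mul] at h4
    have h5 : (E.card : ℝ) ≤ 3 := by exact_mod_cast hE3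
    have h6 : (E.card : ℝ) * XX G r L0 m ≤ 3 * XX G r L0 m := by gcongr
    linarith
  -- part B
  have hB : ((Q.filter (fun g => ¬ ∀ i, ¬ (l : ℤ) ∣ g i)).card : ℝ) ≤ XX G r L0 m := by
    rcases (Q.filter (fun g => ¬ ∀ i, ¬ (l : ℤ) ∣ g i)).eq_empty_or_nonempty with h0 | ⟨q1, hq1⟩
    · rw [h0]; simpa using hX0
    obtain ⟨f1, f2, f3, f4, f5, f6⟩ := fin3 k
    have key : ∀ g ∈ Q.filter (fun g => ¬ ∀ i, ¬ (l : ℤ) ∣ g i),
        (l : ℤ) ∣ g (k + 1) ∧ (l : ℤ) ∣ g (k + 2) := by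
      intro g hg
      rw [Finset.mem_filter] at hg
      obtain ⟨hgQ, hgn⟩ := hg
      obtain ⟨h1, h2, h3, h4, h5, h6, h7⟩ := hQ g hgQ
      have hA1 := dvdL m ((W * p1 : ℕ) : ℤ) y e g (h.lat.co 0) h.ee (hgL g hgQ) (k + 1)
      have hA2 := dvdL m ((W * p1 : ℕ) : ℤ) y e g (h.lat.co 0) h.ee (hgL g hgQ) (k + 2)
      have hm1 : (l : ℤ) ∣ ((W * p1 : ℕ) : ℤ) * g (k + 1) ^ 2 - y (k + 1) * (g (k + 2) * g k) := by
        have h8 : Nn ((W * p1 : ℕ) : ℤ) m y g (k + 1) * m =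
            ((W * p1 : ℕ) : ℤ) * g (k + 1) ^ 2 - y (k + 1) * (g (k + 1 + 1) * g (k + 1 + 2)) := by
          unfold Nn
          exact Int.ediv_mul_cancel hA1
        rw [f1, f2] at h8
        rw [← h8]
        exact Dvd.dvd.mul_right h5 _
      have hm2 : (l : ℤ) ∣ ((W * p1 : ℕ) : ℤ) * g (k + 2) ^ 2 - y (k + 2) * (g k * g (k + 1)) := by
        have h8 : Nn ((W * p1 : ℕ) : ℤ) m y g (k + 2) * m =
            ((W * p1 : ℕ) : ℤ) * g (k + 2) ^ 2 - y (k + 2) * (g (k + 2 + 1) * g (k + 2 + 2)) := by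
          unfold Nn
          exact Int.ediv_mul_cancel hA2
        rw [f3, f4] at h8
        rw [← h8]
        exact Dvd.dvd.mul_right h6 _
      have hpx : ∀ x : ℤ, (l : ℤ) ∣ ((W * p1 : ℕ) : ℤ) * x ^ 2 → (l : ℤ) ∣ x := by
        intro x hx
        rcases hlZ.dvd_or_dvd hx with h8 | h8
        · exact absurd h8 hlpp
        · exact hlZ.dvd_of_dvd_pow h8
      have hgk : ¬ (l : ℤ) ∣ g k := by
        intro hk
        apply h7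
        have h8 : (l : ℤ) ∣ g (k + 1) := by
          apply hpx
          have h9 : (l : ℤ) ∣ y (k + 1) * (g (k + 2) * g k) :=
            Dvd.dvd.mul_left (Dvd.dvd.mul_left hk _) _
          have := dvd_add hm1 h9
          simpa using this
        have h9 : (l : ℤ) ∣ g (k + 2) := by
          apply hpx
          have h9 : (l : ℤ) ∣ y (k + 2) * (g k * g (k + 1)) :=
            Dvd.dvd.mul_left (Dvd.dvd.mul_right hk _) _
          have := dvd_add hm2 h9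
          simpa using this
        intro i
        rcases f6 i with rfl | rfl | rfl
        · exact hk
        · exact h8
        · exact h9
      have h12 : (l : ℤ) ∣ g (k + 1) → (l : ℤ) ∣ g (k + 2) := by
        intro h8
        apply hpx
        have h9 : (l : ℤ) ∣ y (k + 2) * (g k * g (k + 1)) :=
          Dvd.dvd.mul_left (Dvd.dvd.mul_left h8 _) _
        have := dvd_add hm2 h9
        simpa using this
      have h21 : (l : ℤ) ∣ g (k + 2) → (l : ℤ) ∣ g (k + 1) := by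
        intro h8
        apply hpx
        have h9 : (l : ℤ) ∣ y (k + 1) * (g (k + 2) * g k) :=
          Dvd.dvd.mul_left (Dvd.dvd.mul_right h8 _) _
        have := dvd_add hm1 h9
        simpa using this
      push Not at hgn
      obtain ⟨i, hi⟩ := hgn
      rcases f6 i with rfl | rfl | rfl
      · exact absurd hi hgk
      · exact ⟨hi, h12 hi⟩
      · exact ⟨h21 hi, hi⟩
    have hlm : ¬ l ∣ m := by
      intro hd
      have hdZ : (l : ℤ) ∣ (m : ℤ) := by exact_mod_cast hd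
      have hq1Q := (Finset.mem_filter.1 hq1).1
      have h1 := (key q1 hq1).1
      have h2 := hdZ.trans ((mem_Lam m e q1).1 (hgL q1 hq1Q) (k + 1) 0)
      have h3 : (l : ℤ) ∣ q1 0 * e (k + 1) := by
        have h4 : (l : ℤ) ∣ q1 (k + 1) * e 0 := Dvd.dvd.mul_right h1 _
        have := dvd_sub h4 h2
        simpa using this
      have hc : ∀ x : ℤ, IsCoprime x (m : ℤ) → ¬ (l : ℤ) ∣ x := by
        intro x hx hlx
        have := hx.isUnit_of_dvd' hlx hdZ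
        exact hlZ.not_isUnit this
      rcases hlZ.dvd_or_dvd h3 with h4 | h4
      · exact hc _ (hQ q1 hq1Q).2.1 h4
      · exact hc _ (h.lat.co (k + 1)) h4
    refine plX h.lat k0 hPr (Lam m e ⊓ Dv l {k + 1, k + 2}) inf_le_left l L0 G (by omega) hlL ?_ _ ?_
    · intro u hu u' hu'
      exact sbC_cr h.lat.hm h.lat.co hl hlm f5 hu hu'
    · intro q hq
      have hk := key q hq
      have hqQ := (Finset.mem_filter.1 hq).1
      refine ⟨⟨hgL q hqQ, ?_⟩, (hQ q hqQ).2.2.2.1, hgb q hqQ⟩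
      show q ∈ Dv l {k + 1, k + 2}
      rw [mem_Dv]
      intro i hi
      rw [Finset.mem_insert, Finset.mem_singleton] at hi
      rcases hi with rfl | rfl
      · exact hk.1
      · exact hk.2
  linarith

private theorem ekb {W p1 m r : ℕ} {y e : V3} (h : Ps W p1 m r y e) (Y H : ℕ)
    (hY : ∀ i, y i ≤ (Y : ℤ)) (hp : W * p1 ≤ Y) {κ : V3} (hκ : ∀ i, |κ i| ≤ (H : ℤ)) (k : Fin 3) :
    |κ k * Ek ((W * p1 : ℕ) : ℤ) m y κ k| ≤ 7 * (Y : ℤ) ^ 3 * (H : ℤ) ^ 4 := by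
  have hH0 : (0 : ℤ) ≤ H := by positivity
  have hY0 : (0 : ℤ) ≤ Y := by positivity
  have hY1 : (1 : ℤ) ≤ Y := (h.y1 0).trans (hY 0)
  have hya : ∀ i, |y i| ≤ (Y : ℤ) := fun i => by
    rw [abs_of_nonneg (by have := h.y1 i; omega)]
    exact hY i
  have hpa : |((W * p1 : ℕ) : ℤ)| ≤ (Y : ℤ) := by
    rw [abs_of_nonneg (by positivity)]
    exact_mod_cast hp
  have t : ∀ i, |y i * κ i ^ 3| ≤ (Y : ℤ) * (H : ℤ) ^ 3 := by
    intro i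
    rw [abs_mul, abs_pow]
    have := hya i
    have := hκ i
    gcongr
  have t3 : |3 * ((W * p1 : ℕ) : ℤ) * (κ 0 * κ 1 * κ 2)| ≤ 3 * (Y : ℤ) * (H : ℤ) ^ 3 := by
    rw [abs_mul, abs_mul, abs_mul, abs_mul]
    have h0 := hκ 0
    have h1 := hκ 1
    have h2 := hκ 2
    have e3 : |(3 : ℤ)| = 3 := by norm_num
    rw [e3]
    calc 3 * |((W * p1 : ℕ) : ℤ)| * (|κ 0| * |κ 1| * |κ 2|) ≤ 3 * (Y : ℤ) * ((H : ℤ) * H * H) := by
          gcongr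
      _ = 3 * (Y : ℤ) * (H : ℤ) ^ 3 := by ring
  have hC : |Cv ((W * p1 : ℕ) : ℤ) y κ| ≤ 6 * (Y : ℤ) * (H : ℤ) ^ 3 := by
    unfold Cv
    have h0 := abs_le.1 (t 0)
    have h1 := abs_le.1 (t 1)
    have h2 := abs_le.1 (t 2)
    have h3 := abs_le.1 t3
    rw [abs_le]
    constructor <;> nlinarith
  have hCm : |Cv ((W * p1 : ℕ) : ℤ) y κ / (m : ℤ)| ≤ 6 * (Y : ℤ) * (H : ℤ) ^ 3 :=
    (Int.abs_ediv_le_abs _ _).trans hC
  have hE : |Ek ((W * p1 : ℕ) : ℤ) m y κ k| ≤ 7 * (Y : ℤ) ^ 3 * (H : ℤ) ^ 3 := by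
    unfold Ek
    have h1 : |y (k + 1) * y (k + 2) * (Cv ((W * p1 : ℕ) : ℤ) y κ / (m : ℤ))| ≤
        (Y : ℤ) * Y * (6 * (Y : ℤ) * (H : ℤ) ^ 3) := by
      rw [abs_mul, abs_mul]
      have := hya (k + 1)
      have := hya (k + 2)
      gcongr
    have h2 : |κ k ^ 3| ≤ (H : ℤ) ^ 3 := by
      rw [abs_pow]
      have := hκ k
      gcongr
    have h3 : (H : ℤ) ^ 3 ≤ (Y : ℤ) ^ 3 * (H : ℤ) ^ 3 := by
      have h4 : (1 : ℤ) ≤ (Y : ℤ) ^ 3 := one_le_pow₀ hY1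
      have h5 : (0 : ℤ) ≤ (H : ℤ) ^ 3 := by positivity
      nlinarith
    calc _ ≤ |y (k + 1) * y (k + 2) * (Cv ((W * p1 : ℕ) : ℤ) y κ / (m : ℤ))| + |κ k ^ 3| :=
          abs_add_le _ _
      _ ≤ (Y : ℤ) * Y * (6 * (Y : ℤ) * (H : ℤ) ^ 3) + (Y : ℤ) ^ 3 * (H : ℤ) ^ 3 := by linarith
      _ = 7 * (Y : ℤ) ^ 3 * (H : ℤ) ^ 3 := by ring
  rw [abs_mul]
  have := hκ k
  calc |κ k| * |Ek ((W * p1 : ℕ) : ℤ) m y κ k| ≤ (H : ℤ) * (7 * (Y : ℤ) ^ 3 * (H : ℤ) ^ 3) := by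
        gcongr
    _ = 7 * (Y : ℤ) ^ 3 * (H : ℤ) ^ 4 := by ring

theorem cnl {W p1 m r : ℕ} {y e : V3} (h : Ps W p1 m r y e) (g0 : V3) (G H L0 Y B : ℕ)
    (hL0 : 10 ^ 6 ≤ L0) (hH : 1 ≤ H) (hY : ∀ i, y i ≤ (Y : ℤ)) (hp : W * p1 ≤ Y)
    (hB : ∀ n : ℕ, n ≠ 0 → n ≤ (7 * Y ^ 3 * H ^ 4) ^ 3 →
      (n.primeFactors.filter (fun l => L0 < l)).card ≤ B) (κ : V3 → V3)
    (Q : Finset V3) (hQ : ∀ g ∈ Q, g ∈ Z0 W m e g0 G ∧ IsCoprime (g 0) (m : ℤ) ∧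
      Prim (κ g) ∧ dt (κ g) g = 0 ∧ (∀ i, |κ g i| ≤ (H : ℤ)) ∧ κ g ∈ Mm m e ∧
      (∀ c, κ g c ≠ 0) ∧
      ∃ (l : ℕ) (k : Fin 3), l.Prime ∧ L0 < l ∧ l ≠ p1 ∧ ¬ (l : ℤ) ∣ y (k + 1) ∧
        ¬ (l : ℤ) ∣ y (k + 2) ∧ (l : ℤ) ∣ Nn ((W * p1 : ℕ) : ℤ) m y g (k + 1) ∧
        (l : ℤ) ∣ Nn ((W * p1 : ℕ) : ℤ) m y g (k + 2) ∧ ¬ ∀ i, (l : ℤ) ∣ g i) :
    (Q.card : ℝ) ≤ ((2 * (H / r) + 2 : ℕ) : ℝ) ^ 3 * (12 * B) *
      (24 * (G : ℝ) / (r : ℝ) ^ 2 + 2 + 216 * (G : ℝ) ^ 2 / ((L0 : ℝ) * m * r)) := by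
  classical
  have hX0 : 0 ≤ XX G r L0 m := by unfold XX; positivity
  change (Q.card : ℝ) ≤ ((2 * (H / r) + 2 : ℕ) : ℝ) ^ 3 * (12 * B) * XX G r L0 m
  -- the fibres of `κ`
  have hfib : ∀ k0 ∈ Q.image κ, ((Q.filter (fun g => κ g = k0)).card : ℝ) ≤
      12 * B * XX G r L0 m := by
    intro k0 hk0
    obtain ⟨q0, hq0, rfl⟩ := Finset.mem_image.1 hk0
    obtain ⟨-, -, hPr, -, hH0, hM0, hne0, -⟩ := hQ q0 hq0
    set n : ℕ := (∏ c : Fin 3, κ q0 c * Ek ((W * p1 : ℕ) : ℤ) m y (κ q0) c).natAbs with hn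
    have hk00 : κ q0 ≠ 0 := by
      intro h0
      apply hne0 0
      rw [h0]
      rfl
    have hn0 : n ≠ 0 := by
      rw [hn, Int.natAbs_ne_zero]
      exact Finset.prod_ne_zero_iff.2 fun c _ => mul_ne_zero (hne0 c) (nfz h hM0 hk00 c)
    have hnb : n ≤ (7 * Y ^ 3 * H ^ 4) ^ 3 := by
      rw [hn, ← Int.ofNat_le, Int.natCast_natAbs, Finset.abs_prod]
      calc ∏ c : Fin 3, |κ q0 c * Ek ((W * p1 : ℕ) : ℤ) m y (κ q0) c|
          ≤ ∏ _c : Fin 3, (7 * (Y : ℤ) ^ 3 * (H : ℤ) ^ 4) :=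
            Finset.prod_le_prod (fun c _ => abs_nonneg _)
              (fun c _ => ekb h Y H hY hp hH0 c)
        _ = (((7 * Y ^ 3 * H ^ 4) ^ 3 : ℕ) : ℤ) := by
            rw [Finset.prod_const]
            simp
    have hPB := hB n hn0 hnb
    set P := n.primeFactors.filter (fun l => L0 < l) with hP
    -- the cover
    have hsub : Q.filter (fun g => κ g = κ q0) ⊆ (P ×ˢ (Finset.univ : Finset (Fin 3))).biUnion
        (fun lk => Q.filter (fun g => κ g = κ q0 ∧ lk.1.Prime ∧ L0 < lk.1 ∧ lk.1 ≠ p1 ∧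
          ¬ (lk.1 : ℤ) ∣ y (lk.2 + 1) ∧ ¬ (lk.1 : ℤ) ∣ y (lk.2 + 2) ∧
          (lk.1 : ℤ) ∣ Nn ((W * p1 : ℕ) : ℤ) m y g (lk.2 + 1) ∧
          (lk.1 : ℤ) ∣ Nn ((W * p1 : ℕ) : ℤ) m y g (lk.2 + 2) ∧ ¬ ∀ i, (lk.1 : ℤ) ∣ g i)) := by
      intro g hg
      obtain ⟨hgQ, hgk⟩ := Finset.mem_filter.1 hg
      obtain ⟨hZ, hg0, hPr', hdt, hH', hM', hne', l, k, hl, hlL, hlp, hy1, hy2, hN1, hN2, hni⟩ :=
        hQ g hgQ
      rw [Finset.mem_biUnion]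
      refine ⟨(l, k), Finset.mem_product.2 ⟨?_, Finset.mem_univ _⟩,
        Finset.mem_filter.2 ⟨hgQ, hgk, hl, hlL, hlp, hy1, hy2, hN1, hN2, hni⟩⟩
      rw [hP, Finset.mem_filter, Nat.mem_primeFactors]
      refine ⟨⟨hl, ?_, hn0⟩, hlL⟩
      have hgL : g ∈ Lam m e := ((mem_Z0 W m e g0 G g).1 hZ).2.1
      have ha := alg h hgL hg0 hdt hM' l hl (by omega) hlp k hy1 hy2 hN1 hN2 hni
      rw [hgk] at ha
      rw [hn]
      have ha' : (l : ℤ) ∣ ∏ c : Fin 3, κ q0 c * Ek ((W * p1 : ℕ) : ℤ) m y (κ q0) c :=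
        ha.trans (Finset.dvd_prod_of_mem _ (Finset.mem_univ k))
      exact Int.natCast_dvd.1 ha'
    have h1 := (Finset.card_le_card hsub).trans Finset.card_biUnion_le
    have h2 : ((Q.filter (fun g => κ g = κ q0)).card : ℝ) ≤
        ∑ lk ∈ P ×ˢ (Finset.univ : Finset (Fin 3)),
        ((Q.filter (fun g => κ g = κ q0 ∧ lk.1.Prime ∧ L0 < lk.1 ∧ lk.1 ≠ p1 ∧
          ¬ (lk.1 : ℤ) ∣ y (lk.2 + 1) ∧ ¬ (lk.1 : ℤ) ∣ y (lk.2 + 2) ∧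
          (lk.1 : ℤ) ∣ Nn ((W * p1 : ℕ) : ℤ) m y g (lk.2 + 1) ∧
          (lk.1 : ℤ) ∣ Nn ((W * p1 : ℕ) : ℤ) m y g (lk.2 + 2) ∧
          ¬ ∀ i, (lk.1 : ℤ) ∣ g i)).card : ℝ) := by exact_mod_cast h1
    have h3 : ∀ lk ∈ P ×ˢ (Finset.univ : Finset (Fin 3)),
        ((Q.filter (fun g => κ g = κ q0 ∧ lk.1.Prime ∧ L0 < lk.1 ∧ lk.1 ≠ p1 ∧
          ¬ (lk.1 : ℤ) ∣ y (lk.2 + 1) ∧ ¬ (lk.1 : ℤ) ∣ y (lk.2 + 2) ∧
          (lk.1 : ℤ) ∣ Nn ((W * p1 : ℕ) : ℤ) m y g (lk.2 + 1) ∧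
          (lk.1 : ℤ) ∣ Nn ((W * p1 : ℕ) : ℤ) m y g (lk.2 + 2) ∧
          ¬ ∀ i, (lk.1 : ℤ) ∣ g i)).card : ℝ) ≤ 4 * XX G r L0 m := by
      rintro ⟨l, k⟩ -
      by_cases hc : l.Prime ∧ L0 < l ∧ l ≠ p1 ∧ ¬ (l : ℤ) ∣ y (k + 1) ∧ ¬ (l : ℤ) ∣ y (k + 2)
      · obtain ⟨hl, hlL, hlp, hy1, hy2⟩ := hc
        refine stepA h g0 G L0 hL0 (κ q0) l k hl hlL hlp hy1 hy2 _ ?_
        intro g hg
        obtain ⟨hgQ, hgk, -, -, -, -, -, hN1, hN2, hni⟩ := Finset.mem_filter.1 hg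
        obtain ⟨hZ, hg0, hPr', hdt, -⟩ := hQ g hgQ
        exact ⟨hZ, hg0, hPr, by rw [← hgk]; exact hdt, hN1, hN2, hni⟩
      · have h0 : Q.filter (fun g => κ g = κ q0 ∧ l.Prime ∧ L0 < l ∧ l ≠ p1 ∧
            ¬ (l : ℤ) ∣ y (k + 1) ∧ ¬ (l : ℤ) ∣ y (k + 2) ∧
            (l : ℤ) ∣ Nn ((W * p1 : ℕ) : ℤ) m y g (k + 1) ∧
            (l : ℤ) ∣ Nn ((W * p1 : ℕ) : ℤ) m y g (k + 2) ∧ ¬ ∀ i, (l : ℤ) ∣ g i) = ∅ := by
          rw [Finset.filter_eq_empty_iff]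
          intro g _ hg
          exact hc ⟨hg.2.1, hg.2.2.1, hg.2.2.2.1, hg.2.2.2.2.1, hg.2.2.2.2.2.1⟩
        simp only
        rw [h0]
        simpa using hX0
    have h4 := Finset.sum_le_card_nsmul _ _ _ h3
    rw [nsmul_eq_mul, Finset.card_product, Finset.card_univ, Fintype.card_fin] at h4
    have h5 : ((P.card * 3 : ℕ) : ℝ) ≤ (B : ℝ) * 3 := by
      push_cast
      have : (P.card : ℝ) ≤ B := by exact_mod_cast hPB
      linarith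
    calc ((Q.filter (fun g => κ g = κ q0)).card : ℝ) ≤ _ := h2
      _ ≤ ((P.card * 3 : ℕ) : ℝ) * (4 * XX G r L0 m) := h4
      _ ≤ ((B : ℝ) * 3) * (4 * XX G r L0 m) := by gcongr
      _ = 12 * B * XX G r L0 m := by ring
  have hpack : (Q.image κ).card ≤ (2 * (H / r) + 2) ^ 3 := by
    refine pack h.lat H _ ?_
    intro k0 hk0
    obtain ⟨q0, hq0, rfl⟩ := Finset.mem_image.1 hk0
    obtain ⟨-, -, -, -, hH0, hM0, -, -⟩ := hQ q0 hq0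
    exact ⟨hM0, hH0⟩
  have hsum : (Q.card : ℝ) = ∑ k0 ∈ Q.image κ, ((Q.filter (fun g => κ g = k0)).card : ℝ) := by
    have := Finset.card_eq_sum_card_image κ Q
    exact_mod_cast this
  rw [hsum]
  have h6 := Finset.sum_le_card_nsmul _ _ _ hfib
  rw [nsmul_eq_mul] at h6
  have h7 : ((Q.image κ).card : ℝ) ≤ ((2 * (H / r) + 2 : ℕ) : ℝ) ^ 3 := by exact_mod_cast hpack
  calc _ ≤ ((Q.image κ).card : ℝ) * (12 * B * XX G r L0 m) := h6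
    _ ≤ ((2 * (H / r) + 2 : ℕ) : ℝ) ^ 3 * (12 * B * XX G r L0 m) := by gcongr
    _ = ((2 * (H / r) + 2 : ℕ) : ℝ) ^ 3 * (12 * B) * XX G r L0 m := by ring

end Pool.Agent.SMP
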