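import Pool.Agent.SMP.Defs

/-!
# SMP/SbA (size 3): (P10) (a), (b) algebra of the lattices

`h ∈ Lam m e` means that `h` is parallel to `e` modulo `m`.
PROOF of `sbA_cr`.  All components of `cr h h'` are divisible by `m`: `e 0 * h j = h 0 * e j + m a_j` (from `mem_Lam`),
`a_0 = 0`; the same for `h'`; so `(e 0) ^ 2 (h i h' j - h j h' i)` is divisible by `m`, `e 0` is prime to `m`.  Let
`cr h h' = m w`.  `(e 0) ^ 2 * dt e (cr h h') = det3 e (e 0 • h) (e 0 • h')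
= det3 e (0, m a_1, m a_2) (0, m a_1', m a_2')` (subtract multiples of `e`) is divisible by `m ^ 2`; so
`m ^ 2 ∣ (e 0) ^ 2 m dt e w`, `m ∣ dt w e`.
PROOF of `sbA_det`.  `(e 0) * det3 a b c`... : put `e 0 * a = a 0 * e + m a'` etc. (`a' 0 = 0`).
`(e 0) ^ 3 det3 a b c = det3 (a 0 e + m a') (b 0 e + m b') (c 0 e + m c')`; expand multilinearly: the terms with two `e`
vanish, the others are divisible by `m ^ 2`.  (Explicitly: `ring` after substituting `e 0 * a 1 = a 0 * e 1 + m * a1` etc.)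
`e 0` is prime to `m`, so `m ^ 2 ∣ det3 a b c` (`IsCoprime.dvd_of_dvd_mul_left`, `IsCoprime.pow`).
PROOF of `sbB`.  `e' a e b ≡ e' b e a` modulo `m`.  `h ∈ Lam (l m) e'`: `e' 0 (h a e b - h b e a) ≡ e 0 (h a e' b - h b e' a) ≡ 0`
modulo `m` (use `e' 0 e b ≡ e' b e 0`), and `e' 0` is prime to `m`.  `k ∈ Mm (l m) e'`:
`e' 0 dt k e ≡ e 0 dt k e' ≡ 0` modulo `m`.
-/

set_option autoImplicit false

namespace Pool.Agent.SMP

open Pool.Agent.SLB (V3 det3)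

theorem sbA_cr {m : ℕ} {e : V3} (hm : 1 ≤ m) (he : ∀ i, IsCoprime (e i) (m : ℤ)) {h h' : V3}
    (h1 : h ∈ Lam m e) (h2 : h' ∈ Lam m e) : ∃ w ∈ Mm m e, ∀ i, cr h h' i = (m : ℤ) * w i := by
  rw [mem_Lam] at h1 h2
  obtain ⟨a1, ha1⟩ := h1 1 0
  obtain ⟨a2, ha2⟩ := h1 2 0
  obtain ⟨b1, hb1⟩ := h2 1 0
  obtain ⟨b2, hb2⟩ := h2 2 0
  have hc := he 0
  have hc' : IsCoprime ((m : ℕ) : ℤ) (e 0) := hc.symm
  have hc2 : IsCoprime ((m : ℕ) : ℤ) (e 0 ^ 2) := hc'.pow_right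
  have hm0 : (m : ℤ) ≠ 0 := by
    have : m ≠ 0 := by omega
    exact_mod_cast this
  have d0 : (m : ℤ) ∣ cr h h' 0 := by
    apply hc2.dvd_of_dvd_mul_left
    refine ⟨h 0 * e 1 * b2 + a1 * h' 0 * e 2 + m * a1 * b2 - h 0 * e 2 * b1 - a2 * h' 0 * e 1 - m * a2 * b1, ?_⟩
    simp only [cr, Matrix.cons_val_zero]
    linear_combination (h' 2 * e 0) * ha1 + (h 0 * e 1 + m * a1) * hb2 - (h' 1 * e 0) * ha2 - (h 0 * e 2 + m * a2) * hb1
  have d1 : (m : ℤ) ∣ cr h h' 1 := by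
    apply hc'.dvd_of_dvd_mul_left
    refine ⟨a2 * h' 0 - h 0 * b2, ?_⟩
    simp only [cr, Matrix.cons_val]
    linear_combination (h' 0) * ha2 - (h 0) * hb2
  have d2 : (m : ℤ) ∣ cr h h' 2 := by
    apply hc'.dvd_of_dvd_mul_left
    refine ⟨h 0 * b1 - a1 * h' 0, ?_⟩
    simp only [cr, Matrix.cons_val]
    linear_combination (h 0) * hb1 - (h' 0) * ha1
  have hd : ∀ i : Fin 3, (m : ℤ) ∣ cr h h' i := by
    intro i
    fin_cases i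
    · exact d0
    · exact d1
    · exact d2
  choose w hw using hd
  refine ⟨w, ?_, hw⟩
  rw [mem_Mm]
  apply hc'.dvd_of_dvd_mul_left
  refine ⟨a1 * b2 - a2 * b1, ?_⟩
  apply mul_left_cancel₀ hm0
  have e0 := hw 0
  have e1 := hw 1
  have e2 := hw 2
  simp only [cr, Matrix.cons_val_zero, Matrix.cons_val_one, Matrix.cons_val] at e0 e1 e2
  simp only [dt]
  linear_combination (-(e 0) * e 0) * e0 - (e 0 * e 1) * e1 - (e 0 * e 2) * e2 + (h' 2 * e 0 - h' 0 * e 2) * ha1 +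
    (m * a1) * hb2 - (h' 1 * e 0 - h' 0 * e 1) * ha2 - (m * a2) * hb1

theorem sbA_det {m : ℕ} {e : V3} (hm : 1 ≤ m) (he : ∀ i, IsCoprime (e i) (m : ℤ)) {a b c : V3}
    (ha : a ∈ Lam m e) (hb : b ∈ Lam m e) (hc : c ∈ Lam m e) :
    ((m ^ 2 : ℕ) : ℤ) ∣ det3 a b c := by
  rw [mem_Lam] at ha hb hc
  obtain ⟨a1, ha1⟩ := ha 1 0
  obtain ⟨a2, ha2⟩ := ha 2 0
  obtain ⟨b1, hb1⟩ := hb 1 0
  obtain ⟨b2, hb2⟩ := hb 2 0
  obtain ⟨c1, hc1⟩ := hc 1 0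
  obtain ⟨c2, hc2⟩ := hc 2 0
  have hco : IsCoprime ((m ^ 2 : ℕ) : ℤ) (e 0 ^ 2) := by
    push_cast
    exact ((he 0).symm.pow_left).pow_right
  apply hco.dvd_of_dvd_mul_left
  have key : e 0 ^ 2 * det3 a b c =
      a 0 * ((b 1 * e 0 - b 0 * e 1) * (c 2 * e 0 - c 0 * e 2) - (b 2 * e 0 - b 0 * e 2) * (c 1 * e 0 - c 0 * e 1)) -
      b 0 * ((a 1 * e 0 - a 0 * e 1) * (c 2 * e 0 - c 0 * e 2) - (a 2 * e 0 - a 0 * e 2) * (c 1 * e 0 - c 0 * e 1)) +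
      c 0 * ((a 1 * e 0 - a 0 * e 1) * (b 2 * e 0 - b 0 * e 2) - (a 2 * e 0 - a 0 * e 2) * (b 1 * e 0 - b 0 * e 1)) := by
    simp only [det3]
    ring
  rw [key, ha1, ha2, hb1, hb2, hc1, hc2]
  refine ⟨a 0 * (b1 * c2 - b2 * c1) - b 0 * (a1 * c2 - a2 * c1) + c 0 * (a1 * b2 - a2 * b1), ?_⟩
  push_cast
  ring

theorem sbB {m l : ℕ} {e e' : V3} (he : ∀ i, IsCoprime (e i) (m : ℤ))
    (he' : ∀ i, IsCoprime (e' i) ((l * m : ℕ) : ℤ)) (hee : e' ∈ Lam m e) :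
    Lam (l * m) e' ≤ Lam m e ∧ Mm (l * m) e' ≤ Mm m e := by
  have hml : (m : ℤ) ∣ ((l * m : ℕ) : ℤ) := ⟨l, by push_cast; ring⟩
  have hc : IsCoprime (m : ℤ) (e' 0) := by
    have h := he' 0
    push_cast at h
    exact (IsCoprime.of_mul_right_right h).symm
  rw [mem_Lam] at hee
  constructor
  · intro h hh
    rw [mem_Lam] at hh ⊢
    intro a b
    obtain ⟨u, hu⟩ := hml.trans (hh a b)
    obtain ⟨s, hs⟩ := hee 0 b
    obtain ⟨t, ht⟩ := hee 0 a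
    apply hc.dvd_of_dvd_mul_left
    refine ⟨h a * s - h b * t + e 0 * u, ?_⟩
    linear_combination (h a) * hs - (h b) * ht + (e 0) * hu
  · intro k hk
    rw [mem_Mm] at hk ⊢
    obtain ⟨u, hu⟩ := hml.trans hk
    obtain ⟨s, hs⟩ := hee 0 1
    obtain ⟨t, ht⟩ := hee 0 2
    apply hc.dvd_of_dvd_mul_left
    refine ⟨k 1 * s + k 2 * t + e 0 * u, ?_⟩
    simp only [dt] at hu ⊢
    linear_combination (k 1) * hs + (k 2) * ht + (e 0) * hu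

end Pool.Agent.SMP
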