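import Pool.Agent.SMP.Pln
import Pool.Agent.SMP.SbA
import Pool.Agent.SMP.Pck

/-!
# SMP/Kzr (size 3): (P16) points whose short vector `κ(g)` has a zero coordinate

PROOF.  For `g ∈ Q` and a coordinate `c` with `κ g c = 0`: union over `c` (3 values) and over the values `k = κ g`.
For given `k` the set `{g ∈ Q | κ g = k}` has by `pln` (`U = Lam m e`, `m1 = 1` by `sbA_cr`, `B = 2 G`) at most
`24 G / r ^ 2 + 2 + 216 G ^ 2 / (m K)` elements, with `K = r` always, and with `K = R1` if some `|k i| ≥ R1`.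
The `k` with all `|k i| ≤ R1`: at most `(2 (R1 / r) + 2) ^ 2` of them (`pack0`), `K = r`; the other `k` (`|k i| ≤ H`): at most
`(2 (H / r) + 2) ^ 2`, `K = R1`.
-/

set_option autoImplicit false

namespace Pool.Agent.SMP

open Pool.Agent.SLB (V3 det3)

private theorem Kzr_fib (f : V3 → V3) (s : Finset V3) (c : ℝ) (hc : 0 ≤ c) (n : ℕ)
    (hn : (s.image f).card ≤ n)
    (h : ∀ b ∈ s.image f, ((s.filter (fun a => f a = b)).card : ℝ) ≤ c) :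
    (s.card : ℝ) ≤ n * c := by
  classical
  rw [Finset.card_eq_sum_card_image f s, Nat.cast_sum]
  calc ∑ b ∈ s.image f, ((s.filter (fun a => f a = b)).card : ℝ)
      ≤ ∑ _b ∈ s.image f, c := Finset.sum_le_sum h
    _ = (s.image f).card * c := by rw [Finset.sum_const, nsmul_eq_mul]
    _ ≤ n * c := mul_le_mul_of_nonneg_right (by exact_mod_cast hn) hc

private theorem Kzr_pln {m r : ℕ} {e : V3} (hL : Lat m e r) {κ : V3} (hκ : Prim κ) (G K : ℕ)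
    (hK1 : 1 ≤ K) (hK : K ≤ r ∨ ∃ i, (K : ℤ) ≤ |κ i|) (Q : Finset V3)
    (hQ : ∀ q ∈ Q, q ∈ Lam m e ∧ dt κ q = 0 ∧ ∀ i, |q i| ≤ ((2 * G : ℕ) : ℤ)) :
    (Q.card : ℝ) ≤ 24 * (G : ℝ) / (r : ℝ) ^ 2 + 2 + 216 * (G : ℝ) ^ 2 / ((m : ℝ) * K) := by
  have h1 := pln hL κ hκ (Lam m e) le_rfl 1 le_rfl (by
    intro h hh h' hh'
    obtain ⟨w, hw, hw2⟩ := sbA_cr hL.hm hL.co hh hh'
    refine ⟨w, hw, fun i => ?_⟩
    rw [hw2 i]
    push_cast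
    ring) (2 * G) K hK1 hK Q hQ
  have e1 : (12 : ℝ) * ((2 * G : ℕ) : ℝ) = 24 * G := by push_cast; ring
  have e2 : (54 : ℝ) * ((2 * G : ℕ) : ℝ) ^ 2 = 216 * (G : ℝ) ^ 2 := by push_cast; ring
  have e3 : (((1 : ℕ) : ℝ) * m * K) = (m : ℝ) * K := by push_cast; ring
  rw [e1, e2, e3] at h1
  exact h1

theorem kzr {W p1 m r : ℕ} {y e : V3} (h : Ps W p1 m r y e) (g0 : V3) (G H R1 : ℕ)
    (hR1 : 1 ≤ R1) (κ : V3 → V3)
    (Q : Finset V3) (hQ : ∀ g ∈ Q, g ∈ Z0 W m e g0 G ∧ Prim (κ g) ∧ dt (κ g) g = 0 ∧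
      (∀ i, |κ g i| ≤ (H : ℤ)) ∧ κ g ∈ Mm m e ∧ ∃ c, κ g c = 0) :
    (Q.card : ℝ) ≤ 3 * (((2 * (R1 / r) + 2 : ℕ) : ℝ) ^ 2 *
        (24 * (G : ℝ) / (r : ℝ) ^ 2 + 2 + 216 * (G : ℝ) ^ 2 / ((m : ℝ) * r)) +
      ((2 * (H / r) + 2 : ℕ) : ℝ) ^ 2 *
        (24 * (G : ℝ) / (r : ℝ) ^ 2 + 2 + 216 * (G : ℝ) ^ 2 / ((m : ℝ) * R1))) := by
  classical
  have hL := h.lat
  have hr := hL.hr
  set c1 : ℝ := 24 * (G : ℝ) / (r : ℝ) ^ 2 + 2 + 216 * (G : ℝ) ^ 2 / ((m : ℝ) * r) with hc1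
  set c2 : ℝ := 24 * (G : ℝ) / (r : ℝ) ^ 2 + 2 + 216 * (G : ℝ) ^ 2 / ((m : ℝ) * R1) with hc2
  have hc10 : 0 ≤ c1 := by rw [hc1]; positivity
  have hc20 : 0 ≤ c2 := by rw [hc2]; positivity
  have hbd : ∀ g ∈ Q, ∀ i, |g i| ≤ ((2 * G : ℕ) : ℤ) := by
    intro g hg i
    obtain ⟨h1, -, -⟩ := (mem_Z0 W m e g0 G g).mp (hQ g hg).1
    obtain ⟨h2, h3⟩ := h1 i
    rw [abs_le]
    push_cast
    constructor
    · have : (0 : ℤ) ≤ G := Int.natCast_nonneg G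
      linarith
    · exact h3
  have hLam : ∀ g ∈ Q, g ∈ Lam m e := fun g hg => ((mem_Z0 W m e g0 G g).mp (hQ g hg).1).2.1
  have hmain : ∀ c : Fin 3, ((Q.filter (fun g => κ g c = 0)).card : ℝ)
      ≤ ((2 * (R1 / r) + 2 : ℕ) : ℝ) ^ 2 * c1 + ((2 * (H / r) + 2 : ℕ) : ℝ) ^ 2 * c2 := by
    intro c
    set S := Q.filter (fun g => κ g c = 0) with hS
    set S1 := S.filter (fun g => ∀ i, |κ g i| ≤ (R1 : ℤ)) with hS1
    set S2 := S.filter (fun g => ¬ ∀ i, |κ g i| ≤ (R1 : ℤ)) with hS2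
    have hcard : S.card = S1.card + S2.card :=
      (Finset.card_filter_add_card_filter_not (s := S) (fun g => ∀ i, |κ g i| ≤ (R1 : ℤ))).symm
    have hSQ : ∀ g ∈ S, g ∈ Q ∧ κ g c = 0 := fun g hg => Finset.mem_filter.mp hg
    have hA : (S1.card : ℝ) ≤ (((2 * (R1 / r) + 2) ^ 2 : ℕ) : ℝ) * c1 := by
      refine Kzr_fib κ S1 c1 hc10 _ ?_ ?_
      · refine pack0 hL R1 c _ ?_
        intro k hk
        obtain ⟨g, hg, rfl⟩ := Finset.mem_image.mp hk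
        obtain ⟨hgS, hg1⟩ := Finset.mem_filter.mp hg
        obtain ⟨hgQ, hg0⟩ := hSQ g hgS
        exact ⟨(hQ g hgQ).2.2.2.2.1, hg1, hg0⟩
      · intro k hk
        obtain ⟨g, hg, rfl⟩ := Finset.mem_image.mp hk
        obtain ⟨hgS, hg1⟩ := Finset.mem_filter.mp hg
        obtain ⟨hgQ, hg0⟩ := hSQ g hgS
        refine Kzr_pln hL (hQ g hgQ).2.1 G r hr (Or.inl le_rfl) _ ?_
        intro q hq
        obtain ⟨hq1, hq2⟩ := Finset.mem_filter.mp hq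
        have hqQ := (hSQ q (Finset.mem_filter.mp hq1).1).1
        refine ⟨hLam q hqQ, ?_, hbd q hqQ⟩
        rw [← hq2]
        exact (hQ q hqQ).2.2.1
    have hB : (S2.card : ℝ) ≤ (((2 * (H / r) + 2) ^ 2 : ℕ) : ℝ) * c2 := by
      refine Kzr_fib κ S2 c2 hc20 _ ?_ ?_
      · refine pack0 hL H c _ ?_
        intro k hk
        obtain ⟨g, hg, rfl⟩ := Finset.mem_image.mp hk
        obtain ⟨hgS, hg1⟩ := Finset.mem_filter.mp hg
        obtain ⟨hgQ, hg0⟩ := hSQ g hgS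
        exact ⟨(hQ g hgQ).2.2.2.2.1, (hQ g hgQ).2.2.2.1, hg0⟩
      · intro k hk
        obtain ⟨g, hg, rfl⟩ := Finset.mem_image.mp hk
        obtain ⟨hgS, hg1⟩ := Finset.mem_filter.mp hg
        obtain ⟨hgQ, hg0⟩ := hSQ g hgS
        have hex : ∃ i, (R1 : ℤ) ≤ |κ g i| := by
          push Not at hg1
          obtain ⟨i, hi⟩ := hg1
          exact ⟨i, hi.le⟩
        refine Kzr_pln hL (hQ g hgQ).2.1 G R1 hR1 (Or.inr hex) _ ?_
        intro q hq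
        obtain ⟨hq1, hq2⟩ := Finset.mem_filter.mp hq
        have hqQ := (hSQ q (Finset.mem_filter.mp hq1).1).1
        refine ⟨hLam q hqQ, ?_, hbd q hqQ⟩
        rw [← hq2]
        exact (hQ q hqQ).2.2.1
    have e1 : (((2 * (R1 / r) + 2) ^ 2 : ℕ) : ℝ) = ((2 * (R1 / r) + 2 : ℕ) : ℝ) ^ 2 := Nat.cast_pow _ _
    have e2 : (((2 * (H / r) + 2) ^ 2 : ℕ) : ℝ) = ((2 * (H / r) + 2 : ℕ) : ℝ) ^ 2 := Nat.cast_pow _ _
    rw [e1] at hA
    rw [e2] at hB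
    rw [hcard, Nat.cast_add]
    linarith
  have hcov : Q ⊆ Finset.univ.biUnion (fun c : Fin 3 => Q.filter (fun g => κ g c = 0)) := by
    intro g hg
    obtain ⟨c, hc⟩ := (hQ g hg).2.2.2.2.2
    rw [Finset.mem_biUnion]
    exact ⟨c, Finset.mem_univ c, Finset.mem_filter.mpr ⟨hg, hc⟩⟩
  have h1 : (Q.card : ℝ) ≤ ∑ c : Fin 3, ((Q.filter (fun g => κ g c = 0)).card : ℝ) := by
    have h2 := (Finset.card_le_card hcov).trans Finset.card_biUnion_le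
    exact_mod_cast h2
  have h2 : ∑ c : Fin 3, ((Q.filter (fun g => κ g c = 0)).card : ℝ)
      ≤ ∑ _c : Fin 3, (((2 * (R1 / r) + 2 : ℕ) : ℝ) ^ 2 * c1 + ((2 * (H / r) + 2 : ℕ) : ℝ) ^ 2 * c2) :=
    Finset.sum_le_sum (fun c _ => hmain c)
  rw [Finset.sum_const, Finset.card_univ, Fintype.card_fin, nsmul_eq_mul] at h2
  have h3 : ((3 : ℕ) : ℝ) = 3 := by norm_num
  rw [h3] at h2
  exact h1.trans h2

end Pool.Agent.SMP
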