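import Pool.Agent.SMP.Siz

/-!
# SMP/NuA (size 3): numerical inequalities for `#Z0` and for the small events

Use `siz`, `asy`, `asyl`.  `G = GT γ T`, `r = rT γ T`, `T ^ 3 ≤ m ≤ 64 W ^ 3 T ^ 3`.
PROOF of `nuA`.  `A0 = 55 m / r + 1`, `55 m / r ≤ 55 * 64 W ^ 3 T ^ 3 / (T ^ (1 - γ / 100) / 2) = 7040 W ^ 3 T ^ (2 + γ / 100)`, which is
`≤ G / (1000 W)` for `T` large.  `G / W` (floor) `≥ G / W - 1`, so `G / W - 1 - 4 A0 ≥ (G / W) (1 - 1 / 100)`, and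
`(1 - 1 / 100) ^ 3 ≥ 1 / 2`.
PROOF of `nuB`.  `162 (1 / 10 ^ 4 + 3 / p1 + 12 / 10 ^ 6) ≤ 162 * 1.13 / 10 ^ 4 ≤ 0.0184 ≤ 1 / 16` (`p1 > T ≥ 10 ^ 7`), so the first part is
`≤ G ^ 3 / (16 W ^ 3 m ^ 2)`.  Second part: `12 G / (W r ^ 2) + 1 ≤ 49 T ^ (γ + γ / 50)`, its square `≤ 2401 T ^ (2 γ + γ / 25)`;
`ω + 3 + 12 L0 ≤ 2 log (64 W ^ 3 T ^ 6) + 3 + 12 T ^ (3 γ / 5) ≤ 13 T ^ (3 γ / 5)`; product `≤ C T ^ (2.64 γ)`; and
`G ^ 3 / (16 W ^ 3 m ^ 2) ≥ T ^ (3 γ) / (16 * 8 * 4096 W ^ 9)`.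
-/

set_option autoImplicit false

namespace Pool.Agent.SMP

theorem nuA (W : ℕ) (hW : 1 ≤ W) (γ : ℝ) (hγ : 0 < γ) (hγ1 : γ ≤ 1 / 100) :
    ∃ T0 : ℝ, ∀ T : ℝ, T0 ≤ T → ∀ m : ℕ, T ^ 3 ≤ (m : ℝ) → (m : ℝ) ≤ 64 * (W : ℝ) ^ 3 * T ^ 3 →
      4 * (55 * m / rT γ T + 1) + 1 ≤ GT γ T / W ∧
      (GT γ T : ℝ) ^ 3 / (2 * (W : ℝ) ^ 3) ≤
        ((GT γ T / W - 1 - 4 * (55 * m / rT γ T + 1) : ℕ) : ℝ) ^ 3 := by
  obtain ⟨T1, hT1⟩ := siz γ hγ hγ1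
  obtain ⟨T2, -, hT2⟩ := asy (200 * (W : ℝ) * (28160 * (W : ℝ) ^ 3 + 6)) (2 + γ / 100) (2 + γ) (by linarith)
  refine ⟨max T1 T2, fun T hT m _ hm2 => ?_⟩
  have hS := hT1 T ((le_max_left _ _).trans hT)
  have h2 := hT2 T ((le_max_right _ _).trans hT)
  have hT7 := hS.T1
  have hT0 : (0 : ℝ) < T := by linarith
  have hT01 : (1 : ℝ) ≤ T := by linarith
  have hWr : (1 : ℝ) ≤ (W : ℝ) := by exact_mod_cast hW
  have hW0 : (0 : ℝ) < (W : ℝ) := by linarith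
  have hW3 : (1 : ℝ) ≤ (W : ℝ) ^ 3 := one_le_pow₀ hWr
  obtain ⟨q, hq⟩ : ∃ q, q = T ^ (1 - γ / 100) := ⟨_, rfl⟩
  obtain ⟨z, hz⟩ : ∃ z, z = T ^ (2 + γ / 100) := ⟨_, rfl⟩
  obtain ⟨g, hg⟩ : ∃ g, g = T ^ (2 + γ) := ⟨_, rfl⟩
  have hq0 : 0 < q := by rw [hq]; exact Real.rpow_pos_of_pos hT0 _
  have hz1 : 1 ≤ z := by rw [hz]; exact Real.one_le_rpow hT01 (by linarith)
  have hqz : T ^ 3 = q * z := by
    rw [hq, hz, ← Real.rpow_add hT0, ← Real.rpow_natCast]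
    congr 1
    push_cast
    ring
  have hr1 := hS.r1
  rw [← hq] at hr1
  have hG1 := hS.G1
  rw [← hg] at hG1
  rw [← hz, ← hg] at h2
  have hr0 : (0 : ℝ) < (rT γ T : ℝ) := by linarith
  have hA : ((55 * m / rT γ T : ℕ) : ℝ) ≤ 7040 * (W : ℝ) ^ 3 * z := by
    calc ((55 * m / rT γ T : ℕ) : ℝ) ≤ ((55 * m : ℕ) : ℝ) / (rT γ T : ℝ) := Nat.cast_div_le
      _ = 55 * (m : ℝ) / (rT γ T : ℝ) := by push_cast; ring
      _ ≤ 7040 * (W : ℝ) ^ 3 * z := by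
          rw [div_le_iff₀ hr0]
          have e1 : 55 * (m : ℝ) ≤ 55 * (64 * (W : ℝ) ^ 3 * (q * z)) := by
            rw [hqz] at hm2
            linarith
          have e2 : 7040 * (W : ℝ) ^ 3 * z * (q / 2) ≤ 7040 * (W : ℝ) ^ 3 * z * (rT γ T : ℝ) :=
            mul_le_mul_of_nonneg_left hr1 (by positivity)
          nlinarith [e1, e2]
  obtain ⟨A, hAd⟩ : ∃ A : ℕ, A = 55 * m / rT γ T + 1 := ⟨_, rfl⟩
  have hA' : (A : ℝ) ≤ 7040 * (W : ℝ) ^ 3 * z + 1 := by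
    rw [hAd]
    push_cast
    linarith
  obtain ⟨N, hN⟩ : ∃ N : ℕ, N = GT γ T / W := ⟨_, rfl⟩
  obtain ⟨D, hD⟩ : ∃ D : ℝ, D = (GT γ T : ℝ) / (W : ℝ) := ⟨_, rfl⟩
  have hND : D - 1 ≤ (N : ℝ) := by
    have e1 : GT γ T < W * (N + 1) := by
      rw [hN]
      exact Nat.lt_mul_div_succ _ (by omega)
    have e2 : (GT γ T : ℝ) < (W : ℝ) * ((N : ℝ) + 1) := by exact_mod_cast e1
    have e3 : D < (N : ℝ) + 1 := by
      rw [hD, div_lt_iff₀ hW0]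
      linarith
    linarith
  have hD1 : 4 * (A : ℝ) + 2 ≤ D / 100 := by
    have e1 : g / 2 / (W : ℝ) ≤ D := by
      rw [hD]
      exact div_le_div_of_nonneg_right hG1 hW0.le
    have e2 : 28160 * (W : ℝ) ^ 3 * z + 6 ≤ g / 2 / (W : ℝ) / 100 := by
      rw [div_div, div_div, le_div_iff₀ (by positivity)]
      have e3 : (28160 * (W : ℝ) ^ 3 * z + 6) ≤ (28160 * (W : ℝ) ^ 3 + 6) * z := by nlinarith
      calc (28160 * (W : ℝ) ^ 3 * z + 6) * (2 * ((W : ℝ) * 100))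
          ≤ ((28160 * (W : ℝ) ^ 3 + 6) * z) * (2 * ((W : ℝ) * 100)) :=
            mul_le_mul_of_nonneg_right e3 (by positivity)
        _ = 200 * (W : ℝ) * (28160 * (W : ℝ) ^ 3 + 6) * z := by ring
        _ ≤ g := h2
    linarith
  have hD0 : 0 ≤ D := by
    rw [hD]
    positivity
  have hAN : 4 * A + 1 ≤ N := by
    have : ((4 * A + 1 : ℕ) : ℝ) ≤ (N : ℝ) := by
      push_cast
      linarith
    exact_mod_cast this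
  rw [← hAd, ← hN]
  refine ⟨hAN, ?_⟩
  have hc : ((N - 1 - 4 * A : ℕ) : ℝ) = (N : ℝ) - 1 - 4 * (A : ℝ) := by
    rw [Nat.cast_sub (by omega), Nat.cast_sub (by omega)]
    push_cast
    ring
  rw [hc]
  have e1 : (99 / 100 : ℝ) * D ≤ (N : ℝ) - 1 - 4 * (A : ℝ) := by linarith
  have e2 : (GT γ T : ℝ) ^ 3 / (2 * (W : ℝ) ^ 3) = D ^ 3 / 2 := by
    rw [hD, div_pow, div_div, mul_comm ((W : ℝ) ^ 3) 2]
  rw [e2]
  have e3 : ((99 / 100 : ℝ) * D) ^ 3 ≤ ((N : ℝ) - 1 - 4 * (A : ℝ)) ^ 3 :=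
    pow_le_pow_left₀ (by positivity) e1 3
  have e4 : 0 ≤ D ^ 3 := by positivity
  have e5 : ((99 / 100 : ℝ) * D) ^ 3 = (970299 / 1000000) * D ^ 3 := by ring
  rw [e5] at e3
  linarith

theorem nuB (W : ℕ) (hW : 1 ≤ W) (γ : ℝ) (hγ : 0 < γ) (hγ1 : γ ≤ 1 / 100) :
    ∃ T0 : ℝ, ∀ T : ℝ, T0 ≤ T → ∀ m p1 : ℕ, T ^ 3 ≤ (m : ℝ) →
      (m : ℝ) ≤ 64 * (W : ℝ) ^ 3 * T ^ 3 → T < p1 → ∀ s w : ℝ, s ≤ 1 / 10 ^ 4 →
      w ≤ 2 * Real.log (64 * (W : ℝ) ^ 3 * T ^ 6) →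
      162 * (GT γ T : ℝ) ^ 3 / ((W : ℝ) ^ 3 * (m : ℝ) ^ 2) * (s + 3 / p1 + 12 / 10 ^ 6) +
        (w + 3 + 12 * LT γ T) * (12 * (GT γ T : ℝ) / (W * (rT γ T : ℝ) ^ 2) + 1) ^ 2 ≤
      (GT γ T : ℝ) ^ 3 / (8 * (W : ℝ) ^ 3 * (m : ℝ) ^ 2) := by
  obtain ⟨T1, hT1⟩ := siz γ hγ hγ1
  obtain ⟨T2, -, hT2⟩ := asy (1572864 * (W : ℝ) ^ 9 * 2401 * (2 * Real.log (64 * (W : ℝ) ^ 3) + 3))
    (51 / 25 * γ) (3 * γ) (by linarith)
  obtain ⟨T3, -, hT3⟩ := asyl (1572864 * (W : ℝ) ^ 9 * 2401 * 12) (51 / 25 * γ) (3 * γ) (by linarith)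
  obtain ⟨T4, -, hT4⟩ := asy (1572864 * (W : ℝ) ^ 9 * 2401 * 12) (51 / 25 * γ + 3 / 5 * γ) (3 * γ)
    (by linarith)
  refine ⟨max (max T1 T2) (max T3 T4), fun T hT m p1 hm1 hm2 hp s w hs hw => ?_⟩
  have hS := hT1 T (((le_max_left _ _).trans (le_max_left _ _)).trans hT)
  have h2 := hT2 T (((le_max_right _ _).trans (le_max_left _ _)).trans hT)
  have h3 := hT3 T (((le_max_left _ _).trans (le_max_right _ _)).trans hT)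
  have h4 := hT4 T (((le_max_right _ _).trans (le_max_right _ _)).trans hT)
  have hT7 := hS.T1
  have hT0 : (0 : ℝ) < T := by linarith
  have hT01 : (1 : ℝ) ≤ T := by linarith
  have hWr : (1 : ℝ) ≤ (W : ℝ) := by exact_mod_cast hW
  have hW0 : (0 : ℝ) < (W : ℝ) := by linarith
  obtain ⟨q, hq⟩ : ∃ q, q = T ^ (1 - γ / 100) := ⟨_, rfl⟩
  obtain ⟨g, hg⟩ : ∃ g, g = T ^ (2 + γ) := ⟨_, rfl⟩
  obtain ⟨k, hk⟩ : ∃ k, k = T ^ (51 / 50 * γ) := ⟨_, rfl⟩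
  obtain ⟨v, hv⟩ : ∃ v, v = T ^ (3 / 5 * γ) := ⟨_, rfl⟩
  obtain ⟨u, hu⟩ : ∃ u, u = T ^ (3 * γ) := ⟨_, rfl⟩
  have hq0 : 0 < q := by rw [hq]; exact Real.rpow_pos_of_pos hT0 _
  have hk1 : 1 ≤ k := by rw [hk]; exact Real.one_le_rpow hT01 (by positivity)
  have hv1 : 1 ≤ v := by rw [hv]; exact Real.one_le_rpow hT01 (by positivity)
  have hu0 : 0 < u := by rw [hu]; exact Real.rpow_pos_of_pos hT0 _
  have hg0 : 0 < g := by rw [hg]; exact Real.rpow_pos_of_pos hT0 _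
  have hgk : g = k * q ^ 2 := by
    rw [hg, hk, hq, ← Real.rpow_natCast, ← Real.rpow_mul hT0.le, ← Real.rpow_add hT0]
    congr 1
    push_cast
    ring
  have hk2 : T ^ (51 / 25 * γ) = k ^ 2 := by
    rw [hk, ← Real.rpow_natCast, ← Real.rpow_mul hT0.le]
    congr 1
    push_cast
    ring
  have hkv : T ^ (51 / 25 * γ + 3 / 5 * γ) = k ^ 2 * v := by
    rw [Real.rpow_add hT0, hk2, hv]
  have hg3 : g ^ 3 = u * (T ^ 3) ^ 2 := by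
    have e1 : (T ^ 3) ^ 2 = T ^ (6 : ℝ) := by
      rw [← pow_mul, ← Real.rpow_natCast]
      norm_num
    rw [e1, hg, hu, ← Real.rpow_natCast, ← Real.rpow_mul hT0.le, ← Real.rpow_add hT0]
    congr 1
    push_cast
    ring
  rw [hk2, ← hu] at h2 h3
  rw [hkv, ← hu] at h4
  have hr1 := hS.r1
  rw [← hq] at hr1
  have hG1 := hS.G1
  rw [← hg] at hG1
  have hG2 := hS.G2
  rw [← hg] at hG2
  have hL2 := hS.L2
  rw [← hv] at hL2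
  have hr0 : (0 : ℝ) < (rT γ T : ℝ) := by linarith
  have hT3 : (0 : ℝ) < T ^ 3 := by positivity
  have hm0 : (0 : ℝ) < (m : ℝ) := by linarith
  have hG0 : (0 : ℝ) < (GT γ T : ℝ) := by linarith
  -- the lower bound of the main term
  obtain ⟨P, hP⟩ : ∃ P : ℝ, P = (GT γ T : ℝ) ^ 3 / ((W : ℝ) ^ 3 * (m : ℝ) ^ 2) := ⟨_, rfl⟩
  have hP0 : 0 < P := by
    rw [hP]
    positivity
  have hP1 : u / (32768 * (W : ℝ) ^ 9) ≤ P := by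
    rw [hP, div_le_div_iff₀ (by positivity) (by positivity)]
    have e1 : (m : ℝ) ^ 2 ≤ (64 * (W : ℝ) ^ 3 * T ^ 3) ^ 2 := pow_le_pow_left₀ hm0.le hm2 2
    have e2 : (g / 2) ^ 3 ≤ (GT γ T : ℝ) ^ 3 := pow_le_pow_left₀ (by positivity) hG1 3
    calc u * ((W : ℝ) ^ 3 * (m : ℝ) ^ 2) ≤ u * ((W : ℝ) ^ 3 * (64 * (W : ℝ) ^ 3 * T ^ 3) ^ 2) := by
          apply mul_le_mul_of_nonneg_left _ hu0.le
          exact mul_le_mul_of_nonneg_left e1 (by positivity)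
      _ = 4096 * (W : ℝ) ^ 9 * (u * (T ^ 3) ^ 2) := by ring
      _ = 4096 * (W : ℝ) ^ 9 * g ^ 3 := by rw [hg3]
      _ = (g / 2) ^ 3 * (32768 * (W : ℝ) ^ 9) := by ring
      _ ≤ (GT γ T : ℝ) ^ 3 * (32768 * (W : ℝ) ^ 9) :=
          mul_le_mul_of_nonneg_right e2 (by positivity)
  -- first part
  have hp0 : (0 : ℝ) < (p1 : ℝ) := by linarith
  have hp1 : 3 / (p1 : ℝ) ≤ 3 / 10 ^ 7 := by
    apply div_le_div_of_nonneg_left (by norm_num) (by norm_num)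
    linarith
  have f1 : 162 * (GT γ T : ℝ) ^ 3 / ((W : ℝ) ^ 3 * (m : ℝ) ^ 2) * (s + 3 / p1 + 12 / 10 ^ 6) ≤ P / 16 := by
    have e1 : 162 * (GT γ T : ℝ) ^ 3 / ((W : ℝ) ^ 3 * (m : ℝ) ^ 2) = 162 * P := by
      rw [hP]
      ring
    rw [e1]
    have e2 : s + 3 / (p1 : ℝ) + 12 / 10 ^ 6 ≤ 1 / 2592 := by
      norm_num at hp1 hs ⊢
      linarith
    calc 162 * P * (s + 3 / (p1 : ℝ) + 12 / 10 ^ 6) ≤ 162 * P * (1 / 2592) :=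
          mul_le_mul_of_nonneg_left e2 (by positivity)
      _ = P / 16 := by ring
  -- second part
  have f2 : 12 * (GT γ T : ℝ) / (W * (rT γ T : ℝ) ^ 2) + 1 ≤ 49 * k := by
    have e1 : 12 * (GT γ T : ℝ) / (W * (rT γ T : ℝ) ^ 2) ≤ 48 * k := by
      rw [div_le_iff₀ (by positivity)]
      have e2 : (q / 2) ^ 2 ≤ (rT γ T : ℝ) ^ 2 := pow_le_pow_left₀ (by positivity) hr1 2
      have e3 : (q / 2) ^ 2 ≤ (W : ℝ) * (rT γ T : ℝ) ^ 2 := by nlinarith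
      calc 12 * (GT γ T : ℝ) ≤ 12 * g := by linarith
        _ = 48 * k * (q / 2) ^ 2 := by rw [hgk]; ring
        _ ≤ 48 * k * ((W : ℝ) * (rT γ T : ℝ) ^ 2) := mul_le_mul_of_nonneg_left e3 (by positivity)
    linarith
  have f3 : (12 * (GT γ T : ℝ) / (W * (rT γ T : ℝ) ^ 2) + 1) ^ 2 ≤ 2401 * k ^ 2 := by
    have e1 : 0 ≤ 12 * (GT γ T : ℝ) / (W * (rT γ T : ℝ) ^ 2) + 1 := by positivity
    calc (12 * (GT γ T : ℝ) / (W * (rT γ T : ℝ) ^ 2) + 1) ^ 2 ≤ (49 * k) ^ 2 :=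
          pow_le_pow_left₀ e1 f2 2
      _ = 2401 * k ^ 2 := by ring
  have hlog : Real.log (64 * (W : ℝ) ^ 3 * T ^ 6) = Real.log (64 * (W : ℝ) ^ 3) + 6 * Real.log T := by
    rw [Real.log_mul (by positivity) (by positivity), Real.log_pow]
    norm_num
  have hl0 : 0 ≤ Real.log T := Real.log_nonneg hT01
  have hlW : 0 ≤ Real.log (64 * (W : ℝ) ^ 3) := by
    apply Real.log_nonneg
    have : (1 : ℝ) ≤ (W : ℝ) ^ 3 := one_le_pow₀ hWr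
    linarith
  have f4 : w + 3 + 12 * (LT γ T : ℝ) ≤ (2 * Real.log (64 * (W : ℝ) ^ 3) + 3) + 12 * Real.log T + 12 * v := by
    rw [hlog] at hw
    linarith
  have f5 : (w + 3 + 12 * (LT γ T : ℝ)) * (12 * (GT γ T : ℝ) / (W * (rT γ T : ℝ) ^ 2) + 1) ^ 2 ≤ P / 16 := by
    obtain ⟨l0, hl0'⟩ : ∃ l0, l0 = 2 * Real.log (64 * (W : ℝ) ^ 3) + 3 := ⟨_, rfl⟩
    rw [← hl0'] at f4 h2
    have hl1 : 0 ≤ l0 := by
      rw [hl0']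
      positivity
    have e0 : 0 ≤ l0 + 12 * Real.log T + 12 * v := by positivity
    calc (w + 3 + 12 * (LT γ T : ℝ)) * (12 * (GT γ T : ℝ) / (W * (rT γ T : ℝ) ^ 2) + 1) ^ 2
        ≤ (l0 + 12 * Real.log T + 12 * v) * (12 * (GT γ T : ℝ) / (W * (rT γ T : ℝ) ^ 2) + 1) ^ 2 :=
          mul_le_mul_of_nonneg_right f4 (sq_nonneg _)
      _ ≤ (l0 + 12 * Real.log T + 12 * v) * (2401 * k ^ 2) := mul_le_mul_of_nonneg_left f3 e0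
      _ ≤ u / (524288 * (W : ℝ) ^ 9) := by
          rw [le_div_iff₀ (by positivity)]
          linarith [h2, h3, h4]
      _ = u / (32768 * (W : ℝ) ^ 9) / 16 := by
          rw [div_div]
          congr 1
          ring
      _ ≤ P / 16 := by linarith
  have e9 : (GT γ T : ℝ) ^ 3 / (8 * (W : ℝ) ^ 3 * (m : ℝ) ^ 2) = P / 8 := by
    rw [hP, div_div]
    congr 1
    ring
  rw [e9]
  linarith

end Pool.Agent.SMP
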