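import Pool.Agent.SMP.Siz

/-!
# SMP/NuC (size 3): numerical inequalities for the large primes, part 1

Use `siz`, `asy`.  `G = GT γ T`, `r = rT γ T`, `L0 = LT γ T`, `H = HT γ T`, `R1 = R1T γ T`, `T ^ 3 ≤ m ≤ 64 W ^ 3 T ^ 3`.
Right side: `G ^ 3 / (24 W ^ 3 m ^ 2) ≥ T ^ (3 γ) / (24 * 8 * 4096 W ^ 9)`.
PROOF of `nuC15`.  `162 G ^ 3 / (m ^ 2 L0 ^ 2) ≤ 648 T ^ (1.8 γ)`; `6 G / r ^ 2 ≤ 24 T ^ (γ + γ / 50)`,
`12 G / (L0 r ^ 2) + 1 ≤ 97 T ^ (0.4 γ + γ / 50)`; total `≤ C T ^ (1.9 γ)`.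
PROOF of `nuC16`.  `2 (R1 / r) + 2 ≤ 6 T ^ (γ / 4 + γ / 100)`, `24 G / r ^ 2 + 2 ≤ 98 T ^ (γ + γ / 50)`,
`216 G ^ 2 / (m r) ≤ 432 T ^ (2 γ + γ / 100)`: first product `≤ C T ^ (2.5 γ + 3 γ / 100)`.
`2 (H / r) + 2 ≤ 14 T ^ (γ / 2 + γ / 100)`, `216 G ^ 2 / (m R1) ≤ 432 T ^ (1.75 γ)`: second product `≤ C T ^ (2.75 γ + γ / 50)`.
-/

set_option autoImplicit false

namespace Pool.Agent.SMP

private theorem NuC_pow {T : ℝ} (hT : 0 < T) (a : ℝ) (n : ℕ) (b : ℝ) (h : a * n = b) :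
    (T ^ a) ^ n = T ^ b := by
  rw [← h, Real.rpow_mul hT.le, Real.rpow_natCast]

private theorem NuC_div {T : ℝ} (hT : 0 < T) (c d a b e : ℝ) (h : a - b = e) :
    (c * T ^ a) / (d * T ^ b) = c / d * T ^ e := by
  rw [← h, Real.rpow_sub hT, mul_div_mul_comm]

private theorem NuC_up {T : ℝ} (hT : 1 ≤ T) {x y : ℝ} (h : x ≤ y) : T ^ x ≤ T ^ y :=
  Real.rpow_le_rpow_of_exponent_le hT h

private theorem NuC_one {T : ℝ} (hT : 1 ≤ T) {x : ℝ} (h : 0 ≤ x) : 1 ≤ T ^ x :=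
  Real.one_le_rpow hT h

/-- the common facts -/
private structure NuC_F (W : ℕ) (γ T : ℝ) (m : ℕ) : Prop where
  T0 : 0 < T
  T1 : 1 ≤ T
  G2 : (GT γ T : ℝ) ^ 2 ≤ T ^ (4 + 2 * γ)
  G3 : (GT γ T : ℝ) ^ 3 ≤ T ^ (6 + 3 * γ)
  m1 : 1 * T ^ (3 : ℝ) ≤ (m : ℝ)
  m2 : 1 * T ^ (6 : ℝ) ≤ (m : ℝ) ^ 2
  r1 : 1 / 2 * T ^ (1 - γ / 100) ≤ (rT γ T : ℝ)
  r2 : 1 / 4 * T ^ (2 - γ / 50) ≤ (rT γ T : ℝ) ^ 2
  lo : T ^ (3 * γ) / (786432 * (W : ℝ) ^ 9) ≤ (GT γ T : ℝ) ^ 3 / (24 * (W : ℝ) ^ 3 * (m : ℝ) ^ 2)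

private theorem NuC_f {W : ℕ} (hW : 1 ≤ W) {γ T : ℝ} (hγ : 0 < γ) (hS : Sz γ T) {m : ℕ}
    (hm1 : T ^ 3 ≤ (m : ℝ)) (hm2 : (m : ℝ) ≤ 64 * (W : ℝ) ^ 3 * T ^ 3) : NuC_F W γ T m := by
  have hT1 : 1 ≤ T := by linarith [hS.T1]
  have hT0 : 0 < T := by linarith
  have hW0 : (0 : ℝ) < W := by exact_mod_cast hW
  have e3 : T ^ (3 : ℝ) = T ^ 3 := by
    have := Real.rpow_natCast T 3
    exact_mod_cast this
  have e6 : T ^ (6 : ℝ) = T ^ 6 := by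
    have := Real.rpow_natCast T 6
    exact_mod_cast this
  have hG0 : (0 : ℝ) ≤ (GT γ T : ℝ) := Nat.cast_nonneg _
  have hm0 : (0 : ℝ) < m := lt_of_lt_of_le (by positivity) hm1
  have hG3 : (GT γ T : ℝ) ^ 3 ≤ T ^ (6 + 3 * γ) := by
    calc (GT γ T : ℝ) ^ 3 ≤ (T ^ (2 + γ)) ^ 3 := pow_le_pow_left₀ hG0 hS.G2 3
      _ = _ := NuC_pow hT0 _ 3 _ (by push_cast; ring)
  have hG3l : 1 / 8 * T ^ (6 + 3 * γ) ≤ (GT γ T : ℝ) ^ 3 := by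
    calc 1 / 8 * T ^ (6 + 3 * γ) = (T ^ (2 + γ) / 2) ^ 3 := by
          rw [div_pow, NuC_pow hT0 (2 + γ) 3 (6 + 3 * γ) (by push_cast; ring)]
          ring
      _ ≤ _ := pow_le_pow_left₀ (by positivity) hS.G1 3
  have hm2' : (m : ℝ) ^ 2 ≤ 4096 * (W : ℝ) ^ 6 * T ^ (6 : ℝ) := by
    calc (m : ℝ) ^ 2 ≤ (64 * (W : ℝ) ^ 3 * T ^ 3) ^ 2 := pow_le_pow_left₀ hm0.le hm2 2
      _ = _ := by rw [e6]; ring
  refine ⟨hT0, hT1, ?_, hG3, ?_, ?_, ?_, ?_, ?_⟩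
  · calc (GT γ T : ℝ) ^ 2 ≤ (T ^ (2 + γ)) ^ 2 := pow_le_pow_left₀ hG0 hS.G2 2
      _ = _ := NuC_pow hT0 _ 2 _ (by push_cast; ring)
  · rw [one_mul, e3]
    exact hm1
  · rw [one_mul, e6]
    calc T ^ 6 = (T ^ 3) ^ 2 := by ring
      _ ≤ _ := pow_le_pow_left₀ (by positivity) hm1 2
  · have := hS.r1
    linarith
  · calc 1 / 4 * T ^ (2 - γ / 50) = (T ^ (1 - γ / 100) / 2) ^ 2 := by
          rw [div_pow, NuC_pow hT0 (1 - γ / 100) 2 (2 - γ / 50) (by push_cast; ring)]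
          ring
      _ ≤ _ := pow_le_pow_left₀ (by positivity) hS.r1 2
  · have h1 : (1 / 8 * T ^ (6 + 3 * γ)) / (98304 * (W : ℝ) ^ 9 * T ^ (6 : ℝ))
        ≤ (GT γ T : ℝ) ^ 3 / (24 * (W : ℝ) ^ 3 * (m : ℝ) ^ 2) := by
      refine div_le_div₀ (by positivity) hG3l (by positivity) ?_
      calc 24 * (W : ℝ) ^ 3 * (m : ℝ) ^ 2
          ≤ 24 * (W : ℝ) ^ 3 * (4096 * (W : ℝ) ^ 6 * T ^ (6 : ℝ)) :=
            mul_le_mul_of_nonneg_left hm2' (by positivity)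
        _ = _ := by ring
    rw [NuC_div hT0 (1 / 8) (98304 * (W : ℝ) ^ 9) (6 + 3 * γ) 6 (3 * γ) (by ring)] at h1
    refine le_trans (le_of_eq ?_) h1
    field_simp
    norm_num

theorem nuC15 (W : ℕ) (hW : 1 ≤ W) (γ : ℝ) (hγ : 0 < γ) (hγ1 : γ ≤ 1 / 100) :
    ∃ T0 : ℝ, ∀ T : ℝ, T0 ≤ T → ∀ m : ℕ, T ^ 3 ≤ (m : ℝ) → (m : ℝ) ≤ 64 * (W : ℝ) ^ 3 * T ^ 3 →
      162 * (GT γ T : ℝ) ^ 3 / ((m : ℝ) ^ 2 * (LT γ T : ℝ) ^ 2) +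
        6 * (GT γ T : ℝ) / (rT γ T : ℝ) ^ 2 *
          (12 * (GT γ T : ℝ) / (LT γ T * (rT γ T : ℝ) ^ 2) + 1) ^ 2 ≤
      (GT γ T : ℝ) ^ 3 / (24 * (W : ℝ) ^ 3 * (m : ℝ) ^ 2) := by
  obtain ⟨T1, hsiz⟩ := siz γ hγ hγ1
  obtain ⟨T2, hT2, hasy⟩ := asy (226464 * (786432 * (W : ℝ) ^ 9)) (93 / 50 * γ) (3 * γ)
    (by nlinarith)
  refine ⟨max T1 T2, fun T hT m hm1 hm2 => ?_⟩
  have hS := hsiz T ((le_max_left _ _).trans hT)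
  have hA := hasy T ((le_max_right _ _).trans hT)
  have hF := NuC_f hW hγ hS hm1 hm2
  have hT0 := hF.T0
  have hT1 := hF.T1
  have hW0 : (0 : ℝ) < W := by exact_mod_cast hW
  have hL1 : 1 / 2 * T ^ (3 / 5 * γ) ≤ (LT γ T : ℝ) := by
    have := hS.L1
    linarith
  have hL2 : 1 / 4 * T ^ (6 / 5 * γ) ≤ (LT γ T : ℝ) ^ 2 := by
    calc 1 / 4 * T ^ (6 / 5 * γ) = (1 / 2 * T ^ (3 / 5 * γ)) ^ 2 := by
          rw [mul_pow, NuC_pow hT0 (3 / 5 * γ) 2 (6 / 5 * γ) (by push_cast; ring)]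
          norm_num
      _ ≤ _ := pow_le_pow_left₀ (by positivity) hL1 2
  have t1 : 162 * (GT γ T : ℝ) ^ 3 / ((m : ℝ) ^ 2 * (LT γ T : ℝ) ^ 2) ≤ 648 * T ^ (9 / 5 * γ) := by
    have hden : 1 / 4 * T ^ (6 + 6 / 5 * γ) ≤ (m : ℝ) ^ 2 * (LT γ T : ℝ) ^ 2 := by
      calc 1 / 4 * T ^ (6 + 6 / 5 * γ) = (1 * T ^ (6 : ℝ)) * (1 / 4 * T ^ (6 / 5 * γ)) := by
            rw [Real.rpow_add hT0]
            ring
        _ ≤ _ := mul_le_mul hF.m2 hL2 (by positivity) (by positivity)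
    calc 162 * (GT γ T : ℝ) ^ 3 / ((m : ℝ) ^ 2 * (LT γ T : ℝ) ^ 2)
        ≤ (162 * T ^ (6 + 3 * γ)) / (1 / 4 * T ^ (6 + 6 / 5 * γ)) :=
          div_le_div₀ (by positivity) (mul_le_mul_of_nonneg_left hF.G3 (by norm_num))
            (by positivity) hden
      _ = 162 / (1 / 4) * T ^ (9 / 5 * γ) := NuC_div hT0 _ _ _ _ _ (by ring)
      _ = _ := by norm_num
  have t2 : 6 * (GT γ T : ℝ) / (rT γ T : ℝ) ^ 2 ≤ 24 * T ^ (γ + γ / 50) := by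
    calc 6 * (GT γ T : ℝ) / (rT γ T : ℝ) ^ 2 ≤ (6 * T ^ (2 + γ)) / (1 / 4 * T ^ (2 - γ / 50)) :=
          div_le_div₀ (by positivity) (mul_le_mul_of_nonneg_left hS.G2 (by norm_num))
            (by positivity) hF.r2
      _ = 6 / (1 / 4) * T ^ (γ + γ / 50) := NuC_div hT0 _ _ _ _ _ (by ring)
      _ = _ := by norm_num
  have t3 : 12 * (GT γ T : ℝ) / (LT γ T * (rT γ T : ℝ) ^ 2) + 1 ≤ 97 * T ^ (2 / 5 * γ + γ / 50) := by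
    have hden : 1 / 8 * T ^ (2 + 3 / 5 * γ - γ / 50) ≤ (LT γ T : ℝ) * (rT γ T : ℝ) ^ 2 := by
      calc 1 / 8 * T ^ (2 + 3 / 5 * γ - γ / 50)
          = (1 / 2 * T ^ (3 / 5 * γ)) * (1 / 4 * T ^ (2 - γ / 50)) := by
            rw [show 2 + 3 / 5 * γ - γ / 50 = 3 / 5 * γ + (2 - γ / 50) by ring, Real.rpow_add hT0]
            ring
        _ ≤ _ := mul_le_mul hL1 hF.r2 (by positivity) (by positivity)
    have h1 : 12 * (GT γ T : ℝ) / (LT γ T * (rT γ T : ℝ) ^ 2) ≤ 96 * T ^ (2 / 5 * γ + γ / 50) := by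
      calc 12 * (GT γ T : ℝ) / (LT γ T * (rT γ T : ℝ) ^ 2)
          ≤ (12 * T ^ (2 + γ)) / (1 / 8 * T ^ (2 + 3 / 5 * γ - γ / 50)) :=
            div_le_div₀ (by positivity) (mul_le_mul_of_nonneg_left hS.G2 (by norm_num))
              (by positivity) hden
        _ = 12 / (1 / 8) * T ^ (2 / 5 * γ + γ / 50) := NuC_div hT0 _ _ _ _ _ (by ring)
        _ = _ := by norm_num
    have h2 : 1 ≤ T ^ (2 / 5 * γ + γ / 50) := NuC_one hT1 (by positivity)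
    linarith
  have t4 : (12 * (GT γ T : ℝ) / (LT γ T * (rT γ T : ℝ) ^ 2) + 1) ^ 2
      ≤ 9409 * T ^ (21 / 25 * γ) := by
    calc _ ≤ (97 * T ^ (2 / 5 * γ + γ / 50)) ^ 2 := pow_le_pow_left₀ (by positivity) t3 2
      _ = _ := by
        rw [mul_pow, NuC_pow hT0 (2 / 5 * γ + γ / 50) 2 (21 / 25 * γ) (by push_cast; ring)]
        norm_num
  have t5 : 6 * (GT γ T : ℝ) / (rT γ T : ℝ) ^ 2 *
      (12 * (GT γ T : ℝ) / (LT γ T * (rT γ T : ℝ) ^ 2) + 1) ^ 2 ≤ 225816 * T ^ (93 / 50 * γ) := by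
    calc _ ≤ (24 * T ^ (γ + γ / 50)) * (9409 * T ^ (21 / 25 * γ)) :=
          mul_le_mul t2 t4 (by positivity) (by positivity)
      _ = 225816 * (T ^ (γ + γ / 50) * T ^ (21 / 25 * γ)) := by ring
      _ = _ := by
        rw [← Real.rpow_add hT0]
        congr 2
        ring
  have t6 : T ^ (9 / 5 * γ) ≤ T ^ (93 / 50 * γ) := NuC_up hT1 (by nlinarith)
  refine le_trans ?_ hF.lo
  rw [le_div_iff₀ (by positivity)]
  calc (162 * (GT γ T : ℝ) ^ 3 / ((m : ℝ) ^ 2 * (LT γ T : ℝ) ^ 2) +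
        6 * (GT γ T : ℝ) / (rT γ T : ℝ) ^ 2 *
          (12 * (GT γ T : ℝ) / (LT γ T * (rT γ T : ℝ) ^ 2) + 1) ^ 2) * (786432 * (W : ℝ) ^ 9)
      ≤ (226464 * T ^ (93 / 50 * γ)) * (786432 * (W : ℝ) ^ 9) := by
        apply mul_le_mul_of_nonneg_right _ (by positivity)
        linarith
    _ = 226464 * (786432 * (W : ℝ) ^ 9) * T ^ (93 / 50 * γ) := by ring
    _ ≤ _ := hA

theorem nuC16 (W : ℕ) (hW : 1 ≤ W) (γ : ℝ) (hγ : 0 < γ) (hγ1 : γ ≤ 1 / 100) :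
    ∃ T0 : ℝ, ∀ T : ℝ, T0 ≤ T → ∀ m : ℕ, T ^ 3 ≤ (m : ℝ) → (m : ℝ) ≤ 64 * (W : ℝ) ^ 3 * T ^ 3 →
      3 * (((2 * (R1T γ T / rT γ T) + 2 : ℕ) : ℝ) ^ 2 *
        (24 * (GT γ T : ℝ) / (rT γ T : ℝ) ^ 2 + 2 +
          216 * (GT γ T : ℝ) ^ 2 / ((m : ℝ) * rT γ T)) +
        ((2 * (HT γ T / rT γ T) + 2 : ℕ) : ℝ) ^ 2 *
        (24 * (GT γ T : ℝ) / (rT γ T : ℝ) ^ 2 + 2 +
          216 * (GT γ T : ℝ) ^ 2 / ((m : ℝ) * R1T γ T))) ≤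
      (GT γ T : ℝ) ^ 3 / (24 * (W : ℝ) ^ 3 * (m : ℝ) ^ 2) := by
  obtain ⟨T1, hsiz⟩ := siz γ hγ hγ1
  obtain ⟨T2, hT2, hasy⟩ := asy (368880 * (786432 * (W : ℝ) ^ 9)) (277 / 100 * γ) (3 * γ)
    (by nlinarith)
  refine ⟨max T1 T2, fun T hT m hm1 hm2 => ?_⟩
  have hS := hsiz T ((le_max_left _ _).trans hT)
  have hA := hasy T ((le_max_right _ _).trans hT)
  have hF := NuC_f hW hγ hS hm1 hm2
  have hT0 := hF.T0
  have hT1 := hF.T1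
  have hW0 : (0 : ℝ) < W := by exact_mod_cast hW
  have hdiv : ∀ x : ℕ, ((x / rT γ T : ℕ) : ℝ) ≤ (x : ℝ) / (rT γ T : ℝ) := fun x => Nat.cast_div_le
  have hR : 1 / 2 * T ^ (1 + γ / 4) ≤ (R1T γ T : ℝ) := by
    have := hS.R1
    linarith
  have u1 : ((2 * (R1T γ T / rT γ T) + 2 : ℕ) : ℝ) ^ 2 ≤ 36 * T ^ (13 / 25 * γ) := by
    have h1 : (R1T γ T : ℝ) / (rT γ T : ℝ) ≤ 2 * T ^ (13 / 50 * γ) := by
      calc (R1T γ T : ℝ) / (rT γ T : ℝ) ≤ (1 * T ^ (1 + γ / 4)) / (1 / 2 * T ^ (1 - γ / 100)) :=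
            div_le_div₀ (by positivity) (by rw [one_mul]; exact hS.R2) (by positivity) hF.r1
        _ = 1 / (1 / 2) * T ^ (13 / 50 * γ) := NuC_div hT0 _ _ _ _ _ (by ring)
        _ = _ := by norm_num
    have h2 : 1 ≤ T ^ (13 / 50 * γ) := NuC_one hT1 (by positivity)
    have h3 : ((2 * (R1T γ T / rT γ T) + 2 : ℕ) : ℝ) ≤ 6 * T ^ (13 / 50 * γ) := by
      have h4 := hdiv (R1T γ T)
      push_cast
      push_cast at h4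
      linarith
    calc _ ≤ (6 * T ^ (13 / 50 * γ)) ^ 2 := pow_le_pow_left₀ (Nat.cast_nonneg _) h3 2
      _ = _ := by
        rw [mul_pow, NuC_pow hT0 (13 / 50 * γ) 2 (13 / 25 * γ) (by push_cast; ring)]
        norm_num
  have u2 : ((2 * (HT γ T / rT γ T) + 2 : ℕ) : ℝ) ^ 2 ≤ 196 * T ^ (51 / 50 * γ) := by
    have h1 : (HT γ T : ℝ) / (rT γ T : ℝ) ≤ 6 * T ^ (51 / 100 * γ) := by
      calc (HT γ T : ℝ) / (rT γ T : ℝ) ≤ (3 * T ^ (1 + γ / 2)) / (1 / 2 * T ^ (1 - γ / 100)) :=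
            div_le_div₀ (by positivity) hS.H2 (by positivity) hF.r1
        _ = 3 / (1 / 2) * T ^ (51 / 100 * γ) := NuC_div hT0 _ _ _ _ _ (by ring)
        _ = _ := by norm_num
    have h2 : 1 ≤ T ^ (51 / 100 * γ) := NuC_one hT1 (by positivity)
    have h3 : ((2 * (HT γ T / rT γ T) + 2 : ℕ) : ℝ) ≤ 14 * T ^ (51 / 100 * γ) := by
      have h4 := hdiv (HT γ T)
      push_cast
      push_cast at h4
      linarith
    calc _ ≤ (14 * T ^ (51 / 100 * γ)) ^ 2 := pow_le_pow_left₀ (Nat.cast_nonneg _) h3 2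
      _ = _ := by
        rw [mul_pow, NuC_pow hT0 (51 / 100 * γ) 2 (51 / 50 * γ) (by push_cast; ring)]
        norm_num
  have u3 : 24 * (GT γ T : ℝ) / (rT γ T : ℝ) ^ 2 + 2 ≤ 98 * T ^ (51 / 50 * γ) := by
    have h1 : 24 * (GT γ T : ℝ) / (rT γ T : ℝ) ^ 2 ≤ 96 * T ^ (51 / 50 * γ) := by
      calc 24 * (GT γ T : ℝ) / (rT γ T : ℝ) ^ 2
          ≤ (24 * T ^ (2 + γ)) / (1 / 4 * T ^ (2 - γ / 50)) :=
            div_le_div₀ (by positivity) (mul_le_mul_of_nonneg_left hS.G2 (by norm_num))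
              (by positivity) hF.r2
        _ = 24 / (1 / 4) * T ^ (51 / 50 * γ) := NuC_div hT0 _ _ _ _ _ (by ring)
        _ = _ := by norm_num
    have h2 : 1 ≤ T ^ (51 / 50 * γ) := NuC_one hT1 (by positivity)
    linarith
  have u4 : 216 * (GT γ T : ℝ) ^ 2 / ((m : ℝ) * rT γ T) ≤ 432 * T ^ (201 / 100 * γ) := by
    have hden : 1 / 2 * T ^ (4 - γ / 100) ≤ (m : ℝ) * rT γ T := by
      calc 1 / 2 * T ^ (4 - γ / 100) = (1 * T ^ (3 : ℝ)) * (1 / 2 * T ^ (1 - γ / 100)) := by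
            rw [show 4 - γ / 100 = 3 + (1 - γ / 100) by ring, Real.rpow_add hT0]
            ring
        _ ≤ _ := mul_le_mul hF.m1 hF.r1 (by positivity) (by positivity)
    calc 216 * (GT γ T : ℝ) ^ 2 / ((m : ℝ) * rT γ T)
        ≤ (216 * T ^ (4 + 2 * γ)) / (1 / 2 * T ^ (4 - γ / 100)) :=
          div_le_div₀ (by positivity) (mul_le_mul_of_nonneg_left hF.G2 (by norm_num))
            (by positivity) hden
      _ = 216 / (1 / 2) * T ^ (201 / 100 * γ) := NuC_div hT0 _ _ _ _ _ (by ring)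
      _ = _ := by norm_num
  have u5 : 216 * (GT γ T : ℝ) ^ 2 / ((m : ℝ) * R1T γ T) ≤ 432 * T ^ (7 / 4 * γ) := by
    have hden : 1 / 2 * T ^ (4 + γ / 4) ≤ (m : ℝ) * R1T γ T := by
      calc 1 / 2 * T ^ (4 + γ / 4) = (1 * T ^ (3 : ℝ)) * (1 / 2 * T ^ (1 + γ / 4)) := by
            rw [show 4 + γ / 4 = 3 + (1 + γ / 4) by ring, Real.rpow_add hT0]
            ring
        _ ≤ _ := mul_le_mul hF.m1 hR (by positivity) (by positivity)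
    calc 216 * (GT γ T : ℝ) ^ 2 / ((m : ℝ) * R1T γ T)
        ≤ (216 * T ^ (4 + 2 * γ)) / (1 / 2 * T ^ (4 + γ / 4)) :=
          div_le_div₀ (by positivity) (mul_le_mul_of_nonneg_left hF.G2 (by norm_num))
            (by positivity) hden
      _ = 216 / (1 / 2) * T ^ (7 / 4 * γ) := NuC_div hT0 _ _ _ _ _ (by ring)
      _ = _ := by norm_num
  have v1 : T ^ (51 / 50 * γ) ≤ T ^ (201 / 100 * γ) := NuC_up hT1 (by nlinarith)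
  have v2 : T ^ (51 / 50 * γ) ≤ T ^ (7 / 4 * γ) := NuC_up hT1 (by nlinarith)
  have w1 : ((2 * (R1T γ T / rT γ T) + 2 : ℕ) : ℝ) ^ 2 *
        (24 * (GT γ T : ℝ) / (rT γ T : ℝ) ^ 2 + 2 +
          216 * (GT γ T : ℝ) ^ 2 / ((m : ℝ) * rT γ T)) ≤ 19080 * T ^ (277 / 100 * γ) := by
    have h1 : T ^ (253 / 100 * γ) ≤ T ^ (277 / 100 * γ) := NuC_up hT1 (by nlinarith)
    calc _ ≤ (36 * T ^ (13 / 25 * γ)) * (530 * T ^ (201 / 100 * γ)) :=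
          mul_le_mul u1 (by linarith) (by positivity) (by positivity)
      _ = 19080 * (T ^ (13 / 25 * γ) * T ^ (201 / 100 * γ)) := by ring
      _ = 19080 * T ^ (253 / 100 * γ) := by
        rw [← Real.rpow_add hT0]
        congr 2
        ring
      _ ≤ _ := by linarith
  have w2 : ((2 * (HT γ T / rT γ T) + 2 : ℕ) : ℝ) ^ 2 *
        (24 * (GT γ T : ℝ) / (rT γ T : ℝ) ^ 2 + 2 +
          216 * (GT γ T : ℝ) ^ 2 / ((m : ℝ) * R1T γ T)) ≤ 103880 * T ^ (277 / 100 * γ) := by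
    calc _ ≤ (196 * T ^ (51 / 50 * γ)) * (530 * T ^ (7 / 4 * γ)) :=
          mul_le_mul u2 (by linarith) (by positivity) (by positivity)
      _ = 103880 * (T ^ (51 / 50 * γ) * T ^ (7 / 4 * γ)) := by ring
      _ = 103880 * T ^ (277 / 100 * γ) := by
        rw [← Real.rpow_add hT0]
        congr 2
        ring
  refine le_trans ?_ hF.lo
  rw [le_div_iff₀ (by positivity)]
  refine le_trans (mul_le_mul_of_nonneg_right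
    (b := 3 * (((2 * (R1T γ T / rT γ T) + 2 : ℕ) : ℝ) ^ 2 *
        (24 * (GT γ T : ℝ) / (rT γ T : ℝ) ^ 2 + 2 +
          216 * (GT γ T : ℝ) ^ 2 / ((m : ℝ) * rT γ T)) +
        ((2 * (HT γ T / rT γ T) + 2 : ℕ) : ℝ) ^ 2 *
        (24 * (GT γ T : ℝ) / (rT γ T : ℝ) ^ 2 + 2 +
          216 * (GT γ T : ℝ) ^ 2 / ((m : ℝ) * R1T γ T)))
    ) (c := 368880 * T ^ (277 / 100 * γ)) ?_ (by positivity)) ?_
  · linarith
  · calc 368880 * T ^ (277 / 100 * γ) * (786432 * (W : ℝ) ^ 9)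
        = 368880 * (786432 * (W : ℝ) ^ 9) * T ^ (277 / 100 * γ) := by ring
      _ ≤ _ := hA

end Pool.Agent.SMP
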