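import Pool.Agent.SMP.Siz

/-!
# SMP/NuD (size 3): numerical inequalities for the large primes, part 2

Use `siz`, `asy`.  `G = GT γ T`, `r = rT γ T`, `L0 = LT γ T`, `H = HT γ T`, `B = ⌊70 / γ⌋₊`.
PROOF of `nuD`.  `Y = ⌊4 W T⌋₊`; `7 Y ^ 3 H ^ 4 ≤ 7 * 64 * 81 W ^ 3 T ^ (7 + 2 γ)`, its cube is `≤ T ^ 22` for `T` large.  Let `w` be the
number of the primes `l > L0` dividing `n`; their product divides `n`, so `L0 ^ w ≤ n ≤ T ^ 22`, `w log L0 ≤ 22 log T`;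
`log L0 ≥ (3 γ / 5) log T - log 2 ≥ (γ / 2) log T` for `T` large, so `w ≤ 44 / γ ≤ 70 / γ`.
PROOF of `nuD18`.  `2 (H / r) + 2 ≤ 14 T ^ (γ / 2 + γ / 100)`; `24 G / r ^ 2 + 2 ≤ 98 T ^ (γ + γ / 50)`;
`216 G ^ 2 / (L0 m r) ≤ 864 T ^ (1.4 γ + γ / 100)`; total `≤ (C / γ) T ^ (2.94 γ)`.
-/

set_option autoImplicit false

namespace Pool.Agent.SMP

private theorem cardBound (n : ℕ) (hn : n ≠ 0) (L : ℕ) (x : ℝ) (hx : 1 ≤ x) (hL : x ≤ (L : ℝ)) :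
    x ^ ((n.primeFactors.filter (fun l => L < l)).card) ≤ (n : ℝ) := by
  have h1 : (∏ l ∈ n.primeFactors.filter (fun l => L < l), l) ∣ n := by
    refine dvd_trans ?_ (Nat.prod_primeFactors_dvd n)
    exact Finset.prod_dvd_prod_of_subset _ _ _ (Finset.filter_subset _ _)
  have h2 : (∏ l ∈ n.primeFactors.filter (fun l => L < l), l) ≤ n :=
    Nat.le_of_dvd (Nat.pos_of_ne_zero hn) h1
  have h3 : x ^ ((n.primeFactors.filter (fun l => L < l)).card) ≤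
      ∏ l ∈ n.primeFactors.filter (fun l => L < l), (l : ℝ) := by
    rw [← Finset.prod_const]
    refine Finset.prod_le_prod (fun _ _ => by linarith) (fun l hl => ?_)
    have h4 : L < l := (Finset.mem_filter.1 hl).2
    have h5 : (L : ℝ) ≤ l := by exact_mod_cast h4.le
    linarith
  calc x ^ ((n.primeFactors.filter (fun l => L < l)).card) ≤
      ∏ l ∈ n.primeFactors.filter (fun l => L < l), (l : ℝ) := h3
    _ = ((∏ l ∈ n.primeFactors.filter (fun l => L < l), l : ℕ) : ℝ) := by push_cast; rfl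
    _ ≤ n := by exact_mod_cast h2

theorem nuD (W : ℕ) (hW : 1 ≤ W) (γ : ℝ) (hγ : 0 < γ) (hγ1 : γ ≤ 1 / 100) :
    ∃ T0 : ℝ, ∀ T : ℝ, T0 ≤ T → ∀ n : ℕ, n ≠ 0 →
      n ≤ (7 * ⌊4 * (W : ℝ) * T⌋₊ ^ 3 * HT γ T ^ 4) ^ 3 →
      (n.primeFactors.filter (fun l => LT γ T < l)).card ≤ ⌊70 / γ⌋₊ := by
  obtain ⟨T1, h1⟩ := siz γ hγ hγ1
  obtain ⟨T2, hT2, h2⟩ := asy 2 (γ / 2) (3 / 5 * γ) (by linarith)
  obtain ⟨T3, hT3, h3⟩ := asy (36288 * (W : ℝ) ^ 3) (7 + 2 * γ) (22 / 3) (by linarith)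
  refine ⟨max T1 (max T2 T3), fun T hT n hn hn1 => ?_⟩
  have hS := h1 T ((le_max_left _ _).trans hT)
  have hb := h2 T (((le_max_left _ _).trans (le_max_right _ _)).trans hT)
  have hc := h3 T (((le_max_right _ _).trans (le_max_right _ _)).trans hT)
  have hT1 : (1 : ℝ) < T := by linarith [hS.T1]
  have hT0 : (0 : ℝ) < T := by linarith
  have hWr : (1 : ℝ) ≤ (W : ℝ) := by exact_mod_cast hW
  have hL : T ^ (γ / 2) ≤ (LT γ T : ℝ) := by linarith [hS.L1]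
  have hx : (1 : ℝ) ≤ T ^ (γ / 2) := Real.one_le_rpow hT1.le (by linarith)
  have h4 := cardBound n hn (LT γ T) _ hx hL
  set w := (n.primeFactors.filter (fun l => LT γ T < l)).card with hw
  -- the size of n
  have hY : ((⌊4 * (W : ℝ) * T⌋₊ : ℕ) : ℝ) ≤ 4 * (W : ℝ) * T := Nat.floor_le (by positivity)
  have hH4 : ((HT γ T : ℕ) : ℝ) ^ 4 ≤ 81 * T ^ (4 + 2 * γ) := by
    calc ((HT γ T : ℕ) : ℝ) ^ 4 ≤ (3 * T ^ (1 + γ / 2)) ^ 4 :=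
          pow_le_pow_left₀ (by positivity) hS.H2 4
      _ = 81 * (T ^ (1 + γ / 2)) ^ 4 := by ring
      _ = 81 * T ^ (4 + 2 * γ) := by
          rw [← Real.rpow_natCast, ← Real.rpow_mul hT0.le]
          congr 2
          push_cast
          ring
  have hT3' : T ^ 3 * T ^ (4 + 2 * γ) = T ^ (7 + 2 * γ) := by
    rw [← Real.rpow_natCast T 3, ← Real.rpow_add hT0]
    congr 1
    push_cast
    ring
  have h5 : ((7 * ⌊4 * (W : ℝ) * T⌋₊ ^ 3 * HT γ T ^ 4 : ℕ) : ℝ) ≤ T ^ ((22 : ℝ) / 3) := by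
    push_cast
    calc 7 * ((⌊4 * (W : ℝ) * T⌋₊ : ℕ) : ℝ) ^ 3 * ((HT γ T : ℕ) : ℝ) ^ 4
        ≤ 7 * (4 * (W : ℝ) * T) ^ 3 * (81 * T ^ (4 + 2 * γ)) := by
          gcongr
      _ = 36288 * (W : ℝ) ^ 3 * (T ^ 3 * T ^ (4 + 2 * γ)) := by ring
      _ = 36288 * (W : ℝ) ^ 3 * T ^ (7 + 2 * γ) := by rw [hT3']
      _ ≤ T ^ ((22 : ℝ) / 3) := hc
  have h6 : (n : ℝ) ≤ T ^ (22 : ℝ) := by
    calc (n : ℝ) ≤ (((7 * ⌊4 * (W : ℝ) * T⌋₊ ^ 3 * HT γ T ^ 4) ^ 3 : ℕ) : ℝ) := by exact_mod_cast hn1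
      _ = ((7 * ⌊4 * (W : ℝ) * T⌋₊ ^ 3 * HT γ T ^ 4 : ℕ) : ℝ) ^ 3 := by push_cast; ring
      _ ≤ (T ^ ((22 : ℝ) / 3)) ^ 3 := pow_le_pow_left₀ (by positivity) h5 3
      _ = T ^ (22 : ℝ) := by
          rw [← Real.rpow_natCast, ← Real.rpow_mul hT0.le]
          congr 1
          push_cast
          norm_num
  have h7 : T ^ (γ / 2 * w) ≤ T ^ (22 : ℝ) := by
    rw [Real.rpow_mul hT0.le, Real.rpow_natCast]
    exact h4.trans h6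
  have h8 : γ / 2 * w ≤ 22 := (Real.rpow_le_rpow_left_iff hT1).1 h7
  refine Nat.le_floor ?_
  rw [le_div_iff₀ hγ]
  nlinarith

theorem nuD18 (W : ℕ) (hW : 1 ≤ W) (γ : ℝ) (hγ : 0 < γ) (hγ1 : γ ≤ 1 / 100) :
    ∃ T0 : ℝ, ∀ T : ℝ, T0 ≤ T → ∀ m : ℕ, T ^ 3 ≤ (m : ℝ) → (m : ℝ) ≤ 64 * (W : ℝ) ^ 3 * T ^ 3 →
      ((2 * (HT γ T / rT γ T) + 2 : ℕ) : ℝ) ^ 3 * (12 * (⌊70 / γ⌋₊ : ℝ)) *
        (24 * (GT γ T : ℝ) / (rT γ T : ℝ) ^ 2 + 2 +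
          216 * (GT γ T : ℝ) ^ 2 / ((LT γ T : ℝ) * m * rT γ T)) ≤
      (GT γ T : ℝ) ^ 3 / (24 * (W : ℝ) ^ 3 * (m : ℝ) ^ 2) := by
  obtain ⟨T1, h1⟩ := siz γ hγ hγ1
  obtain ⟨T2, hT2, h2⟩ := asy (2744 * (12 * (70 / γ)) * 962 * (786432 * (W : ℝ) ^ 9))
    (294 / 100 * γ) (3 * γ) (by linarith)
  refine ⟨max T1 T2, fun T hT m hm1 hm2 => ?_⟩
  have hS := h1 T ((le_max_left _ _).trans hT)
  have hb := h2 T ((le_max_right _ _).trans hT)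
  have hT1 : (1 : ℝ) < T := by linarith [hS.T1]
  have hT0 : (0 : ℝ) < T := by linarith
  have hWr : (1 : ℝ) ≤ (W : ℝ) := by exact_mod_cast hW
  have hW0 : (0 : ℝ) < (W : ℝ) := by linarith
  have hm0 : (0 : ℝ) < (m : ℝ) := lt_of_lt_of_le (by positivity) hm1
  set H : ℝ := ((HT γ T : ℕ) : ℝ) with hH
  set G : ℝ := ((GT γ T : ℕ) : ℝ) with hG
  set r : ℝ := ((rT γ T : ℕ) : ℝ) with hr
  set L : ℝ := ((LT γ T : ℕ) : ℝ) with hL
  have hr0 : 0 < r := lt_of_lt_of_le (by positivity) hS.r1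
  have hL0 : 0 < L := lt_of_lt_of_le (by positivity) hS.L1
  have hG0 : 0 ≤ G := by rw [hG]; positivity
  -- first factor
  have e1 : T ^ (51 / 100 * γ) * T ^ (1 - γ / 100) = T ^ (1 + γ / 2) := by
    rw [← Real.rpow_add hT0]
    congr 1
    ring
  have hHr : H / r ≤ 6 * T ^ (51 / 100 * γ) := by
    rw [div_le_iff₀ hr0]
    have h3 : 6 * T ^ (51 / 100 * γ) * (T ^ (1 - γ / 100) / 2) ≤ 6 * T ^ (51 / 100 * γ) * r :=
      mul_le_mul_of_nonneg_left hS.r1 (by positivity)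
    have h4 := hS.H2
    nlinarith [e1]
  have hone1 : (1 : ℝ) ≤ T ^ (51 / 100 * γ) := Real.one_le_rpow hT1.le (by linarith)
  have f1 : ((2 * (HT γ T / rT γ T) + 2 : ℕ) : ℝ) ≤ 14 * T ^ (51 / 100 * γ) := by
    have h3 : ((HT γ T / rT γ T : ℕ) : ℝ) ≤ H / r := Nat.cast_div_le
    push_cast
    linarith
  have f1' : ((2 * (HT γ T / rT γ T) + 2 : ℕ) : ℝ) ^ 3 ≤ 2744 * T ^ (153 / 100 * γ) := by
    calc ((2 * (HT γ T / rT γ T) + 2 : ℕ) : ℝ) ^ 3 ≤ (14 * T ^ (51 / 100 * γ)) ^ 3 :=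
          pow_le_pow_left₀ (by positivity) f1 3
      _ = 2744 * (T ^ (51 / 100 * γ)) ^ 3 := by ring
      _ = 2744 * T ^ (153 / 100 * γ) := by
          rw [← Real.rpow_natCast, ← Real.rpow_mul hT0.le]
          congr 2
          push_cast
          ring
  -- second factor
  have f2 : (12 * (⌊70 / γ⌋₊ : ℝ)) ≤ 12 * (70 / γ) := by
    have := Nat.floor_le (show (0 : ℝ) ≤ 70 / γ by positivity)
    linarith
  -- third factor
  have e2 : (T ^ (1 - γ / 100)) ^ 2 = T ^ (2 - γ / 50) := by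
    rw [← Real.rpow_natCast, ← Real.rpow_mul hT0.le]
    congr 1
    push_cast
    ring
  have hr2 : T ^ (2 - γ / 50) / 4 ≤ r ^ 2 := by
    have h3 : (T ^ (1 - γ / 100) / 2) ^ 2 ≤ r ^ 2 := pow_le_pow_left₀ (by positivity) hS.r1 2
    rw [div_pow, e2] at h3
    linarith
  have e3 : T ^ (102 / 100 * γ) * T ^ (2 - γ / 50) = T ^ (2 + γ) := by
    rw [← Real.rpow_add hT0]
    congr 1
    ring
  have g1 : 24 * G / r ^ 2 ≤ 96 * T ^ (102 / 100 * γ) := by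
    rw [div_le_iff₀ (by positivity)]
    have h3 : 96 * T ^ (102 / 100 * γ) * (T ^ (2 - γ / 50) / 4) ≤ 96 * T ^ (102 / 100 * γ) * r ^ 2 :=
      mul_le_mul_of_nonneg_left hr2 (by positivity)
    have h4 := hS.G2
    nlinarith [e3]
  have hle : T ^ (102 / 100 * γ) ≤ T ^ (141 / 100 * γ) :=
    Real.rpow_le_rpow_of_exponent_le hT1.le (by linarith)
  have hone2 : (1 : ℝ) ≤ T ^ (141 / 100 * γ) := Real.one_le_rpow hT1.le (by linarith)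
  have e4 : T ^ (141 / 100 * γ) * (T ^ (3 / 5 * γ) * T ^ 3 * T ^ (1 - γ / 100)) =
      (T ^ (2 + γ)) ^ 2 := by
    rw [← Real.rpow_natCast T 3, ← Real.rpow_natCast (T ^ (2 + γ)) 2, ← Real.rpow_add hT0,
      ← Real.rpow_add hT0, ← Real.rpow_add hT0, ← Real.rpow_mul hT0.le]
    congr 1
    push_cast
    ring
  have g2 : 216 * G ^ 2 / (L * m * r) ≤ 864 * T ^ (141 / 100 * γ) := by
    rw [div_le_iff₀ (by positivity)]
    have h3 : (T ^ (3 / 5 * γ) / 2) * T ^ 3 * (T ^ (1 - γ / 100) / 2) ≤ L * m * r := by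
      have := hS.L1
      have := hS.r1
      gcongr
    have h4 : 864 * T ^ (141 / 100 * γ) *
        ((T ^ (3 / 5 * γ) / 2) * T ^ 3 * (T ^ (1 - γ / 100) / 2)) ≤
        864 * T ^ (141 / 100 * γ) * (L * m * r) := mul_le_mul_of_nonneg_left h3 (by positivity)
    have h5 : G ^ 2 ≤ (T ^ (2 + γ)) ^ 2 := pow_le_pow_left₀ hG0 hS.G2 2
    have h6 : 864 * T ^ (141 / 100 * γ) *
        ((T ^ (3 / 5 * γ) / 2) * T ^ 3 * (T ^ (1 - γ / 100) / 2)) =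
        216 * (T ^ (141 / 100 * γ) * (T ^ (3 / 5 * γ) * T ^ 3 * T ^ (1 - γ / 100))) := by ring
    rw [h6, e4] at h4
    linarith
  have f3 : 24 * G / r ^ 2 + 2 + 216 * G ^ 2 / (L * m * r) ≤ 962 * T ^ (141 / 100 * γ) := by
    linarith
  -- the right side
  have e5 : (T ^ (2 + γ)) ^ 3 = T ^ (3 * γ) * T ^ 6 := by
    rw [← Real.rpow_natCast T 6, ← Real.rpow_natCast (T ^ (2 + γ)) 3, ← Real.rpow_mul hT0.le,
      ← Real.rpow_add hT0]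
    congr 1
    push_cast
    ring
  have hR : T ^ (3 * γ) / (786432 * (W : ℝ) ^ 9) ≤ G ^ 3 / (24 * (W : ℝ) ^ 3 * (m : ℝ) ^ 2) := by
    rw [div_le_div_iff₀ (by positivity) (by positivity)]
    have h3 : (m : ℝ) ^ 2 ≤ (64 * (W : ℝ) ^ 3 * T ^ 3) ^ 2 := pow_le_pow_left₀ hm0.le hm2 2
    have h4 : (T ^ (2 + γ) / 2) ^ 3 ≤ G ^ 3 := pow_le_pow_left₀ (by positivity) hS.G1 3
    rw [div_pow, e5] at h4
    calc T ^ (3 * γ) * (24 * (W : ℝ) ^ 3 * (m : ℝ) ^ 2)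
        ≤ T ^ (3 * γ) * (24 * (W : ℝ) ^ 3 * (64 * (W : ℝ) ^ 3 * T ^ 3) ^ 2) := by gcongr
      _ = (T ^ (3 * γ) * T ^ 6 / 2 ^ 3) * (786432 * (W : ℝ) ^ 9) := by ring
      _ ≤ G ^ 3 * (786432 * (W : ℝ) ^ 9) := by
          apply mul_le_mul_of_nonneg_right h4 (by positivity)
  refine le_trans ?_ hR
  rw [le_div_iff₀ (by positivity)]
  have e6 : T ^ (153 / 100 * γ) * T ^ (141 / 100 * γ) = T ^ (294 / 100 * γ) := by
    rw [← Real.rpow_add hT0]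
    congr 1
    ring
  calc ((2 * (HT γ T / rT γ T) + 2 : ℕ) : ℝ) ^ 3 * (12 * (⌊70 / γ⌋₊ : ℝ)) *
        (24 * G / r ^ 2 + 2 + 216 * G ^ 2 / (L * m * r)) * (786432 * (W : ℝ) ^ 9)
      ≤ (2744 * T ^ (153 / 100 * γ)) * (12 * (70 / γ)) * (962 * T ^ (141 / 100 * γ)) *
        (786432 * (W : ℝ) ^ 9) := by
        gcongr
    _ = 2744 * (12 * (70 / γ)) * 962 * (786432 * (W : ℝ) ^ 9) *
        (T ^ (153 / 100 * γ) * T ^ (141 / 100 * γ)) := by ring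
    _ = 2744 * (12 * (70 / γ)) * 962 * (786432 * (W : ℝ) ^ 9) * T ^ (294 / 100 * γ) := by rw [e6]
    _ ≤ T ^ (3 * γ) := hb

end Pool.Agent.SMP
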