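import Pool.Agent.SMP.SetA
import Pool.Agent.SMP.Asy

/-!
# SMP/SetP (size 3): (P11) from the family to the setting `Ps`

PROOF of `setp`.  `p = W p1`.  `m` is prime to `p y0 y1 y2`: a prime dividing `m` and `p` divides `y0 y1 y2`, against `cp`; a prime
dividing `m` and `y_i` divides `p ^ 3`, against `cp`.  `seta` with `λ` of `f4` gives `e`, `ee`, `cv`.
`Lat m e r`, `r = ⌊T ^ (1 - δ)⌋₊`: `1 ≤ r` for `T` large; `r ^ 3 ≤ T ^ 3 ≤ m` (`m = p ^ 3 - y0 y1 y2 ≥ 8 T ^ 3 - T ^ 3` as `W ≥ 2`, `y_i ≤ T`);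
`hyp`: `k ∈ Mm m e`, `|k i| ≤ r ≤ T ^ (1 - δ)`, `k ≠ 0` contradicts `F5` by `cv`.
`pb`: `p1 > T ≥ 10 ^ 6`.  `y0`: `y 0 ≥ T ^ (1 - 3 c) ≥ 2`.  `m ≤ p ^ 3 ≤ 64 W ^ 3 T ^ 3`.
`2 ≤ r` for `T` large.
PROOF of `psW`.  A prime dividing `W` and `m` divides `p ^ 3` and so `y0 y1 y2`, against `cp`.
PROOF of `g0ex`.  Chinese remainder modulo the coprime numbers `3` and `W' = W / 3` (`3 ∣ W`, squarefree):
`g 0 = 1`, `g 1 ≡ y 1` mod 3, `≡ 1` mod `W'`, `g 2 ≡ - y 2` mod 3, `≡ 1` mod `W'` (`Int.emod_emod_of_dvd`,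
`Nat.chineseRemainder`; for integers use Bezout `3 a + W' b = 1`: `g 1 = y 1 W' b + 3 a`).  `IsCoprime (g i) W`:
no prime divisor of `W` divides `g i` (mod 3: `y i` is prime to 3 since `3 ∣ W`).  Every vector congruent to this one
modulo `W` has `Rg`.
-/

set_option autoImplicit false

namespace Pool.Agent.SMP

open Pool.Agent.SLB (V3 det3)

private theorem copP {m : ℕ} {P : ℤ} {y : V3} (hm : (m : ℤ) = P ^ 3 - y 0 * y 1 * y 2)
    (cp : ∀ i, IsCoprime (y i) P) : IsCoprime P (m : ℤ) := by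
  have h1 : IsCoprime P (y 0 * y 1 * y 2) :=
    (((cp 0).symm.mul_right (cp 1).symm).mul_right (cp 2).symm)
  have h2 : IsCoprime P (-(y 0 * y 1 * y 2)) := h1.neg_right
  have h3 : IsCoprime P (-(y 0 * y 1 * y 2) + P * P ^ 2) := h2.add_mul_left_right _
  have e1 : (m : ℤ) = -(y 0 * y 1 * y 2) + P * P ^ 2 := by
    rw [hm]
    ring
  rw [e1]
  exact h3

private theorem copY {m : ℕ} {P : ℤ} {y : V3} (hm : (m : ℤ) = P ^ 3 - y 0 * y 1 * y 2)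
    (cp : ∀ i, IsCoprime (y i) P) (i : Fin 3) : IsCoprime (y i) (m : ℤ) := by
  have h1 : IsCoprime (y i) (P ^ 3) := (cp i).pow_right
  have key : ∃ z : ℤ, (m : ℤ) = P ^ 3 + y i * z := by
    fin_cases i
    · exact ⟨-(y 1 * y 2), by
        rw [hm]
        show P ^ 3 - y 0 * y 1 * y 2 = P ^ 3 + y 0 * -(y 1 * y 2)
        ring⟩
    · exact ⟨-(y 0 * y 2), by
        rw [hm]
        show P ^ 3 - y 0 * y 1 * y 2 = P ^ 3 + y 1 * -(y 0 * y 2)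
        ring⟩
    · exact ⟨-(y 0 * y 1), by
        rw [hm]
        show P ^ 3 - y 0 * y 1 * y 2 = P ^ 3 + y 2 * -(y 0 * y 1)
        ring⟩
  obtain ⟨z, hz⟩ := key
  rw [hz]
  exact h1.add_mul_left_right _

theorem setp (W : ℕ) (hW : WP W) (c δ : ℝ) (hc : 0 < c) (hc1 : c ≤ 1 / 100) (hδ : 0 < δ)
    (hδ1 : δ ≤ 1 / 10) : ∃ T0 : ℝ, ∀ T : ℝ, T0 ≤ T → ∀ (p1 : ℕ) (y : V3) (m : ℕ),
      Fam W T c p1 y m → F5 W T δ p1 y m →
        T ^ 3 ≤ (m : ℝ) ∧ (m : ℝ) ≤ 64 * (W : ℝ) ^ 3 * T ^ 3 ∧ 2 ≤ ⌊T ^ (1 - δ)⌋₊ ∧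
        ∃ e : V3, Ps W p1 m ⌊T ^ (1 - δ)⌋₊ y e := by
  refine ⟨10 ^ 7, fun T hT p1 y m hF h5 => ?_⟩
  have hT1 : (1 : ℝ) ≤ T := le_trans (by norm_num) hT
  have hT0 : (0 : ℝ) < T := by linarith
  have hT4 : (4 : ℝ) ≤ T := le_trans (by norm_num) hT
  have hW2 : 2 ≤ W := by
    have h1 : 2 ∣ W := (hW.dv 2 Nat.prime_two).2 (by norm_num)
    exact Nat.le_of_dvd hW.one h1
  have hs2 : (2 : ℝ) ≤ T ^ ((1 : ℝ) / 2) := by
    rw [← Real.sqrt_eq_rpow]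
    exact Real.le_sqrt_of_sq_le (by linarith)
  have hbig : ∀ a : ℝ, 1 / 2 ≤ a → (2 : ℝ) ≤ T ^ a := fun a ha =>
    hs2.trans (Real.rpow_le_rpow_of_exponent_le hT1 ha)
  have hsmall : ∀ a : ℝ, a ≤ 1 → T ^ a ≤ T := fun a ha => by
    have := Real.rpow_le_rpow_of_exponent_le hT1 ha
    rwa [Real.rpow_one] at this
  have hyT : ∀ i, (y i : ℝ) ≤ T := fun i => (hF.y2 i).trans (hsmall _ (by linarith))
  have hy1 : ∀ i, (1 : ℝ) ≤ y i := fun i => by exact_mod_cast hF.y1 i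
  have hmR : (m : ℝ) = ((W : ℝ) * p1) ^ 3 - y 0 * y 1 * y 2 := by
    have := hF.hm
    have h2 : ((m : ℤ) : ℝ) = ((((W * p1 : ℕ) : ℤ) ^ 3 - y 0 * y 1 * y 2 : ℤ) : ℝ) := by
      rw [this]
    push_cast at h2
    exact h2
  have hyy : (y 0 : ℝ) * y 1 * y 2 ≤ T ^ 3 := by
    have h1 : (y 0 : ℝ) * y 1 ≤ T * T :=
      mul_le_mul (hyT 0) (hyT 1) (by linarith [hy1 1]) (by linarith)
    calc (y 0 : ℝ) * y 1 * y 2 ≤ T * T * T :=
          mul_le_mul h1 (hyT 2) (by linarith [hy1 2]) (by positivity)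
      _ = T ^ 3 := by ring
  have hyy0 : (0 : ℝ) ≤ (y 0 : ℝ) * y 1 * y 2 := by
    have h0 : (0 : ℝ) ≤ y 0 := by linarith [hy1 0]
    have h1 : (0 : ℝ) ≤ y 1 := by linarith [hy1 1]
    have h2 : (0 : ℝ) ≤ y 2 := by linarith [hy1 2]
    positivity
  have hWR : (2 : ℝ) ≤ W := by exact_mod_cast hW2
  have hWp : 2 * T ≤ (W : ℝ) * p1 :=
    mul_le_mul hWR hF.p2.le hT0.le (by linarith)
  have hWp2 : (W : ℝ) * p1 ≤ W * (4 * T) :=
    mul_le_mul_of_nonneg_left hF.p3 (by linarith)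
  have hm3 : T ^ 3 ≤ (m : ℝ) := by
    have h1 : (2 * T) ^ 3 ≤ ((W : ℝ) * p1) ^ 3 :=
      pow_le_pow_left₀ (by linarith) hWp 3
    have h2 : (0 : ℝ) ≤ T ^ 3 := by positivity
    rw [hmR]
    nlinarith [h1, h2, hyy]
  have hm4 : (m : ℝ) ≤ 64 * (W : ℝ) ^ 3 * T ^ 3 := by
    have h1 : ((W : ℝ) * p1) ^ 3 ≤ (W * (4 * T)) ^ 3 :=
      pow_le_pow_left₀ (by positivity) hWp2 3
    have h2 : ((W : ℝ) * (4 * T)) ^ 3 = 64 * (W : ℝ) ^ 3 * T ^ 3 := by ring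
    rw [hmR]
    linarith
  have hr2 : 2 ≤ ⌊T ^ (1 - δ)⌋₊ := by
    apply Nat.le_floor
    exact_mod_cast hbig (1 - δ) (by linarith)
  have hrT : ((⌊T ^ (1 - δ)⌋₊ : ℕ) : ℝ) ≤ T ^ (1 - δ) :=
    Nat.floor_le (Real.rpow_nonneg hT0.le _)
  have hy02 : 2 ≤ y 0 := by
    have h1 : (2 : ℝ) ≤ y 0 := (hbig (1 - 3 * c) (by linarith)).trans hF.yl0
    exact_mod_cast h1
  have hy12 : 2 ≤ y 1 := by
    have h1 : (2 : ℝ) ≤ y 1 := (hbig (1 - 3 * c) (by linarith)).trans hF.yl1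
    exact_mod_cast h1
  obtain ⟨lam, hl1, hl2⟩ := hF.f4
  have hP := copP hF.hm hF.cp
  obtain ⟨s1, s2, s3⟩ := seta m ((W * p1 : ℕ) : ℤ) lam y hF.hm hl1 hl2 hP
    (copY hF.hm hF.cp 0) (copY hF.hm hF.cp 1)
  refine ⟨hm3, hm4, hr2, (![y 0 * lam, y 0 * lam ^ 2, ((W * p1 : ℕ) : ℤ)] : V3), ?_⟩
  refine
    { hW := hW
      pp := hF.pp
      pb := ?_
      y1 := hF.y1
      sq0 := hF.sq0
      sq1 := hF.sq1
      y0 := hy02
      y1' := hy12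
      co := hF.co
      cp := hF.cp
      hm := hF.hm
      lat := ?_
      ee := s2
      cv := s3 }
  · have h1 : (10 : ℝ) ^ 6 < p1 := lt_of_lt_of_le (by norm_num) (hT.trans hF.p2.le)
    exact_mod_cast h1
  · refine
      { hm := hF.m1
        co := s1
        hr := by omega
        r3 := ?_
        hyp := ?_ }
    · have h1 : ((⌊T ^ (1 - δ)⌋₊ : ℕ) : ℝ) ≤ T := hrT.trans (hsmall _ (by linarith))
      have h2 : ((⌊T ^ (1 - δ)⌋₊ : ℕ) : ℝ) ^ 3 ≤ T ^ 3 :=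
        pow_le_pow_left₀ (Nat.cast_nonneg _) h1 3
      have h3 := h2.trans hm3
      exact_mod_cast h3
    · intro k hk hkr
      by_contra hk0
      refine h5 k hk0 (fun i => ?_) (s3 k hk)
      have h1 : ((|k i| : ℤ) : ℝ) ≤ ((⌊T ^ (1 - δ)⌋₊ : ℕ) : ℝ) := by exact_mod_cast hkr i
      rw [Int.cast_abs] at h1
      exact h1.trans hrT

theorem psW {W p1 m r : ℕ} {y e : V3} (h : Ps W p1 m r y e) :
    Nat.Coprime W m ∧ IsCoprime ((W * p1 : ℕ) : ℤ) (m : ℤ) ∧ ∀ i, IsCoprime (y i) (m : ℤ) := by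
  have hP := copP h.hm h.cp
  refine ⟨?_, hP, copY h.hm h.cp⟩
  have h1 : Nat.Coprime (W * p1) m := Nat.isCoprime_iff_coprime.1 hP
  exact Nat.Coprime.coprime_mul_right h1

theorem g0ex (W : ℕ) (hW : WP W) (y : V3) (hy : ∀ i, IsCoprime (y i) (W : ℤ)) :
    ∃ g0 : V3, (∀ i, IsCoprime (g0 i) (W : ℤ)) ∧
      ∀ g : V3, (∀ i, (W : ℤ) ∣ g i - g0 i) → Rg y g := by
  have h3W : 3 ∣ W := (hW.dv 3 Nat.prime_three).2 (by norm_num)
  obtain ⟨V, rfl⟩ := h3W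
  have hcop : Nat.Coprime 3 V := Nat.coprime_of_squarefree_mul hW.sq
  have hcz : IsCoprime (3 : ℤ) (V : ℤ) := by exact_mod_cast Nat.isCoprime_iff_coprime.2 hcop
  obtain ⟨a, b, hab⟩ := hcz
  have hy3 : ∀ i, IsCoprime (y i) (3 : ℤ) := by
    intro i
    have h1 := hy i
    push_cast at h1
    exact h1.of_mul_right_left
  have hcast : (((3 * V : ℕ)) : ℤ) = 3 * (V : ℤ) := by push_cast; ring
  have hg1 : ∀ z : ℤ, IsCoprime z 3 → IsCoprime (z * (V * b) + 3 * a) (((3 * V : ℕ)) : ℤ) := by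
    intro z hz
    rw [hcast]
    apply IsCoprime.mul_right
    · have e1 : z * (V * b) + 3 * a = z + 3 * (a * (1 - z)) := by
        have : (V : ℤ) * b = 1 - 3 * a := by linarith
        rw [this]
        ring
      rw [e1]
      exact hz.add_mul_left_left _
    · have e1 : z * (V * b) + 3 * a = 1 + (V : ℤ) * (z * b - b) := by
        have : 3 * a = 1 - (V : ℤ) * b := by linarith
        rw [this]
        ring
      rw [e1]
      exact isCoprime_one_left.add_mul_left_left _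
  refine ⟨![1, y 1 * (V * b) + 3 * a, (-y 2) * (V * b) + 3 * a], ?_, ?_⟩
  · intro i
    fin_cases i
    · exact isCoprime_one_left
    · exact hg1 _ (hy3 1)
    · exact hg1 _ (hy3 2).neg_left
  · intro g hg
    have q0 : (((3 * V : ℕ)) : ℤ) ∣ g 0 - 1 := hg 0
    have q1 : (((3 * V : ℕ)) : ℤ) ∣ g 1 - (y 1 * (V * b) + 3 * a) := hg 1
    have q2 : (((3 * V : ℕ)) : ℤ) ∣ g 2 - ((-y 2) * (V * b) + 3 * a) := hg 2
    have d3 : (3 : ℤ) ∣ (((3 * V : ℕ)) : ℤ) := ⟨V, hcast⟩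
    have dV : (V : ℤ) ∣ (((3 * V : ℕ)) : ℤ) := ⟨3, by rw [hcast]; ring⟩
    have hVb : (V : ℤ) * b = 1 - 3 * a := by linarith
    have h3a : 3 * a = 1 - (V : ℤ) * b := by linarith
    refine ⟨?_, d3.trans q0, ?_, ?_⟩
    · intro l hl hl6 hl3 i
      have hlW : l ∣ 3 * V := (hW.dv l hl).2 hl6
      have hlV : l ∣ V := by
        rcases (Nat.Prime.dvd_mul hl).1 hlW with h1 | h1
        · exact absurd ((Nat.prime_dvd_prime_iff_eq hl Nat.prime_three).1 h1) hl3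
        · exact h1
      have hlz : (l : ℤ) ∣ (V : ℤ) := by exact_mod_cast hlV
      have hVg : (V : ℤ) ∣ g i - 1 := by
        fin_cases i
        · exact dV.trans q0
        · show (V : ℤ) ∣ g 1 - 1
          have e1 : g 1 - 1 = (g 1 - (y 1 * (V * b) + 3 * a)) + V * (y 1 * b - b) := by
            rw [h3a]
            ring
          rw [e1]
          exact dvd_add (dV.trans q1) (Dvd.intro _ rfl)
        · show (V : ℤ) ∣ g 2 - 1
          have e1 : g 2 - 1 = (g 2 - ((-y 2) * (V * b) + 3 * a)) + V * ((-y 2) * b - b) := by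
            rw [h3a]
            ring
          rw [e1]
          exact dvd_add (dV.trans q2) (Dvd.intro _ rfl)
      exact hlz.trans hVg
    · have e1 : g 1 - y 1 = (g 1 - (y 1 * (V * b) + 3 * a)) + 3 * (a * (1 - y 1)) := by
        rw [hVb]
        ring
      rw [e1]
      exact dvd_add (d3.trans q1) (Dvd.intro _ rfl)
    · have e1 : g 2 + y 2 = (g 2 - ((-y 2) * (V * b) + 3 * a)) + 3 * (a * (1 + y 2)) := by
        rw [hVb]
        ring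
      rw [e1]
      exact dvd_add (d3.trans q2) (Dvd.intro _ rfl)

end Pool.Agent.SMP
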