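import Pool.Agent.SMP.Evs
import Pool.Agent.SMP.SetP

/-!
# SMP/Sma (size 4): (P14) the sum over the events with small primes

PROOF.  Let `P = 162 G ^ 3 / (W ^ 3 m ^ 2)`, `E = (12 G / (W r ^ 2) + 1) ^ 2`, `Y = (y 0 * y 1 * y 2).natAbs`.
`Q` is covered by the following sets (union bound, `Finset.card_biUnion_le`):
(E1, E2) for every prime `l ∣ m Y` one set: if `l ∣ m` the `g` with `l ∣ g 0`; if `l ∣ y i` (exactly one `i`, and then `l ∤ m`) the `g`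
with `l ∣ g i`.  All these `l` are `> 10 ^ 6` (they do not divide `W`: `psW`, `cp`, `WP.dv`).  `ev1`: together at most
`P * sl (m * Y) + ω(m Y) E`.  (The numbers `m, y 0, y 1, y 2` are pairwise coprime.)
(E2') `i = 0, 1, 2`, `l = p1`: `ev1`: `3 (P / p1 + E)`.
(E4) for `k = 0, 1, 2` and the primes `10 ^ 6 < l ≤ L0`, `l ∤ m`: `ev2`; (E3) the same `l` with `l ≠ p1`, `l ∤ y (k + 1) y (k + 2)`: `ev3`.
Together `≤ 3 ∑_{10^6 < l ≤ L0} (1 + 3) (P / l ^ 2 + E) ≤ 12 P / 10 ^ 6 + 12 L0 E` (`∑_{n > z} 1 / n ^ 2 ≤ 1 / z`).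
-/

set_option autoImplicit false

namespace Pool.Agent.SMP

open Pool.Agent.SLB (V3 det3)

theorem sma {W p1 m r : ℕ} {y e : V3} (h : Ps W p1 m r y e) (g0 : V3) (G L0 : ℕ) (Q : Finset V3)
    (hQ : ∀ g ∈ Q, g ∈ Z0 W m e g0 G ∧
      ((∃ l : ℕ, l.Prime ∧ l ∣ m ∧ (l : ℤ) ∣ g 0) ∨
       (∃ (l : ℕ) (i : Fin 3), l.Prime ∧ (l : ℤ) ∣ y i ∧ (l : ℤ) ∣ g i) ∨
       (∃ i, (p1 : ℤ) ∣ g i) ∨
       (IsCoprime (g 0) (m : ℤ) ∧ ∃ (l : ℕ) (k : Fin 3), l.Prime ∧ 10 ^ 6 < l ∧ l ≤ L0 ∧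
        ((¬ l ∣ m ∧ (l : ℤ) ∣ g (k + 1) ∧ (l : ℤ) ∣ g (k + 2)) ∨
         (l ≠ p1 ∧ ¬ (l : ℤ) ∣ y (k + 1) ∧ ¬ (l : ℤ) ∣ y (k + 2) ∧ (∀ i, ¬ (l : ℤ) ∣ g i) ∧
          (l : ℤ) ∣ Nn ((W * p1 : ℕ) : ℤ) m y g (k + 1) ∧
          (l : ℤ) ∣ Nn ((W * p1 : ℕ) : ℤ) m y g (k + 2)))))) :
    (Q.card : ℝ) ≤ 162 * (G : ℝ) ^ 3 / ((W : ℝ) ^ 3 * (m : ℝ) ^ 2) *
        (sl (m * (y 0 * y 1 * y 2).natAbs) + 3 / p1 + 12 / 10 ^ 6) +
      (((m * (y 0 * y 1 * y 2).natAbs).primeFactors.card : ℝ) + 3 + 12 * L0) *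
        (12 * (G : ℝ) / (W * (r : ℝ) ^ 2) + 1) ^ 2 := by
  classical
  obtain ⟨PP, hPP⟩ : ∃ PP : ℝ, PP = 162 * (G : ℝ) ^ 3 / ((W : ℝ) ^ 3 * (m : ℝ) ^ 2) := ⟨_, rfl⟩
  obtain ⟨EE, hEE⟩ : ∃ EE : ℝ, EE = (12 * (G : ℝ) / (W * (r : ℝ) ^ 2) + 1) ^ 2 := ⟨_, rfl⟩
  have hPP0 : 0 ≤ PP := by rw [hPP]; positivity
  have hEE0 : 0 ≤ EE := by rw [hEE]; positivity
  obtain ⟨n, hn⟩ : ∃ n : ℕ, n = m * (y 0 * y 1 * y 2).natAbs := ⟨_, rfl⟩
  rw [← hn, ← hPP, ← hEE]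
  obtain ⟨pw1, _, pw3⟩ := psW h
  have hm0 : m ≠ 0 := by have := h.lat.hm; omega
  have hy0 : ∀ i, y i ≠ 0 := fun i => by have := h.y1 i; omega
  have hY0 : (y 0 * y 1 * y 2).natAbs ≠ 0 := by
    rw [Int.natAbs_ne_zero]
    exact mul_ne_zero (mul_ne_zero (hy0 0) (hy0 1)) (hy0 2)
  have hn0 : n ≠ 0 := by rw [hn]; exact mul_ne_zero hm0 hY0
  -- primes dividing `m` or some `y i` are `> 10 ^ 6`
  have big1 : ∀ l : ℕ, l.Prime → l ∣ m → 10 ^ 6 < l := by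
    intro l hl hlm
    by_contra hc
    push Not at hc
    have h1 : l ∣ W := (h.hW.dv l hl).2 hc
    have h2 : l ∣ Nat.gcd W m := Nat.dvd_gcd h1 hlm
    rw [pw1] at h2
    exact hl.one_lt.ne' (Nat.dvd_one.1 h2)
  have big2 : ∀ l : ℕ, l.Prime → ∀ i, (l : ℤ) ∣ y i → 10 ^ 6 < l := by
    intro l hl i hli
    by_contra hc
    push Not at hc
    have h1 : l ∣ W := (h.hW.dv l hl).2 hc
    have h2 : (l : ℤ) ∣ ((W * p1 : ℕ) : ℤ) := by
      exact_mod_cast Dvd.dvd.mul_right h1 p1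
    have h3 := (h.cp i).isUnit_of_dvd' hli h2
    have h4 : Prime (l : ℤ) := Nat.prime_iff_prime_int.1 hl
    exact h4.not_unit h3
  have dis1 : ∀ l : ℕ, l.Prime → l ∣ m → ∀ i, ¬ (l : ℤ) ∣ y i := by
    intro l hl hlm i hli
    have h2 : (l : ℤ) ∣ (m : ℤ) := by exact_mod_cast hlm
    have h3 := (pw3 i).isUnit_of_dvd' hli h2
    have h4 : Prime (l : ℤ) := Nat.prime_iff_prime_int.1 hl
    exact h4.not_unit h3
  have dis2 : ∀ l : ℕ, l.Prime → ∀ i j, (l : ℤ) ∣ y i → (l : ℤ) ∣ y j → i = j := by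
    intro l hl i j hi hj
    by_contra hij
    have h3 := (h.co i j hij).isUnit_of_dvd' hi hj
    have h4 : Prime (l : ℤ) := Nat.prime_iff_prime_int.1 hl
    exact h4.not_unit h3
  -- the covering sets
  obtain ⟨A1, hA1⟩ : ∃ A1 : ℕ → Finset V3, A1 = fun l => Q.filter (fun g =>
      (l ∣ m ∧ (l : ℤ) ∣ g 0) ∨ ∃ i, (l : ℤ) ∣ y i ∧ (l : ℤ) ∣ g i) := ⟨_, rfl⟩
  obtain ⟨A2, hA2⟩ : ∃ A2 : Fin 3 → Finset V3, A2 = fun i => Q.filter (fun g => (p1 : ℤ) ∣ g i) := ⟨_, rfl⟩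
  obtain ⟨A3, hA3⟩ : ∃ A3 : ℕ → Fin 3 → Finset V3, A3 = fun l k => Q.filter (fun g =>
      ¬ l ∣ m ∧ (l : ℤ) ∣ g (k + 1) ∧ (l : ℤ) ∣ g (k + 2)) := ⟨_, rfl⟩
  obtain ⟨A4, hA4⟩ : ∃ A4 : ℕ → Fin 3 → Finset V3, A4 = fun l k => Q.filter (fun g =>
      IsCoprime (g 0) (m : ℤ) ∧ l ≠ p1 ∧ ¬ (l : ℤ) ∣ y (k + 1) ∧ ¬ (l : ℤ) ∣ y (k + 2) ∧ (∀ i, ¬ (l : ℤ) ∣ g i) ∧
          (l : ℤ) ∣ Nn ((W * p1 : ℕ) : ℤ) m y g (k + 1) ∧
          (l : ℤ) ∣ Nn ((W * p1 : ℕ) : ℤ) m y g (k + 2)) := ⟨_, rfl⟩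
  obtain ⟨LL, hLL⟩ : ∃ LL : Finset ℕ, LL = (Finset.Ioc (10 ^ 6) L0).filter Nat.Prime := ⟨_, rfl⟩
  have c1 : ∀ l ∈ n.primeFactors, ((A1 l).card : ℝ) ≤ PP * (1 / l) + EE := by
    intro l hl
    rw [Nat.mem_primeFactors] at hl
    obtain ⟨hlp, hln, _⟩ := hl
    by_cases hlm : l ∣ m
    · rw [hPP, hEE]
      apply ev1 h g0 G l hlp (big1 l hlp hlm) 0
      intro g hg
      rw [hA1, Finset.mem_filter] at hg
      refine ⟨(hQ g hg.1).1, ?_⟩
      rcases hg.2 with h1 | ⟨i, h1, _⟩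
      · exact h1.2
      · exact absurd h1 (dis1 l hlp hlm i)
    · have h1 : l ∣ (y 0 * y 1 * y 2).natAbs := by
        rw [hn] at hln
        exact (hlp.dvd_mul.1 hln).resolve_left hlm
      have h2 : (l : ℤ) ∣ y 0 * y 1 * y 2 := Int.natCast_dvd.2 h1
      have h4 : Prime (l : ℤ) := Nat.prime_iff_prime_int.1 hlp
      obtain ⟨i, hi⟩ : ∃ i, (l : ℤ) ∣ y i := by
        rcases h4.dvd_or_dvd h2 with h5 | h5
        · rcases h4.dvd_or_dvd h5 with h6 | h6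
          · exact ⟨0, h6⟩
          · exact ⟨1, h6⟩
        · exact ⟨2, h5⟩
      rw [hPP, hEE]
      apply ev1 h g0 G l hlp (big2 l hlp i hi) i
      intro g hg
      rw [hA1, Finset.mem_filter] at hg
      refine ⟨(hQ g hg.1).1, ?_⟩
      rcases hg.2 with h1 | ⟨j, h1, h1'⟩
      · exact absurd h1.1 hlm
      · rw [dis2 l hlp i j hi h1]; exact h1'
  have c2 : ∀ i ∈ (Finset.univ : Finset (Fin 3)), ((A2 i).card : ℝ) ≤ PP * (1 / p1) + EE := by
    intro i _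
    rw [hPP, hEE]
    apply ev1 h g0 G p1 h.pp h.pb i
    intro g hg
    rw [hA2, Finset.mem_filter] at hg
    exact ⟨(hQ g hg.1).1, hg.2⟩
  have hLLm : ∀ l ∈ LL, l.Prime ∧ 10 ^ 6 < l ∧ l ≤ L0 := by
    intro l hl
    rw [hLL, Finset.mem_filter, Finset.mem_Ioc] at hl
    exact ⟨hl.2, hl.1.1, hl.1.2⟩
  have c3 : ∀ l ∈ LL, ∀ k : Fin 3, ((A3 l k).card : ℝ) ≤ PP * (1 / (l : ℝ) ^ 2) + EE := by
    intro l hl k
    obtain ⟨hlp, hl6, _⟩ := hLLm l hl
    by_cases hlm : l ∣ m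
    · have : A3 l k = ∅ := by
        rw [hA3]
        apply Finset.filter_eq_empty_iff.2
        intro g _ hg
        exact hg.1 hlm
      rw [this, Finset.card_empty, Nat.cast_zero]
      positivity
    · rw [hPP, hEE]
      apply ev2 h g0 G l hlp hl6 hlm k
      intro g hg
      rw [hA3, Finset.mem_filter] at hg
      exact ⟨(hQ g hg.1).1, hg.2.2⟩
  have c4 : ∀ l ∈ LL, ∀ k : Fin 3, ((A4 l k).card : ℝ) ≤ 3 * (PP * (1 / (l : ℝ) ^ 2) + EE) := by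
    intro l hl k
    obtain ⟨hlp, hl6, _⟩ := hLLm l hl
    by_cases hne : (A4 l k).Nonempty
    · obtain ⟨g1, hg1⟩ := hne
      rw [hA4, Finset.mem_filter] at hg1
      rw [hPP, hEE]
      apply ev3 h g0 G l hlp hl6 hg1.2.2.1 k hg1.2.2.2.1 hg1.2.2.2.2.1
      intro g hg
      rw [hA4, Finset.mem_filter] at hg
      exact ⟨(hQ g hg.1).1, hg.2.1, hg.2.2.2.2.2.1, hg.2.2.2.2.2.2.1, hg.2.2.2.2.2.2.2⟩
    · rw [Finset.not_nonempty_iff_eq_empty] at hne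
      rw [hne, Finset.card_empty, Nat.cast_zero]
      positivity
  -- covering
  have hcov : Q ⊆ (n.primeFactors.biUnion A1) ∪ ((Finset.univ : Finset (Fin 3)).biUnion A2) ∪
      (LL.biUnion (fun l => (Finset.univ : Finset (Fin 3)).biUnion (fun k => A3 l k ∪ A4 l k))) := by
    intro g hg
    obtain ⟨_, hor⟩ := hQ g hg
    rw [Finset.mem_union, Finset.mem_union]
    rcases hor with ⟨l, hl, hlm, hlg⟩ | ⟨l, i, hl, hli, hlg⟩ | ⟨i, hi⟩ | ⟨hco, l, k, hl, hl6, hl0, hor⟩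
    · left; left
      rw [Finset.mem_biUnion]
      refine ⟨l, ?_, ?_⟩
      · rw [Nat.mem_primeFactors]
        exact ⟨hl, by rw [hn]; exact Dvd.dvd.mul_right hlm _, hn0⟩
      · rw [hA1, Finset.mem_filter]
        exact ⟨hg, Or.inl ⟨hlm, hlg⟩⟩
    · left; left
      rw [Finset.mem_biUnion]
      refine ⟨l, ?_, ?_⟩
      · rw [Nat.mem_primeFactors]
        refine ⟨hl, ?_, hn0⟩
        rw [hn]
        apply Dvd.dvd.mul_left
        rw [← Int.natCast_dvd]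
        fin_cases i
        · exact Dvd.dvd.mul_right (Dvd.dvd.mul_right hli _) _
        · exact Dvd.dvd.mul_right (Dvd.dvd.mul_left hli _) _
        · exact Dvd.dvd.mul_left hli _
      · rw [hA1, Finset.mem_filter]
        exact ⟨hg, Or.inr ⟨i, hli, hlg⟩⟩
    · left; right
      rw [Finset.mem_biUnion]
      exact ⟨i, Finset.mem_univ _, by rw [hA2, Finset.mem_filter]; exact ⟨hg, hi⟩⟩
    · right
      rw [Finset.mem_biUnion]
      refine ⟨l, ?_, ?_⟩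
      · rw [hLL, Finset.mem_filter, Finset.mem_Ioc]
        exact ⟨⟨hl6, hl0⟩, hl⟩
      · rw [Finset.mem_biUnion]
        refine ⟨k, Finset.mem_univ _, ?_⟩
        rw [Finset.mem_union]
        rcases hor with h1 | h1
        · left
          rw [hA3, Finset.mem_filter]
          exact ⟨hg, h1⟩
        · right
          rw [hA4, Finset.mem_filter]
          exact ⟨hg, hco, h1⟩
  have hcard : (Q.card : ℝ) ≤ (∑ l ∈ n.primeFactors, ((A1 l).card : ℝ)) +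
      (∑ i ∈ (Finset.univ : Finset (Fin 3)), ((A2 i).card : ℝ)) +
      ∑ l ∈ LL, ∑ k : Fin 3, (((A3 l k).card : ℝ) + ((A4 l k).card : ℝ)) := by
    have h1 : Q.card ≤ (∑ l ∈ n.primeFactors, (A1 l).card) + (∑ i ∈ (Finset.univ : Finset (Fin 3)), (A2 i).card)
        + ∑ l ∈ LL, ∑ k : Fin 3, ((A3 l k).card + (A4 l k).card) := by
      calc Q.card ≤ _ := Finset.card_le_card hcov
        _ ≤ _ := Finset.card_union_le _ _
        _ ≤ _ := by
            apply add_le_add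
            · exact (Finset.card_union_le _ _).trans (add_le_add Finset.card_biUnion_le Finset.card_biUnion_le)
            · refine Finset.card_biUnion_le.trans (Finset.sum_le_sum fun l _ => ?_)
              refine Finset.card_biUnion_le.trans (Finset.sum_le_sum fun k _ => ?_)
              exact Finset.card_union_le _ _
    exact_mod_cast h1
  have s1 : (∑ l ∈ n.primeFactors, ((A1 l).card : ℝ)) ≤ PP * sl n + (n.primeFactors.card : ℝ) * EE := by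
    calc (∑ l ∈ n.primeFactors, ((A1 l).card : ℝ)) ≤ ∑ l ∈ n.primeFactors, (PP * (1 / l) + EE) :=
          Finset.sum_le_sum c1
      _ = PP * (∑ l ∈ n.primeFactors, (1 : ℝ) / l) + (n.primeFactors.card : ℝ) * EE := by
          rw [Finset.sum_add_distrib, ← Finset.mul_sum, Finset.sum_const, nsmul_eq_mul]
      _ = PP * sl n + (n.primeFactors.card : ℝ) * EE := by
          have : n.primeFactors.filter (fun l => 10 ^ 6 < l) = n.primeFactors := by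
            apply Finset.filter_true_of_mem
            intro l hl
            rw [Nat.mem_primeFactors] at hl
            obtain ⟨hlp, hln, _⟩ := hl
            by_cases hlm : l ∣ m
            · exact big1 l hlp hlm
            · have h1 : l ∣ (y 0 * y 1 * y 2).natAbs := by
                rw [hn] at hln
                exact (hlp.dvd_mul.1 hln).resolve_left hlm
              have h2 : (l : ℤ) ∣ y 0 * y 1 * y 2 := Int.natCast_dvd.2 h1
              have h4 : Prime (l : ℤ) := Nat.prime_iff_prime_int.1 hlp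
              rcases h4.dvd_or_dvd h2 with h5 | h5
              · rcases h4.dvd_or_dvd h5 with h6 | h6
                · exact big2 l hlp 0 h6
                · exact big2 l hlp 1 h6
              · exact big2 l hlp 2 h5
          unfold sl
          rw [this]
  have s2 : (∑ i ∈ (Finset.univ : Finset (Fin 3)), ((A2 i).card : ℝ)) ≤ 3 * (PP * (1 / p1) + EE) := by
    calc (∑ i ∈ (Finset.univ : Finset (Fin 3)), ((A2 i).card : ℝ))
        ≤ ∑ _i ∈ (Finset.univ : Finset (Fin 3)), (PP * (1 / (p1 : ℝ)) + EE) := Finset.sum_le_sum c2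
      _ = 3 * (PP * (1 / p1) + EE) := by
          rw [Finset.sum_const, Finset.card_univ, Fintype.card_fin, nsmul_eq_mul]
          push_cast
          ring
  have s3 : ∑ l ∈ LL, ∑ k : Fin 3, (((A3 l k).card : ℝ) + ((A4 l k).card : ℝ))
      ≤ PP * (12 / 10 ^ 6) + 12 * (L0 : ℝ) * EE := by
    have t1 : ∀ l ∈ LL, ∑ k : Fin 3, (((A3 l k).card : ℝ) + ((A4 l k).card : ℝ))
        ≤ 12 * (PP * (1 / (l : ℝ) ^ 2) + EE) := by
      intro l hl
      calc ∑ k : Fin 3, (((A3 l k).card : ℝ) + ((A4 l k).card : ℝ))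
          ≤ ∑ _k : Fin 3, (4 * (PP * (1 / (l : ℝ) ^ 2) + EE)) := by
            apply Finset.sum_le_sum
            intro k _
            linarith [c3 l hl k, c4 l hl k]
        _ = 12 * (PP * (1 / (l : ℝ) ^ 2) + EE) := by
            rw [Finset.sum_const, Finset.card_univ, Fintype.card_fin, nsmul_eq_mul]
            push_cast
            ring
    have t2 : ∑ l ∈ LL, (1 : ℝ) / (l : ℝ) ^ 2 ≤ 1 / 10 ^ 6 := by
      by_cases hL : 10 ^ 6 ≤ L0
      · calc ∑ l ∈ LL, (1 : ℝ) / (l : ℝ) ^ 2 ≤ ∑ l ∈ Finset.Ioc (10 ^ 6) L0, (1 : ℝ) / (l : ℝ) ^ 2 := by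
              apply Finset.sum_le_sum_of_subset_of_nonneg
              · rw [hLL]; exact Finset.filter_subset _ _
              · intro l _ _; positivity
          _ = ∑ l ∈ Finset.Ioc (10 ^ 6) L0, ((l : ℝ) ^ 2)⁻¹ := by
              apply Finset.sum_congr rfl
              intro l _
              rw [one_div]
          _ ≤ (((10 ^ 6 : ℕ) : ℝ))⁻¹ - ((L0 : ℕ) : ℝ)⁻¹ := sum_Ioc_inv_sq_le_sub (by norm_num) hL
          _ ≤ 1 / 10 ^ 6 := by
              have : (0 : ℝ) ≤ ((L0 : ℕ) : ℝ)⁻¹ := by positivity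
              push_cast
              rw [one_div]
              linarith
      · have : LL = ∅ := by
          rw [hLL]
          apply Finset.filter_eq_empty_iff.2
          intro l hl
          rw [Finset.mem_Ioc] at hl
          omega
        rw [this, Finset.sum_empty]
        positivity
    have t3 : (LL.card : ℝ) ≤ L0 := by
      have : LL.card ≤ L0 := by
        calc LL.card ≤ (Finset.Ioc (10 ^ 6) L0).card := by rw [hLL]; exact Finset.card_filter_le _ _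
          _ = L0 - 10 ^ 6 := Nat.card_Ioc _ _
          _ ≤ L0 := Nat.sub_le _ _
      exact_mod_cast this
    calc ∑ l ∈ LL, ∑ k : Fin 3, (((A3 l k).card : ℝ) + ((A4 l k).card : ℝ))
        ≤ ∑ l ∈ LL, 12 * (PP * (1 / (l : ℝ) ^ 2) + EE) := Finset.sum_le_sum t1
      _ = 12 * PP * (∑ l ∈ LL, (1 : ℝ) / (l : ℝ) ^ 2) + 12 * (LL.card : ℝ) * EE := by
          rw [← Finset.mul_sum, Finset.sum_add_distrib, ← Finset.mul_sum, Finset.sum_const, nsmul_eq_mul]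
          ring
      _ ≤ 12 * PP * (1 / 10 ^ 6) + 12 * (L0 : ℝ) * EE := by gcongr
      _ = PP * (12 / 10 ^ 6) + 12 * (L0 : ℝ) * EE := by ring
  calc (Q.card : ℝ) ≤ _ := hcard
    _ ≤ (PP * sl n + (n.primeFactors.card : ℝ) * EE) + 3 * (PP * (1 / p1) + EE)
        + (PP * (12 / 10 ^ 6) + 12 * (L0 : ℝ) * EE) := add_le_add (add_le_add s1 s2) s3
    _ = _ := by ring

end Pool.Agent.SMP
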