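import Pool.Agent.SMP.Zct
import Pool.Agent.SMP.Sma
import Pool.Agent.SMP.All
import Pool.Agent.SMP.Kzr
import Pool.Agent.SMP.CnL
import Pool.Agent.SMP.Cla
import Pool.Agent.SMP.NuA
import Pool.Agent.SMP.NuC
import Pool.Agent.SMP.NuD
import Pool.Agent.GLI.Cheb

/-!
# SMP/Pts (size 4): (P20) THEOREM P, the point `g`

PROOF.  `T` large: `siz γ`, `setp` with `δ = γ / 100` (`rT γ T = ⌊T ^ (1 - δ)⌋₊`), `nuA`-`nuD`.  `setp` gives `e` and `Ps`; `g0ex` gives `g0`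
(`y i` is prime to `W` by `cp`).  `G = GT γ T`, `L0 = LT γ T`, `H = HT γ T`.
`#Z0 ≥ G ^ 3 / (2 W ^ 3 m ^ 2)`: `zct` with `A0 = 55 m / r + 1` (`55 m ≤ A0 r`: `Nat.lt_mul_div_succ`), `nuA`.
`κ`: for `g ∈ Z0` `kap` with `B = 2 G` gives a vector (`3 (2 G) ≤ H ^ 2`, `Sz.H1`); `choose`.  `kapM`: it is in `Mm m e` if `g 0` is prime to `m`.
Bad sets in `Z0`: `Q1` = the set of `sma`; `Q2` = the set of `all3`; `Q3` = the set of `kzr` (with `g 0` prime to `m`);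
`Q4` = the set of `cnl` (`Y = ⌊4 W T⌋₊`: `y i ≤ T`, `W p1 ≤ 4 W T`; `B = ⌊70 / γ⌋₊`, `nuD`).
`#Q1 ≤ G ^ 3 / (8 W ^ 3 m ^ 2)` (`nuB`; `Fam.f3`; `ω ≤ 2 log (m Y)` by `Pool.Agent.GLI.cheb_omega_log`, `m Y ≤ 64 W ^ 3 T ^ 6`);
`#Q2, #Q3, #Q4 ≤ G ^ 3 / (24 W ^ 3 m ^ 2)` (`nuC15`, `nuC16`, `nuD18`).  Sum `≤ G ^ 3 / (4 W ^ 3 m ^ 2) < #Z0`.
So there is `g ∈ Z0` outside.  `cla`: `E1, E2, E2'` from `Q1`; hence `g 0` is prime to `m` (`copr`).  `E4` for `l ≤ L0`: `Q1`;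
`l > L0`, `l ∣ g (k + 1), g (k + 2)`, `l ∤ m`: if `l` divides all `g i`: `Q2`.  Otherwise `l ∤ y (k + 1) y (k + 2)` (`E2`), `l ≠ p1` (`E2'`), and
`l ∣ m N (k + 1) = p g_{k+1}² - y_{k+1} g_{k+2} g_{k+3}` etc., so `l ∣ N (k + 1), N (k + 2)`; `κ g` has no zero coordinate (`Q3`); `Q4`.
`E3`: `l ≤ L0`: `Q1`; `l > L0`: `Q3`, `Q4`.
-/

set_option autoImplicit false

namespace Pool.Agent.SMP

open Pool.Agent.SLB (V3 det3)

/-- the deterministic part: a point outside the four bad sets -/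
private theorem fin_pt {W p1 m r : ℕ} {y e : V3} (h : Ps W p1 m r y e) {g0 : V3}
    (hg0 : ∀ i, IsCoprime (g0 i) (W : ℤ)) (G H L0 : ℕ) (κ : V3 → V3)
    (hκ : ∀ g ∈ Z0 W m e g0 G, Prim (κ g) ∧ dt (κ g) g = 0 ∧ ∀ i, |κ g i| ≤ (H : ℤ))
    (g : V3) (hg : g ∈ Z0 W m e g0 G)
    (n1 : ¬ ((∃ l : ℕ, l.Prime ∧ l ∣ m ∧ (l : ℤ) ∣ g 0) ∨
       (∃ (l : ℕ) (i : Fin 3), l.Prime ∧ (l : ℤ) ∣ y i ∧ (l : ℤ) ∣ g i) ∨
       (∃ i, (p1 : ℤ) ∣ g i) ∨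
       (IsCoprime (g 0) (m : ℤ) ∧ ∃ (l : ℕ) (k : Fin 3), l.Prime ∧ 10 ^ 6 < l ∧ l ≤ L0 ∧
        ((¬ l ∣ m ∧ (l : ℤ) ∣ g (k + 1) ∧ (l : ℤ) ∣ g (k + 2)) ∨
         (l ≠ p1 ∧ ¬ (l : ℤ) ∣ y (k + 1) ∧ ¬ (l : ℤ) ∣ y (k + 2) ∧ (∀ i, ¬ (l : ℤ) ∣ g i) ∧
          (l : ℤ) ∣ Nn ((W * p1 : ℕ) : ℤ) m y g (k + 1) ∧
          (l : ℤ) ∣ Nn ((W * p1 : ℕ) : ℤ) m y g (k + 2))))))
    (n2 : ¬ (IsCoprime (g 0) (m : ℤ) ∧
      ∃ l : ℕ, l.Prime ∧ L0 < l ∧ ∀ i, (l : ℤ) ∣ g i))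
    (n3 : ¬ (Prim (κ g) ∧ dt (κ g) g = 0 ∧
      (∀ i, |κ g i| ≤ (H : ℤ)) ∧ κ g ∈ Mm m e ∧ ∃ c, κ g c = 0))
    (n4 : ¬ (IsCoprime (g 0) (m : ℤ) ∧
      Prim (κ g) ∧ dt (κ g) g = 0 ∧ (∀ i, |κ g i| ≤ (H : ℤ)) ∧ κ g ∈ Mm m e ∧
      (∀ c, κ g c ≠ 0) ∧
      ∃ (l : ℕ) (k : Fin 3), l.Prime ∧ L0 < l ∧ l ≠ p1 ∧ ¬ (l : ℤ) ∣ y (k + 1) ∧
        ¬ (l : ℤ) ∣ y (k + 2) ∧ (l : ℤ) ∣ Nn ((W * p1 : ℕ) : ℤ) m y g (k + 1) ∧
        (l : ℤ) ∣ Nn ((W * p1 : ℕ) : ℤ) m y g (k + 2) ∧ ¬ ∀ i, (l : ℤ) ∣ g i)) :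
    Pg W p1 m y g := by
  obtain ⟨hgb, hgL, hgW⟩ := (mem_Z0 W m e g0 G g).1 hg
  have E1 : ∀ l : ℕ, l.Prime → l ∣ m → ¬ (l : ℤ) ∣ g 0 :=
    fun l hl hlm hl0 => n1 (Or.inl ⟨l, hl, hlm, hl0⟩)
  have E2 : ∀ (l : ℕ) (i : Fin 3), l.Prime → (l : ℤ) ∣ y i → ¬ (l : ℤ) ∣ g i :=
    fun l i hl hly hlg => n1 (Or.inr (Or.inl ⟨l, i, hl, hly, hlg⟩))
  have E2' : ∀ i, ¬ (p1 : ℤ) ∣ g i := fun i hi => n1 (Or.inr (Or.inr (Or.inl ⟨i, hi⟩)))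
  have hc0 : IsCoprime (g 0) (m : ℤ) := by
    refine copr fun l hl h0 hm => E1 l hl ?_ h0
    exact_mod_cast hm
  obtain ⟨hκ1, hκ2, hκ3⟩ := hκ g hg
  have hκM : κ g ∈ Mm m e := kapM hgL hc0 hκ2
  have hκ0 : ∀ c, κ g c ≠ 0 := fun c hc => n3 ⟨hκ1, hκ2, hκ3, hκM, c, hc⟩
  -- the large primes
  have big : ∀ (l : ℕ) (k : Fin 3), l.Prime → L0 < l → l ≠ p1 → ¬ (l : ℤ) ∣ y (k + 1) →
      ¬ (l : ℤ) ∣ y (k + 2) → (l : ℤ) ∣ Nn ((W * p1 : ℕ) : ℤ) m y g (k + 1) →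
      (l : ℤ) ∣ Nn ((W * p1 : ℕ) : ℤ) m y g (k + 2) → ¬ (∀ i, (l : ℤ) ∣ g i) → False :=
    fun l k hl hL hlp a b c d f =>
      n4 ⟨hc0, hκ1, hκ2, hκ3, hκM, hκ0, l, k, hl, hL, hlp, a, b, c, d, f⟩
  have hN : ∀ i : Fin 3, (m : ℤ) * Nn ((W * p1 : ℕ) : ℤ) m y g i =
      ((W * p1 : ℕ) : ℤ) * g i ^ 2 - y i * (g (i + 1) * g (i + 2)) := by
    intro i
    unfold Nn
    exact Int.mul_ediv_cancel' (dvdL m _ y e g (h.lat.co 0) h.ee hgL i)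
  refine cla h hg0 hgL hgW E1 E2 E2' ?_ ?_
  · rintro l k hl h6 hlm ⟨h1, h2⟩
    rcases le_or_gt l L0 with hle | hgt
    · exact n1 (Or.inr (Or.inr (Or.inr ⟨hc0, l, k, hl, h6, hle, Or.inl ⟨hlm, h1, h2⟩⟩)))
    · by_cases hall : ∀ i, (l : ℤ) ∣ g i
      · exact n2 ⟨hc0, l, hl, hgt, hall⟩
      · have hlp : l ≠ p1 := by
          rintro rfl
          exact E2' _ h1
        have hlP : Prime (l : ℤ) := Nat.prime_iff_prime_int.1 hl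
        have hlm' : ¬ (l : ℤ) ∣ (m : ℤ) := by
          intro hd
          exact hlm (by exact_mod_cast hd)
        have d1 : (l : ℤ) ∣ Nn ((W * p1 : ℕ) : ℤ) m y g (k + 1) := by
          have hd : (l : ℤ) ∣ (m : ℤ) * Nn ((W * p1 : ℕ) : ℤ) m y g (k + 1) := by
            rw [hN]
            apply dvd_sub
            · exact dvd_mul_of_dvd_right (dvd_pow h1 two_ne_zero) _
            · apply dvd_mul_of_dvd_right
              apply dvd_mul_of_dvd_left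
              have : (k + 1 + 1 : Fin 3) = k + 2 := by
                rw [add_assoc]; rfl
              rw [this]
              exact h2
          exact (hlP.dvd_or_dvd hd).resolve_left hlm'
        have d2 : (l : ℤ) ∣ Nn ((W * p1 : ℕ) : ℤ) m y g (k + 2) := by
          have hd : (l : ℤ) ∣ (m : ℤ) * Nn ((W * p1 : ℕ) : ℤ) m y g (k + 2) := by
            rw [hN]
            apply dvd_sub
            · exact dvd_mul_of_dvd_right (dvd_pow h2 two_ne_zero) _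
            · apply dvd_mul_of_dvd_right
              apply dvd_mul_of_dvd_right
              have : (k + 2 + 2 : Fin 3) = k + 1 := by
                rw [add_assoc]; rfl
              rw [this]
              exact h1
          exact (hlP.dvd_or_dvd hd).resolve_left hlm'
        exact big l k hl hgt hlp (fun hh => E2 l _ hl hh h1) (fun hh => E2 l _ hl hh h2) d1 d2 hall
  · rintro l k hl h6 hlp hy1 hy2 hall ⟨h1, h2⟩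
    rcases le_or_gt l L0 with hle | hgt
    · exact n1 (Or.inr (Or.inr (Or.inr ⟨hc0, l, k, hl, h6, hle,
        Or.inr ⟨hlp, hy1, hy2, hall, h1, h2⟩⟩)))
    · exact big l k hl hgt hlp hy1 hy2 h1 h2 (fun hh => hall 0 (hh 0))

theorem pts (W : ℕ) (hW : WP W) (γ c : ℝ) (hγ : 0 < γ) (hγ1 : γ ≤ 1 / 100) (hc : 0 < c)
    (hc1 : c ≤ 1 / 100) :
    ∃ T0 : ℝ, ∀ T : ℝ, T0 ≤ T → ∀ (p1 : ℕ) (y : V3) (m : ℕ), Fam W T c p1 y m →
      F5 W T (γ / 100) p1 y m → ∃ g : V3,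
        (∀ i, (GT γ T : ℤ) ≤ g i ∧ g i ≤ 2 * GT γ T) ∧ Pg W p1 m y g ∧ Rg y g := by
  classical
  obtain ⟨T1, h1⟩ := siz γ hγ hγ1
  obtain ⟨T2, h2⟩ := setp W hW c (γ / 100) hc hc1 (by positivity) (by linarith)
  obtain ⟨T3, h3⟩ := nuA W hW.one γ hγ hγ1
  obtain ⟨T4, h4⟩ := nuB W hW.one γ hγ hγ1
  obtain ⟨T5, h5⟩ := nuC15 W hW.one γ hγ hγ1
  obtain ⟨T6, h6⟩ := nuC16 W hW.one γ hγ hγ1
  obtain ⟨T7, h7⟩ := nuD W hW.one γ hγ hγ1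
  obtain ⟨T8, h8⟩ := nuD18 W hW.one γ hγ hγ1
  refine ⟨max (max (max T1 T2) (max T3 T4)) (max (max T5 T6) (max T7 T8)),
    fun T hT p1 y m hF hF5 => ?_⟩
  simp only [max_le_iff] at hT
  obtain ⟨⟨⟨hT1, hT2⟩, hT3, hT4⟩, ⟨hT5, hT6⟩, hT7, hT8⟩ := hT
  have hS := h1 T hT1
  obtain ⟨hm1, hm2, hr2, e, hPs⟩ := h2 T hT2 p1 y m hF hF5
  replace hPs : Ps W p1 m (rT γ T) y e := hPs
  obtain ⟨a1, a2⟩ := h3 T hT3 m hm1 hm2
  have hT7' : (10 : ℝ) ^ 7 ≤ T := hS.T1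
  have hTone : (1 : ℝ) ≤ T := le_trans (by norm_num) hT7'
  have hT0 : (0 : ℝ) < T := by linarith
  have hW1 : (1 : ℝ) ≤ (W : ℝ) := by exact_mod_cast hW.one
  have hm0 : (0 : ℝ) < (m : ℝ) := lt_of_lt_of_le (by positivity) hm1
  have hyT : ∀ i, (y i : ℝ) ≤ T := fun i =>
    (hF.y2 i).trans ((Real.rpow_le_rpow_of_exponent_le hTone (by linarith)).trans
      (Real.rpow_one T).le)
  have hy1 : ∀ i, (1 : ℝ) ≤ (y i : ℝ) := fun i => by exact_mod_cast hF.y1 i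
  -- the base point
  have hcW : ∀ i, IsCoprime (y i) (W : ℤ) := by
    intro i
    have := hF.cp i
    rw [Nat.cast_mul] at this
    exact this.of_mul_right_left
  obtain ⟨g0, hg0, hRg⟩ := g0ex W hW y hcW
  -- the number of points
  have hr0 : 0 < rT γ T := lt_of_lt_of_le (by norm_num) hS.r3
  have hA : 55 * m ≤ (55 * m / rT γ T + 1) * rT γ T := by
    have := Nat.lt_mul_div_succ (55 * m) hr0
    exact this.le.trans (Nat.mul_comm _ _).le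
  have hz := zct hPs g0 (GT γ T) (55 * m / rT γ T + 1) hA a1
  have hz' : (GT γ T : ℝ) ^ 3 / (2 * (W : ℝ) ^ 3) ≤
      ((Z0 W m e g0 (GT γ T)).card : ℝ) * (m : ℝ) ^ 2 := by
    refine a2.trans ?_
    exact_mod_cast hz
  have hGpos : (0 : ℝ) < (GT γ T : ℝ) := by
    exact_mod_cast lt_of_lt_of_le (by norm_num) hS.G3
  have hZ : (GT γ T : ℝ) ^ 3 / (2 * (W : ℝ) ^ 3 * (m : ℝ) ^ 2) ≤
      ((Z0 W m e g0 (GT γ T)).card : ℝ) := by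
    rw [← div_div]
    exact (div_le_iff₀ (by positivity)).2 hz'
  -- the short vectors
  have hex : ∀ g ∈ Z0 W m e g0 (GT γ T),
      ∃ k : V3, Prim k ∧ dt k g = 0 ∧ ∀ i, |k i| ≤ (HT γ T : ℤ) := by
    intro g hg
    obtain ⟨hgb, -, -⟩ := (mem_Z0 W m e g0 (GT γ T) g).1 hg
    refine kap g (2 * GT γ T) (HT γ T) (by have := hS.G3; omega) (fun i => ?_)
      (by have := hS.H1; omega)
    rw [abs_of_nonneg (le_trans (by positivity) (hgb i).1)]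
    have := (hgb i).2
    push_cast
    exact this
  let κ : V3 → V3 := fun g =>
    if hg : g ∈ Z0 W m e g0 (GT γ T) then Classical.choose (hex g hg) else 0
  have hκ : ∀ g ∈ Z0 W m e g0 (GT γ T),
      Prim (κ g) ∧ dt (κ g) g = 0 ∧ ∀ i, |κ g i| ≤ (HT γ T : ℤ) := by
    intro g hg
    have : κ g = Classical.choose (hex g hg) := dif_pos hg
    rw [this]
    exact Classical.choose_spec (hex g hg)
  -- the bad sets
  set Z := Z0 W m e g0 (GT γ T) with hZdef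
  let P1 : V3 → Prop := fun g => (∃ l : ℕ, l.Prime ∧ l ∣ m ∧ (l : ℤ) ∣ g 0) ∨
       (∃ (l : ℕ) (i : Fin 3), l.Prime ∧ (l : ℤ) ∣ y i ∧ (l : ℤ) ∣ g i) ∨
       (∃ i, (p1 : ℤ) ∣ g i) ∨
       (IsCoprime (g 0) (m : ℤ) ∧ ∃ (l : ℕ) (k : Fin 3), l.Prime ∧ 10 ^ 6 < l ∧ l ≤ LT γ T ∧
        ((¬ l ∣ m ∧ (l : ℤ) ∣ g (k + 1) ∧ (l : ℤ) ∣ g (k + 2)) ∨
         (l ≠ p1 ∧ ¬ (l : ℤ) ∣ y (k + 1) ∧ ¬ (l : ℤ) ∣ y (k + 2) ∧ (∀ i, ¬ (l : ℤ) ∣ g i) ∧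
          (l : ℤ) ∣ Nn ((W * p1 : ℕ) : ℤ) m y g (k + 1) ∧
          (l : ℤ) ∣ Nn ((W * p1 : ℕ) : ℤ) m y g (k + 2))))
  let P2 : V3 → Prop := fun g => IsCoprime (g 0) (m : ℤ) ∧
      ∃ l : ℕ, l.Prime ∧ LT γ T < l ∧ ∀ i, (l : ℤ) ∣ g i
  let P3 : V3 → Prop := fun g => Prim (κ g) ∧ dt (κ g) g = 0 ∧
      (∀ i, |κ g i| ≤ (HT γ T : ℤ)) ∧ κ g ∈ Mm m e ∧ ∃ c, κ g c = 0
  let P4 : V3 → Prop := fun g => IsCoprime (g 0) (m : ℤ) ∧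
      Prim (κ g) ∧ dt (κ g) g = 0 ∧ (∀ i, |κ g i| ≤ (HT γ T : ℤ)) ∧ κ g ∈ Mm m e ∧
      (∀ c, κ g c ≠ 0) ∧
      ∃ (l : ℕ) (k : Fin 3), l.Prime ∧ LT γ T < l ∧ l ≠ p1 ∧ ¬ (l : ℤ) ∣ y (k + 1) ∧
        ¬ (l : ℤ) ∣ y (k + 2) ∧ (l : ℤ) ∣ Nn ((W * p1 : ℕ) : ℤ) m y g (k + 1) ∧
        (l : ℤ) ∣ Nn ((W * p1 : ℕ) : ℤ) m y g (k + 2) ∧ ¬ ∀ i, (l : ℤ) ∣ g i
  have b1 : ((Z.filter P1).card : ℝ) ≤
      (GT γ T : ℝ) ^ 3 / (8 * (W : ℝ) ^ 3 * (m : ℝ) ^ 2) := by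
    have hq := sma hPs g0 (GT γ T) (LT γ T) (Z.filter P1)
      (fun g hg => (Finset.mem_filter.1 hg))
    refine hq.trans (h4 T hT4 m p1 hm1 hm2 hF.p2 _ _ hF.f3 ?_)
    have hYpos : 1 ≤ (y 0 * y 1 * y 2).natAbs := by
      have : (1 : ℤ) ≤ y 0 * y 1 * y 2 :=
        one_le_mul_of_one_le_of_one_le
          (one_le_mul_of_one_le_of_one_le (hF.y1 0) (hF.y1 1)) (hF.y1 2)
      omega
    have hmY : 1 ≤ m * (y 0 * y 1 * y 2).natAbs := Nat.mul_pos hF.m1 hYpos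
    refine (Pool.Agent.GLI.cheb_omega_log _ hmY).trans ?_
    have hlog : Real.log ((m * (y 0 * y 1 * y 2).natAbs : ℕ) : ℝ) ≤
        Real.log (64 * (W : ℝ) ^ 3 * T ^ 6) := by
      apply Real.log_le_log
      · exact_mod_cast hmY
      · have hYr : (((y 0 * y 1 * y 2).natAbs : ℕ) : ℝ) = (y 0 : ℝ) * y 1 * y 2 := by
          have hnn : 0 ≤ y 0 * y 1 * y 2 := by
            have h0 := hF.y1 0
            have h1' := hF.y1 1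
            have h2' := hF.y1 2
            positivity
          have : (((y 0 * y 1 * y 2).natAbs : ℕ) : ℤ) = y 0 * y 1 * y 2 := Int.natAbs_of_nonneg hnn
          have h' : ((((y 0 * y 1 * y 2).natAbs : ℕ) : ℤ) : ℝ) = ((y 0 * y 1 * y 2 : ℤ) : ℝ) := by
            rw [this]
          push_cast at h'
          rw [← h']
          simp
        rw [Nat.cast_mul, hYr]
        have hY3 : (y 0 : ℝ) * y 1 * y 2 ≤ T ^ 3 := by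
          have e0 := hyT 0
          have e1 := hyT 1
          have e2 := hyT 2
          have f0 := hy1 0
          have f1 := hy1 1
          have f2 := hy1 2
          calc (y 0 : ℝ) * y 1 * y 2 ≤ T * T * T := by
                apply mul_le_mul (mul_le_mul e0 e1 (by linarith) hT0.le) e2 (by linarith)
                positivity
            _ = T ^ 3 := by ring
        have hY0 : 0 ≤ (y 0 : ℝ) * y 1 * y 2 := by
          have f0 := hy1 0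
          have f1 := hy1 1
          have f2 := hy1 2
          have : (0 : ℝ) ≤ y 0 := by linarith
          have : (0 : ℝ) ≤ y 1 := by linarith
          have : (0 : ℝ) ≤ y 2 := by linarith
          positivity
        calc (m : ℝ) * ((y 0 : ℝ) * y 1 * y 2) ≤ (64 * (W : ℝ) ^ 3 * T ^ 3) * T ^ 3 :=
              mul_le_mul hm2 hY3 hY0 (by positivity)
          _ = 64 * (W : ℝ) ^ 3 * T ^ 6 := by ring
    linarith
  have b2 : ((Z.filter P2).card : ℝ) ≤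
      (GT γ T : ℝ) ^ 3 / (24 * (W : ℝ) ^ 3 * (m : ℝ) ^ 2) := by
    have hq := all3 hPs g0 (GT γ T) (LT γ T) hS.G3 hS.L3 (Z.filter P2)
      (fun g hg => (Finset.mem_filter.1 hg))
    exact hq.trans (h5 T hT5 m hm1 hm2)
  have b3 : ((Z.filter P3).card : ℝ) ≤
      (GT γ T : ℝ) ^ 3 / (24 * (W : ℝ) ^ 3 * (m : ℝ) ^ 2) := by
    have hq := kzr hPs g0 (GT γ T) (HT γ T) (R1T γ T) hS.R3 κ (Z.filter P3)
      (fun g hg => (Finset.mem_filter.1 hg))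
    exact hq.trans (h6 T hT6 m hm1 hm2)
  have b4 : ((Z.filter P4).card : ℝ) ≤
      (GT γ T : ℝ) ^ 3 / (24 * (W : ℝ) ^ 3 * (m : ℝ) ^ 2) := by
    have hq := cnl hPs g0 (GT γ T) (HT γ T) (LT γ T) ⌊4 * (W : ℝ) * T⌋₊ ⌊70 / γ⌋₊ hS.L3 hS.H3
      (fun i => ?_) ?_ (h7 T hT7) κ (Z.filter P4) (fun g hg => (Finset.mem_filter.1 hg))
    · exact hq.trans (h8 T hT8 m hm1 hm2)
    · -- `y i ≤ Y`
      have h0 : (0 : ℤ) ≤ y i := le_trans (by norm_num) (hF.y1 i)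
      have h1' : (((y i).toNat : ℕ) : ℤ) = y i := Int.toNat_of_nonneg h0
      have h2' : (y i).toNat ≤ ⌊4 * (W : ℝ) * T⌋₊ := by
        apply Nat.le_floor
        have h3' : (((y i).toNat : ℕ) : ℝ) = (y i : ℝ) := by
          rw [← Int.cast_natCast, h1']
        rw [h3']
        refine (hyT i).trans ?_
        nlinarith
      rw [← h1']
      exact_mod_cast h2'
    · apply Nat.le_floor
      push_cast
      have := hF.p3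
      nlinarith
  -- a point outside
  have hcard : ((Z.filter P1 ∪ Z.filter P2) ∪ (Z.filter P3 ∪ Z.filter P4)).card < Z.card := by
    have hu : (((Z.filter P1 ∪ Z.filter P2) ∪ (Z.filter P3 ∪ Z.filter P4)).card : ℝ) ≤
        (Z.filter P1).card + (Z.filter P2).card + ((Z.filter P3).card + (Z.filter P4).card) := by
      have hh : ((Z.filter P1 ∪ Z.filter P2) ∪ (Z.filter P3 ∪ Z.filter P4)).card ≤
          (Z.filter P1).card + (Z.filter P2).card + ((Z.filter P3).card + (Z.filter P4).card) :=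
        (Finset.card_union_le _ _).trans
          (add_le_add (Finset.card_union_le _ _) (Finset.card_union_le _ _))
      exact_mod_cast hh
    have hsum : (GT γ T : ℝ) ^ 3 / (8 * (W : ℝ) ^ 3 * (m : ℝ) ^ 2) +
        3 * ((GT γ T : ℝ) ^ 3 / (24 * (W : ℝ) ^ 3 * (m : ℝ) ^ 2)) <
        (GT γ T : ℝ) ^ 3 / (2 * (W : ℝ) ^ 3 * (m : ℝ) ^ 2) := by
      have hWp : (0 : ℝ) < (W : ℝ) := by linarith
      have hx : 0 < (GT γ T : ℝ) ^ 3 / ((W : ℝ) ^ 3 * (m : ℝ) ^ 2) := by positivity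
      have e8 : (GT γ T : ℝ) ^ 3 / (8 * (W : ℝ) ^ 3 * (m : ℝ) ^ 2) =
          (GT γ T : ℝ) ^ 3 / ((W : ℝ) ^ 3 * (m : ℝ) ^ 2) / 8 := by
        field_simp
      have e24 : (GT γ T : ℝ) ^ 3 / (24 * (W : ℝ) ^ 3 * (m : ℝ) ^ 2) =
          (GT γ T : ℝ) ^ 3 / ((W : ℝ) ^ 3 * (m : ℝ) ^ 2) / 24 := by
        field_simp
      have e2 : (GT γ T : ℝ) ^ 3 / (2 * (W : ℝ) ^ 3 * (m : ℝ) ^ 2) =
          (GT γ T : ℝ) ^ 3 / ((W : ℝ) ^ 3 * (m : ℝ) ^ 2) / 2 := by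
        field_simp
      rw [e8, e24, e2]
      linarith
    have : (((Z.filter P1 ∪ Z.filter P2) ∪ (Z.filter P3 ∪ Z.filter P4)).card : ℝ) <
        (Z.card : ℝ) := by linarith
    exact_mod_cast this
  obtain ⟨g, hgZ, hgn⟩ := Finset.exists_mem_notMem_of_card_lt_card hcard
  simp only [Finset.mem_union, Finset.mem_filter, not_or, not_and] at hgn
  obtain ⟨⟨q1, q2⟩, q3, q4⟩ := hgn
  have n1 : ¬ P1 g := q1 hgZ
  have n2 : ¬ P2 g := q2 hgZ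
  have n3 : ¬ P3 g := q3 hgZ
  have n4 : ¬ P4 g := q4 hgZ
  obtain ⟨hgb, hgL, hgW⟩ := (mem_Z0 W m e g0 (GT γ T) g).1 hgZ
  exact ⟨g, hgb, fin_pt hPs hg0 (GT γ T) (HT γ T) (LT γ T) κ hκ g hgZ n1 n2 n3 n4, hRg g hgW⟩

end Pool.Agent.SMP
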