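import Pool.Agent.SMP.Defs
import Pool.Agent.SML.Defs

/-!
# SMP/Wex (size 2): the product of the primes `≤ 10 ^ 6`

`Pool.Agent.SML.Wz = primorial z0`, `z0 = 10 ^ 6`, `primorial n = ∏ p ∈ (Finset.range (n + 1)).filter Nat.Prime, p`.
PROOF of `wexn`.  A prime `l` dividing `primorial n` divides a factor (`Prime.dvd_finset_prod_iff`,
`Nat.Prime.prime`), which is a prime `≤ n`, so `l` is this prime (`Nat.prime_dvd_prime_iff_eq`); conversely
`Finset.dvd_prod_of_mem`.  Squarefree: `primorial n` is a product of distinct primes (induction on the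
finset with `Nat.squarefree_mul`, or `Finset.squarefree_prod_of_pairwise_isCoprime`).
Keep `n` a variable: nothing may evaluate `primorial (10 ^ 6)`.
-/

set_option autoImplicit false

namespace Pool.Agent.SMP

theorem wexn (n : ℕ) : 1 ≤ primorial n ∧ (∀ l : ℕ, l.Prime → (l ∣ primorial n ↔ l ≤ n)) ∧
    Squarefree (primorial n) := by
  refine ⟨primorial_pos n, ?_, ?_⟩
  · intro l hl
    unfold primorial
    constructor
    · intro h
      obtain ⟨a, ha, hla⟩ := (Prime.dvd_finsetProd_iff hl.prime _).1 h
      rw [Finset.mem_filter, Finset.mem_range] at ha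
      have : l = a := (Nat.prime_dvd_prime_iff_eq hl ha.2).1 hla
      omega
    · intro h
      have hm : l ∈ (Finset.range (n + 1)).filter Nat.Prime := by
        rw [Finset.mem_filter, Finset.mem_range]
        exact ⟨by omega, hl⟩
      exact Finset.dvd_prod_of_mem (fun p => p) hm
  · unfold primorial
    apply Finset.squarefree_prod_of_pairwise_isCoprime
    · intro a ha b hb hab
      rw [Finset.mem_coe, Finset.mem_filter] at ha hb
      exact Nat.isCoprime_iff_coprime.2 ((Nat.coprime_primes ha.2 hb.2).2 hab) |> fun h => by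
        first
          | exact h
          | exact Nat.coprime_iff_isRelPrime.1 (Nat.isCoprime_iff_coprime.1 h)
    · intro a ha
      rw [Finset.mem_filter] at ha
      exact ha.2.prime.squarefree

theorem wex : WP Pool.Agent.SML.Wz := by
  obtain ⟨h1, h2, h3⟩ := wexn Pool.Agent.SML.z0
  exact ⟨h1, h2, h3⟩

end Pool.Agent.SMP
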