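import Pool.Agent.SMP.BrF
import Pool.Agent.SMP.Wex
import Pool.Agent.SMP.Goo
import Pool.Agent.SMP.Pts

/-!
# SMP/BrP (size 3): the interface to section C and N, the points

PROOF of `brP`.  `N_i = Nn (Wz p1) m y g i`.  `e1`: `Nn * m = p g_i² - y_i g_{i+1} g_{i+2}` (`Int.ediv_mul_cancel` with `Pg.d`), `mm = m`
(`brm`); indices: `1 + 1 = 2`, `1 + 2 = 0`, `2 + 1 = 0`, `2 + 2 = 1` in `Fin 3`.  `w1, w2, w3`: `g i` is odd (`Rg.one` for `l = 2`) and prime to 3: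
`g 0 ≡ 1`, `g 1 ≡ y 1`, `g 2 ≡ - y 2` modulo 3 and `y i` is prime to `Wz`, `3 ∣ Wz` (`wex.dv 3`).
`r3`: `y1 y2 g1 g2 + 1 ≡ y1 y2 y1 (-y2) + 1 = 1 - (y1 y2)²` (0-based indices), `(y1 y2)² ≡ 1` modulo 3.
`gm`: `Pg.c0`; `gp`, `gy`: `Pg.cg` (`IsCoprime.of_mul_right_left` ...); `ny`: `Pg.cN`; `n12`...: `Pg.cc`.
`GT γ T = ⌊(T : ℝ) ^ (2 + γ)⌋₊ = Pool.Agent.SML.Gg T γ`.
PROOF of `brd`.  `goo Wz wex (γ / 100)` gives `c ≤ γ / 10 ^ 4` and the sets `V'`; `pts Wz wex γ c` gives the points.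
`V` = the image of `V'` under `(p1, y) ↦ (Wz p1, (y 0).toNat, (y 1).toNat, (y 2).toNat)`, injective on `V'` (`Wz ≥ 1`, `brm`).
`T0` = a natural number above the two real bounds (`exists_nat_ge`).
-/

set_option autoImplicit false

namespace Pool.Agent.SMP

open Pool.Agent.SLB (V3 det3)

open Pool.Agent.SML (Wz)

private theorem aux_fin : ((0 : Fin 3) + 1 = 1) ∧ ((0 : Fin 3) + 2 = 2) ∧ ((1 : Fin 3) + 1 = 2) ∧
    ((1 : Fin 3) + 2 = 0) ∧ ((2 : Fin 3) + 1 = 0) ∧ ((2 : Fin 3) + 2 = 1) := by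
  refine ⟨rfl, rfl, rfl, rfl, rfl, rfl⟩

private theorem aux_six (x : ℤ) (h2 : (2 : ℤ) ∣ x - 1) (h3 : ¬ (3 : ℤ) ∣ x) : IsCoprime x 6 := by
  obtain ⟨k, hk⟩ := h2
  have c2 : IsCoprime x 2 := ⟨1, -k, by linarith⟩
  have c3 : IsCoprime x 3 := ((Prime.coprime_iff_not_dvd Int.prime_three).2 h3).symm
  have e : (6 : ℤ) = 2 * 3 := by norm_num
  rw [e]
  exact c2.mul_right c3

private theorem aux_z : ∀ a b : ZMod 3, a ≠ 0 → b ≠ 0 → a * b * a * (-b) + 1 = 0 := by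
  decide

private theorem aux_three (a b u v : ℤ) (hu : (3 : ℤ) ∣ u - a) (hv : (3 : ℤ) ∣ v + b)
    (ha : ¬ (3 : ℤ) ∣ a) (hb : ¬ (3 : ℤ) ∣ b) : (3 : ℤ) ∣ a * b * u * v + 1 := by
  have key : ∀ z : ℤ, ((z : ZMod 3) = 0 ↔ (3 : ℤ) ∣ z) := by
    intro z
    exact_mod_cast ZMod.intCast_zmod_eq_zero_iff_dvd z 3
  have h1 := (key _).2 hu
  have h2 := (key _).2 hv
  rw [Int.cast_sub, sub_eq_zero] at h1
  rw [Int.cast_add] at h2
  have h2' : (v : ZMod 3) = -(b : ZMod 3) := eq_neg_of_add_eq_zero_left h2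
  have h3 : (a : ZMod 3) ≠ 0 := fun h => ha ((key a).1 h)
  have h4 : (b : ZMod 3) ≠ 0 := fun h => hb ((key b).1 h)
  apply (key _).1
  push_cast
  rw [h1, h2']
  exact aux_z _ _ h3 h4

theorem brP {T : ℕ} {c γ : ℝ} {p1 m : ℕ} {y g : V3} (h : Fam Wz T c p1 y m)
    (hg : ∀ i, (GT γ T : ℤ) ≤ g i ∧ g i ≤ 2 * GT γ T) (hP : Pg Wz p1 m y g) (hR : Rg y g) :
    Pool.Agent.SML.Pts T γ ((Wz * p1 : ℕ) : ℤ) ((y 0).toNat : ℤ) ((y 1).toNat : ℤ)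
      ((y 2).toNat : ℤ) (g 0) (g 1) (g 2) (Nn ((Wz * p1 : ℕ) : ℤ) m y g 0)
      (Nn ((Wz * p1 : ℕ) : ℤ) m y g 1) (Nn ((Wz * p1 : ℕ) : ℤ) m y g 2) := by
  obtain ⟨hy, hmm⟩ := brm h
  obtain ⟨f1, f2, f3, f4, f5, f6⟩ := aux_fin
  have h3W : (3 : ℕ) ∣ Wz := (wex.dv 3 Nat.prime_three).2 (by norm_num)
  have h3y : ∀ i, ¬ (3 : ℤ) ∣ y i := by
    intro i hd
    have h1 : (3 : ℤ) ∣ ((Wz * p1 : ℕ) : ℤ) := by
      have h2 : (3 : ℕ) ∣ Wz * p1 := Dvd.dvd.mul_right h3W p1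
      exact_mod_cast h2
    have h2 := (h.cp i).isUnit_of_dvd' hd h1
    have h3 := Int.isUnit_iff.1 h2
    omega
  have h2g : ∀ i, (2 : ℤ) ∣ g i - 1 := by
    intro i
    have := hR.one 2 Nat.prime_two (by norm_num) (by norm_num) i
    exact_mod_cast this
  have g0 : ¬ (3 : ℤ) ∣ g 0 := by
    intro hd
    have := hR.t0
    omega
  have g1 : ¬ (3 : ℤ) ∣ g 1 := by
    intro hd
    have h1 := hR.t1
    have h2 := h3y 1
    omega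
  have g2 : ¬ (3 : ℤ) ∣ g 2 := by
    intro hd
    have h1 := hR.t2
    have h2 := h3y 2
    omega
  have hd : ∀ i : Fin 3, Nn ((Wz * p1 : ℕ) : ℤ) m y g i * (m : ℤ) =
      ((Wz * p1 : ℕ) : ℤ) * g i ^ 2 - y i * (g (i + 1) * g (i + 2)) := by
    intro i
    unfold Nn
    exact Int.ediv_mul_cancel (hP.d i)
  have e0 := hd 0
  have e1 := hd 1
  have e2 := hd 2
  rw [f1, f2] at e0
  rw [f3, f4] at e1
  rw [f5, f6] at e2
  rw [hy 0, hy 1, hy 2]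
  have hGG : (Pool.Agent.SML.Gg T γ : ℤ) = (GT γ T : ℤ) := rfl
  constructor
  · rw [hGG]; exact (hg 0).1
  · rw [hGG]; exact (hg 1).1
  · rw [hGG]; exact (hg 2).1
  · rw [hGG]; exact (hg 0).2
  · rw [hGG]; exact (hg 1).2
  · rw [hGG]; exact (hg 2).2
  · rw [hmm, e0]; ring
  · rw [hmm, e1]; ring
  · rw [hmm, e2]; ring
  · exact aux_six _ (h2g 0) g0
  · exact aux_six _ (h2g 1) g1
  · exact aux_six _ (h2g 2) g2
  · exact aux_three _ _ _ _ hR.t1 hR.t2 (h3y 1) (h3y 2)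
  · rw [hmm]; exact hP.c0
  · exact IsCoprime.of_mul_right_left (hP.cg 0)
  · exact IsCoprime.of_mul_right_left (hP.cg 1)
  · exact IsCoprime.of_mul_right_left (hP.cg 2)
  · exact IsCoprime.of_mul_right_right (hP.cg 0)
  · exact IsCoprime.of_mul_right_right (hP.cg 1)
  · exact IsCoprime.of_mul_right_right (hP.cg 2)
  · exact hP.cN 0
  · exact hP.cN 1
  · exact hP.cN 2
  · exact hP.cc 0 1 (by decide)
  · exact hP.cc 0 2 (by decide)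
  · exact hP.cc 1 2 (by decide)

theorem brd (γ : ℝ) (hγ : 0 < γ) (hγ1 : γ < 1 / 100) :
    ∃ c : ℝ, 0 < c ∧ c ≤ γ / 10 ^ 4 ∧ ∃ T0 : ℕ, ∀ T : ℕ, T0 ≤ T →
      ∃ V : Finset (ℕ × ℕ × ℕ × ℕ), (T : ℝ) ^ (4 - 10 * c) ≤ V.card ∧
        ∀ v ∈ V, Pool.Agent.SML.Fam T c v.1 v.2.1 v.2.2.1 v.2.2.2 ∧
          Pool.Agent.SML.Good T (γ / 100) v.1 v.2.1 v.2.2.1 v.2.2.2 ∧
          ∃ g1 g2 g3 N1 N2 N3 : ℤ,
            Pool.Agent.SML.Pts T γ v.1 v.2.1 v.2.2.1 v.2.2.2 g1 g2 g3 N1 N2 N3 := by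
  classical
  obtain ⟨c, hc0, hc1, Ta, hTa⟩ := goo Wz wex (γ / 100) (by positivity) (by linarith)
  obtain ⟨Tb, hTb⟩ := pts Wz wex γ c hγ hγ1.le hc0 (by linarith)
  obtain ⟨T0, hT0⟩ := exists_nat_ge (max Ta Tb)
  refine ⟨c, hc0, by linarith, T0, ?_⟩
  intro T hT
  have hT1 : (T0 : ℝ) ≤ (T : ℝ) := by exact_mod_cast hT
  have hTA : Ta ≤ (T : ℝ) := le_trans (le_trans (le_max_left _ _) hT0) hT1
  have hTB : Tb ≤ (T : ℝ) := le_trans (le_trans (le_max_right _ _) hT0) hT1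
  obtain ⟨V', hV', hcard⟩ := hTa T hTA
  have hW1 : 1 ≤ Wz := wex.one
  let f : ℕ × V3 → ℕ × ℕ × ℕ × ℕ :=
    fun v => (Wz * v.1, (v.2 0).toNat, (v.2 1).toNat, (v.2 2).toNat)
  have hinj : Set.InjOn f (V' : Set (ℕ × V3)) := by
    intro v hv w hw hvw
    obtain ⟨m, hF, _⟩ := hV' v hv
    obtain ⟨m', hF', _⟩ := hV' w hw
    have hy := (brm hF).1
    have hy' := (brm hF').1
    simp only [f, Prod.mk.injEq] at hvw
    obtain ⟨h0, h1, h2, h3⟩ := hvw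
    apply Prod.ext
    · exact Nat.eq_of_mul_eq_mul_left hW1 h0
    · funext i
      have h1' : v.2 0 = w.2 0 := by rw [← hy 0, ← hy' 0, h1]
      have h2' : v.2 1 = w.2 1 := by rw [← hy 1, ← hy' 1, h2]
      have h3' : v.2 2 = w.2 2 := by rw [← hy 2, ← hy' 2, h3]
      fin_cases i
      · exact h1'
      · exact h2'
      · exact h3'
  refine ⟨V'.image f, ?_, ?_⟩
  · rw [Finset.card_image_of_injOn hinj]
    exact hcard
  · intro v hv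
    rw [Finset.mem_image] at hv
    obtain ⟨w, hw, rfl⟩ := hv
    obtain ⟨m, hF, h5⟩ := hV' w hw
    obtain ⟨g, hg, hP, hR⟩ := hTb T hTB w.1 w.2 m hF h5
    exact ⟨brF hF, brG hF h5, g 0, g 1, g 2, _, _, _, brP hF hg hP hR⟩

end Pool.Agent.SMP
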