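import Pool.Agent.SMP.Defs

/-!
# SMP/ACl (size 2): the elements of `AAs` in a class modulo `l`

PROOF of `acl`.  Let `A` be the set.  Two elements `j, j'` of `A` are congruent modulo `W` (`j % W = 1`) and
modulo `l` (`l ∣ b (j - j')`, `l` prime to `b`), so modulo `l W`.  They lie in the interval `(J / 2, J]` of length
`J / 2`.  If `A` is nonempty let `j0` be its least element; `j ↦ (j - j0) / (l W)` is injective on `A` with
values `≤ (J / 2) / (l W)`: all `j - j0 < J / 2`.  So `#A ≤ (J / 2) / (l W) + 1`.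
-/

set_option autoImplicit false

namespace Pool.Agent.SMP

private theorem acl_aux (D J : ℕ) (hD : 1 ≤ D) (A : Finset ℕ) (h1 : ∀ j ∈ A, j ≤ J ∧ J < 2 * j)
    (h2 : ∀ j ∈ A, ∀ j' ∈ A, j ≤ j' → D ∣ j' - j) :
    (A.card : ℝ) ≤ (J : ℝ) / ((2 * D : ℕ) : ℝ) + 1 := by
  rcases A.eq_empty_or_nonempty with h | h
  · rw [h]
    simp only [Finset.card_empty, Nat.cast_zero]
    positivity
  · set j0 := A.min' h with hj0
    have hj0A : j0 ∈ A := A.min'_mem h
    have hle : ∀ j ∈ A, j0 ≤ j := fun j hj => A.min'_le j hj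
    have hdiv : ∀ j ∈ A, (j - j0) / D * D = j - j0 := fun j hj =>
      Nat.div_mul_cancel (h2 j0 hj0A j hj (hle j hj))
    have hcard : A.card ≤ (Finset.range (J / (2 * D) + 1)).card := by
      apply Finset.card_le_card_of_injOn (fun j => (j - j0) / D)
      · intro j hj
        have hj' : j ∈ A := hj
        simp only [Finset.coe_range, Set.mem_Iio]
        rw [Nat.lt_succ_iff, Nat.le_div_iff_mul_le (by omega)]
        have h3 := hdiv j hj'
        have h4 := (h1 j hj').1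
        have h5 := (h1 j0 hj0A).2
        have h6 := hle j hj'
        calc (j - j0) / D * (2 * D) = 2 * ((j - j0) / D * D) := by ring
          _ = 2 * (j - j0) := by rw [h3]
          _ ≤ J := by omega
      · intro j hj j' hj' he
        have hj1 : j ∈ A := hj
        have hj1' : j' ∈ A := hj'
        simp only at he
        have h3 := hdiv j hj1
        have h4 := hdiv j' hj1'
        rw [he, h4] at h3
        have h6 := hle j hj1
        have h7 := hle j' hj1'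
        omega
    rw [Finset.card_range] at hcard
    have h3 : (A.card : ℝ) ≤ ((J / (2 * D) : ℕ) : ℝ) + 1 := by exact_mod_cast hcard
    have h4 : ((J / (2 * D) : ℕ) : ℝ) ≤ (J : ℝ) / ((2 * D : ℕ) : ℝ) := Nat.cast_div_le
    linarith

theorem acl (W l J : ℕ) (hW : 1 ≤ W) (hl : l.Prime) (hlW : ¬ l ∣ W) (a b : ℤ)
    (hb : ¬ (l : ℤ) ∣ b) (A : Finset ℕ)
    (hA : ∀ j ∈ A, j ≤ J ∧ J < 2 * j ∧ j % W = 1 ∧ (l : ℤ) ∣ a - b * j) :
    (A.card : ℝ) ≤ (J : ℝ) / (2 * l * W) + 1 := by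
  have h := acl_aux (l * W) J (Nat.mul_pos hl.pos hW) A
    (fun j hj => ⟨(hA j hj).1, (hA j hj).2.1⟩) (by
    intro j hj j' hj' hjj
    obtain ⟨-, -, h3, h4⟩ := hA j hj
    obtain ⟨-, -, h3', h4'⟩ := hA j' hj'
    have e1 : W ∣ j' - j := by
      have : j ≡ j' [MOD W] := by
        unfold Nat.ModEq
        rw [h3, h3']
      exact (Nat.modEq_iff_dvd' hjj).1 this
    have e2 : l ∣ j' - j := by
      have h5 : (l : ℤ) ∣ b * ((j' : ℤ) - j) := by
        have h6 := dvd_sub h4 h4'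
        have h7 : a - b * (j : ℤ) - (a - b * (j' : ℤ)) = b * ((j' : ℤ) - j) := by ring
        rwa [h7] at h6
      have hp : Prime (l : ℤ) := Nat.prime_iff_prime_int.1 hl
      rcases hp.dvd_or_dvd h5 with h6 | h6
      · exact absurd h6 hb
      · have h7 : ((j' - j : ℕ) : ℤ) = (j' : ℤ) - j := by
          rw [Nat.cast_sub hjj]
        rw [← h7] at h6
        exact_mod_cast h6
    exact Nat.Coprime.mul_dvd_of_dvd_of_dvd ((Nat.Prime.coprime_iff_not_dvd hl).2 hlW) e2 e1)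
  have e : ((2 * (l * W) : ℕ) : ℝ) = 2 * l * W := by
    push_cast
    ring
  rw [e] at h
  exact h

/-- the number of elements of `AAs` -/
theorem aac (W : ℕ) (hW : 2 ≤ W) (T c : ℝ) :
    (Jp T c : ℝ) / (2 * W) - 1 ≤ (AAs W T c).card ∧
      ((AAs W T c).card : ℝ) ≤ (Jp T c : ℝ) / (2 * W) + 1 := by
  set J := Jp T c with hJ
  constructor
  · have h1 : AAs W T c = {x ∈ Finset.Ioc (J / 2) J | x ≡ 1 [MOD W]} := by
      ext j
      unfold AAs
      simp only [Finset.mem_filter, Finset.mem_Icc, Finset.mem_Ioc, ← hJ]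
      have h2 : (1 : ℕ) % W = 1 := Nat.mod_eq_of_lt (by omega)
      unfold Nat.ModEq
      rw [h2]
      constructor
      · rintro ⟨⟨a1, a2⟩, a3, a4⟩
        exact ⟨⟨by omega, a2⟩, a4⟩
      · rintro ⟨⟨a1, a2⟩, a3⟩
        exact ⟨⟨by omega, a2⟩, by omega, a3⟩
    have hW0 : 0 < W := by omega
    have h3 := Nat.Ioc_filter_modEq_card (J / 2) J hW0 1
    rw [← h1] at h3
    have hWq : (0 : ℚ) < W := by exact_mod_cast hW0
    have h4 : ((J : ℚ) - (1 : ℕ)) / W - 1 < (⌊((J : ℚ) - (1 : ℕ)) / W⌋ : ℤ) :=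
      Int.sub_one_lt_floor _
    have h5 : ((⌊((((J / 2 : ℕ)) : ℚ) - (1 : ℕ)) / W⌋ : ℤ) : ℚ) ≤ ((((J / 2 : ℕ)) : ℚ) - (1 : ℕ)) / W :=
      Int.floor_le _
    have h6 : ((⌊((J : ℚ) - (1 : ℕ)) / W⌋ - ⌊((((J / 2 : ℕ)) : ℚ) - (1 : ℕ)) / W⌋ : ℤ) : ℚ) ≤
        ((AAs W T c).card : ℚ) := by
      have h7 : (⌊((J : ℚ) - (1 : ℕ)) / W⌋ - ⌊((((J / 2 : ℕ)) : ℚ) - (1 : ℕ)) / W⌋ : ℤ) ≤
          ((AAs W T c).card : ℤ) := by
        rw [h3]
        exact le_max_left _ _
      exact_mod_cast h7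
    have h8 : (((J / 2 : ℕ)) : ℚ) ≤ (J : ℚ) / 2 := by
      have := @Nat.cast_div_le ℚ _ _ _ J 2
      simpa using this
    have h9 : (J : ℚ) / (2 * W) - 1 ≤ ((AAs W T c).card : ℚ) := by
      push_cast at h6
      have h10 : ((J : ℚ) - (1 : ℕ)) / W - ((((J / 2 : ℕ)) : ℚ) - (1 : ℕ)) / W =
          ((J : ℚ) - ((J / 2 : ℕ) : ℚ)) / W := by ring
      have h11 : (J : ℚ) / (2 * W) ≤ ((J : ℚ) - ((J / 2 : ℕ) : ℚ)) / W := by
        rw [div_le_div_iff₀ (by positivity) hWq]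
        nlinarith
      push_cast at h4 h5 h10
      linarith
    have h12 : (((J : ℚ) / (2 * W) - 1 : ℚ) : ℝ) ≤ ((((AAs W T c).card : ℚ)) : ℝ) :=
      Rat.cast_le.2 h9
    push_cast at h12
    exact h12
  · have h := acl_aux W J (by omega) (AAs W T c) (by
      intro j hj
      unfold AAs at hj
      simp only [Finset.mem_filter, Finset.mem_Icc, ← hJ] at hj
      exact ⟨hj.1.2, hj.2.1⟩) (by
      intro j hj j' hj' hjj
      unfold AAs at hj hj'
      simp only [Finset.mem_filter, Finset.mem_Icc] at hj hj'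
      have : j ≡ j' [MOD W] := by
        unfold Nat.ModEq
        rw [hj.2.2, hj'.2.2]
      exact (Nat.modEq_iff_dvd' hjj).1 this)
    push_cast at h
    exact h

end Pool.Agent.SMP
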