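import Pool.Agent.SMP.Bas
import Pool.Agent.SMP.ACl
import Pool.Agent.NTot.Mertens

/-!
# SMP/Avo (size 3): (A6) the average number of prime divisors

PROOF.  `T ≥ T0` (with `bas`).  `J = Jp T c`, `n_j = mj W p1 S j`, `T ^ 3 ≤ n_j ≤ 64 W ^ 3 T ^ 3`.  Count the primes `l ∣ n_j`.
`l ≤ 10 ^ 6`: `l ∣ W`, impossible (`Bs.cm`).  `10 ^ 6 < l ≤ J`: `l ∤ pS S` (`Bs.cm`), exchange the sums, `acl` with
`a = (W p1) ^ 3`, `b = pS S`: `≤ ∑_{l ≤ J} (J / (2 l W) + 1) ≤ (J / (2 W)) (log log J + C0) + J`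
(`Pool.Agent.NTot.mertens_inv`; `PZ z` is the set of the primes `≤ z`).  `l > J`: at most 4 of them, since a
product of 5 such primes is `> J ^ 5`; `J ^ 4 > 64 W ^ 3 T ^ 3` for `T` large (`4 (1 - 2 c) > 3`), so at most 3; sum over `j`:
`≤ 4 J`.  Total `≤ (J / W) (log log T + C)` with `C = C0 + 5 W`.
-/

set_option autoImplicit false

namespace Pool.Agent.SMP

/-- at most three prime divisors exceed the bound -/
private theorem avo_large (n J : ℕ) (hn : 1 ≤ n) (h : n < (J + 1) ^ 4) :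
    (n.primeFactors.filter (fun l => J < l)).card ≤ 3 := by
  by_contra hc
  push Not at hc
  have h1 : (J + 1) ^ (n.primeFactors.filter (fun l => J < l)).card ≤
      ∏ l ∈ n.primeFactors.filter (fun l => J < l), l := by
    refine Finset.pow_card_le_prod _ _ _ fun l hl => ?_
    rw [Finset.mem_filter] at hl
    exact hl.2
  have h2 : (J + 1) ^ 4 ≤ (J + 1) ^ (n.primeFactors.filter (fun l => J < l)).card :=
    Nat.pow_le_pow_right (by omega) hc
  have h3 : ∏ l ∈ n.primeFactors.filter (fun l => J < l), l ∣ n :=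
    (Finset.prod_dvd_prod_of_subset _ _ _ (Finset.filter_subset _ _)).trans
      (Nat.prod_primeFactors_dvd n)
  have h4 := Nat.le_of_dvd (by omega) h3
  omega

/-- the prime divisors are split at `J` -/
private theorem avo_split (n J : ℕ) (hn : 1 ≤ n) (h : n < (J + 1) ^ 4) :
    n.primeFactors.card ≤ ((Pool.Agent.NTot.PZ J).filter (fun l => l ∣ n)).card + 3 := by
  have h1 := Finset.card_filter_add_card_filter_not (s := n.primeFactors) (fun l => J < l)
  have h2 := avo_large n J hn h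
  have h3 : (n.primeFactors.filter (fun l => ¬ J < l)).card ≤
      ((Pool.Agent.NTot.PZ J).filter (fun l => l ∣ n)).card := by
    refine Finset.card_le_card fun l hl => ?_
    rw [Finset.mem_filter, Nat.mem_primeFactors] at hl
    rw [Finset.mem_filter, Pool.Agent.NTot.mem_PZ]
    exact ⟨⟨hl.1.1, not_lt.mp hl.2⟩, hl.1.2.1⟩
  omega

/-- the number of the `j` with `l ∣ mj` -/
private theorem avo_count (W : ℕ) (hW : WP W) (T c : ℝ) (p1 : ℕ) (S : Finset ℕ)
    (B : Bs W T c p1 S) (l : ℕ) (hl : l.Prime) :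
    (((AAs W T c).filter (fun j => l ∣ mj W p1 S j)).card : ℝ) ≤
      (Jp T c : ℝ) / (2 * l * W) + 1 := by
  rcases Finset.eq_empty_or_nonempty ((AAs W T c).filter (fun j => l ∣ mj W p1 S j)) with h | h
  · rw [h, Finset.card_empty]
    push_cast
    positivity
  · obtain ⟨j0, hj0⟩ := h
    rw [Finset.mem_filter] at hj0
    have hcm := B.cm j0 hj0.1
    have hlW : ¬ l ∣ W := fun h1 => hl.one_lt.ne' (Nat.dvd_one.mp (by
      have h2 : l ∣ Nat.gcd (mj W p1 S j0) (pS S * (W * p1)) :=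
        Nat.dvd_gcd hj0.2 ((h1.mul_right p1).mul_left (pS S))
      rwa [Nat.Coprime.gcd_eq_one hcm] at h2))
    have hlS : ¬ l ∣ pS S := fun h1 => hl.one_lt.ne' (Nat.dvd_one.mp (by
      have h2 : l ∣ Nat.gcd (mj W p1 S j0) (pS S * (W * p1)) :=
        Nat.dvd_gcd hj0.2 (h1.mul_right _)
      rwa [Nat.Coprime.gcd_eq_one hcm] at h2))
    refine acl W l (Jp T c) hW.one hl hlW (((W * p1) ^ 3 : ℕ) : ℤ) ((pS S : ℕ) : ℤ)
      (fun h1 => hlS (by exact_mod_cast h1)) _ fun j hj => ?_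
    rw [Finset.mem_filter] at hj
    have hjA := hj.1
    unfold AAs at hjA
    rw [Finset.mem_filter, Finset.mem_Icc] at hjA
    refine ⟨hjA.1.2, hjA.2.1, hjA.2.2, ?_⟩
    have h1 : ((mj W p1 S j : ℕ) : ℤ) = (((W * p1) ^ 3 : ℕ) : ℤ) - ((pS S : ℕ) : ℤ) * (j : ℤ) := by
      unfold mj
      rw [Nat.cast_sub (B.lt j hj.1).le]
      push_cast
      ring
    rw [← h1]
    exact_mod_cast hj.2

theorem avo (W : ℕ) (hW : WP W) (c : ℝ) (hc : 0 < c) (hc1 : c ≤ 1 / 100) :
    ∃ C T0 : ℝ, ∀ T : ℝ, T0 ≤ T → ∀ p1 ∈ PPs T, ∀ S ∈ SSs T c,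
      ∑ j ∈ AAs W T c, ((mj W p1 S j).primeFactors.card : ℝ) ≤
        (Jp T c : ℝ) / W * (Real.log (Real.log T) + C) := by
  classical
  obtain ⟨T0, hT0⟩ := bas W hW c hc hc1
  obtain ⟨C0, hC0, hm⟩ := Pool.Agent.NTot.mertens_inv
  refine ⟨C0 + 4 * W, max T0 ((64 * (W : ℝ) ^ 3) ^ 2 + 100), fun T hT p1 hp1 S hS => ?_⟩
  have hTa : T0 ≤ T := (le_max_left _ _).trans hT
  have hTb : (64 * (W : ℝ) ^ 3) ^ 2 + 100 ≤ T := (le_max_right _ _).trans hT
  obtain ⟨hPa, hB⟩ := hT0 T hTa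
  have B := hB p1 hp1 S hS
  have hT7 : (10 : ℝ) ^ 7 ≤ T := hPa.T1
  have hT1 : 1 ≤ T := by linarith
  have hTp : 0 < T := by linarith
  have hWr : (1 : ℝ) ≤ W := by exact_mod_cast hW.one
  have hW0 : (0 : ℝ) < W := by linarith
  -- the size of `J`
  have hJle : (Jp T c : ℝ) ≤ T ^ (1 - 2 * c) := Nat.floor_le (by positivity)
  have hJlt : T ^ (1 - 2 * c) < (Jp T c : ℝ) + 1 := Nat.lt_floor_add_one _
  have hJT : (Jp T c : ℝ) ≤ T := by
    refine hJle.trans ?_
    calc T ^ (1 - 2 * c) ≤ T ^ (1 : ℝ) := Real.rpow_le_rpow_of_exponent_le hT1 (by linarith)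
      _ = T := Real.rpow_one T
  have hsq : √T ≤ T ^ (1 - 2 * c) := by
    rw [Real.sqrt_eq_rpow]
    exact Real.rpow_le_rpow_of_exponent_le hT1 (by linarith)
  have hs10 : (10 : ℝ) ≤ √T := by
    apply Real.le_sqrt_of_sq_le
    nlinarith [sq_nonneg (64 * (W : ℝ) ^ 3)]
  have hJ3 : 3 ≤ Jp T c := by
    have h1 : (9 : ℝ) < Jp T c := by linarith
    have h2 : (9 : ℕ) < Jp T c := by exact_mod_cast h1
    omega
  have hJ3r : (3 : ℝ) ≤ Jp T c := by exact_mod_cast hJ3
  -- the size of `mj`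
  have hbig : ∀ j ∈ AAs W T c, 1 ≤ mj W p1 S j ∧ mj W p1 S j < (Jp T c + 1) ^ 4 := by
    intro j hj
    constructor
    · have h1 := B.m1 j hj
      have h2 : (0 : ℝ) < mj W p1 S j := lt_of_lt_of_le (by positivity) h1
      have h3 : 0 < mj W p1 S j := by exact_mod_cast h2
      omega
    · have h1 := B.m2 j hj
      have h64 : 64 * (W : ℝ) ^ 3 < √T := by
        apply Real.lt_sqrt_of_sq_lt
        linarith
      have h2 : √T ≤ T ^ (1 - 8 * c) := by
        rw [Real.sqrt_eq_rpow]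
        exact Real.rpow_le_rpow_of_exponent_le hT1 (by linarith)
      have h3 : 64 * (W : ℝ) ^ 3 * T ^ 3 < T ^ (1 - 8 * c) * T ^ 3 :=
        mul_lt_mul_of_pos_right (lt_of_lt_of_le h64 h2) (by positivity)
      have h4 : T ^ (1 - 8 * c) * T ^ 3 = (T ^ (1 - 2 * c)) ^ 4 := by
        rw [← Real.rpow_natCast T 3, ← Real.rpow_add hTp, ← Real.rpow_natCast (T ^ (1 - 2 * c)) 4,
          ← Real.rpow_mul hTp.le]
        congr 1
        push_cast
        ring
      have h5 : (T ^ (1 - 2 * c)) ^ 4 ≤ ((Jp T c : ℝ) + 1) ^ 4 :=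
        pow_le_pow_left₀ (by positivity) hJlt.le 4
      have h6 : (mj W p1 S j : ℝ) < ((Jp T c : ℝ) + 1) ^ 4 := by
        rw [h4] at h3
        linarith
      exact_mod_cast h6
  have hsplit : ∀ j ∈ AAs W T c, ((mj W p1 S j).primeFactors.card : ℝ) ≤
      (((Pool.Agent.NTot.PZ (Jp T c)).filter (fun l => l ∣ mj W p1 S j)).card : ℝ) + 3 := by
    intro j hj
    exact_mod_cast avo_split (mj W p1 S j) (Jp T c) (hbig j hj).1 (hbig j hj).2
  have hcardA : ((AAs W T c).card : ℝ) ≤ Jp T c := by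
    have h1 : (AAs W T c).card ≤ (Finset.Icc 1 (Jp T c)).card := Finset.card_filter_le _ _
    rw [Nat.card_Icc] at h1
    exact_mod_cast (by omega : (AAs W T c).card ≤ Jp T c)
  have hex : ∑ j ∈ AAs W T c,
      (((Pool.Agent.NTot.PZ (Jp T c)).filter (fun l => l ∣ mj W p1 S j)).card : ℝ) =
      ∑ l ∈ Pool.Agent.NTot.PZ (Jp T c),
        (((AAs W T c).filter (fun j => l ∣ mj W p1 S j)).card : ℝ) := by
    have := Finset.sum_card_bipartiteAbove_eq_sum_card_bipartiteBelow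
      (s := AAs W T c) (t := Pool.Agent.NTot.PZ (Jp T c)) (fun j l => l ∣ mj W p1 S j)
    unfold Finset.bipartiteAbove Finset.bipartiteBelow at this
    exact_mod_cast this
  have hcnt : ∑ l ∈ Pool.Agent.NTot.PZ (Jp T c),
      (((AAs W T c).filter (fun j => l ∣ mj W p1 S j)).card : ℝ) ≤
      ∑ l ∈ Pool.Agent.NTot.PZ (Jp T c), ((Jp T c : ℝ) / (2 * W) * (1 / l) + 1) := by
    refine Finset.sum_le_sum fun l hl => ?_
    rw [Pool.Agent.NTot.mem_PZ] at hl
    have h1 := avo_count W hW T c p1 S B l hl.1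
    have hlp : (0 : ℝ) < l := by exact_mod_cast hl.1.pos
    have h2 : (Jp T c : ℝ) / (2 * l * W) = (Jp T c : ℝ) / (2 * W) * (1 / l) := by
      field_simp
    rw [← h2]
    exact h1
  have hPZ : ((Pool.Agent.NTot.PZ (Jp T c)).card : ℝ) ≤ Jp T c := by
    have h1 : (Pool.Agent.NTot.PZ (Jp T c)).card ≤ (Finset.Icc 1 (Jp T c)).card :=
      Finset.card_filter_le _ _
    rw [Nat.card_Icc] at h1
    exact_mod_cast (by omega : (Pool.Agent.NTot.PZ (Jp T c)).card ≤ Jp T c)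
  have hmer := hm (Jp T c) hJ3
  have hlogJ : 0 < Real.log (Jp T c) := Real.log_pos (by linarith)
  have hll : Real.log (Real.log (Jp T c)) ≤ Real.log (Real.log T) :=
    Real.log_le_log hlogJ (Real.log_le_log (by linarith) hJT)
  have hlog1 : 1 ≤ Real.log T := by
    rw [Real.le_log_iff_exp_le hTp]
    have := Real.exp_one_lt_d9
    linarith
  have hll0 : 0 ≤ Real.log (Real.log T) := Real.log_nonneg hlog1
  have hJ0 : (0 : ℝ) ≤ Jp T c := by linarith
  calc ∑ j ∈ AAs W T c, ((mj W p1 S j).primeFactors.card : ℝ)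
      ≤ ∑ j ∈ AAs W T c,
        ((((Pool.Agent.NTot.PZ (Jp T c)).filter (fun l => l ∣ mj W p1 S j)).card : ℝ) + 3) :=
        Finset.sum_le_sum hsplit
    _ = (∑ j ∈ AAs W T c,
        (((Pool.Agent.NTot.PZ (Jp T c)).filter (fun l => l ∣ mj W p1 S j)).card : ℝ)) +
          (AAs W T c).card * 3 := by
        rw [Finset.sum_add_distrib, Finset.sum_const, nsmul_eq_mul]
    _ ≤ (∑ l ∈ Pool.Agent.NTot.PZ (Jp T c), ((Jp T c : ℝ) / (2 * W) * (1 / l) + 1)) +
          (Jp T c : ℝ) * 3 := by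
        rw [hex]
        linarith
    _ = (Jp T c : ℝ) / (2 * W) * (∑ l ∈ Pool.Agent.NTot.PZ (Jp T c), (1 : ℝ) / l) +
          (Pool.Agent.NTot.PZ (Jp T c)).card + (Jp T c : ℝ) * 3 := by
        rw [Finset.sum_add_distrib, ← Finset.mul_sum, Finset.sum_const, nsmul_eq_mul, mul_one]
    _ ≤ (Jp T c : ℝ) / (2 * W) * (Real.log (Real.log T) + C0) + (Jp T c : ℝ) + (Jp T c : ℝ) * 3 := by
        have h1 : (Jp T c : ℝ) / (2 * W) * (∑ l ∈ Pool.Agent.NTot.PZ (Jp T c), (1 : ℝ) / l) ≤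
            (Jp T c : ℝ) / (2 * W) * (Real.log (Real.log T) + C0) :=
          mul_le_mul_of_nonneg_left (by linarith) (by positivity)
        linarith
    _ ≤ (Jp T c : ℝ) / W * (Real.log (Real.log T) + (C0 + 4 * W)) := by
        have h1 : (Jp T c : ℝ) / (2 * W) * (Real.log (Real.log T) + C0) ≤
            (Jp T c : ℝ) / W * (Real.log (Real.log T) + C0) := by
          refine mul_le_mul_of_nonneg_right ?_ (by linarith)
          exact div_le_div_of_nonneg_left hJ0 hW0 (by linarith)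
        have h2 : (Jp T c : ℝ) / W * (Real.log (Real.log T) + (C0 + 4 * W)) =
            (Jp T c : ℝ) / W * (Real.log (Real.log T) + C0) + 4 * (Jp T c : ℝ) := by
          field_simp
          ring
        rw [h2]
        linarith

end Pool.Agent.SMP
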