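import Pool.Agent.SMP.Bas
import Pool.Agent.SMP.ACl
import Pool.Agent.GLI.Cheb

/-!
# SMP/Avs (size 4): (A5) the average of the sum of the reciprocals of the prime divisors

PROOF of `avs`.  `T ≥ T0` (with `bas`); `n_j = mj W p1 S j * j`, `1 ≤ n_j ≤ 64 W ^ 3 T ^ 4`.  `J = Jp T c`.
Split `sl (n_j)` in the primes `l ≤ J` and `l > J`.
(1) `l > J`: `l > j`, so `l ∣ mj W p1 S j`; the number of these primes is at most `ω(n_j) ≤ 2 log (64 W ^ 3 T ^ 4)`
(`Pool.Agent.GLI.cheb_omega_log`), each has `1 / l ≤ 1 / J`.  Sum over `j`: `≤ #AAs * 2 log (..) / J ≤ 2 log (64 W ^ 3 T ^ 4)`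
(`#AAs ≤ J`).
(2) `10 ^ 6 < l ≤ J`: exchange the sums.  `l ∤ W` (`hW.dv`).  `l ∣ n_j` iff `l ∣ mj` or `l ∣ j`.
If some `j` has `l ∣ mj W p1 S j` then `l ∤ pS S` (`Bs.cm`), so `acl` with `a = (W p1) ^ 3`, `b = pS S` bounds the number of
these `j` by `J / (2 l W) + 1`; for `l ∣ j`: `acl` with `a = 0`, `b = 1`.  So the contribution is at most
`∑_{10^6 < l ≤ J} (2 / l) (J / (2 l W) + 1) ≤ (J / W) ∑_{n > 10^6} 1 / n ^ 2 + 2 ∑_{n ≤ J} 1 / n ≤ J / (W 10 ^ 6) + 2 (1 + log J)`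
(`∑_{n > z} 1 / n ^ 2 ≤ 1 / z`: `sum_Ioc_inv_sq_le`-like, `1 / n ^ 2 ≤ 1 / (n - 1) - 1 / n`; `harmonic_le_one_add_log`).
(3) `2 (1 + log J) + 2 log (64 W ^ 3 T ^ 4) ≤ J / (W 10 ^ 6)` for `T` large (`J ≥ T ^ (1 - 2 c) - 1`, `asyl`).
-/

set_option autoImplicit false

namespace Pool.Agent.SMP

private theorem Avs_num (W : ℕ) (hW : 1 ≤ W) (c : ℝ) (hc : 0 < c) (hc1 : c ≤ 1 / 100) :
    ∃ T0 : ℝ, ∀ T : ℝ, T0 ≤ T → 1 ≤ Jp T c ∧
      2 * (1 + Real.log (Jp T c)) + 2 * Real.log (64 * W ^ 3 * T ^ 4)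
        ≤ (Jp T c : ℝ) / (W * 10 ^ 6) := by
  have hWr : (1 : ℝ) ≤ (W : ℝ) := by exact_mod_cast hW
  set C0 : ℝ := 2 + 2 * Real.log (64 * W ^ 3) with hC0
  have hC00 : 0 ≤ C0 := by
    have h1 : (1 : ℝ) ≤ 64 * (W : ℝ) ^ 3 := by
      have : (1 : ℝ) ≤ (W : ℝ) ^ 3 := one_le_pow₀ hWr
      linarith
    have := Real.log_nonneg h1
    linarith
  obtain ⟨T1, hT11, h1⟩ := asyl ((C0 + 10) * (2 * (W * 10 ^ 6))) 0 (1 - 2 * c) (by linarith)
  obtain ⟨T2, hT21, h2⟩ := asy 2 0 (1 - 2 * c) (by linarith)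
  refine ⟨max T1 (max T2 3), fun T hT => ?_⟩
  have hTa : T1 ≤ T := (le_max_left _ _).trans hT
  have hTb : T2 ≤ T := ((le_max_left _ _).trans (le_max_right _ _)).trans hT
  have hT3 : (3 : ℝ) ≤ T := ((le_max_right _ _).trans (le_max_right _ _)).trans hT
  have hT0 : (0 : ℝ) < T := by linarith
  have hL1 : 1 ≤ Real.log T := by
    rw [Real.le_log_iff_exp_le hT0]
    have := Real.exp_one_lt_d9
    linarith
  have b1 := h1 T hTa
  have b2 := h2 T hTb
  rw [Real.rpow_zero] at b1 b2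
  rw [mul_one] at b1 b2
  have b3 : T ^ (1 - 2 * c) < (Jp T c : ℝ) + 1 := Nat.lt_floor_add_one _
  have b4 : (Jp T c : ℝ) ≤ T ^ (1 - 2 * c) := Nat.floor_le (Real.rpow_nonneg hT0.le _)
  have hJ1 : 1 ≤ Jp T c := by
    have : (0 : ℝ) < (Jp T c : ℝ) := by linarith
    have : 0 < Jp T c := by exact_mod_cast this
    exact this
  refine ⟨hJ1, ?_⟩
  have hJr : (1 : ℝ) ≤ (Jp T c : ℝ) := by exact_mod_cast hJ1
  have b5 : Real.log (Jp T c) ≤ Real.log T := by
    apply Real.log_le_log (by linarith)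
    refine b4.trans ?_
    calc T ^ (1 - 2 * c) ≤ T ^ (1 : ℝ) :=
          Real.rpow_le_rpow_of_exponent_le (by linarith) (by linarith)
      _ = T := Real.rpow_one T
  have b6 : Real.log (64 * W ^ 3 * T ^ 4) = Real.log (64 * W ^ 3) + 4 * Real.log T := by
    rw [Real.log_mul (by positivity) (by positivity), Real.log_pow]
    norm_num
  rw [b6, le_div_iff₀ (by positivity)]
  have b7 : 2 * (1 + Real.log (Jp T c)) + 2 * (Real.log (64 * W ^ 3) + 4 * Real.log T)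
      ≤ (C0 + 10) * Real.log T := by
    have : C0 ≤ C0 * Real.log T := le_mul_of_one_le_right hC00 hL1
    nlinarith
  have b8 : (2 * (1 + Real.log (Jp T c)) + 2 * (Real.log (64 * W ^ 3) + 4 * Real.log T))
      * (W * 10 ^ 6) ≤ ((C0 + 10) * Real.log T) * (W * 10 ^ 6) :=
    mul_le_mul_of_nonneg_right b7 (by positivity)
  have b9 : ((C0 + 10) * Real.log T) * (W * 10 ^ 6) ≤ T ^ (1 - 2 * c) / 2 := by
    have e : (C0 + 10) * (2 * (W * 10 ^ 6)) * Real.log T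
        = 2 * (((C0 + 10) * Real.log T) * (W * 10 ^ 6)) := by ring
    rw [e] at b1
    linarith
  have b10 : T ^ (1 - 2 * c) / 2 ≤ (Jp T c : ℝ) := by linarith
  linarith

private theorem Avs_sl (n J : ℕ) (hn : n ≠ 0) (hJ : 1 ≤ J) :
    sl n ≤ (∑ l ∈ (Finset.Ioc (10 ^ 6) J).filter Nat.Prime, if l ∣ n then (1 : ℝ) / l else 0)
      + 2 * Real.log n / J := by
  classical
  unfold sl
  have hJr : (0 : ℝ) < (J : ℝ) := by exact_mod_cast hJ
  rw [← Finset.sum_filter_add_sum_filter_not (n.primeFactors.filter (fun l => 10 ^ 6 < l))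
    (fun l => l ≤ J)]
  apply add_le_add
  · rw [← Finset.sum_filter]
    apply Finset.sum_le_sum_of_subset_of_nonneg
    · intro l hl
      rw [Finset.mem_filter, Finset.mem_filter, Nat.mem_primeFactors] at hl
      rw [Finset.mem_filter, Finset.mem_filter, Finset.mem_Ioc]
      exact ⟨⟨⟨hl.1.2, hl.2⟩, hl.1.1.1⟩, hl.1.1.2.1⟩
    · intro l _ _
      positivity
  · have h1 : ∀ l ∈ (n.primeFactors.filter (fun l => 10 ^ 6 < l)).filter (fun l => ¬ l ≤ J),
        (1 : ℝ) / l ≤ 1 / J := by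
      intro l hl
      rw [Finset.mem_filter] at hl
      apply one_div_le_one_div_of_le hJr
      have : J ≤ l := by omega
      exact_mod_cast this
    refine (Finset.sum_le_card_nsmul _ _ _ h1).trans ?_
    rw [nsmul_eq_mul]
    have h2 : ((((n.primeFactors.filter (fun l => 10 ^ 6 < l)).filter (fun l => ¬ l ≤ J)).card : ℕ) : ℝ)
        ≤ (n.primeFactors.card : ℝ) := by
      exact_mod_cast (Finset.card_filter_le _ _).trans (Finset.card_filter_le _ _)
    have h3 := Pool.Agent.GLI.cheb_omega_log n (Nat.one_le_iff_ne_zero.2 hn)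
    have h4 := h2.trans h3
    calc _ ≤ (2 * Real.log n) * (1 / J) := mul_le_mul_of_nonneg_right h4 (by positivity)
      _ = 2 * Real.log n / J := by ring

private theorem Avs_two (J W : ℕ) (hW : 1 ≤ W) :
    ∑ l ∈ (Finset.Ioc (10 ^ 6) J).filter Nat.Prime,
      (1 : ℝ) / l * (2 * ((J : ℝ) / (2 * l * W) + 1)) ≤ (J : ℝ) / (W * 10 ^ 6)
        + 2 * (1 + Real.log J) := by
  have hWr : (0 : ℝ) < (W : ℝ) := by exact_mod_cast hW
  have h1 : ∀ l ∈ (Finset.Ioc (10 ^ 6) J).filter Nat.Prime,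
      (1 : ℝ) / l * (2 * ((J : ℝ) / (2 * l * W) + 1))
        = (J : ℝ) / W * ((l : ℝ) ^ 2)⁻¹ + 2 * (l : ℝ)⁻¹ := by
    intro l hl
    rw [Finset.mem_filter] at hl
    have : (0 : ℝ) < (l : ℝ) := by exact_mod_cast hl.2.pos
    field_simp
  rw [Finset.sum_congr rfl h1, Finset.sum_add_distrib, ← Finset.mul_sum, ← Finset.mul_sum]
  apply add_le_add
  · have h2 : ∑ l ∈ (Finset.Ioc (10 ^ 6) J).filter Nat.Prime, ((l : ℝ) ^ 2)⁻¹ ≤ (10 ^ 6 : ℝ)⁻¹ := by
      have h3 : ∑ l ∈ (Finset.Ioc (10 ^ 6) J).filter Nat.Prime, ((l : ℝ) ^ 2)⁻¹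
          ≤ ∑ l ∈ Finset.Ioc (10 ^ 6) J, ((l : ℝ) ^ 2)⁻¹ := by
        apply Finset.sum_le_sum_of_subset_of_nonneg (Finset.filter_subset _ _)
        intro l _ _
        positivity
      refine h3.trans ?_
      rcases le_or_gt (10 ^ 6) J with h | h
      · have h4 := sum_Ioc_inv_sq_le_sub (α := ℝ) (k := 10 ^ 6) (n := J) (by norm_num) h
        have h5 : (0 : ℝ) ≤ (J : ℝ)⁻¹ := by positivity
        push_cast at h4
        linarith
      · rw [Finset.Ioc_eq_empty (by omega), Finset.sum_empty]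
        positivity
    have h6 : (0 : ℝ) ≤ (J : ℝ) / W := by positivity
    calc (J : ℝ) / W * _ ≤ (J : ℝ) / W * (10 ^ 6 : ℝ)⁻¹ := mul_le_mul_of_nonneg_left h2 h6
      _ = (J : ℝ) / (W * 10 ^ 6) := by rw [← div_eq_mul_inv, div_div]
  · have h2 : ∑ l ∈ (Finset.Ioc (10 ^ 6) J).filter Nat.Prime, (l : ℝ)⁻¹ ≤ 1 + Real.log J := by
      have h3 : ∑ l ∈ (Finset.Ioc (10 ^ 6) J).filter Nat.Prime, (l : ℝ)⁻¹
          ≤ ∑ l ∈ Finset.Icc 1 J, (l : ℝ)⁻¹ := by
        apply Finset.sum_le_sum_of_subset_of_nonneg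
        · intro l hl
          rw [Finset.mem_filter, Finset.mem_Ioc] at hl
          rw [Finset.mem_Icc]
          exact ⟨hl.2.one_le, hl.1.2⟩
        · intro l _ _
          positivity
      refine h3.trans ?_
      have h4 := harmonic_le_one_add_log J
      rw [harmonic_eq_sum_Icc] at h4
      push_cast at h4
      exact h4
    linarith

theorem avs (W : ℕ) (hW : WP W) (c : ℝ) (hc : 0 < c) (hc1 : c ≤ 1 / 100) :
    ∃ T0 : ℝ, ∀ T : ℝ, T0 ≤ T → ∀ p1 ∈ PPs T, ∀ S ∈ SSs T c,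
      ∑ j ∈ AAs W T c, sl (mj W p1 S j * j) ≤ 2 * (Jp T c : ℝ) / (W * 10 ^ 6) := by
  classical
  obtain ⟨T1, h1⟩ := bas W hW c hc hc1
  obtain ⟨T2, h2⟩ := Avs_num W hW.one c hc hc1
  refine ⟨max T1 (max T2 1), fun T hT p1 hp1 S hS => ?_⟩
  have hTa : T1 ≤ T := (le_max_left _ _).trans hT
  have hTb : T2 ≤ T := ((le_max_left _ _).trans (le_max_right _ _)).trans hT
  have hTc : (1 : ℝ) ≤ T := ((le_max_right _ _).trans (le_max_right _ _)).trans hT
  have hB := (h1 T hTa).2 p1 hp1 S hS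
  obtain ⟨hJ1, hnum⟩ := h2 T hTb
  set J : ℕ := Jp T c with hJ
  have hJr : (0 : ℝ) < (J : ℝ) := by exact_mod_cast hJ1
  have hWr : (1 : ℝ) ≤ (W : ℝ) := by exact_mod_cast hW.one
  set P : Finset ℕ := (Finset.Ioc (10 ^ 6) J).filter Nat.Prime with hP
  have hmem : ∀ j ∈ AAs W T c, 1 ≤ j ∧ j ≤ J ∧ J < 2 * j ∧ j % W = 1 := by
    intro j hj
    unfold AAs at hj
    rw [Finset.mem_filter, Finset.mem_Icc] at hj
    exact ⟨hj.1.1, hj.1.2, hj.2.1, hj.2.2⟩
  have hmpos : ∀ j ∈ AAs W T c, 0 < mj W p1 S j := by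
    intro j hj
    have h3 := hB.m1 j hj
    have h4 : (1 : ℝ) ≤ T ^ 3 := one_le_pow₀ hTc
    have h5 : (0 : ℝ) < (mj W p1 S j : ℝ) := by linarith
    exact_mod_cast h5
  have hstep : ∀ j ∈ AAs W T c, sl (mj W p1 S j * j)
      ≤ (∑ l ∈ P, if l ∣ mj W p1 S j * j then (1 : ℝ) / l else 0)
        + 2 * Real.log (64 * W ^ 3 * T ^ 4) / J := by
    intro j hj
    have hj1 := (hmem j hj).1
    have hne : mj W p1 S j * j ≠ 0 := by
      have := hmpos j hj
      positivity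
    refine (Avs_sl _ J hne hJ1).trans ?_
    have h3 : ((mj W p1 S j * j : ℕ) : ℝ) ≤ 64 * W ^ 3 * T ^ 4 := by
      push_cast
      have h4 := hB.m2 j hj
      have h5 := (hB.jT j hj).2
      have h6 : (0 : ℝ) ≤ (j : ℝ) := Nat.cast_nonneg _
      calc (mj W p1 S j : ℝ) * (j : ℝ) ≤ (64 * (W : ℝ) ^ 3 * T ^ 3) * T :=
            mul_le_mul h4 h5.le h6 (by positivity)
        _ = 64 * W ^ 3 * T ^ 4 := by ring
    have h7 : (0 : ℝ) < ((mj W p1 S j * j : ℕ) : ℝ) := by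
      exact_mod_cast Nat.pos_of_ne_zero hne
    have h8 := Real.log_le_log h7 h3
    have h9 : 2 * Real.log ((mj W p1 S j * j : ℕ) : ℝ) / J ≤ 2 * Real.log (64 * W ^ 3 * T ^ 4) / J := by
      apply div_le_div_of_nonneg_right _ hJr.le
      linarith
    exact add_le_add (le_refl _) h9
  refine (Finset.sum_le_sum hstep).trans ?_
  rw [Finset.sum_add_distrib, Finset.sum_comm]
  -- the large primes
  have hcardA : ((AAs W T c).card : ℝ) ≤ J := by
    have h3 : (AAs W T c).card ≤ J := by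
      unfold AAs
      refine (Finset.card_filter_le _ _).trans ?_
      rw [Nat.card_Icc]
      omega
    exact_mod_cast h3
  have hlogpos : 0 ≤ Real.log (64 * W ^ 3 * T ^ 4) := by
    apply Real.log_nonneg
    have a1 : (1 : ℝ) ≤ (W : ℝ) ^ 3 := one_le_pow₀ hWr
    have a2 : (1 : ℝ) ≤ T ^ 4 := one_le_pow₀ hTc
    have a3 : (1 : ℝ) ≤ (W : ℝ) ^ 3 * T ^ 4 := by nlinarith
    linarith
  have hlarge : ∑ _j ∈ AAs W T c, 2 * Real.log (64 * W ^ 3 * T ^ 4) / J
      ≤ 2 * Real.log (64 * W ^ 3 * T ^ 4) := by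
    rw [Finset.sum_const, nsmul_eq_mul]
    calc ((AAs W T c).card : ℝ) * (2 * Real.log (64 * W ^ 3 * T ^ 4) / J)
        ≤ (J : ℝ) * (2 * Real.log (64 * W ^ 3 * T ^ 4) / J) :=
          mul_le_mul_of_nonneg_right hcardA (by positivity)
      _ = 2 * Real.log (64 * W ^ 3 * T ^ 4) := by
          field_simp
  -- the small primes
  have hsmall : ∑ l ∈ P, ∑ j ∈ AAs W T c, (if l ∣ mj W p1 S j * j then (1 : ℝ) / l else 0)
      ≤ ∑ l ∈ P, (1 : ℝ) / l * (2 * ((J : ℝ) / (2 * l * W) + 1)) := by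
    refine Finset.sum_le_sum fun l hl => ?_
    rw [hP, Finset.mem_filter, Finset.mem_Ioc] at hl
    have hlp := hl.2
    have hlW : ¬ l ∣ W := by
      intro h
      have := (hW.dv l hlp).1 h
      omega
    have hl0 : (0 : ℝ) < (l : ℝ) := by exact_mod_cast hlp.pos
    rw [← Finset.sum_filter, Finset.sum_const, nsmul_eq_mul, mul_comm]
    apply mul_le_mul_of_nonneg_left _ (by positivity)
    set A1 : Finset ℕ := (AAs W T c).filter (fun j => l ∣ mj W p1 S j) with hA1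
    set A2 : Finset ℕ := (AAs W T c).filter (fun j => l ∣ j) with hA2
    have hsub : (AAs W T c).filter (fun j => l ∣ mj W p1 S j * j) ⊆ A1 ∪ A2 := by
      intro j hj
      rw [Finset.mem_filter] at hj
      rw [Finset.mem_union, hA1, hA2, Finset.mem_filter, Finset.mem_filter]
      rcases (hlp.dvd_mul).1 hj.2 with h | h
      · exact Or.inl ⟨hj.1, h⟩
      · exact Or.inr ⟨hj.1, h⟩
    have hc1' : (A1.card : ℝ) ≤ (J : ℝ) / (2 * l * W) + 1 := by
      rcases A1.eq_empty_or_nonempty with h | ⟨j0, hj0⟩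
      · rw [h, Finset.card_empty, Nat.cast_zero]
        positivity
      · rw [hA1, Finset.mem_filter] at hj0
        have hcop := hB.cm j0 hj0.1
        have hb : ¬ (l : ℤ) ∣ ((pS S : ℕ) : ℤ) := by
          intro h
          have h3 : l ∣ pS S := Int.natCast_dvd_natCast.1 h
          have h4 : l ∣ Nat.gcd (mj W p1 S j0) (pS S * (W * p1)) :=
            Nat.dvd_gcd hj0.2 (Dvd.dvd.mul_right h3 _)
          rw [hcop] at h4
          exact hlp.one_lt.ne' (Nat.dvd_one.1 h4)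
        refine acl W l J hW.one hlp hlW (((W * p1) ^ 3 : ℕ) : ℤ) ((pS S : ℕ) : ℤ) hb A1 ?_
        intro j hj
        rw [hA1, Finset.mem_filter] at hj
        obtain ⟨_, m2, m3, m4⟩ := hmem j hj.1
        refine ⟨m2, m3, m4, ?_⟩
        have h3 := Int.natCast_dvd_natCast.2 hj.2
        have h4 : ((mj W p1 S j : ℕ) : ℤ) = (((W * p1) ^ 3 : ℕ) : ℤ) - ((pS S : ℕ) : ℤ) * (j : ℤ) := by
          unfold mj
          rw [Nat.cast_sub (hB.lt j hj.1).le]
          push_cast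
          ring
        rwa [h4] at h3
    have hc2' : (A2.card : ℝ) ≤ (J : ℝ) / (2 * l * W) + 1 := by
      refine acl W l J hW.one hlp hlW 0 1 ?_ A2 ?_
      · intro h
        have h3 : l ∣ 1 := by exact_mod_cast h
        exact hlp.one_lt.ne' (Nat.dvd_one.1 h3)
      · intro j hj
        rw [hA2, Finset.mem_filter] at hj
        obtain ⟨_, m2, m3, m4⟩ := hmem j hj.1
        refine ⟨m2, m3, m4, ?_⟩
        have h3 := Int.natCast_dvd_natCast.2 hj.2
        have h4 : (0 : ℤ) - 1 * (j : ℤ) = -(j : ℤ) := by ring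
        rw [h4]
        exact (dvd_neg).2 h3
    have hc3 : (((AAs W T c).filter (fun j => l ∣ mj W p1 S j * j)).card : ℝ)
        ≤ (A1.card : ℝ) + (A2.card : ℝ) := by
      exact_mod_cast (Finset.card_le_card hsub).trans (Finset.card_union_le _ _)
    linarith
  have htwo := Avs_two J W hW.one
  rw [← hP] at htwo
  have e1 : 2 * (J : ℝ) / (W * 10 ^ 6) = (J : ℝ) / (W * 10 ^ 6) + (J : ℝ) / (W * 10 ^ 6) := by ring
  rw [e1]
  refine (add_le_add (hsmall.trans htwo) hlarge).trans ?_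
  linarith

end Pool.Agent.SMP
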