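import Pool.Agent.SMP.Pig

/-!
# SMP/Bal (size 3): (A3), (A4) balanced products modulo cubes

`pr I` is the product of the elements of `I` in `ZMod n`.

PROOF of `bal`.  `S' ⊆ S` with `4 R + 10` elements (`Finset.exists_subset_card_eq`), `P = S'.powersetCard (2 R + 5)`:
`P.card = (4 R + 10).choose (2 R + 5) = centralBinom (2 R + 5) > 3 ^ R` (`Nat.four_pow_lt_mul_centralBinom`:
`4 ^ n < n * centralBinom n` for `n ≥ 4`; and `3 ^ R * n ≤ 4 ^ n` for `n = 2 R + 5`, clear since
`4 ^ (2 R + 5) = 1024 * 16 ^ R` and `n ≤ 5 * 2 ^ R`...).  `f : P → (ZMod n)ˣ`, the product of the units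
`ZMod.unitOfCoprime s _`; outside use `if h : Nat.Coprime s n then ZMod.unitOfCoprime s h else 1`.
`3 ^ ω(n) ≤ 3 ^ R < P.card`, `pig` gives `I' ≠ J'`, `u`.  `I = I' \ J'`, `J = J' \ I'`: disjoint, of the same size
(`Finset.card_sdiff_add_card_inter`), nonempty since `I' ≠ J'` have the same size; cancel the unit
`∏ (I' ∩ J')` (`Finset.prod_inter_mul_prod_diff`-like, `Finset.sdiff_union_inter`, `Finset.prod_union`).
PROOF of `mx`.  The set of the numbers `#I` of pairs `(I, J)` with the first four properties is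
nonempty (`I = J = ∅`, `u = 1`) and bounded by `#S`; take a pair with `#I` maximal
(`Finset.exists_max_image` on `S.powerset ×ˢ S.powerset` filtered, or `Nat.findGreatest`).  If
`4 R + 10 ≤ #(S \ (I ∪ J))` then `bal` for `S \ (I ∪ J)` gives `I2, J2`, and `(I ∪ I2, J ∪ J2)`, `u u2` is a larger pair.
-/

set_option autoImplicit false

namespace Pool.Agent.SMP

private theorem bal_num (R : ℕ) : 3 ^ R < (4 * R + 10).choose (2 * R + 5) := by
  have h := Nat.four_pow_lt_mul_centralBinom (2 * R + 5) (by omega)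
  have hc : Nat.centralBinom (2 * R + 5) = (4 * R + 10).choose (2 * R + 5) := by
    rw [Nat.centralBinom_eq_two_mul_choose]
    congr 1
    ring
  rw [hc] at h
  by_contra hcon
  have h1 : (4 * R + 10).choose (2 * R + 5) ≤ 3 ^ R := not_lt.mp hcon
  have h2 : (2 * R + 5) * (4 * R + 10).choose (2 * R + 5) ≤ (5 * 2 ^ R) * 3 ^ R := by
    apply Nat.mul_le_mul _ h1
    have : R < 2 ^ R := Nat.lt_two_pow_self
    omega
  have h3 : (5 * 2 ^ R) * 3 ^ R ≤ 1024 * 16 ^ R := by
    have e : (5 * 2 ^ R) * 3 ^ R = 5 * (2 * 3) ^ R := by rw [mul_pow]; ring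
    rw [e]
    exact Nat.mul_le_mul (by norm_num) (Nat.pow_le_pow_left (by norm_num) R)
  have h4 : 4 ^ (2 * R + 5) = 1024 * 16 ^ R := by
    rw [pow_add, pow_mul]
    norm_num
    ring
  omega

/-- the unit of a residue class -/
private noncomputable def bu (n s : ℕ) : (ZMod n)ˣ :=
  if h : Nat.Coprime s n then ZMod.unitOfCoprime s h else 1

private theorem bu_coe (n s : ℕ) (h : Nat.Coprime s n) : ((bu n s : (ZMod n)ˣ) : ZMod n) = (s : ZMod n) := by
  unfold bu
  rw [dif_pos h]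
  exact ZMod.coe_unitOfCoprime s h

private theorem bu_prod (n : ℕ) (I : Finset ℕ) (h : ∀ s ∈ I, Nat.Coprime s n) :
    ((∏ s ∈ I, bu n s : (ZMod n)ˣ) : ZMod n) = ∏ s ∈ I, (s : ZMod n) := by
  rw [Units.coe_prod]
  exact Finset.prod_congr rfl (fun s hs => bu_coe n s (h s hs))

theorem bal (n R : ℕ) (hn : 1 ≤ n) (hR : n.primeFactors.card ≤ R) (S : Finset ℕ)
    (hS : ∀ s ∈ S, Nat.Coprime s n) (hc : 4 * R + 10 ≤ S.card) :
    ∃ I J : Finset ℕ, I ⊆ S ∧ J ⊆ S ∧ Disjoint I J ∧ I.card = J.card ∧ I.Nonempty ∧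
      ∃ u : (ZMod n)ˣ, (∏ j ∈ J, (j : ZMod n)) = (∏ i ∈ I, (i : ZMod n)) * (u : ZMod n) ^ 3 := by
  classical
  obtain ⟨S', hS', hcS'⟩ := Finset.exists_subset_card_eq hc
  have hP : 3 ^ n.primeFactors.card < (S'.powersetCard (2 * R + 5)).card := by
    rw [Finset.card_powersetCard, hcS']
    exact lt_of_le_of_lt (Nat.pow_le_pow_right (by norm_num) hR) (bal_num R)
  obtain ⟨I', hI', J', hJ', hne, u, hu⟩ :=
    pig n hn (S'.powersetCard (2 * R + 5)) (fun I => ∏ s ∈ I, bu n s) hP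
  rw [Finset.mem_powersetCard] at hI' hJ'
  have hIS : I' ⊆ S := hI'.1.trans hS'
  have hJS : J' ⊆ S := hJ'.1.trans hS'
  have e1 : (I' ∩ J').card + (I' \ J').card = I'.card := Finset.card_inter_add_card_sdiff I' J'
  have e2 : (J' ∩ I').card + (J' \ I').card = J'.card := Finset.card_inter_add_card_sdiff J' I'
  rw [Finset.inter_comm J' I'] at e2
  have hcard : (I' \ J').card = (J' \ I').card := by omega
  refine ⟨I' \ J', J' \ I', Finset.sdiff_subset.trans hIS, Finset.sdiff_subset.trans hJS,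
    disjoint_sdiff_sdiff, hcard, ?_, u, ?_⟩
  · rw [Finset.nonempty_iff_ne_empty]
    intro h0
    have h1 : J' \ I' = ∅ := by
      rw [← Finset.card_eq_zero, ← hcard, h0, Finset.card_empty]
    exact hne (Finset.Subset.antisymm (Finset.sdiff_eq_empty_iff_subset.mp h0)
      (Finset.sdiff_eq_empty_iff_subset.mp h1))
  · have f1 := Finset.prod_inter_mul_prod_sdiff I' J' (bu n)
    have f2 := Finset.prod_inter_mul_prod_sdiff J' I' (bu n)

    rw [← f1, ← f2, Finset.inter_comm J' I', mul_assoc] at hu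
    have hu2 := mul_left_cancel hu
    have hu3 := congrArg (fun x : (ZMod n)ˣ => (x : ZMod n)) hu2
    simp only [Units.val_mul, Units.val_pow_eq_pow_val] at hu3
    rw [bu_prod n _ (fun s hs => hS s (hJS (Finset.sdiff_subset hs))),
      bu_prod n _ (fun s hs => hS s (hIS (Finset.sdiff_subset hs)))] at hu3
    exact hu3

theorem mx (n R : ℕ) (hn : 1 ≤ n) (hR : n.primeFactors.card ≤ R) (S : Finset ℕ)
    (hS : ∀ s ∈ S, Nat.Coprime s n) :
    ∃ I J : Finset ℕ, I ⊆ S ∧ J ⊆ S ∧ Disjoint I J ∧ I.card = J.card ∧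
      (S \ (I ∪ J)).card < 4 * R + 10 ∧
      ∃ u : (ZMod n)ˣ, (∏ j ∈ J, (j : ZMod n)) = (∏ i ∈ I, (i : ZMod n)) * (u : ZMod n) ^ 3 := by
  classical
  let F : Finset (Finset ℕ × Finset ℕ) := (S.powerset ×ˢ S.powerset).filter
    (fun q => Disjoint q.1 q.2 ∧ q.1.card = q.2.card ∧
      ∃ u : (ZMod n)ˣ, (∏ j ∈ q.2, (j : ZMod n)) = (∏ i ∈ q.1, (i : ZMod n)) * (u : ZMod n) ^ 3)
  have hF : F.Nonempty := by
    refine ⟨(∅, ∅), ?_⟩
    simp only [F, Finset.mem_filter, Finset.mem_product, Finset.mem_powerset]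
    refine ⟨⟨Finset.empty_subset _, Finset.empty_subset _⟩, by simp, trivial, 1, by simp⟩
  obtain ⟨q, hq, hmax⟩ := Finset.exists_max_image F (fun q => q.1.card) hF
  obtain ⟨I, J⟩ := q
  have hq' := hq
  simp only [F, Finset.mem_filter, Finset.mem_product, Finset.mem_powerset] at hq'
  obtain ⟨⟨hI, hJ⟩, hd, hcard, u, hu⟩ := hq'
  refine ⟨I, J, hI, hJ, hd, hcard, ?_, u, hu⟩
  by_contra hcon
  have hcon' : 4 * R + 10 ≤ (S \ (I ∪ J)).card := not_lt.mp hcon
  obtain ⟨I2, J2, hI2, hJ2, hd2, hc2, hne2, u2, hu2⟩ := bal n R hn hR (S \ (I ∪ J))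
    (fun s hs => hS s (Finset.sdiff_subset hs)) hcon'
  have dis : ∀ A : Finset ℕ, A ⊆ S \ (I ∪ J) → Disjoint I A ∧ Disjoint J A := by
    intro A hA
    constructor
    · rw [Finset.disjoint_left]
      intro x hx hxA
      have := hA hxA
      rw [Finset.mem_sdiff, Finset.mem_union] at this
      exact this.2 (Or.inl hx)
    · rw [Finset.disjoint_left]
      intro x hx hxA
      have := hA hxA
      rw [Finset.mem_sdiff, Finset.mem_union] at this
      exact this.2 (Or.inr hx)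
  obtain ⟨d1, d2⟩ := dis I2 hI2
  obtain ⟨d3, d4⟩ := dis J2 hJ2
  have hmem : (I ∪ I2, J ∪ J2) ∈ F := by
    simp only [F, Finset.mem_filter, Finset.mem_product, Finset.mem_powerset]
    refine ⟨⟨Finset.union_subset hI (hI2.trans Finset.sdiff_subset),
      Finset.union_subset hJ (hJ2.trans Finset.sdiff_subset)⟩, ?_, ?_, u * u2, ?_⟩
    · rw [Finset.disjoint_union_left, Finset.disjoint_union_right, Finset.disjoint_union_right]
      exact ⟨⟨hd, d3⟩, d2.symm, hd2⟩
    · rw [Finset.card_union_of_disjoint d1, Finset.card_union_of_disjoint d4, hcard, hc2]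
    · rw [Finset.prod_union d4, Finset.prod_union d1, hu, hu2]
      push_cast
      ring
  have h1 := hmax _ hmem
  simp only at h1
  rw [Finset.card_union_of_disjoint d1] at h1
  have h2 : 0 < I2.card := Finset.card_pos.mpr hne2
  omega

end Pool.Agent.SMP
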