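import Pool.Agent.SMP.ParB

/-!
# SMP/Bas (size 3): the basic properties of `p1`, `S`, `j`

PROOF of `bas`.  `T ≥ T0` with `pa`.  `p1 ∈ PPs T`: `⌊T⌋₊ < p1 ≤ 4 ⌊T⌋₊`, so `T < p1` (`Nat.lt_of_floor_lt`), `p1 ≤ 4 T`,
`p1 > T ≥ 10 ^ 7`.  `S ∈ SSs T c`: `Finset.mem_powersetCard`; every `s ∈ S` is a prime in `(Q, 4 Q]`, `Q > 10 ^ 6`,
`4 Q < T`.  `cS`: a prime `l` dividing `pS S` is one of the `s` (`Prime.dvd_finset_prod_iff`), it is `> 10 ^ 6`, so it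
does not divide `W` (`hW.dv`), and `l < T < p1`, so it is not `p1`.  `j ∈ AAs`: `1 ≤ j ≤ J ≤ T ^ (1 - 2 c) < T`
(`T > 1`); `j % W = 1` gives `Nat.Coprime j W`; `j < p1` prime gives `Nat.Coprime j p1`.
`lt`, `m1`, `m2`: `pS S ≤ (4 Q) ^ k ≤ T ^ (2 - 4 c)` (`Finset.prod_le_pow_card`, `hb`), `j ≤ T ^ (1 - 2 c)`, so
`pS S * j ≤ T ^ (3 - 6 c) ≤ T ^ 3`; `(W p1) ^ 3 ≥ 8 T ^ 3` since `W ≥ 2` (`2 ∣ W`), `≥ 2 T ^ 3`; `(W p1) ^ 3 ≤ 64 W ^ 3 T ^ 3`.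
`cm`: a prime `l` dividing `mj` and `pS S` or `W p1`: if `l ∣ pS S` then `l ∣ (W p1) ^ 3`, against `cS`; if
`l ∣ W p1` then `l ∣ pS S * j`, against `cS` and `cj`.  (`Nat.dvd_sub`, `mj + pS S * j = (W p1) ^ 3`.)
-/

set_option autoImplicit false

namespace Pool.Agent.SMP

private theorem bas_no {l a b : ℕ} (hl : l.Prime) (hab : Nat.Coprime a b) (h1 : l ∣ a)
    (h2 : l ∣ b) : False := by
  have h3 : l ∣ Nat.gcd a b := Nat.dvd_gcd h1 h2
  rw [hab] at h3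
  exact hl.one_lt.ne' (Nat.dvd_one.1 h3)

theorem bas (W : ℕ) (hW : WP W) (c : ℝ) (hc : 0 < c) (hc1 : c ≤ 1 / 100) :
    ∃ T0 : ℝ, ∀ T : ℝ, T0 ≤ T → Pa T c ∧ ∀ p1 ∈ PPs T, ∀ S ∈ SSs T c, Bs W T c p1 S := by
  obtain ⟨T0, hT0⟩ := pa c hc hc1
  refine ⟨T0, fun T hT => ?_⟩
  have hP := hT0 T hT
  refine ⟨hP, fun p1 hp1 S hS => ?_⟩
  have hT1 : (10 : ℝ) ^ 7 ≤ T := hP.T1
  have hTp : (0 : ℝ) < T := lt_of_lt_of_le (by positivity) hT1
  have hT2 : (1 : ℝ) < T := lt_of_lt_of_le (by norm_num) hT1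
  unfold PPs at hp1
  simp only [Finset.mem_filter, Finset.mem_Ioc] at hp1
  obtain ⟨⟨hp1a, hp1b⟩, hpp⟩ := hp1
  have hp2 : T < p1 := Nat.lt_of_floor_lt hp1a
  have hp3 : (p1 : ℝ) ≤ 4 * T := by
    have h1 : (p1 : ℝ) ≤ 4 * (⌊T⌋₊ : ℝ) := by exact_mod_cast hp1b
    have h2 : (⌊T⌋₊ : ℝ) ≤ T := Nat.floor_le hTp.le
    linarith
  have hpb : 10 ^ 6 < p1 := by
    have h1 : (10 : ℝ) ^ 6 < p1 := lt_of_le_of_lt (le_trans (by norm_num) hT1) hp2
    exact_mod_cast h1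
  unfold SSs at hS
  rw [Finset.mem_powersetCard] at hS
  obtain ⟨hSQ, hSc⟩ := hS
  have hQm : ∀ s ∈ S, (Qp T < s ∧ s ≤ 4 * Qp T) ∧ s.Prime := by
    intro s hs
    have h1 := hSQ hs
    unfold QQs at h1
    simpa only [Finset.mem_filter, Finset.mem_Ioc] using h1
  have hsT : ∀ s ∈ S, (s : ℝ) < T := by
    intro s hs
    have h1 : (s : ℝ) ≤ 4 * (Qp T : ℝ) := by exact_mod_cast (hQm s hs).1.2
    exact lt_of_le_of_lt h1 hP.a1
  have hs6 : ∀ s ∈ S, 10 ^ 6 < s := fun s hs => hP.a2.trans (hQm s hs).1.1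
  have hW2 : 2 ≤ W := Nat.le_of_dvd hW.one ((hW.dv 2 Nat.prime_two).2 (by norm_num))
  have hcS : Nat.Coprime (pS S) (W * p1) := by
    unfold pS
    apply Nat.Coprime.prod_left
    intro s hs
    have hsp := (hQm s hs).2
    rw [Nat.Prime.coprime_iff_not_dvd hsp]
    intro h1
    rcases (Nat.Prime.dvd_mul hsp).1 h1 with h2 | h2
    · have h3 := (hW.dv s hsp).1 h2
      have h4 := hs6 s hs
      omega
    · have h3 : s = p1 := (Nat.prime_dvd_prime_iff_eq hsp hpp).1 h2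
      have h4 := hsT s hs
      rw [h3] at h4
      exact absurd h4 (not_lt.2 hp2.le)
  have hjm : ∀ j ∈ AAs W T c, 1 ≤ j ∧ (j : ℝ) ≤ T ^ (1 - 2 * c) ∧ j % W = 1 := by
    intro j hj
    unfold AAs at hj
    simp only [Finset.mem_filter, Finset.mem_Icc] at hj
    obtain ⟨⟨h1, h2⟩, -, h3⟩ := hj
    refine ⟨h1, ?_, h3⟩
    have h4 : (j : ℝ) ≤ (Jp T c : ℝ) := by exact_mod_cast h2
    refine h4.trans ?_
    unfold Jp
    exact Nat.floor_le (Real.rpow_nonneg hTp.le _)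
  have hjT : ∀ j ∈ AAs W T c, (j : ℝ) < T := by
    intro j hj
    refine lt_of_le_of_lt (hjm j hj).2.1 ?_
    calc T ^ (1 - 2 * c) < T ^ (1 : ℝ) := Real.rpow_lt_rpow_of_exponent_lt hT2 (by linarith)
      _ = T := Real.rpow_one T
  have hcj : ∀ j ∈ AAs W T c, Nat.Coprime j (W * p1) := by
    intro j hj
    obtain ⟨h1, h2, h3⟩ := hjm j hj
    apply Nat.Coprime.mul_right
    · have h4 := Nat.gcd_rec W j
      rw [h3, Nat.gcd_one_left] at h4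
      exact Nat.Coprime.symm h4
    · apply Nat.Coprime.symm
      rw [Nat.Prime.coprime_iff_not_dvd hpp]
      intro h4
      have h5 := Nat.le_of_dvd h1 h4
      have h6 : (p1 : ℝ) ≤ j := by exact_mod_cast h5
      have h7 := hjT j hj
      linarith
  have hpS : (pS S : ℝ) ≤ T ^ (2 - 4 * c) := by
    have h1 : pS S ≤ (4 * Qp T) ^ S.card := by
      unfold pS
      exact Finset.prod_le_pow_card S (fun s => s) _ (fun s hs => (hQm s hs).1.2)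
    rw [hSc] at h1
    have h2 : (pS S : ℝ) ≤ (4 * (Qp T : ℝ)) ^ kp T c := by exact_mod_cast h1
    exact h2.trans hP.hb
  have hY : ∀ j ∈ AAs W T c, ((pS S * j : ℕ) : ℝ) ≤ T ^ 3 := by
    intro j hj
    have h1 := (hjm j hj).2.1
    push_cast
    calc (pS S : ℝ) * j ≤ T ^ (2 - 4 * c) * T ^ (1 - 2 * c) :=
          mul_le_mul hpS h1 (by positivity) (by positivity)
      _ = T ^ ((2 - 4 * c) + (1 - 2 * c)) := (Real.rpow_add hTp _ _).symm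
      _ ≤ T ^ (3 : ℝ) := Real.rpow_le_rpow_of_exponent_le hT2.le (by linarith)
      _ = T ^ 3 := by
          rw [← Real.rpow_natCast]
          norm_num
  have hX : 8 * T ^ 3 ≤ (((W * p1) ^ 3 : ℕ) : ℝ) := by
    have h1 : 2 * T ≤ (W : ℝ) * p1 := by
      have h2 : (2 : ℝ) ≤ W := by exact_mod_cast hW2
      exact mul_le_mul h2 hp2.le hTp.le (by positivity)
    push_cast
    calc 8 * T ^ 3 = (2 * T) ^ 3 := by ring
      _ ≤ ((W : ℝ) * p1) ^ 3 := pow_le_pow_left₀ (by positivity) h1 3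
  have hT3 : 0 < T ^ 3 := by positivity
  have hlt : ∀ j ∈ AAs W T c, pS S * j < (W * p1) ^ 3 := by
    intro j hj
    have h1 := hY j hj
    have h2 : ((pS S * j : ℕ) : ℝ) < (((W * p1) ^ 3 : ℕ) : ℝ) := by linarith
    exact_mod_cast h2
  have hmj : ∀ j ∈ AAs W T c, (mj W p1 S j : ℝ) =
      (((W * p1) ^ 3 : ℕ) : ℝ) - ((pS S * j : ℕ) : ℝ) := by
    intro j hj
    unfold mj
    rw [Nat.cast_sub (hlt j hj).le]
  refine ⟨hpp, hp2, hp3, hpb, fun s hs => (hQm s hs).2, hs6, fun s hs => (hQm s hs).1, hsT, hSc,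
    hcS, fun j hj => ⟨(hjm j hj).1, hjT j hj⟩, hcj, hlt, ?_, ?_, ?_⟩
  · intro j hj
    rw [hmj j hj]
    have h1 := hY j hj
    linarith
  · intro j hj
    rw [hmj j hj]
    have h1 : (0 : ℝ) ≤ ((pS S * j : ℕ) : ℝ) := Nat.cast_nonneg _
    have h2 : (((W * p1) ^ 3 : ℕ) : ℝ) ≤ 64 * (W : ℝ) ^ 3 * T ^ 3 := by
      push_cast
      calc ((W : ℝ) * p1) ^ 3 ≤ ((W : ℝ) * (4 * T)) ^ 3 :=
            pow_le_pow_left₀ (by positivity) (mul_le_mul_of_nonneg_left hp3 (by positivity)) 3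
        _ = 64 * (W : ℝ) ^ 3 * T ^ 3 := by ring
    linarith
  · intro j hj
    have hXY : mj W p1 S j + pS S * j = (W * p1) ^ 3 := by
      unfold mj
      exact Nat.sub_add_cancel (hlt j hj).le
    apply Nat.coprime_of_dvd
    intro l hl h1 h2
    rcases (Nat.Prime.dvd_mul hl).1 h2 with h3 | h3
    · have h4 : l ∣ (W * p1) ^ 3 := by
        rw [← hXY]
        exact dvd_add h1 (h3.mul_right _)
      exact bas_no hl hcS h3 (hl.dvd_of_dvd_pow h4)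
    · have h4 : l ∣ (W * p1) ^ 3 := dvd_pow h3 (by norm_num)
      rw [← hXY] at h4
      have h5 : l ∣ pS S * j := (Nat.dvd_add_right h1).1 h4
      rcases (Nat.Prime.dvd_mul hl).1 h5 with h6 | h6
      · exact bas_no hl hcS h6 h3
      · exact bas_no hl (hcj j hj) h6 h3

end Pool.Agent.SMP
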