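import Pool.Agent.SMP.Defs
import Pool.Agent.SML.Defs

/-!
# SMP/BrF (size 3): the interface to section C and N, the family

`p = Wz p1`, `y1 = (y 0).toNat`, `y2 = (y 1).toNat`, `y3 = (y 2).toNat` (all `y i ≥ 1`, so `((y i).toNat : ℤ) = y i`).
PROOF of `brF`.  Every field of `Pool.Agent.SML.Fam` is a field of `Fam` up to casts: `hp` from `pp, p2, p3` (`exact_mod_cast`),
`mlt`, and `m = p ^ 3 - y1 * y2 * y3` as natural numbers, from `hm` and `m1`; `su` is `f3` (`(y 0 * y 1 * y 2).natAbs = y1 * y2 * y3`,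
`z0 = 10 ^ 6`); `la` is `f4` (`mm .. = m`); coprimality by `Int.isCoprime_iff_gcd_eq_one`/`Nat.isCoprime_iff_coprime`;
`Squarefree (y 0)` to `Squarefree (y 0).toNat` by `Int.squarefree_natCast`.
PROOF of `brG`.  `k = ![k1, k2, k3] ≠ 0`; `Cv` of SML is `Cv` of SMP (`ring`), `mm .. = m`.
`Wz` may not be unfolded numerically.
-/

set_option autoImplicit false

namespace Pool.Agent.SMP

open Pool.Agent.SLB (V3 det3)

open Pool.Agent.SML (Wz)

theorem brm {T : ℕ} {c : ℝ} {p1 m : ℕ} {y : V3} (h : Fam Wz T c p1 y m) :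
    (∀ i, ((y i).toNat : ℤ) = y i) ∧
      Pool.Agent.SML.mm ((Wz * p1 : ℕ) : ℤ) (y 0) (y 1) (y 2) = (m : ℤ) := by
  refine ⟨fun i => Int.toNat_of_nonneg (le_trans (by norm_num) (h.y1 i)), ?_⟩
  unfold Pool.Agent.SML.mm
  exact h.hm.symm

private theorem cpn {a b : ℕ} {x z : ℤ} (ha : (a : ℤ) = x) (hb : (b : ℤ) = z)
    (h : IsCoprime x z) : Nat.Coprime a b := by
  rw [← ha, ← hb] at h
  exact Nat.isCoprime_iff_coprime.1 h

theorem brF {T : ℕ} {c : ℝ} {p1 m : ℕ} {y : V3} (h : Fam Wz T c p1 y m) :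
    Pool.Agent.SML.Fam T c (Wz * p1) (y 0).toNat (y 1).toNat (y 2).toNat := by
  obtain ⟨hy, hmm⟩ := brm h
  have h0 := hy 0
  have h1 := hy 1
  have h2 := hy 2
  have r : ∀ i, (((y i).toNat : ℕ) : ℝ) = ((y i : ℤ) : ℝ) := fun i => by
    rw [← Int.cast_natCast, hy i]
  have q := h.hm
  have p3 : (Wz * p1) ^ 3 = m + (y 0).toNat * (y 1).toNat * (y 2).toNat := by
    zify
    rw [h0, h1, h2]
    push_cast at q
    linarith
  have ms : (Wz * p1) ^ 3 - (y 0).toNat * (y 1).toNat * (y 2).toNat = m := by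
    rw [p3]
    exact Nat.add_sub_cancel _ _
  have na : (y 0 * y 1 * y 2).natAbs = (y 0).toNat * (y 1).toNat * (y 2).toNat := by
    have e : y 0 * y 1 * y 2 = (((y 0).toNat * (y 1).toNat * (y 2).toNat : ℕ) : ℤ) := by
      push_cast
      rw [h0, h1, h2]
    rw [e]
    exact Int.natAbs_natCast _
  refine ⟨⟨p1, h.pp, by exact_mod_cast h.p2, by exact_mod_cast h.p3, rfl⟩, ?_, ?_, ?_, ?_, ?_, ?_,
    ?_, ?_, ?_, ?_, ?_, ?_, ?_, ?_, ?_, ?_, ?_, ?_, ?_⟩
  · have := h.y1 0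
    omega
  · have := h.y1 1
    omega
  · have := h.y1 2
    omega
  · rw [r 0]
    exact h.y2 0
  · rw [r 1]
    exact h.y2 1
  · rw [r 2]
    exact h.y2 2
  · rw [r 0]
    exact h.yl0
  · rw [r 1]
    exact h.yl1
  · rw [← Int.squarefree_natCast, h0]
    exact h.sq0
  · rw [← Int.squarefree_natCast, h1]
    exact h.sq1
  · exact cpn h0 h1 (h.co 0 1 (by decide))
  · exact cpn h0 h2 (h.co 0 2 (by decide))
  · exact cpn h1 h2 (h.co 1 2 (by decide))
  · exact cpn rfl h0 (h.cp 0).symm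
  · exact cpn rfl h1 (h.cp 1).symm
  · exact cpn rfl h2 (h.cp 2).symm
  · rw [p3]
    have := h.m1
    omega
  · have hs := h.f3
    rw [na] at hs
    rw [ms]
    exact hs
  · obtain ⟨l, hl, hd⟩ := h.f4
    rw [h0, h1, h2, hmm]
    exact ⟨l, hl, hd⟩

theorem brG {T : ℕ} {c δ : ℝ} {p1 m : ℕ} {y : V3} (h : Fam Wz T c p1 y m)
    (h5 : F5 Wz T δ p1 y m) :
    Pool.Agent.SML.Good T δ (Wz * p1) (y 0).toNat (y 1).toNat (y 2).toNat := by
  obtain ⟨hy, hmm⟩ := brm h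
  have h0 := hy 0
  have h1 := hy 1
  have h2 := hy 2
  intro k1 k2 k3 hk b1 b2 b3 hd
  rw [h0, h1, h2, hmm] at hd
  refine h5 ![k1, k2, k3] ?_ ?_ ?_
  · intro he
    apply hk
    have e0 := congrFun he 0
    have e1 := congrFun he 1
    have e2 := congrFun he 2
    simp at e0 e1 e2
    exact ⟨e0, e1, e2⟩
  · intro i
    fin_cases i
    · simpa using b1
    · simpa using b2
    · simpa using b3
  · have e : Cv ((Wz * p1 : ℕ) : ℤ) y ![k1, k2, k3] =
        Pool.Agent.SML.Cv ((Wz * p1 : ℕ) : ℤ) (y 0) (y 1) (y 2) k1 k2 k3 := by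
      simp only [Cv, Pool.Agent.SML.Cv, Matrix.cons_val_zero, Matrix.cons_val_one,
        Matrix.cons_val]
      ring
    rw [e]
    exact hd

end Pool.Agent.SMP
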