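import Pool.Agent.SMP.Ind
import Pool.Agent.SLB.Det

/-!
# SMP/Cov (size 3): (P9) covering radius, points in a box

PROOF of `cov`.  `indv` gives `h1, h2, h3`.  Cramer (`Pool.Agent.SLB.cramer4`): `x = t1 h1 + t2 h2 + t3 h3` with rational `t`.
`h = round(t1) h1 + round(t2) h2 + round(t3) h3 ∈ Lam m e`, `|x i - h i| ≤ (1/2) (A0 + A0 + A0) ≤ 2 A0` (`abs_sub_round`).
PROOF of `box`.  `P` = the integer points `x` with `u i + 2 A0 ≤ x i < u i + A - 2 A0`: `(A - 4 A0) ^ 3` points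
(`Fintype.piFinset`, `Finset.Ico`).  As in `Ind`: the map `x ↦ (e 0 x 1 - e 1 x 0, e 0 x 2 - e 2 x 0)` modulo `m` has a fibre `F`
in `P` with `#P ≤ #F m ^ 2`; if `F` is empty then `A = 4 A0`, `Q = ∅`.  Let `x0 ∈ F`, `h0 ∈ Lam m e`, `|x0 i - h0 i| ≤ 2 A0` (`cov`).
`Q = F.image (fun x => x - x0 + h0)`: `x - x0 ∈ Lam m e`, and `u i ≤ x i - 2 A0 ≤ x i - x0 i + h0 i ≤ x i + 2 A0 ≤ u i + A`.
-/

set_option autoImplicit false

namespace Pool.Agent.SMP

open Pool.Agent.SLB (V3 det3)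

private theorem cov_mem {m r : ℕ} {e : V3} (hL : Lat m e r) {d : V3}
    (h1 : (m : ℤ) ∣ e 0 * d 1 - e 1 * d 0) (h2 : (m : ℤ) ∣ e 0 * d 2 - e 2 * d 0) :
    d ∈ Lam m e := by
  have h3 : (m : ℤ) ∣ d 1 * e 2 - d 2 * e 1 := by
    have h4 : (m : ℤ) ∣ e 0 * (d 1 * e 2 - d 2 * e 1) := by
      have : e 0 * (d 1 * e 2 - d 2 * e 1) =
          e 2 * (e 0 * d 1 - e 1 * d 0) - e 1 * (e 0 * d 2 - e 2 * d 0) := by ring
      rw [this]
      exact dvd_sub (h1.mul_left _) (h2.mul_left _)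
    exact (hL.co 0).symm.dvd_of_dvd_mul_left h4
  have g1 : (m : ℤ) ∣ d 0 * e 1 - d 1 * e 0 := by
    have : d 0 * e 1 - d 1 * e 0 = -(e 0 * d 1 - e 1 * d 0) := by ring
    rw [this]; exact h1.neg_right
  have g2 : (m : ℤ) ∣ d 0 * e 2 - d 2 * e 0 := by
    have : d 0 * e 2 - d 2 * e 0 = -(e 0 * d 2 - e 2 * d 0) := by ring
    rw [this]; exact h2.neg_right
  have g : ∀ a b : Fin 3, (m : ℤ) ∣ d a * e b - d b * e a → (m : ℤ) ∣ d b * e a - d a * e b := by
    intro a b h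
    have : d b * e a - d a * e b = -(d a * e b - d b * e a) := by ring
    rw [this]; exact h.neg_right
  rw [mem_Lam]
  intro a b
  fin_cases a <;> fin_cases b
  · simp
  · exact g1
  · exact g2
  · exact g _ _ g1
  · simp
  · exact h3
  · exact g _ _ g2
  · exact g _ _ h3
  · simp

private theorem cov_smul {m : ℕ} {e : V3} {h : V3} (hh : h ∈ Lam m e) (n : ℤ) :
    (fun i => n * h i) ∈ Lam m e := by
  have := (Lam m e).zsmul_mem hh n
  have e1 : (n • h : V3) = fun i => n * h i := by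
    funext i
    simp
  rwa [e1] at this

theorem cov {m r : ℕ} {e : V3} (hL : Lat m e r) (A0 : ℕ) (hA : 55 * m ≤ A0 * r) (x : V3) :
    ∃ h ∈ Lam m e, ∀ i, |x i - h i| ≤ 2 * (A0 : ℤ) := by
  obtain ⟨h1, hh1, h2, hh2, h3, hh3, hb, hd⟩ := indv hL A0 hA
  set D : ℤ := det3 h1 h2 h3 with hD
  have hDr : (D : ℝ) ≠ 0 := by exact_mod_cast hd
  set t1 : ℝ := (det3 x h2 h3 : ℤ) / (D : ℝ) with ht1
  set t2 : ℝ := (det3 h1 x h3 : ℤ) / (D : ℝ) with ht2
  set t3 : ℝ := (det3 h1 h2 x : ℤ) / (D : ℝ) with ht3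
  have hx : ∀ i, (x i : ℝ) = t1 * h1 i + t2 * h2 i + t3 * h3 i := by
    intro i
    have hc := Pool.Agent.SLB.cramer4 h1 h2 h3 x i
    rw [← hD] at hc
    have hc' : (D : ℝ) * (x i : ℝ) = (det3 x h2 h3 : ℤ) * (h1 i : ℝ) +
        (det3 h1 x h3 : ℤ) * (h2 i : ℝ) + (det3 h1 h2 x : ℤ) * (h3 i : ℝ) := by
      exact_mod_cast hc
    rw [ht1, ht2, ht3]
    field_simp
    linarith
  refine ⟨(fun i => round t1 * h1 i) + (fun i => round t2 * h2 i) + (fun i => round t3 * h3 i),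
    (Lam m e).add_mem ((Lam m e).add_mem (cov_smul hh1 _) (cov_smul hh2 _)) (cov_smul hh3 _), ?_⟩
  intro i
  simp only [Pi.add_apply]
  have key : |((x i : ℤ) : ℝ) - ((round t1 * h1 i + round t2 * h2 i + round t3 * h3 i : ℤ) : ℝ)| ≤
      2 * (A0 : ℝ) := by
    push_cast
    rw [hx i]
    have e1 : t1 * (h1 i : ℝ) + t2 * h2 i + t3 * h3 i -
        ((round t1 : ℝ) * h1 i + (round t2 : ℝ) * h2 i + (round t3 : ℝ) * h3 i) =
        (t1 - round t1) * h1 i + (t2 - round t2) * h2 i + (t3 - round t3) * h3 i := by ring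
    rw [e1]
    have b1 : |(h1 i : ℝ)| ≤ A0 := by exact_mod_cast (hb i).1
    have b2 : |(h2 i : ℝ)| ≤ A0 := by exact_mod_cast (hb i).2.1
    have b3 : |(h3 i : ℝ)| ≤ A0 := by exact_mod_cast (hb i).2.2
    have c1 : |(t1 - round t1) * (h1 i : ℝ)| ≤ 1 / 2 * A0 := by
      rw [abs_mul]
      exact mul_le_mul (abs_sub_round t1) b1 (abs_nonneg _) (by norm_num)
    have c2 : |(t2 - round t2) * (h2 i : ℝ)| ≤ 1 / 2 * A0 := by
      rw [abs_mul]
      exact mul_le_mul (abs_sub_round t2) b2 (abs_nonneg _) (by norm_num)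
    have c3 : |(t3 - round t3) * (h3 i : ℝ)| ≤ 1 / 2 * A0 := by
      rw [abs_mul]
      exact mul_le_mul (abs_sub_round t3) b3 (abs_nonneg _) (by norm_num)
    have d1 := abs_add_le ((t1 - round t1) * (h1 i : ℝ) + (t2 - round t2) * h2 i)
      ((t3 - round t3) * (h3 i : ℝ))
    have d2 := abs_add_le ((t1 - round t1) * (h1 i : ℝ)) ((t2 - round t2) * (h2 i : ℝ))
    have hA0 : (0 : ℝ) ≤ A0 := Nat.cast_nonneg _
    linarith
  exact_mod_cast key

theorem box {m r : ℕ} {e : V3} (hL : Lat m e r) (A0 : ℕ) (hA : 55 * m ≤ A0 * r) (u : V3)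
    (A : ℕ) (hAA : 4 * A0 ≤ A) :
    ∃ Q : Finset V3, (∀ h ∈ Q, h ∈ Lam m e ∧ ∀ i, u i ≤ h i ∧ h i ≤ u i + A) ∧
      (A - 4 * A0) ^ 3 ≤ Q.card * m ^ 2 := by
  classical
  have hm : 0 < m := hL.hm
  haveI : NeZero m := ⟨hm.ne'⟩
  set P : Finset V3 := Fintype.piFinset
    (fun i : Fin 3 => Finset.Ico (u i + 2 * (A0 : ℤ)) (u i + A - 2 * (A0 : ℤ))) with hP
  have hPc : P.card = (A - 4 * A0) ^ 3 := by
    rw [hP, Fintype.card_piFinset]
    simp only [Int.card_Ico, Fin.prod_univ_three]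
    have : ∀ v : ℤ, (v + (A : ℤ) - 2 * (A0 : ℤ) - (v + 2 * (A0 : ℤ))).toNat = A - 4 * A0 := by
      intro v
      omega
    rw [this, this, this]
    ring
  set φ : V3 → ZMod m × ZMod m := fun x =>
    (((e 0 * x 1 - e 1 * x 0 : ℤ) : ZMod m), ((e 0 * x 2 - e 2 * x 0 : ℤ) : ZMod m)) with hφ
  have hfib : ∃ y : ZMod m × ZMod m, P.card ≤ (P.filter (fun x => φ x = y)).card * m ^ 2 := by
    by_contra hcon
    push Not at hcon
    have h1 : P.card = ∑ y : ZMod m × ZMod m, (P.filter (fun x => φ x = y)).card :=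
      Finset.card_eq_sum_card_fiberwise (fun x _ => Finset.mem_univ _)
    have h2 : ∑ y : ZMod m × ZMod m, (P.filter (fun x => φ x = y)).card * m ^ 2 <
        ∑ _y : ZMod m × ZMod m, P.card :=
      Finset.sum_lt_sum_of_nonempty Finset.univ_nonempty (fun y _ => hcon y)
    rw [← Finset.sum_mul, ← h1, Finset.sum_const, Finset.card_univ, Fintype.card_prod, ZMod.card,
      smul_eq_mul] at h2
    have : P.card * m ^ 2 = m * m * P.card := by ring
    omega
  obtain ⟨y, hy⟩ := hfib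
  set F := P.filter (fun x => φ x = y) with hF
  rcases F.eq_empty_or_nonempty with hFe | ⟨x0, hx0⟩
  · refine ⟨∅, by simp, ?_⟩
    rw [hFe, Finset.card_empty, zero_mul] at hy
    rw [← hPc]
    simpa using hy
  · obtain ⟨h0, hh0, hb0⟩ := cov hL A0 hA x0
    refine ⟨F.image (fun x => x - x0 + h0), ?_, ?_⟩
    · intro h hh
      obtain ⟨x, hx, rfl⟩ := Finset.mem_image.1 hh
      have hxF := Finset.mem_filter.1 hx
      have hx0F := Finset.mem_filter.1 hx0
      have hφe : φ x = φ x0 := hxF.2.trans hx0F.2.symm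
      have e1 := congrArg Prod.fst hφe
      have e2 := congrArg Prod.snd hφe
      simp only [hφ] at e1 e2
      constructor
      · refine (Lam m e).add_mem (cov_mem hL ?_ ?_) hh0
        · have := (ZMod.intCast_eq_intCast_iff_dvd_sub _ _ _).1 e1.symm
          have e3 : e 0 * (x - x0) 1 - e 1 * (x - x0) 0 =
              e 0 * x 1 - e 1 * x 0 - (e 0 * x0 1 - e 1 * x0 0) := by
            simp only [Pi.sub_apply]; ring
          rw [e3]; exact this
        · have := (ZMod.intCast_eq_intCast_iff_dvd_sub _ _ _).1 e2.symm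
          have e3 : e 0 * (x - x0) 2 - e 2 * (x - x0) 0 =
              e 0 * x 2 - e 2 * x 0 - (e 0 * x0 2 - e 2 * x0 0) := by
            simp only [Pi.sub_apply]; ring
          rw [e3]; exact this
      · intro i
        have hxi := Finset.mem_Ico.1 (Fintype.mem_piFinset.1 hxF.1 i)
        have hbi := abs_le.1 (hb0 i)
        simp only [Pi.add_apply, Pi.sub_apply]
        omega
    · rw [Finset.card_image_of_injective, ← hPc]
      · exact hy
      · intro a b hab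
        have : a - x0 + h0 = b - x0 + h0 := hab
        exact sub_left_injective (add_left_injective h0 this)

end Pool.Agent.SMP
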