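import Pool.Agent.SMQ.Cub

/-!
# SMP/Cub (size 3): (A1) cube roots of unity modulo `n`

PROOF of `cub`.  Strong induction on `n` by `Nat.recOnPosPrimePosCoprime` (or `Nat.recOnPrimeCoprime`):
`n = 1`: one element.  `n = l ^ f` (`f ≥ 1`): `Pool.Agent.SMQ.cub` with `a = 1` bounds the number of
`x : ZMod (l ^ f)` with `IsUnit x ∧ x ^ 3 = 1` by 3, and `u ↦ (u : ZMod (l ^ f))` is injective.
`n = a b` with coprime `a, b > 1`: `ZMod.chineseRemainder` gives `ZMod (a b) ≃+* ZMod a × ZMod b`, so an
injection of `{u // u ^ 3 = 1}` into the product of the two sets (`Units.mapEquiv`, `MulEquiv.prodUnits`, or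
apply the two projections `ZMod.unitsMap` and use that they are jointly injective), and
`primeFactors (a b)` is the disjoint union (`Nat.Coprime.card_primeFactors_mul`-like:
`Nat.Coprime.primeFactors_mul`, `Nat.Coprime.disjoint_primeFactors`), so the exponents add.
`ZMod n` is finite for `n ≥ 1` (`NeZero n`).
-/

set_option autoImplicit false

namespace Pool.Agent.SMP

private theorem cub_pp (l f : ℕ) (hl : l.Prime) (hf : 1 ≤ f) :
    Nat.card {u : (ZMod (l ^ f))ˣ // u ^ 3 = 1} ≤ 3 := by
  classical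
  have : NeZero (l ^ f) := ⟨pow_ne_zero f hl.ne_zero⟩
  have h := Pool.Agent.SMQ.cub l f hl hf 1
  refine le_trans ?_ h
  rw [Nat.card_eq_fintype_card, Fintype.card_subtype]
  refine Finset.card_le_card_of_injOn (fun u : (ZMod (l ^ f))ˣ => (u : ZMod (l ^ f))) ?_ ?_
  · intro u hu
    rw [Finset.mem_coe, Finset.mem_filter] at hu
    rw [Finset.mem_coe, Finset.mem_filter]
    refine ⟨Finset.mem_univ _, u.isUnit, ?_⟩
    have := congrArg (fun v : (ZMod (l ^ f))ˣ => (v : ZMod (l ^ f))) hu.2
    simpa using this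
  · intro u _ v _ huv
    exact Units.ext huv

private theorem cub_mul (a b : ℕ) (ha : 1 < a) (hb : 1 < b) (hab : Nat.Coprime a b)
    (iha : Nat.card {u : (ZMod a)ˣ // u ^ 3 = 1} ≤ 3 ^ a.primeFactors.card)
    (ihb : Nat.card {u : (ZMod b)ˣ // u ^ 3 = 1} ≤ 3 ^ b.primeFactors.card) :
    Nat.card {u : (ZMod (a * b))ˣ // u ^ 3 = 1} ≤ 3 ^ (a * b).primeFactors.card := by
  classical
  have : NeZero a := ⟨by omega⟩
  have : NeZero b := ⟨by omega⟩
  have : NeZero (a * b) := ⟨Nat.mul_ne_zero (by omega) (by omega)⟩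
  let e : (ZMod (a * b))ˣ ≃* (ZMod a)ˣ × (ZMod b)ˣ :=
    (Units.mapEquiv (ZMod.chineseRemainder hab).toMulEquiv).trans MulEquiv.prodUnits
  have h1 : Nat.card {u : (ZMod (a * b))ˣ // u ^ 3 = 1} ≤
      Nat.card ({u : (ZMod a)ˣ // u ^ 3 = 1} × {u : (ZMod b)ˣ // u ^ 3 = 1}) := by
    refine Nat.card_le_card_of_injective
      (fun u => (⟨(e u.1).1, ?_⟩, ⟨(e u.1).2, ?_⟩)) ?_
    · have h := congrArg e u.2
      rw [map_pow, map_one] at h
      exact congrArg Prod.fst h
    · have h := congrArg e u.2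
      rw [map_pow, map_one] at h
      exact congrArg Prod.snd h
    · intro u v huv
      have h2 := congrArg Prod.fst huv
      have h3 := congrArg Prod.snd huv
      have h4 := congrArg Subtype.val h2
      have h5 := congrArg Subtype.val h3
      apply Subtype.ext
      apply e.injective
      exact Prod.ext h4 h5
  rw [Nat.card_prod] at h1
  rw [hab.primeFactors_mul, Finset.card_union_of_disjoint hab.disjoint_primeFactors, pow_add]
  exact h1.trans (Nat.mul_le_mul iha ihb)

theorem cub (n : ℕ) (hn : 1 ≤ n) :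
    Nat.card {u : (ZMod n)ˣ // u ^ 3 = 1} ≤ 3 ^ n.primeFactors.card := by
  revert hn
  refine Nat.recOnPosPrimePosCoprime (motive := fun n => 1 ≤ n →
    Nat.card {u : (ZMod n)ˣ // u ^ 3 = 1} ≤ 3 ^ n.primeFactors.card) ?_ ?_ ?_ ?_ n
  · intro l f hl hf _
    rw [Nat.primeFactors_prime_pow (by omega) hl, Finset.card_singleton, pow_one]
    exact cub_pp l f hl hf
  · intro h
    omega
  · intro _
    have : Subsingleton {u : (ZMod 1)ˣ // u ^ 3 = 1} := inferInstance
    rw [Nat.primeFactors_one, Finset.card_empty, pow_zero]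
    exact Finite.card_le_one_iff_subsingleton.2 inferInstance
  · intro a b ha hb hab iha ihb _
    exact cub_mul a b ha hb hab (iha (by omega)) (ihb (by omega))

end Pool.Agent.SMP
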