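import Pool.Agent.SLB.Defs

/-!
# SMP: definitions (lower bound of the `(ℤ/3)²`-moment, MP_0f260b_nt)

Paper proof: /team-store/notes_MP_0f260b_nt_SML.md (helper23), sections A (family), P (points),
C (algebra), N (ideals and the final count); section BAD is the squad SLB.

Vectors are `V3 = Fin 3 → ℤ`, `p = W p1`, `m = p³ - y₀ y₁ y₂`,
`N_i = (p g_i² - y_i g_{i+1} g_{i+2}) / m` (indices modulo 3).
-/

set_option autoImplicit false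

namespace Pool.Agent.SMP

open Pool.Agent.SLB (V3 det3)

/-- `W` is the product of the primes `≤ 10 ^ 6` -/
structure WP (W : ℕ) : Prop where
  one : 1 ≤ W
  dv : ∀ l : ℕ, l.Prime → (l ∣ W ↔ l ≤ 10 ^ 6)
  sq : Squarefree W

/-- the scalar product -/
def dt (a b : V3) : ℤ := a 0 * b 0 + a 1 * b 1 + a 2 * b 2

/-- the cross product -/
def cr (a b : V3) : V3 :=
  ![a 1 * b 2 - a 2 * b 1, a 2 * b 0 - a 0 * b 2, a 0 * b 1 - a 1 * b 0]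

/-- primitive vectors -/
def Prim (k : V3) : Prop := ∃ a : V3, dt a k = 1

/-- the lattice of the vectors parallel to `e` modulo `m` -/
def Lam (m : ℕ) (e : V3) : AddSubgroup V3 where
  carrier := {h | ∀ a b : Fin 3, (m : ℤ) ∣ h a * e b - h b * e a}
  zero_mem' := by
    intro a b
    simp
  add_mem' := by
    intro x y hx hy a b
    have h := dvd_add (hx a b) (hy a b)
    have e1 : (x + y) a * e b - (x + y) b * e a =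
        x a * e b - x b * e a + (y a * e b - y b * e a) := by
      simp only [Pi.add_apply]
      ring
    rw [e1]
    exact h
  neg_mem' := by
    intro x hx a b
    have h := (dvd_neg (a := (m : ℤ))).2 (hx a b)
    have e1 : (-x) a * e b - (-x) b * e a = -(x a * e b - x b * e a) := by
      simp only [Pi.neg_apply]
      ring
    rw [e1]
    exact h

theorem mem_Lam (m : ℕ) (e h : V3) :
    h ∈ Lam m e ↔ ∀ a b : Fin 3, (m : ℤ) ∣ h a * e b - h b * e a := Iff.rfl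

/-- the dual lattice: the vectors orthogonal to `e` modulo `m` -/
def Mm (m : ℕ) (e : V3) : AddSubgroup V3 where
  carrier := {k | (m : ℤ) ∣ dt k e}
  zero_mem' := by
    show (m : ℤ) ∣ dt 0 e
    simp [dt]
  add_mem' := by
    intro x y hx hy
    have h : (m : ℤ) ∣ dt x e + dt y e := dvd_add hx hy
    have e1 : dt (x + y) e = dt x e + dt y e := by
      simp only [dt, Pi.add_apply]
      ring
    show (m : ℤ) ∣ dt (x + y) e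
    rw [e1]
    exact h
  neg_mem' := by
    intro x hx
    have h : (m : ℤ) ∣ -dt x e := (dvd_neg (a := (m : ℤ))).2 hx
    have e1 : dt (-x) e = -dt x e := by
      simp only [dt, Pi.neg_apply]
      ring
    show (m : ℤ) ∣ dt (-x) e
    rw [e1]
    exact h

theorem mem_Mm (m : ℕ) (e k : V3) : k ∈ Mm m e ↔ (m : ℤ) ∣ dt k e := Iff.rfl

/-- the vectors whose coordinates with index in `s` are divisible by `l` -/
def Dv (l : ℕ) (s : Finset (Fin 3)) : AddSubgroup V3 where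
  carrier := {h | ∀ i ∈ s, (l : ℤ) ∣ h i}
  zero_mem' := by
    intro i _
    simp
  add_mem' := by
    intro x y hx hy i hi
    exact dvd_add (hx i hi) (hy i hi)
  neg_mem' := by
    intro x hx i hi
    exact (dvd_neg (a := (l : ℤ))).2 (hx i hi)

theorem mem_Dv (l : ℕ) (s : Finset (Fin 3)) (h : V3) : h ∈ Dv l s ↔ ∀ i ∈ s, (l : ℤ) ∣ h i :=
  Iff.rfl

/-- the lattice `Lam m e` has no short dual vector -/
structure Lat (m : ℕ) (e : V3) (r : ℕ) : Prop where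
  hm : 1 ≤ m
  co : ∀ i, IsCoprime (e i) (m : ℤ)
  hr : 1 ≤ r
  r3 : r ^ 3 ≤ m
  hyp : ∀ k ∈ Mm m e, (∀ i, |k i| ≤ (r : ℤ)) → k = 0

/-- all `3 × 3` determinants of `U` are divisible by `m0`, nonzero vectors have length at least `s` -/
structure Ok (U : AddSubgroup V3) (m0 : ℕ) (s : ℝ) : Prop where
  hm : 1 ≤ m0
  hs : 0 < s
  det : ∀ a ∈ U, ∀ b ∈ U, ∀ c ∈ U, (m0 : ℤ) ∣ det3 a b c
  sh : ∀ h ∈ U, h ≠ 0 → ∃ i, s ≤ |(h i : ℝ)|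

/-- `y₀ k₀³ + y₁ k₁³ + y₂ k₂³ - 3 p k₀ k₁ k₂` -/
def Cv (p : ℤ) (y k : V3) : ℤ :=
  y 0 * k 0 ^ 3 + y 1 * k 1 ^ 3 + y 2 * k 2 ^ 3 - 3 * p * (k 0 * k 1 * k 2)

/-- `N_i = (p g_i² - y_i g_{i+1} g_{i+2}) / m` -/
def Nn (p : ℤ) (m : ℕ) (y g : V3) (i : Fin 3) : ℤ :=
  (p * g i ^ 2 - y i * (g (i + 1) * g (i + 2))) / (m : ℤ)

/-- `E_k = y_{k+1} y_{k+2} (Cv(κ) / m) + κ_k³` -/
def Ek (p : ℤ) (m : ℕ) (y κ : V3) (k : Fin 3) : ℤ :=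
  y (k + 1) * y (k + 2) * (Cv p y κ / (m : ℤ)) + κ k ^ 3

/-- the sum of `1 / l` over the prime divisors `l > 10 ^ 6` of `n` -/
noncomputable def sl (n : ℕ) : ℝ :=
  ∑ l ∈ n.primeFactors.filter (fun l => 10 ^ 6 < l), (1 : ℝ) / l

/-- the family: conditions on `(p1, y)`, `p = W p1`, `m = p³ - y₀ y₁ y₂` -/
structure Fam (W : ℕ) (T c : ℝ) (p1 : ℕ) (y : V3) (m : ℕ) : Prop where
  pp : p1.Prime
  p2 : T < p1
  p3 : (p1 : ℝ) ≤ 4 * T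
  y1 : ∀ i, 1 ≤ y i
  y2 : ∀ i, (y i : ℝ) ≤ T ^ (1 - c)
  yl0 : T ^ (1 - 3 * c) ≤ (y 0 : ℝ)
  yl1 : T ^ (1 - 3 * c) ≤ (y 1 : ℝ)
  sq0 : Squarefree (y 0)
  sq1 : Squarefree (y 1)
  co : ∀ i j, i ≠ j → IsCoprime (y i) (y j)
  cp : ∀ i, IsCoprime (y i) ((W * p1 : ℕ) : ℤ)
  hm : (m : ℤ) = ((W * p1 : ℕ) : ℤ) ^ 3 - y 0 * y 1 * y 2
  m1 : 1 ≤ m
  f3 : sl (m * (y 0 * y 1 * y 2).natAbs) ≤ 1 / 10 ^ 4
  f4 : ∃ lam : ℤ, IsCoprime lam (m : ℤ) ∧ (m : ℤ) ∣ lam ^ 3 * y 0 - y 1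

/-- `m` does not divide `Cv(k)` for small `k ≠ 0` -/
def F5 (W : ℕ) (T δ : ℝ) (p1 : ℕ) (y : V3) (m : ℕ) : Prop :=
  ∀ k : V3, k ≠ 0 → (∀ i, |(k i : ℝ)| ≤ T ^ (1 - δ)) → ¬ (m : ℤ) ∣ Cv ((W * p1 : ℕ) : ℤ) y k

/-- the setting of the points: `e` is the solution of the congruences
`p e_i² ≡ y_i e_{i+1} e_{i+2}` modulo `m` -/
structure Ps (W p1 m r : ℕ) (y e : V3) : Prop where
  hW : WP W
  pp : p1.Prime
  pb : 10 ^ 6 < p1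
  y1 : ∀ i, 1 ≤ y i
  sq0 : Squarefree (y 0)
  sq1 : Squarefree (y 1)
  y0 : 2 ≤ y 0
  y1' : 2 ≤ y 1
  co : ∀ i j, i ≠ j → IsCoprime (y i) (y j)
  cp : ∀ i, IsCoprime (y i) ((W * p1 : ℕ) : ℤ)
  hm : (m : ℤ) = ((W * p1 : ℕ) : ℤ) ^ 3 - y 0 * y 1 * y 2
  lat : Lat m e r
  ee : ∀ i : Fin 3, (m : ℤ) ∣ ((W * p1 : ℕ) : ℤ) * e i ^ 2 - y i * (e (i + 1) * e (i + 2))
  cv : ∀ k ∈ Mm m e, (m : ℤ) ∣ Cv ((W * p1 : ℕ) : ℤ) y k

/-- the points of `Lam m e` in the box `[G, 2 G]³` which are congruent to `g0` modulo `W` -/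
noncomputable def Z0 (W m : ℕ) (e g0 : V3) (G : ℕ) : Finset V3 := by
  classical
  exact Finset.filter (fun g : V3 => g ∈ Lam m e ∧ ∀ i, (W : ℤ) ∣ g i - g0 i)
    (Fintype.piFinset (fun _ : Fin 3 => Finset.Icc (G : ℤ) (2 * G)))

theorem mem_Z0 (W m : ℕ) (e g0 : V3) (G : ℕ) (g : V3) : g ∈ Z0 W m e g0 G ↔
    (∀ i, (G : ℤ) ≤ g i ∧ g i ≤ 2 * G) ∧ g ∈ Lam m e ∧ ∀ i, (W : ℤ) ∣ g i - g0 i := by
  classical
  unfold Z0
  simp only [Finset.mem_filter, Fintype.mem_piFinset, Finset.mem_Icc]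

/-- the congruences modulo the small primes -/
structure Rg (y g : V3) : Prop where
  one : ∀ l : ℕ, l.Prime → l ≤ 10 ^ 6 → l ≠ 3 → ∀ i, (l : ℤ) ∣ g i - 1
  t0 : (3 : ℤ) ∣ g 0 - 1
  t1 : (3 : ℤ) ∣ g 1 - y 1
  t2 : (3 : ℤ) ∣ g 2 + y 2

/-- the properties of the point `g` -/
structure Pg (W p1 m : ℕ) (y g : V3) : Prop where
  d : ∀ i : Fin 3, (m : ℤ) ∣ ((W * p1 : ℕ) : ℤ) * g i ^ 2 - y i * (g (i + 1) * g (i + 2))
  c0 : IsCoprime (g 0) (m : ℤ)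
  cg : ∀ i, IsCoprime (g i) (((W * p1 : ℕ) : ℤ) * y i)
  cN : ∀ i, IsCoprime (Nn ((W * p1 : ℕ) : ℤ) m y g i) (y i)
  cc : ∀ i j, i ≠ j → IsCoprime (Nn ((W * p1 : ℕ) : ℤ) m y g i) (Nn ((W * p1 : ℕ) : ℤ) m y g j)
  cW : ∀ i, IsCoprime (Nn ((W * p1 : ℕ) : ℤ) m y g i) (W : ℤ)

/-! the parameters of the family -/

/-- `Q = ⌊exp (√(log T))⌋` -/
noncomputable def Qp (T : ℝ) : ℕ := ⌊Real.exp (√(Real.log T))⌋₊

/-- the number of prime factors -/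
noncomputable def kp (T c : ℝ) : ℕ := ⌊(2 - 4 * c) * Real.log T / Real.log (4 * Qp T)⌋₊

/-- `J = ⌊T ^ (1 - 2 c)⌋` -/
noncomputable def Jp (T c : ℝ) : ℕ := ⌊T ^ (1 - 2 * c)⌋₊

/-- `R = ⌊c k / 100⌋` -/
noncomputable def Rp (T c : ℝ) : ℕ := ⌊c * kp T c / 100⌋₊

/-- the primes `p1` -/
noncomputable def PPs (T : ℝ) : Finset ℕ := (Finset.Ioc ⌊T⌋₊ (4 * ⌊T⌋₊)).filter Nat.Prime

/-- the primes in `(Q, 4 Q]` -/
noncomputable def QQs (T : ℝ) : Finset ℕ := (Finset.Ioc (Qp T) (4 * Qp T)).filter Nat.Prime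

/-- the sets of `kp T c` primes -/
noncomputable def SSs (T c : ℝ) : Finset (Finset ℕ) := (QQs T).powersetCard (kp T c)

/-- the integers `j ∈ (J / 2, J]`, `j ≡ 1` modulo `W` -/
noncomputable def AAs (W : ℕ) (T c : ℝ) : Finset ℕ :=
  (Finset.Icc 1 (Jp T c)).filter (fun j => Jp T c < 2 * j ∧ j % W = 1)

/-- the product of the elements of `S` -/
def pS (S : Finset ℕ) : ℕ := ∏ s ∈ S, s

/-- `m = p³ - m' j` -/
def mj (W p1 : ℕ) (S : Finset ℕ) (j : ℕ) : ℕ := (W * p1) ^ 3 - pS S * j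

/-- the basic properties of `p1` and `S` -/
structure Bs (W : ℕ) (T c : ℝ) (p1 : ℕ) (S : Finset ℕ) : Prop where
  pp : p1.Prime
  p2 : T < p1
  p3 : (p1 : ℝ) ≤ 4 * T
  pb : 10 ^ 6 < p1
  sp : ∀ s ∈ S, s.Prime
  s6 : ∀ s ∈ S, 10 ^ 6 < s
  sQ : ∀ s ∈ S, Qp T < s ∧ s ≤ 4 * Qp T
  sT : ∀ s ∈ S, (s : ℝ) < T
  sc : S.card = kp T c
  cS : Nat.Coprime (pS S) (W * p1)
  jT : ∀ j ∈ AAs W T c, 1 ≤ j ∧ (j : ℝ) < T
  cj : ∀ j ∈ AAs W T c, Nat.Coprime j (W * p1)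
  lt : ∀ j ∈ AAs W T c, pS S * j < (W * p1) ^ 3
  m1 : ∀ j ∈ AAs W T c, T ^ 3 ≤ (mj W p1 S j : ℝ)
  m2 : ∀ j ∈ AAs W T c, (mj W p1 S j : ℝ) ≤ 64 * (W : ℝ) ^ 3 * T ^ 3
  cm : ∀ j ∈ AAs W T c, Nat.Coprime (mj W p1 S j) (pS S * (W * p1))

/-- the good `j` -/
structure Jg (W : ℕ) (T c : ℝ) (p1 : ℕ) (S : Finset ℕ) (j : ℕ) : Prop where
  co : Nat.Coprime j (pS S)
  om : (mj W p1 S j).primeFactors.card ≤ Rp T c
  sl : sl (mj W p1 S j * j) ≤ 5 / 10 ^ 5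

/-- the numerical properties of the parameters -/
structure Pa (T c : ℝ) : Prop where
  T1 : 10 ^ 7 ≤ T
  a1 : 4 * (Qp T : ℝ) < T
  a2 : 10 ^ 6 < Qp T
  a3 : 10 ^ 5 * kp T c ≤ Qp T
  hb : (4 * (Qp T : ℝ)) ^ kp T c ≤ T ^ (2 - 4 * c)
  hc : ∀ a : ℕ, 2 * a ≤ kp T c → (4 * (Qp T : ℝ)) ^ a ≤ T ^ (1 - 2 * c)
  hd : ∀ a : ℕ, kp T c < 2 * a + (4 * Rp T c + 10) → T ^ (1 - 3 * c) ≤ (Qp T : ℝ) ^ a
  he : (Jp T c : ℝ) * (4 * (Qp T : ℝ)) ^ (4 * Rp T c + 10) ≤ T ^ (1 - c)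

end Pool.Agent.SMP
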