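import Pool.Agent.SMP.Defs
import Pool.Agent.SLB.NsC
import Pool.Agent.SLB.Pl

/-!
# SMP/Nsl (size 3): (P4) the number of points of a subgroup in a small box

PROOF.  If `Q` is empty: clear (the right side is `≥ 0`).  `q0 ∈ Q`, `Q0 = Q.image (· - q0)`, same cardinality,
`Q0 ⊆ U`, coordinates at most `A` in absolute value, `|det3| ≤ 6 A ^ 3` on `Q0`.
Case 1: some `det3 ≠ 0` on `Q0`: `Pool.Agent.SLB.ns` with `M = U`, `R = 6 A ^ 3`: `#Q ≤ 162 A ^ 3 / m0`.
Case 2: all `det3 = 0`.  Let `n = ⌊4 A / s⌋₊ + 1`.  If `#Q > n ^ 2` then `Pool.Agent.SLB.pl` gives `q ≠ q'` in `Q0` with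
`|q i - q' i| ≤ (2 / n) A + (2 / n) A = 4 A / n < s` for all `i`, but `q - q' ∈ U` is not 0, against `Ok.sh`.  So
`#Q ≤ n ^ 2 ≤ (4 A / s + 1) ^ 2`.
-/

set_option autoImplicit false

namespace Pool.Agent.SMP

open Pool.Agent.SLB (V3 det3)

theorem nsl (U : AddSubgroup V3) (m0 : ℕ) (s : ℝ) (hU : Ok U m0 s) (A : ℝ) (hA : 0 ≤ A)
    (Q : Finset V3) (hQ : ∀ q ∈ Q, ∀ q' ∈ Q, q - q' ∈ U ∧ ∀ i, |((q i - q' i : ℤ) : ℝ)| ≤ A) :
    (Q.card : ℝ) ≤ 162 * A ^ 3 / m0 + (4 * A / s + 1) ^ 2 := by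
  classical
  have hm0 : (0:ℝ) < m0 := by exact_mod_cast hU.hm
  have hs := hU.hs
  have hr1 : 0 ≤ 162 * A ^ 3 / (m0:ℝ) := by positivity
  have hr2 : 0 ≤ (4 * A / s + 1) ^ 2 := by positivity
  rcases Q.eq_empty_or_nonempty with hE | ⟨q0, hq0⟩
  · subst hE
    simp only [Finset.card_empty, Nat.cast_zero]
    linarith
  set Q0 : Finset V3 := Q.image (fun q => q - q0) with hQ0
  have hcard : Q0.card = Q.card :=
    Finset.card_image_of_injective _ (fun a b h => sub_left_injective h)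
  have hmem : ∀ a ∈ Q0, a ∈ U := by
    intro a ha
    rw [hQ0, Finset.mem_image] at ha
    obtain ⟨q, hq, rfl⟩ := ha
    exact (hQ q hq q0 hq0).1
  have habs : ∀ a ∈ Q0, ∀ i, |(a i : ℝ)| ≤ A := by
    intro a ha i
    rw [hQ0, Finset.mem_image] at ha
    obtain ⟨q, hq, rfl⟩ := ha
    have := (hQ q hq q0 hq0).2 i
    simpa [Pi.sub_apply] using this
  by_cases hne : ∃ a ∈ Q0, ∃ b ∈ Q0, ∃ c ∈ Q0, det3 a b c ≠ 0
  · have hdet : ∀ a ∈ Q0, ∀ b ∈ Q0, ∀ c ∈ Q0, |((det3 a b c : ℤ) : ℝ)| ≤ 6 * A ^ 3 := by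
      intro a ha b hb c hc
      have h3 : ∀ x y z : ℝ, |x| ≤ A → |y| ≤ A → |z| ≤ A → |x * y * z| ≤ A ^ 3 := by
        intro x y z hx hy hz
        rw [abs_mul, abs_mul]
        calc |x| * |y| * |z| ≤ A * A * A :=
              mul_le_mul (mul_le_mul hx hy (abs_nonneg _) hA) hz (abs_nonneg _) (mul_nonneg hA hA)
          _ = A ^ 3 := by ring
      have t1 := abs_le.1 (h3 _ _ _ (habs a ha 0) (habs b hb 1) (habs c hc 2))
      have t2 := abs_le.1 (h3 _ _ _ (habs a ha 0) (habs b hb 2) (habs c hc 1))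
      have t3 := abs_le.1 (h3 _ _ _ (habs a ha 1) (habs b hb 0) (habs c hc 2))
      have t4 := abs_le.1 (h3 _ _ _ (habs a ha 1) (habs b hb 2) (habs c hc 0))
      have t5 := abs_le.1 (h3 _ _ _ (habs a ha 2) (habs b hb 0) (habs c hc 1))
      have t6 := abs_le.1 (h3 _ _ _ (habs a ha 2) (habs b hb 1) (habs c hc 0))
      unfold det3
      push_cast
      rw [abs_le]
      constructor <;> nlinarith [t1.1, t1.2, t2.1, t2.2, t3.1, t3.2, t4.1, t4.2, t5.1, t5.2, t6.1, t6.2]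
    have h := Pool.Agent.SLB.ns U m0 hU.hm hU.det Q0 hmem (6 * A ^ 3) hdet hne
    rw [hcard] at h
    have e : 27 * (6 * A ^ 3) / (m0:ℝ) = 162 * A ^ 3 / m0 := by ring
    rw [e] at h
    linarith
  · push Not at hne
    set n : ℕ := ⌊4 * A / s⌋₊ + 1 with hn
    have hn1 : 1 ≤ n := by omega
    have hnpos : (0:ℝ) < n := by exact_mod_cast hn1
    have hAs : 0 ≤ 4 * A / s := by positivity
    have hlt : 4 * A / s < n := by
      rw [hn]; push_cast
      exact Nat.lt_floor_add_one _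
    have hle : (n:ℝ) ≤ 4 * A / s + 1 := by
      rw [hn]; push_cast
      have := Nat.floor_le hAs
      linarith
    have hc : Q0.card ≤ n ^ 2 := by
      by_contra hcon
      push Not at hcon
      obtain ⟨q, hq, q', hq', hqq, v1, hv1, v2, hv2, x, y, hx, hy, hxy⟩ :=
        Pool.Agent.SLB.pl Q0 hne n hn1 hcon
      have hsub : q - q' ∈ U := U.sub_mem (hmem q hq) (hmem q' hq')
      obtain ⟨i, hi⟩ := hU.sh (q - q') hsub (sub_ne_zero.2 hqq)
      have h1 : |x * (v1 i : ℝ) + y * (v2 i : ℝ)| ≤ 2 / n * A + 2 / n * A := by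
        refine (abs_add_le _ _).trans ?_
        rw [abs_mul, abs_mul]
        have hn2 : (0:ℝ) ≤ 2 / n := by positivity
        exact add_le_add (mul_le_mul hx (habs v1 hv1 i) (abs_nonneg _) hn2)
          (mul_le_mul hy (habs v2 hv2 i) (abs_nonneg _) hn2)
      have h2 : ((( q - q') i : ℤ) : ℝ) = (q i : ℝ) - (q' i : ℝ) := by
        simp [Pi.sub_apply]
      rw [h2, hxy i] at hi
      have h3 : 2 / (n:ℝ) * A + 2 / n * A < s := by
        have e : 2 / (n:ℝ) * A + 2 / n * A = (4 * A) / n := by ring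
        rw [e, div_lt_iff₀ hnpos]
        rw [div_lt_iff₀ hs] at hlt
        linarith
      linarith
    have hc2 : (Q.card : ℝ) ≤ (n:ℝ) ^ 2 := by
      rw [← hcard]
      exact_mod_cast hc
    have h4 : (n:ℝ) ^ 2 ≤ (4 * A / s + 1) ^ 2 := pow_le_pow_left₀ hnpos.le hle 2
    linarith

end Pool.Agent.SMP
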