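import Pool.Agent.SMP.SbG
import Pool.Agent.SMP.Nsl
import Pool.Agent.SMP.Rts

/-!
# SMP/Evs (size 3): (P14) the number of points of `Z0` in one event

PROOF.  Two elements `g, g'` of `Z0` differ by an element of `Lam m e ⊓ Dv W univ`, `|g i - g' i| ≤ G`.
`nsl` with `A = G`, `s = W r ^ 2 / 3` and the subgroup `sg1` (`ev1`), `sg2` (`ev2`), `sg3` (`ev3`, for each of the three classes
`e'` of `rts`: the elements of `Q` in `Lam (l m) e'`), `sg4` (`ev4`).  `4 G / (W r ^ 2 / 3) = 12 G / (W r ^ 2)`.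
`hlW`: `l > 10 ^ 6` does not divide `W` (`WP.dv`).  In `ev4`: `l ∤ m` since `g 0` is prime to `m` (if `Q` is nonempty).
-/

set_option autoImplicit false

namespace Pool.Agent.SMP

open Pool.Agent.SLB (V3 det3)

private theorem evcore {W m : ℕ} {e : V3} (g0 : V3) (G : ℕ) (U : AddSubgroup V3) (m0 : ℕ) (s : ℝ)
    (hU : Ok (U ⊓ Dv W Finset.univ) m0 s) (Q : Finset V3)
    (hQ : ∀ g ∈ Q, g ∈ Z0 W m e g0 G ∧ g ∈ U) :
    (Q.card : ℝ) ≤ 162 * (G : ℝ) ^ 3 / m0 + (4 * (G : ℝ) / s + 1) ^ 2 := by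
  refine nsl _ m0 s hU (G : ℝ) (Nat.cast_nonneg G) Q ?_
  intro q hq q' hq'
  obtain ⟨h1, h2⟩ := hQ q hq
  obtain ⟨h1', h2'⟩ := hQ q' hq'
  rw [mem_Z0] at h1 h1'
  refine ⟨⟨U.sub_mem h2 h2', ?_⟩, ?_⟩
  · intro i _
    have h3 := dvd_sub (h1.2.2 i) (h1'.2.2 i)
    have e1 : (q - q') i = q i - g0 i - (q' i - g0 i) := by
      simp only [Pi.sub_apply]
      ring
    rw [e1]
    exact h3
  · intro i
    have a1 := (h1.1 i).1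
    have a2 := (h1.1 i).2
    have b1 := (h1'.1 i).1
    have b2 := (h1'.1 i).2
    have h4 : |q i - q' i| ≤ (G : ℤ) := by
      rw [abs_le]
      constructor <;> linarith
    have h5 : ((|q i - q' i| : ℤ) : ℝ) ≤ ((G : ℤ) : ℝ) := by exact_mod_cast h4
    rw [Int.cast_abs] at h5
    simpa using h5

private theorem evW {W p1 m r : ℕ} {y e : V3} (h : Ps W p1 m r y e) {l : ℕ} (hl : l.Prime)
    (hl6 : 10 ^ 6 < l) : 1 ≤ W ∧ Nat.Coprime W m ∧ ¬ l ∣ W := by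
  refine ⟨h.hW.one, (psW h).1, ?_⟩
  intro hd
  have := (h.hW.dv l hl).1 hd
  omega

private theorem evs1 {G W m r l : ℝ} (hW : W ≠ 0) (hr : r ≠ 0) :
    162 * G ^ 3 / (W ^ 3 * (l * m ^ 2)) + (4 * G / (W * (r ^ 2 / 3)) + 1) ^ 2 =
      162 * G ^ 3 / (W ^ 3 * m ^ 2) * (1 / l) + (12 * G / (W * r ^ 2) + 1) ^ 2 := by
  have h1 : 162 * G ^ 3 / (W ^ 3 * (l * m ^ 2)) = 162 * G ^ 3 / (W ^ 3 * m ^ 2) * (1 / l) := by
    rw [div_mul_div_comm]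
    congr 1
    · ring
    · ring
  have h2 : 4 * G / (W * (r ^ 2 / 3)) = 12 * G / (W * r ^ 2) := by
    field_simp
    ring
  rw [h1, h2]

theorem ev1 {W p1 m r : ℕ} {y e : V3} (h : Ps W p1 m r y e) (g0 : V3) (G l : ℕ) (hl : l.Prime)
    (hl6 : 10 ^ 6 < l) (i : Fin 3) (Q : Finset V3)
    (hQ : ∀ g ∈ Q, g ∈ Z0 W m e g0 G ∧ (l : ℤ) ∣ g i) :
    (Q.card : ℝ) ≤ 162 * (G : ℝ) ^ 3 / ((W : ℝ) ^ 3 * (m : ℝ) ^ 2) * (1 / l) +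
      (12 * (G : ℝ) / (W * (r : ℝ) ^ 2) + 1) ^ 2 := by
  obtain ⟨hW1, hWm, hlW⟩ := evW h hl hl6
  have hW0 : (W : ℝ) ≠ 0 := by positivity
  have hr0 : (r : ℝ) ≠ 0 := by
    have := h.lat.hr
    positivity
  have hc := evcore (W := W) (m := m) (e := e) g0 G (Lam m e ⊓ Dv l {i}) _ _
    (sg1 h.lat hW1 hWm hl hlW i) Q (fun g hg => by
      obtain ⟨h1, h2⟩ := hQ g hg
      refine ⟨h1, ((mem_Z0 _ _ _ _ _ _).1 h1).2.1, ?_⟩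
      intro j hj
      rw [Finset.mem_singleton] at hj
      rw [hj]
      exact h2)
  push_cast at hc
  rw [evs1 hW0 hr0] at hc
  exact hc

theorem ev2 {W p1 m r : ℕ} {y e : V3} (h : Ps W p1 m r y e) (g0 : V3) (G l : ℕ) (hl : l.Prime)
    (hl6 : 10 ^ 6 < l) (hlm : ¬ l ∣ m) (k : Fin 3) (Q : Finset V3)
    (hQ : ∀ g ∈ Q, g ∈ Z0 W m e g0 G ∧ (l : ℤ) ∣ g (k + 1) ∧ (l : ℤ) ∣ g (k + 2)) :
    (Q.card : ℝ) ≤ 162 * (G : ℝ) ^ 3 / ((W : ℝ) ^ 3 * (m : ℝ) ^ 2) * (1 / (l : ℝ) ^ 2) +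
      (12 * (G : ℝ) / (W * (r : ℝ) ^ 2) + 1) ^ 2 := by
  obtain ⟨hW1, hWm, hlW⟩ := evW h hl hl6
  have hW0 : (W : ℝ) ≠ 0 := by positivity
  have hr0 : (r : ℝ) ≠ 0 := by
    have := h.lat.hr
    positivity
  have hk0 : ∀ n : Fin 3, n + 1 ≠ n + 2 := by decide
  have hk : k + 1 ≠ k + 2 := hk0 k
  have hc := evcore (W := W) (m := m) (e := e) g0 G (Lam m e ⊓ Dv l {k + 1, k + 2}) _ _
    (sg2 h.lat hW1 hWm hl hlW hlm hk) Q (fun g hg => by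
      obtain ⟨h1, h2, h3⟩ := hQ g hg
      refine ⟨h1, ((mem_Z0 _ _ _ _ _ _).1 h1).2.1, ?_⟩
      intro j hj
      rw [Finset.mem_insert, Finset.mem_singleton] at hj
      rcases hj with hj | hj
      · rw [hj]
        exact h2
      · rw [hj]
        exact h3)
  push_cast at hc
  rw [evs1 hW0 hr0] at hc
  exact hc

theorem ev3 {W p1 m r : ℕ} {y e : V3} (h : Ps W p1 m r y e) (g0 : V3) (G l : ℕ) (hl : l.Prime)
    (hl6 : 10 ^ 6 < l) (hlp : l ≠ p1) (k : Fin 3) (hy1 : ¬ (l : ℤ) ∣ y (k + 1))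
    (hy2 : ¬ (l : ℤ) ∣ y (k + 2)) (Q : Finset V3)
    (hQ : ∀ g ∈ Q, g ∈ Z0 W m e g0 G ∧ IsCoprime (g 0) (m : ℤ) ∧ (∀ i, ¬ (l : ℤ) ∣ g i) ∧
      (l : ℤ) ∣ Nn ((W * p1 : ℕ) : ℤ) m y g (k + 1) ∧
      (l : ℤ) ∣ Nn ((W * p1 : ℕ) : ℤ) m y g (k + 2)) :
    (Q.card : ℝ) ≤ 3 * (162 * (G : ℝ) ^ 3 / ((W : ℝ) ^ 3 * (m : ℝ) ^ 2) * (1 / (l : ℝ) ^ 2) +
      (12 * (G : ℝ) / (W * (r : ℝ) ^ 2) + 1) ^ 2) := by
  classical
  obtain ⟨hW1, hWm, hlW⟩ := evW h hl hl6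
  have hW0 : (W : ℝ) ≠ 0 := by positivity
  have hr0 : (r : ℝ) ≠ 0 := by
    have := h.lat.hr
    positivity
  obtain ⟨E, hE3, hE, hEQ⟩ := rts h l hl hl6 hlp k hy1 hy2 Q (fun g hg => by
    obtain ⟨h1, h2, h3, h4, h5⟩ := hQ g hg
    exact ⟨((mem_Z0 _ _ _ _ _ _).1 h1).2.1, h2, h3, h4, h5⟩)
  set B : ℝ := 162 * (G : ℝ) ^ 3 / ((W : ℝ) ^ 3 * (m : ℝ) ^ 2) * (1 / (l : ℝ) ^ 2) +
      (12 * (G : ℝ) / (W * (r : ℝ) ^ 2) + 1) ^ 2 with hB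
  have hB0 : 0 ≤ B := by positivity
  have hone : ∀ e' ∈ E, ((Q.filter (fun g => g ∈ Lam (l * m) e')).card : ℝ) ≤ B := by
    intro e' he'
    obtain ⟨he1, he2⟩ := hE e' he'
    have hc := evcore (W := W) (m := m) (e := e) g0 G (Lam (l * m) e') _ _
      (sg3 h.lat hW1 hWm hl hlW he2 he1) (Q.filter (fun g => g ∈ Lam (l * m) e'))
      (fun g hg => by
        rw [Finset.mem_filter] at hg
        exact ⟨(hQ g hg.1).1, hg.2⟩)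
    push_cast at hc
    rw [evs1 hW0 hr0] at hc
    exact hc
  have hsub : Q ⊆ E.biUnion (fun e' => Q.filter (fun g => g ∈ Lam (l * m) e')) := by
    intro g hg
    obtain ⟨e', he', hge⟩ := hEQ g hg
    rw [Finset.mem_biUnion]
    exact ⟨e', he', Finset.mem_filter.2 ⟨hg, hge⟩⟩
  have hcard : Q.card ≤ ∑ e' ∈ E, (Q.filter (fun g => g ∈ Lam (l * m) e')).card :=
    (Finset.card_le_card hsub).trans Finset.card_biUnion_le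
  have hcard' : (Q.card : ℝ) ≤ ∑ e' ∈ E, ((Q.filter (fun g => g ∈ Lam (l * m) e')).card : ℝ) := by
    exact_mod_cast hcard
  calc (Q.card : ℝ) ≤ ∑ e' ∈ E, ((Q.filter (fun g => g ∈ Lam (l * m) e')).card : ℝ) := hcard'
    _ ≤ ∑ _e' ∈ E, B := Finset.sum_le_sum hone
    _ = (E.card : ℝ) * B := by rw [Finset.sum_const, nsmul_eq_mul]
    _ ≤ 3 * B := by
      apply mul_le_mul_of_nonneg_right _ hB0
      exact_mod_cast hE3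

theorem ev4 {W p1 m r : ℕ} {y e : V3} (h : Ps W p1 m r y e) (g0 : V3) (G l : ℕ) (hl : l.Prime)
    (hl6 : 10 ^ 6 < l) (Q : Finset V3)
    (hQ : ∀ g ∈ Q, g ∈ Z0 W m e g0 G ∧ IsCoprime (g 0) (m : ℤ) ∧ ∀ i, (l : ℤ) ∣ g i) :
    (Q.card : ℝ) ≤ 162 * (G : ℝ) ^ 3 / ((W : ℝ) ^ 3 * (m : ℝ) ^ 2) * (1 / (l : ℝ) ^ 3) +
      (12 * (G : ℝ) / (W * (l * (r : ℝ) ^ 2)) + 1) ^ 2 := by
  obtain ⟨hW1, hWm, hlW⟩ := evW h hl hl6
  have hW0 : (W : ℝ) ≠ 0 := by positivity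
  have hr0 : (r : ℝ) ≠ 0 := by
    have := h.lat.hr
    positivity
  have hl0 : (l : ℝ) ≠ 0 := by
    have := hl.pos
    positivity
  rcases Q.eq_empty_or_nonempty with hQe | ⟨q, hq⟩
  · rw [hQe, Finset.card_empty, Nat.cast_zero]
    positivity
  have hlm : ¬ l ∣ m := by
    intro hd
    obtain ⟨_, h2, h3⟩ := hQ q hq
    have hd' : (l : ℤ) ∣ (m : ℤ) := by exact_mod_cast hd
    have hu := h2.isUnit_of_dvd' (h3 0) hd'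
    have h1 := Int.isUnit_iff.1 hu
    have h2' := hl.two_le
    omega
  have hc := evcore (W := W) (m := m) (e := e) g0 G (Lam m e ⊓ Dv l Finset.univ) _ _
    (sg4 h.lat hW1 hWm hl hlW hlm) Q (fun g hg => by
      obtain ⟨h1, h2, h3⟩ := hQ g hg
      exact ⟨h1, ((mem_Z0 _ _ _ _ _ _).1 h1).2.1, fun j _ => h3 j⟩)
  push_cast at hc
  have h1 : 162 * (G : ℝ) ^ 3 / ((W : ℝ) ^ 3 * ((l : ℝ) ^ 3 * (m : ℝ) ^ 2)) =
      162 * (G : ℝ) ^ 3 / ((W : ℝ) ^ 3 * (m : ℝ) ^ 2) * (1 / (l : ℝ) ^ 3) := by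
    rw [div_mul_div_comm]
    congr 1
    · ring
    · ring
  have h2 : 4 * (G : ℝ) / (W * (l * ((r : ℝ) ^ 2 / 3))) = 12 * (G : ℝ) / (W * (l * (r : ℝ) ^ 2)) := by
    field_simp
    ring
  rw [h1, h2] at hc
  exact hc

end Pool.Agent.SMP
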