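import Pool.Agent.SMP.Bas
import Pool.Agent.SMP.Bal

/-!
# SMP/FamC (size 4): (A10) the construction of `y`

PROOF.  `T ≥ T0` with `bas`.  `m = mj W p1 S j`, `R = Rp T c`.  `mx` with `n = m`, this `R` and `S` (elements of `S` are
prime to `m`: `Bs.cm` and `s ∣ pS S`) gives `I, J, u`.  `y = ![pS I, pS J, j * pS (S \ (I ∪ J))]`.
`a = #I = #J`, `2 a + #rest = k`, `#rest < 4 R + 10`.
`y1`: positive.  `y2`: `pS I ≤ (4 Q) ^ a ≤ T ^ (1 - 2 c) ≤ T ^ (1 - c)` (`Pa.hc`, `2 a ≤ k`); `j pS rest ≤ J (4 Q) ^ (4 R + 10) ≤ T ^ (1 - c)`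
(`Pa.he`).  `yl0, yl1`: `pS I ≥ Q ^ a ≥ T ^ (1 - 3 c)` (`Pa.hd`).  `sq0, sq1`: product of distinct primes.
`co`: the three sets are disjoint sets of primes, `j` is prime to `pS S` (`Jg.co`).  `cp`: `Bs.cS`, `Bs.cj`.
`hm`: `y 0 y 1 y 2 = pS S * j` (`I, J ⊆ S` disjoint: `Finset.prod_union`, `Finset.sdiff_union_of_subset`), and
`Bs.lt` for the subtraction.  `m1`: `Bs.m1`.
`f3`: the primes `> 10 ^ 6` dividing `m * (y 0 y 1 y 2).natAbs = m * (pS S * j)` divide `m j` or are elements of `S`;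
so `sl (..) ≤ sl (m j) + ∑_{s ∈ S} 1 / s ≤ 5 / 10 ^ 5 + k / Q ≤ 5 / 10 ^ 5 + 1 / 10 ^ 5 ≤ 1 / 10 ^ 4` (`Jg.sl`, `Pa.a3`, `Bs.sQ`).
`f4`: `u : (ZMod m)ˣ` with `pS J = pS I u ^ 3` in `ZMod m`; `lam = (u : ZMod m).val` (as an integer):
`(lam : ZMod m) = u`; `ZMod.intCast_zmod_eq_zero_iff_dvd`/`ZMod.intCast_cast`, and `lam` is prime to `m`
(`ZMod.val_coe_unit_coprime`).
-/

set_option autoImplicit false

namespace Pool.Agent.SMP

open Pool.Agent.SLB (V3 det3)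

private theorem famc_pos {I : Finset ℕ} (h : ∀ s ∈ I, s.Prime) : 1 ≤ pS I :=
  Finset.prod_pos (fun s hs => (h s hs).pos)

private theorem famc_sq {I : Finset ℕ} (h : ∀ s ∈ I, s.Prime) : Squarefree (pS I) := by
  classical
  induction I using Finset.induction_on with
  | empty => simp [pS]
  | insert a I ha ih =>
    have h1 : pS (insert a I) = a * pS I := Finset.prod_insert ha
    have hap : a.Prime := h a (Finset.mem_insert_self _ _)
    have hco : Nat.Coprime a (pS I) := by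
      apply Nat.Coprime.prod_right
      intro s hs
      have hsp := h s (Finset.mem_insert_of_mem hs)
      rw [Nat.coprime_primes hap hsp]
      rintro rfl
      exact ha hs
    rw [h1, Nat.squarefree_mul hco]
    exact ⟨hap.squarefree, ih (fun s hs => h s (Finset.mem_insert_of_mem hs))⟩

private theorem famc_co {I J : Finset ℕ} (hI : ∀ s ∈ I, s.Prime) (hJ : ∀ s ∈ J, s.Prime)
    (hd : Disjoint I J) : Nat.Coprime (pS I) (pS J) := by
  apply Nat.Coprime.prod_left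
  intro i hi
  apply Nat.Coprime.prod_right
  intro j hj
  rw [Nat.coprime_primes (hI i hi) (hJ j hj)]
  rintro rfl
  exact (Finset.disjoint_left.1 hd) hi hj

private theorem famc_hi {I : Finset ℕ} {b : ℝ} (h : ∀ s ∈ I, (s : ℝ) ≤ b) :
    (pS I : ℝ) ≤ b ^ I.card := by
  have h1 : (pS I : ℝ) = ∏ s ∈ I, (s : ℝ) := by
    simp [pS]
  rw [h1, ← Finset.prod_const]
  exact Finset.prod_le_prod (fun s _ => Nat.cast_nonneg s) h

private theorem famc_lo {I : Finset ℕ} {b : ℝ} (hb : 0 ≤ b) (h : ∀ s ∈ I, b ≤ (s : ℝ)) :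
    b ^ I.card ≤ (pS I : ℝ) := by
  have h1 : (pS I : ℝ) = ∏ s ∈ I, (s : ℝ) := by
    simp [pS]
  rw [h1, ← Finset.prod_const]
  exact Finset.prod_le_prod (fun _ _ => hb) h

private theorem famc_sl {n : ℕ} (hn : 1 ≤ n) {S : Finset ℕ} {Q k : ℝ} (hp : ∀ s ∈ S, s.Prime)
    (hQ : 0 < Q) (hs : ∀ s ∈ S, Q ≤ (s : ℝ)) (hc : (S.card : ℝ) = k) :
    sl (n * pS S) ≤ sl n + k / Q := by
  classical
  have hpos : 1 ≤ pS S := famc_pos hp
  have hsub : (n * pS S).primeFactors.filter (fun l => 10 ^ 6 < l) ⊆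
      n.primeFactors.filter (fun l => 10 ^ 6 < l) ∪ S := by
    intro l hl
    rw [Finset.mem_filter, Nat.mem_primeFactors] at hl
    obtain ⟨⟨hlp, hld, -⟩, hl6⟩ := hl
    rw [Finset.mem_union]
    rcases (Nat.Prime.dvd_mul hlp).1 hld with h | h
    · left
      rw [Finset.mem_filter, Nat.mem_primeFactors]
      exact ⟨⟨hlp, h, by omega⟩, hl6⟩
    · right
      obtain ⟨s, hs1, hs2⟩ := (Prime.dvd_finsetProd_iff (Nat.prime_iff.1 hlp) _).1 h
      have : l = s := (Nat.prime_dvd_prime_iff_eq hlp (hp s hs1)).1 hs2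
      rw [this]
      exact hs1
  have h1 : sl (n * pS S) ≤
      ∑ l ∈ n.primeFactors.filter (fun l => 10 ^ 6 < l) ∪ S, (1 : ℝ) / l := by
    unfold sl
    exact Finset.sum_le_sum_of_subset_of_nonneg hsub (fun i _ _ => by positivity)
  have h2 : ∑ l ∈ n.primeFactors.filter (fun l => 10 ^ 6 < l) ∪ S, (1 : ℝ) / l ≤
      sl n + ∑ l ∈ S, (1 : ℝ) / l := by
    unfold sl
    rw [← Finset.sum_union_inter]
    have : 0 ≤ ∑ l ∈ n.primeFactors.filter (fun l => 10 ^ 6 < l) ∩ S, (1 : ℝ) / l :=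
      Finset.sum_nonneg (fun i _ => by positivity)
    linarith
  have h3 : ∑ l ∈ S, (1 : ℝ) / l ≤ ∑ _l ∈ S, 1 / Q := by
    apply Finset.sum_le_sum
    intro s hs'
    exact one_div_le_one_div_of_le hQ (hs s hs')
  rw [Finset.sum_const, nsmul_eq_mul, hc] at h3
  have h4 : k * (1 / Q) = k / Q := by ring
  linarith

theorem famc (W : ℕ) (hW : WP W) (c : ℝ) (hc : 0 < c) (hc1 : c ≤ 1 / 100) :
    ∃ T0 : ℝ, ∀ T : ℝ, T0 ≤ T → ∀ p1 ∈ PPs T, ∀ S ∈ SSs T c, ∀ j ∈ AAs W T c,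
      Jg W T c p1 S j → ∃ (y : V3) (m : ℕ), Fam W T c p1 y m ∧
        y 0 * y 1 * y 2 = ((pS S * j : ℕ) : ℤ) := by
  classical
  obtain ⟨T0, hT0⟩ := bas W hW c hc hc1
  refine ⟨T0, fun T hT p1 hp1 S hS j hj hJg => ?_⟩
  obtain ⟨hPa, hBs'⟩ := hT0 T hT
  have hBs := hBs' p1 hp1 S hS
  have hT1 : (10 : ℝ) ^ 7 ≤ T := hPa.T1
  have hTpos : (0 : ℝ) < T := by linarith [show (0 : ℝ) < 10 ^ 7 by norm_num]
  have hT1' : (1 : ℝ) ≤ T := by linarith [show (1 : ℝ) ≤ 10 ^ 7 by norm_num]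
  have hm3 : T ^ 3 ≤ (mj W p1 S j : ℝ) := hBs.m1 j hj
  have hm1 : 1 ≤ mj W p1 S j := by
    have h1 : (1 : ℝ) ≤ T ^ 3 := one_le_pow₀ hT1'
    have h2 : (1 : ℝ) ≤ (mj W p1 S j : ℝ) := h1.trans hm3
    exact_mod_cast h2
  have hsco : ∀ s ∈ S, Nat.Coprime s (mj W p1 S j) := by
    intro s hs
    have h1 : s ∣ pS S * (W * p1) := (Finset.dvd_prod_of_mem _ hs).mul_right _
    exact ((hBs.cm j hj).coprime_dvd_right h1).symm
  obtain ⟨I, J, hI, hJ, hdis, hcard, hrest, u, hu⟩ :=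
    mx (mj W p1 S j) (Rp T c) hm1 hJg.om S hsco
  have hIJ : I ∪ J ⊆ S := Finset.union_subset hI hJ
  have hpI : ∀ s ∈ I, s.Prime := fun s hs => hBs.sp s (hI hs)
  have hpJ : ∀ s ∈ J, s.Prime := fun s hs => hBs.sp s (hJ hs)
  have hpR : ∀ s ∈ S \ (I ∪ J), s.Prime := fun s hs => hBs.sp s (Finset.sdiff_subset hs)
  have hprod : pS I * pS J * pS (S \ (I ∪ J)) = pS S := by
    have h1 : pS I * pS J = pS (I ∪ J) := (Finset.prod_union hdis).symm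
    rw [h1, mul_comm]
    exact Finset.prod_sdiff hIJ
  have hcards : I.card + J.card + (S \ (I ∪ J)).card = kp T c := by
    rw [← hBs.sc, ← Finset.card_union_of_disjoint hdis, add_comm]
    exact Finset.card_sdiff_add_card_eq_card hIJ
  have hj1 : 1 ≤ j := (hBs.jT j hj).1
  have hjJ : (j : ℝ) ≤ (Jp T c : ℝ) := by
    have h1 : j ≤ Jp T c := by
      unfold AAs at hj
      rw [Finset.mem_filter, Finset.mem_Icc] at hj
      exact hj.1.2
    exact_mod_cast h1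
  have hQ6 : (10 : ℕ) ^ 6 < Qp T := hPa.a2
  have hQpos : (0 : ℝ) < (Qp T : ℝ) := by
    have : 0 < Qp T := by omega
    exact_mod_cast this
  have hQ1 : (1 : ℝ) ≤ (Qp T : ℝ) := by
    have : 1 ≤ Qp T := by omega
    exact_mod_cast this
  have h4Q1 : (1 : ℝ) ≤ 4 * (Qp T : ℝ) := by linarith
  have hsle : ∀ s ∈ S, (s : ℝ) ≤ 4 * (Qp T : ℝ) := by
    intro s hs
    have := (hBs.sQ s hs).2
    exact_mod_cast this
  have hsge : ∀ s ∈ S, (Qp T : ℝ) ≤ (s : ℝ) := by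
    intro s hs
    have := (hBs.sQ s hs).1.le
    exact_mod_cast this
  have hIcard : 2 * I.card ≤ kp T c := by omega
  have hJcard : 2 * J.card ≤ kp T c := by omega
  have hexp : T ^ (1 - 2 * c) ≤ T ^ (1 - c) :=
    Real.rpow_le_rpow_of_exponent_le hT1' (by linarith)
  have hIhi : (pS I : ℝ) ≤ T ^ (1 - c) :=
    ((famc_hi (fun s hs => hsle s (hI hs))).trans (hPa.hc _ hIcard)).trans hexp
  have hJhi : (pS J : ℝ) ≤ T ^ (1 - c) :=
    ((famc_hi (fun s hs => hsle s (hJ hs))).trans (hPa.hc _ hJcard)).trans hexp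
  have hIlo : T ^ (1 - 3 * c) ≤ (pS I : ℝ) :=
    (hPa.hd I.card (by omega)).trans (famc_lo hQpos.le (fun s hs => hsge s (hI hs)))
  have hJlo : T ^ (1 - 3 * c) ≤ (pS J : ℝ) :=
    (hPa.hd J.card (by omega)).trans (famc_lo hQpos.le (fun s hs => hsge s (hJ hs)))
  have hRhi : ((j * pS (S \ (I ∪ J)) : ℕ) : ℝ) ≤ T ^ (1 - c) := by
    push_cast
    have h1 : (pS (S \ (I ∪ J)) : ℝ) ≤ (4 * (Qp T : ℝ)) ^ (4 * Rp T c + 10) := by
      refine (famc_hi (fun s hs => hsle s (Finset.sdiff_subset hs))).trans ?_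
      exact pow_le_pow_right₀ h4Q1 hrest.le
    calc (j : ℝ) * (pS (S \ (I ∪ J)) : ℝ)
        ≤ (Jp T c : ℝ) * (4 * (Qp T : ℝ)) ^ (4 * Rp T c + 10) := by
          apply mul_le_mul hjJ h1 (Nat.cast_nonneg _) (Nat.cast_nonneg _)
      _ ≤ T ^ (1 - c) := hPa.he
  have hcIJ : Nat.Coprime (pS I) (pS J) := famc_co hpI hpJ hdis
  have hdI : Disjoint I (S \ (I ∪ J)) :=
    Finset.disjoint_left.2 (fun x hx hx2 =>
      (Finset.mem_sdiff.1 hx2).2 (Finset.mem_union_left _ hx))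
  have hdJ : Disjoint J (S \ (I ∪ J)) :=
    Finset.disjoint_left.2 (fun x hx hx2 =>
      (Finset.mem_sdiff.1 hx2).2 (Finset.mem_union_right _ hx))
  have hdvI : pS I ∣ pS S := ⟨pS J * pS (S \ (I ∪ J)), by rw [← hprod]; ring⟩
  have hdvJ : pS J ∣ pS S := ⟨pS I * pS (S \ (I ∪ J)), by rw [← hprod]; ring⟩
  have hdvR : pS (S \ (I ∪ J)) ∣ pS S := ⟨pS I * pS J, by rw [← hprod]; ring⟩
  have hcIR : Nat.Coprime (pS I) (j * pS (S \ (I ∪ J))) :=
    Nat.Coprime.mul_right (hJg.co.coprime_dvd_right hdvI).symm (famc_co hpI hpR hdI)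
  have hcJR : Nat.Coprime (pS J) (j * pS (S \ (I ∪ J))) :=
    Nat.Coprime.mul_right (hJg.co.coprime_dvd_right hdvJ).symm (famc_co hpJ hpR hdJ)
  have hcWI : Nat.Coprime (pS I) (W * p1) := hBs.cS.coprime_dvd_left hdvI
  have hcWJ : Nat.Coprime (pS J) (W * p1) := hBs.cS.coprime_dvd_left hdvJ
  have hcWR : Nat.Coprime (j * pS (S \ (I ∪ J))) (W * p1) :=
    Nat.Coprime.mul_left (hBs.cj j hj) (hBs.cS.coprime_dvd_left hdvR)
  have hall : pS I * pS J * (j * pS (S \ (I ∪ J))) = pS S * j := by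
    rw [← hprod]
    ring
  have hy012 : ((pS I : ℕ) : ℤ) * ((pS J : ℕ) : ℤ) * ((j * pS (S \ (I ∪ J)) : ℕ) : ℤ) =
      ((pS S * j : ℕ) : ℤ) := by
    rw [← hall]
    push_cast
    ring
  have : NeZero (mj W p1 S j) := ⟨by omega⟩
  refine ⟨![((pS I : ℕ) : ℤ), ((pS J : ℕ) : ℤ), ((j * pS (S \ (I ∪ J)) : ℕ) : ℤ)],
    mj W p1 S j, ?_, hy012⟩
  have hIpos := famc_pos hpI
  have hJpos := famc_pos hpJ
  have hRpos : 1 ≤ j * pS (S \ (I ∪ J)) := Nat.mul_pos hj1 (famc_pos hpR)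
  refine ⟨hBs.pp, hBs.p2, hBs.p3, ?_, ?_, ?_, ?_, ?_, ?_, ?_, ?_, ?_, hm1, ?_, ?_⟩
  · intro i
    fin_cases i
    · show (1 : ℤ) ≤ ((pS I : ℕ) : ℤ)
      exact_mod_cast hIpos
    · show (1 : ℤ) ≤ ((pS J : ℕ) : ℤ)
      exact_mod_cast hJpos
    · show (1 : ℤ) ≤ ((j * pS (S \ (I ∪ J)) : ℕ) : ℤ)
      exact_mod_cast hRpos
  · intro i
    fin_cases i
    · show (((pS I : ℕ) : ℤ) : ℝ) ≤ T ^ (1 - c)
      rw [Int.cast_natCast]
      exact hIhi
    · show (((pS J : ℕ) : ℤ) : ℝ) ≤ T ^ (1 - c)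
      rw [Int.cast_natCast]
      exact hJhi
    · show (((j * pS (S \ (I ∪ J)) : ℕ) : ℤ) : ℝ) ≤ T ^ (1 - c)
      rw [Int.cast_natCast]
      exact hRhi
  · show T ^ (1 - 3 * c) ≤ (((pS I : ℕ) : ℤ) : ℝ)
    rw [Int.cast_natCast]
    exact hIlo
  · show T ^ (1 - 3 * c) ≤ (((pS J : ℕ) : ℤ) : ℝ)
    rw [Int.cast_natCast]
    exact hJlo
  · show Squarefree ((pS I : ℕ) : ℤ)
    rw [Int.squarefree_natCast]
    exact famc_sq hpI
  · show Squarefree ((pS J : ℕ) : ℤ)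
    rw [Int.squarefree_natCast]
    exact famc_sq hpJ
  · have e01 : IsCoprime ((pS I : ℕ) : ℤ) ((pS J : ℕ) : ℤ) := Nat.isCoprime_iff_coprime.2 hcIJ
    have e02 : IsCoprime ((pS I : ℕ) : ℤ) ((j * pS (S \ (I ∪ J)) : ℕ) : ℤ) :=
      Nat.isCoprime_iff_coprime.2 hcIR
    have e12 : IsCoprime ((pS J : ℕ) : ℤ) ((j * pS (S \ (I ∪ J)) : ℕ) : ℤ) :=
      Nat.isCoprime_iff_coprime.2 hcJR
    intro i k hik
    fin_cases i <;> fin_cases k
    · exact absurd rfl hik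
    · exact e01
    · exact e02
    · exact e01.symm
    · exact absurd rfl hik
    · exact e12
    · exact e02.symm
    · exact e12.symm
    · exact absurd rfl hik
  · intro i
    fin_cases i
    · exact Nat.isCoprime_iff_coprime.2 hcWI
    · exact Nat.isCoprime_iff_coprime.2 hcWJ
    · exact Nat.isCoprime_iff_coprime.2 hcWR
  · show ((mj W p1 S j : ℕ) : ℤ) = ((W * p1 : ℕ) : ℤ) ^ 3 -
      ((pS I : ℕ) : ℤ) * ((pS J : ℕ) : ℤ) * ((j * pS (S \ (I ∪ J)) : ℕ) : ℤ)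
    rw [hy012]
    unfold mj
    rw [Nat.cast_sub (hBs.lt j hj).le]
    push_cast
    ring
  · show sl (mj W p1 S j * (((pS I : ℕ) : ℤ) * ((pS J : ℕ) : ℤ) *
      ((j * pS (S \ (I ∪ J)) : ℕ) : ℤ)).natAbs) ≤ 1 / 10 ^ 4
    rw [hy012, Int.natAbs_natCast]
    have h1 : mj W p1 S j * (pS S * j) = mj W p1 S j * j * pS S := by ring
    rw [h1]
    have h2 : sl (mj W p1 S j * j * pS S) ≤ sl (mj W p1 S j * j) + (kp T c : ℝ) / (Qp T : ℝ) := by
      apply famc_sl (Nat.mul_pos hm1 hj1) hBs.sp hQpos hsge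
      rw [hBs.sc]
    have h3 : (kp T c : ℝ) / (Qp T : ℝ) ≤ 1 / 10 ^ 5 := by
      rw [div_le_div_iff₀ hQpos (by norm_num)]
      have h4 : ((10 ^ 5 * kp T c : ℕ) : ℝ) ≤ (Qp T : ℝ) := by exact_mod_cast hPa.a3
      push_cast at h4
      linarith
    have h5 := hJg.sl
    norm_num at h2 h3 h5 ⊢
    linarith
  · refine ⟨(((u : ZMod (mj W p1 S j)).val : ℕ) : ℤ), ?_, ?_⟩
    · exact Nat.isCoprime_iff_coprime.2 (ZMod.val_coe_unit_coprime u)
    · show ((mj W p1 S j : ℕ) : ℤ) ∣ (((u : ZMod (mj W p1 S j)).val : ℕ) : ℤ) ^ 3 *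
        ((pS I : ℕ) : ℤ) - ((pS J : ℕ) : ℤ)
      rw [← ZMod.intCast_zmod_eq_zero_iff_dvd]
      push_cast
      rw [ZMod.natCast_zmod_val]
      have hI' : ((pS I : ℕ) : ZMod (mj W p1 S j)) = ∏ i ∈ I, (i : ZMod (mj W p1 S j)) := by
        simp [pS]
      have hJ' : ((pS J : ℕ) : ZMod (mj W p1 S j)) = ∏ i ∈ J, (i : ZMod (mj W p1 S j)) := by
        simp [pS]
      rw [hI', hJ', hu]
      ring

end Pool.Agent.SMP
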