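import Pool.Agent.SMP.Bas
import Pool.Agent.FTA.DivB

/-!
# SMP/Fib (size 2): (A9) few parameters with the same product

PROOF.  `T ≥ T0` (with `bas`; choose any `p1`? not needed: use `pa` and the definitions).  For `q ∈ B`:
`pS q.1` divides `n`, and it determines `q.1` (a finset of primes is the set of the prime factors of its
product: `Nat.primeFactors_prod`), and then `q.2 = n / pS q.1` (`pS ≥ 1`).  So `q ↦ pS q.1` is injective on `B` with
values in `n.divisors` (`n ≥ 1` if `B` is nonempty), `n = pS q.1 * q.2 ≤ (4 Q) ^ k J ≤ T ^ 3` (`Pa.hb`).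
`#B ≤ d(n) ≤ C n ^ (c / 6) ≤ C T ^ (c / 2) ≤ T ^ c` (`Pool.Agent.FTA.divisor_bound`, `asy`).
-/

set_option autoImplicit false

namespace Pool.Agent.SMP

theorem fibS (c : ℝ) (hc : 0 < c) (hc1 : c ≤ 1 / 100) (W : ℕ) :
    ∃ T0 : ℝ, ∀ T : ℝ, T0 ≤ T → ∀ (n : ℕ) (B : Finset (Finset ℕ × ℕ)),
      (∀ q ∈ B, q.1 ∈ SSs T c ∧ q.2 ∈ AAs W T c ∧ pS q.1 * q.2 = n) → (B.card : ℝ) ≤ T ^ c := by
  obtain ⟨T1, h1⟩ := pa c hc hc1
  obtain ⟨C, hC, hdb⟩ := Pool.Agent.FTA.divisor_bound (ε := c / 6) (by linarith)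
  obtain ⟨T2, hT2, h2⟩ := asy C (c / 2) c (by linarith)
  refine ⟨max T1 T2, fun T hT n B hB => ?_⟩
  have hP : Pa T c := h1 T ((le_max_left _ _).trans hT)
  have hA := h2 T ((le_max_right _ _).trans hT)
  have hT1 : (1 : ℝ) ≤ T := hT2.trans ((le_max_right _ _).trans hT)
  have hT0 : (0 : ℝ) < T := by linarith
  rcases B.eq_empty_or_nonempty with h0 | ⟨q0, hq0⟩
  · rw [h0]
    simp only [Finset.card_empty, Nat.cast_zero]
    positivity
  have hSp : ∀ S ∈ SSs T c, ∀ s ∈ S, s.Prime := by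
    intro S hS s hs
    unfold SSs at hS
    rw [Finset.mem_powersetCard] at hS
    have := hS.1 hs
    unfold QQs at this
    exact (Finset.mem_filter.1 this).2
  have hpos : ∀ S ∈ SSs T c, 0 < pS S := by
    intro S hS
    exact Finset.prod_pos (fun s hs => (hSp S hS s hs).pos)
  have hj1 : ∀ j ∈ AAs W T c, 1 ≤ j ∧ j ≤ Jp T c := by
    intro j hj
    unfold AAs at hj
    exact Finset.mem_Icc.1 (Finset.mem_filter.1 hj).1
  obtain ⟨hq1, hq2, hqn⟩ := hB q0 hq0
  have hn0 : n ≠ 0 := by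
    rw [← hqn]
    exact Nat.mul_ne_zero (hpos _ hq1).ne' (by have := (hj1 _ hq2).1; omega)
  have hnle : (n : ℝ) ≤ T ^ (3 : ℝ) := by
    have hS : (pS q0.1 : ℝ) ≤ T ^ (2 - 4 * c) := by
      refine le_trans ?_ hP.hb
      have hcard : q0.1.card = kp T c := by
        have := hq1
        unfold SSs at this
        exact (Finset.mem_powersetCard.1 this).2
      have : pS q0.1 ≤ (4 * Qp T) ^ q0.1.card := by
        unfold pS
        apply Finset.prod_le_pow_card
        intro s hs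
        have h3 := hq1
        unfold SSs at h3
        have h4 := (Finset.mem_powersetCard.1 h3).1 hs
        unfold QQs at h4
        exact (Finset.mem_Ioc.1 (Finset.mem_filter.1 h4).1).2
      rw [hcard] at this
      exact_mod_cast this
    have hJ : (q0.2 : ℝ) ≤ T ^ (1 - 2 * c) := by
      have h3 : (q0.2 : ℝ) ≤ (Jp T c : ℝ) := by exact_mod_cast (hj1 _ hq2).2
      refine h3.trans ?_
      unfold Jp
      exact Nat.floor_le (by positivity)
    rw [← hqn]
    push_cast
    calc (pS q0.1 : ℝ) * (q0.2 : ℝ) ≤ T ^ (2 - 4 * c) * T ^ (1 - 2 * c) :=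
          mul_le_mul hS hJ (Nat.cast_nonneg _) (by positivity)
      _ = T ^ ((2 - 4 * c) + (1 - 2 * c)) := (Real.rpow_add hT0 _ _).symm
      _ ≤ T ^ (3 : ℝ) := Real.rpow_le_rpow_of_exponent_le hT1 (by linarith)
  have hcard : B.card ≤ n.divisors.card := by
    apply Finset.card_le_card_of_injOn (fun q => pS q.1)
    · intro q hq
      obtain ⟨h3, h4, h5⟩ := hB q hq
      simp only [Finset.mem_coe]
      exact Nat.mem_divisors.2 ⟨⟨q.2, h5.symm⟩, hn0⟩
    · intro q hq q' hq' he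
      obtain ⟨h3, h4, h5⟩ := hB q hq
      obtain ⟨h3', h4', h5'⟩ := hB q' hq'
      simp only at he
      have e1 : q.1 = q'.1 := by
        have a1 := Nat.primeFactors_prod (s := q.1) (hSp _ h3)
        have a2 := Nat.primeFactors_prod (s := q'.1) (hSp _ h3')
        unfold pS at he
        rw [← a1, ← a2, he]
      have e2 : q.2 = q'.2 := by
        have : pS q.1 * q.2 = pS q.1 * q'.2 := by rw [h5, he, h5']
        exact Nat.eq_of_mul_eq_mul_left (hpos _ h3) this
      exact Prod.ext e1 e2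
  calc (B.card : ℝ) ≤ (n.divisors.card : ℝ) := by exact_mod_cast hcard
    _ ≤ C * (n : ℝ) ^ (c / 6) := hdb n hn0
    _ ≤ C * (T ^ (3 : ℝ)) ^ (c / 6) := by
        apply mul_le_mul_of_nonneg_left _ hC.le
        exact Real.rpow_le_rpow (Nat.cast_nonneg _) hnle (by linarith)
    _ = C * T ^ (c / 2) := by
        rw [← Real.rpow_mul hT0.le]
        congr 2
        ring
    _ ≤ T ^ c := hA


end Pool.Agent.SMP
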