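import Pool.Agent.SMP.Avs
import Pool.Agent.SMP.Avo

/-!
# SMP/Jgo (size 3): (A7) many good `j`

PROOF.  `T ≥ T0` (with `bas`, `avs`, `avo`).  `J = Jp T c`.  `#AAs ≥ J / (2 W) - 1` for `T` large (`aac`, `W ≥ 2`).
Let `B` be the set of the `j ∈ AAs` with `Jg` (`Finset.filter`, `classical`).  The others violate one of
the three conditions.
(sl) Markov with `avs`: their number times `5 / 10 ^ 5` is at most `2 J / (W 10 ^ 6)`, so it is `≤ J / (25 W)`.
(om) Markov with `avo`: number times `(R + 1)` is at most `(J / W) (log log T + C)`; `R + 1 ≥ c k / 100 ≥ (c / 100) √(log T)`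
(`para0`) `≥ 25 (log log T + C)` for `T` large.  So `≤ J / (25 W)`.
(co) a prime `q ∈ S` divides `j` (`q ∣ gcd (j, pS S)`); `acl` with `l = q`, `a = 0`, `b = 1` (`q > 10 ^ 6`, `q ∤ W`):
`≤ ∑_{q ∈ S} (J / (2 q W) + 1) ≤ k (J / (2 Q W) + 1) ≤ J / (25 W)` (`10 ^ 5 k ≤ Q`: first part `≤ J / (2 10 ^ 5 W)`;
`k ≤ 2 √(log T) ≤ J / (50 W)` for `T` large).
-/

set_option autoImplicit false

namespace Pool.Agent.SMP

private theorem jgo_s (s0 : ℝ) : ∃ T0 : ℝ, ∀ T : ℝ, T0 ≤ T → s0 ≤ √(Real.log T) := by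
  refine ⟨Real.exp (s0 ^ 2), fun T hT => ?_⟩
  have hpos : 0 < T := lt_of_lt_of_le (Real.exp_pos _) hT
  apply Real.le_sqrt_of_sq_le
  exact (Real.le_log_iff_exp_le hpos).2 hT

private theorem jgo_ll (C c : ℝ) (hc : 0 < c) : ∃ T0 : ℝ, ∀ T : ℝ, T0 ≤ T →
    25 * (Real.log (Real.log T) + C) ≤ c / 100 * √(Real.log T) := by
  obtain ⟨T1, h1⟩ := jgo_s ((20000 / c) ^ 2 + 5000 * |C| / c + 1)
  refine ⟨T1, fun T hT => ?_⟩
  have hs := h1 T hT
  obtain ⟨s, hsd⟩ : ∃ s, s = √(Real.log T) := ⟨_, rfl⟩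
  rw [← hsd] at hs ⊢
  have hC0 : 0 ≤ 5000 * |C| / c := by positivity
  have hs1 : 1 ≤ s := by nlinarith [sq_nonneg (20000 / c)]
  have hL : Real.log T = s ^ 2 := by
    rw [hsd, Real.sq_sqrt]
    by_contra hn
    push Not at hn
    rw [Real.sqrt_eq_zero_of_nonpos hn.le] at hsd
    linarith
  have hu0 : 0 < √s := Real.sqrt_pos.2 (by linarith)
  have hu2 : √s ^ 2 = s := Real.sq_sqrt (by linarith)
  have hu : 20000 / c ≤ √s := by
    apply Real.le_sqrt_of_sq_le
    linarith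
  have hlog : Real.log (Real.log T) ≤ 4 * √s := by
    have h2 : Real.log (Real.log T) = 4 * Real.log (√s) := by
      rw [hL, Real.log_pow, Real.log_sqrt (by linarith)]
      push_cast
      ring
    have h3 := Real.log_le_sub_one_of_pos hu0
    rw [h2]
    linarith
  have hCs : 5000 * |C| / c ≤ s := by nlinarith [sq_nonneg (20000 / c)]
  have h4 : 5000 * |C| ≤ s * c := by
    rwa [div_le_iff₀ hc] at hCs
  have h5 : 20000 ≤ √s * c := by
    rwa [div_le_iff₀ hc] at hu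
  have h6 : 20000 * √s ≤ c * s := by
    calc 20000 * √s ≤ √s * c * √s := mul_le_mul_of_nonneg_right h5 hu0.le
      _ = c * √s ^ 2 := by ring
      _ = c * s := by rw [hu2]
  have h7 : C ≤ |C| := le_abs_self C
  linarith

private theorem jgo_J (K c : ℝ) (hc : 0 < c) (hc1 : c ≤ 1 / 100) :
    ∃ T0 : ℝ, ∀ T : ℝ, T0 ≤ T → K * Real.log T ≤ (Jp T c : ℝ) := by
  obtain ⟨T1, hT1, h1⟩ := asyl (K + 1) 0 (1 - 2 * c) (by linarith)
  refine ⟨max T1 (Real.exp 1), fun T hT => ?_⟩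
  have hTa : T1 ≤ T := (le_max_left _ _).trans hT
  have hTe : Real.exp 1 ≤ T := (le_max_right _ _).trans hT
  have hpos : 0 < T := lt_of_lt_of_le (Real.exp_pos _) hTe
  have hL : 1 ≤ Real.log T := (Real.le_log_iff_exp_le hpos).2 hTe
  have h2 := h1 T hTa
  rw [Real.rpow_zero, mul_one] at h2
  have h3 : T ^ (1 - 2 * c) < (Jp T c : ℝ) + 1 := by
    unfold Jp
    exact Nat.lt_floor_add_one _
  nlinarith

theorem jgo (W : ℕ) (hW : WP W) (c : ℝ) (hc : 0 < c) (hc1 : c ≤ 1 / 100) :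
    ∃ T0 : ℝ, ∀ T : ℝ, T0 ≤ T → ∀ p1 ∈ PPs T, ∀ S ∈ SSs T c, ∃ B : Finset ℕ, B ⊆ AAs W T c ∧
      (∀ j ∈ B, Jg W T c p1 S j) ∧ (Jp T c : ℝ) / (8 * W) ≤ B.card := by
  classical
  have hW2 : 2 ≤ W := by
    have h2 : 2 ∣ W := (hW.dv 2 Nat.prime_two).2 (by norm_num)
    exact Nat.le_of_dvd hW.one h2
  have hWr : (2 : ℝ) ≤ (W : ℝ) := by exact_mod_cast hW2
  obtain ⟨T1, h1⟩ := bas W hW c hc hc1
  obtain ⟨T2, h2⟩ := avs W hW c hc hc1
  obtain ⟨C, T3, h3⟩ := avo W hW c hc hc1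
  obtain ⟨T4, h4⟩ := para0 c hc hc1
  obtain ⟨T5, h5⟩ := jgo_ll C c hc
  obtain ⟨T6, h6⟩ := jgo_J (200 * W) c hc hc1
  refine ⟨max T1 (max T2 (max T3 (max T4 (max T5 T6)))), fun T hT p1 hp1 S hS => ?_⟩
  simp only [max_le_iff] at hT
  obtain ⟨hTa, hTb, hTc, hTd, hTe, hTf⟩ := hT
  obtain ⟨hPa, hBs⟩ := h1 T hTa
  have Bb := hBs p1 hp1 S hS
  have g2 := h2 T hTb p1 hp1 S hS
  have g3 := h3 T hTc p1 hp1 S hS
  obtain ⟨k1, k2, k3, k4, k5, k6, k7, k8⟩ := h4 T hTd
  have g5 := h5 T hTe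
  have g6 := h6 T hTf
  obtain ⟨a1, -⟩ := aac W hW2 T c
  have hsq : √(Real.log T) ^ 2 = Real.log T := by
    rw [Real.sq_sqrt]
    by_contra hn
    push Not at hn
    rw [Real.sqrt_eq_zero_of_nonpos hn.le] at k2
    linarith
  have hLs : √(Real.log T) ≤ Real.log T := by nlinarith
  set J : ℝ := (Jp T c : ℝ) with hJ
  have hL1 : (100 : ℝ) ≤ Real.log T := k2.trans hLs
  have hJ1 : 200 * (W : ℝ) ≤ J := by nlinarith
  have hJ0 : 0 < J := by nlinarith
  have hk : 100 * (W : ℝ) * (kp T c : ℝ) ≤ J := by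
    have hk2 : (kp T c : ℝ) ≤ 2 * Real.log T := k5.trans (by linarith)
    have hW0 : (0 : ℝ) ≤ 100 * (W : ℝ) := by positivity
    calc 100 * (W : ℝ) * (kp T c : ℝ) ≤ 100 * (W : ℝ) * (2 * Real.log T) :=
          mul_le_mul_of_nonneg_left hk2 hW0
      _ = 200 * (W : ℝ) * Real.log T := by ring
      _ ≤ J := g6
  set X : ℝ := J / (W : ℝ) with hX
  have hW0 : (0 : ℝ) < (W : ℝ) := by linarith
  have hX0 : 0 < X := div_pos hJ0 hW0
  have hX200 : 200 ≤ X := by
    rw [hX, le_div_iff₀ hW0]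
    exact hJ1
  have hXk : 100 * (kp T c : ℝ) ≤ X := by
    rw [hX, le_div_iff₀ hW0]
    linarith
  -- the bad sets
  set A := AAs W T c with hA
  set A1 := A.filter (fun j => 5 / 10 ^ 5 < sl (mj W p1 S j * j)) with hA1
  set A2 := A.filter (fun j => Rp T c + 1 ≤ (mj W p1 S j).primeFactors.card) with hA2
  set A3 := A.filter (fun j => ¬ Nat.Coprime j (pS S)) with hA3
  set B := A.filter (fun j => Jg W T c p1 S j) with hB
  have hcov : A ⊆ B ∪ A1 ∪ (A2 ∪ A3) := by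
    intro j hj
    by_cases c1 : 5 / 10 ^ 5 < sl (mj W p1 S j * j)
    · have : j ∈ A1 := Finset.mem_filter.2 ⟨hj, c1⟩
      exact Finset.mem_union_left _ (Finset.mem_union_right _ this)
    by_cases c2 : Rp T c + 1 ≤ (mj W p1 S j).primeFactors.card
    · have : j ∈ A2 := Finset.mem_filter.2 ⟨hj, c2⟩
      exact Finset.mem_union_right _ (Finset.mem_union_left _ this)
    by_cases c3 : Nat.Coprime j (pS S)
    · have : j ∈ B := Finset.mem_filter.2 ⟨hj, ⟨c3, by omega, not_lt.1 c1⟩⟩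
      exact Finset.mem_union_left _ (Finset.mem_union_left _ this)
    · have : j ∈ A3 := Finset.mem_filter.2 ⟨hj, c3⟩
      exact Finset.mem_union_right _ (Finset.mem_union_right _ this)
  have hcard : (A.card : ℝ) ≤ B.card + A1.card + (A2.card + A3.card) := by
    have h := (Finset.card_le_card hcov).trans ((Finset.card_union_le _ _).trans
      (add_le_add (Finset.card_union_le B A1) (Finset.card_union_le A2 A3)))
    exact_mod_cast h
  -- the sum of `1 / l`
  have c1 : (A1.card : ℝ) ≤ X / 25 := by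
    have hnn : ∀ n : ℕ, 0 ≤ sl n := by
      intro n
      unfold sl
      exact Finset.sum_nonneg fun i _ => by positivity
    have e1 : (A1.card : ℝ) * (5 / 10 ^ 5) ≤ ∑ j ∈ A, sl (mj W p1 S j * j) := by
      calc (A1.card : ℝ) * (5 / 10 ^ 5) = ∑ j ∈ A1, (5 / 10 ^ 5 : ℝ) := by
            rw [Finset.sum_const, nsmul_eq_mul]
        _ ≤ ∑ j ∈ A1, sl (mj W p1 S j * j) :=
            Finset.sum_le_sum fun j hj => (Finset.mem_filter.1 hj).2.le
        _ ≤ ∑ j ∈ A, sl (mj W p1 S j * j) :=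
            Finset.sum_le_sum_of_subset_of_nonneg (Finset.filter_subset _ _)
              fun j _ _ => hnn _
    have e2 : 2 * J / (W * 10 ^ 6) = 2 * X / 10 ^ 6 := by
      rw [hX]
      field_simp
    rw [e2] at g2
    have e3 := e1.trans g2
    linarith
  -- the number of prime factors
  have c2 : (A2.card : ℝ) ≤ X / 25 := by
    have e1 : (A2.card : ℝ) * ((Rp T c : ℝ) + 1) ≤
        ∑ j ∈ A, ((mj W p1 S j).primeFactors.card : ℝ) := by
      calc (A2.card : ℝ) * ((Rp T c : ℝ) + 1) = ∑ j ∈ A2, ((Rp T c : ℝ) + 1) := by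
            rw [Finset.sum_const, nsmul_eq_mul]
        _ ≤ ∑ j ∈ A2, ((mj W p1 S j).primeFactors.card : ℝ) :=
            Finset.sum_le_sum fun j hj => by exact_mod_cast (Finset.mem_filter.1 hj).2
        _ ≤ ∑ j ∈ A, ((mj W p1 S j).primeFactors.card : ℝ) :=
            Finset.sum_le_sum_of_subset_of_nonneg (Finset.filter_subset _ _)
              fun j _ _ => by positivity
    have e2 : c / 100 * √(Real.log T) ≤ (Rp T c : ℝ) + 1 := by
      have e3 : c * kp T c / 100 < (Rp T c : ℝ) + 1 := by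
        unfold Rp
        exact Nat.lt_floor_add_one _
      have e4 : c * √(Real.log T) ≤ c * kp T c := mul_le_mul_of_nonneg_left k6 hc.le
      linarith
    have e5 := e1.trans g3
    have e6 : 25 * (Real.log (Real.log T) + C) ≤ (Rp T c : ℝ) + 1 := g5.trans e2
    have hR : (0 : ℝ) < (Rp T c : ℝ) + 1 := by positivity
    have e7 : (A2.card : ℝ) * ((Rp T c : ℝ) + 1) ≤ X / 25 * ((Rp T c : ℝ) + 1) := by
      calc (A2.card : ℝ) * ((Rp T c : ℝ) + 1) ≤ X * (Real.log (Real.log T) + C) := e5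
        _ = X / 25 * (25 * (Real.log (Real.log T) + C)) := by ring
        _ ≤ X / 25 * ((Rp T c : ℝ) + 1) := mul_le_mul_of_nonneg_left e6 (by positivity)
    exact le_of_mul_le_mul_right e7 hR
  -- the coprimality
  have c3 : (A3.card : ℝ) ≤ X / 50 := by
    have e1 : A3 ⊆ S.biUnion (fun q => A.filter (fun j => q ∣ j)) := by
      intro j hj
      obtain ⟨hj1, hj2⟩ := Finset.mem_filter.1 hj
      have h7 : ∃ q ∈ S, ¬ Nat.Coprime j q := by
        by_contra hn
        push Not at hn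
        exact hj2 (Nat.Coprime.prod_right hn)
      obtain ⟨q, hq, hjq⟩ := h7
      refine Finset.mem_biUnion.2 ⟨q, hq, Finset.mem_filter.2 ⟨hj1, ?_⟩⟩
      by_contra hn
      exact hjq ((Nat.Prime.coprime_iff_not_dvd (Bb.sp q hq)).2 hn).symm
    have e2 : ∀ q ∈ S, ((A.filter (fun j => q ∣ j)).card : ℝ) ≤ X / (2 * (Qp T : ℝ)) + 1 := by
      intro q hq
      have hqp := Bb.sp q hq
      have hq6 := Bb.s6 q hq
      have hqW : ¬ q ∣ W := by
        intro h
        exact absurd ((hW.dv q hqp).1 h) (not_le.2 hq6)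
      have h8 := acl W q (Jp T c) hW.one hqp hqW 0 (-1) (by
        intro h
        have h9 : (q : ℤ) ∣ 1 := (dvd_neg).1 h
        have h10 : q ∣ 1 := by exact_mod_cast h9
        exact absurd (Nat.dvd_one.1 h10) hqp.one_lt.ne') (A.filter (fun j => q ∣ j)) (by
        intro j hj
        obtain ⟨hj1, hj2⟩ := Finset.mem_filter.1 hj
        rw [hA] at hj1
        unfold AAs at hj1
        obtain ⟨hj3, hj4, hj5⟩ := Finset.mem_filter.1 hj1
        refine ⟨(Finset.mem_Icc.1 hj3).2, hj4, hj5, ?_⟩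
        have : (q : ℤ) ∣ (j : ℤ) := by exact_mod_cast hj2
        simpa using this)
      have hQ0 : (0 : ℝ) < (Qp T : ℝ) := by
        exact_mod_cast lt_trans (by norm_num : 0 < 10 ^ 6) hPa.a2
      have hqQ : (Qp T : ℝ) ≤ (q : ℝ) := by exact_mod_cast (Bb.sQ q hq).1.le
      refine h8.trans ?_
      have h11 : J / (2 * q * W) ≤ X / (2 * (Qp T : ℝ)) := by
        rw [hX, div_div]
        apply div_le_div_of_nonneg_left hJ0.le (by positivity)
        nlinarith
      linarith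
    have e3 : (A3.card : ℝ) ≤ (kp T c : ℝ) * (X / (2 * (Qp T : ℝ)) + 1) := by
      have h12 : (A3.card : ℝ) ≤ ∑ q ∈ S, ((A.filter (fun j => q ∣ j)).card : ℝ) := by
        exact_mod_cast (Finset.card_le_card e1).trans Finset.card_biUnion_le
      refine h12.trans ((Finset.sum_le_sum e2).trans ?_)
      rw [Finset.sum_const, nsmul_eq_mul, Bb.sc]
    have hQ0 : (0 : ℝ) < (Qp T : ℝ) := by
      exact_mod_cast lt_trans (by norm_num : 0 < 10 ^ 6) hPa.a2
    have hkQ : (10 : ℝ) ^ 5 * (kp T c : ℝ) ≤ (Qp T : ℝ) := by exact_mod_cast hPa.a3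
    have e4 : (kp T c : ℝ) * (X / (2 * (Qp T : ℝ))) ≤ X / (2 * 10 ^ 5) := by
      rw [← mul_div_assoc, div_le_div_iff₀ (by positivity) (by positivity)]
      nlinarith
    have e5 : (kp T c : ℝ) * (X / (2 * (Qp T : ℝ)) + 1)
        = (kp T c : ℝ) * (X / (2 * (Qp T : ℝ))) + kp T c := by ring
    rw [e5] at e3
    linarith
  refine ⟨B, Finset.filter_subset _ _, fun j hj => (Finset.mem_filter.1 hj).2, ?_⟩
  have e8 : J / (8 * W) = X / 8 := by
    rw [hX]
    field_simp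
  have e9 : J / (2 * W) = X / 2 := by
    rw [hX]
    field_simp
  rw [e8]
  rw [e9] at a1
  linarith

end Pool.Agent.SMP
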