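import Pool.Agent.SMP.ParA
import Pool.Agent.GLI.Cheb
import Pool.Agent.GLI.Supply
import Pool.Agent.FML.PrM

/-!
# SMP/ParC (size 4): (A8) (f), the number of parameters

PROOF.  Use `para0`.  `L = log T`, `Q = Qp T`, `k = kp T c`.
`#QQs ≥ Q / log (4 Q)` (`Pool.Agent.GLI.cheb` at `P = 4 Q`: `(4 Q) / (4 log (4 Q)) ≤ #`primes in `(Q, 4 Q]`,
`4 Q / 4 = Q`), `k ≤ #QQs` (`Q / log (4 Q) ≥ 2 √L`).
`#SSs = (#QQs).choose k` (`Finset.card_powersetCard`) `≥ (#QQs / k) ^ k` (`GLI.supply_choose`)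
`≥ (4 Q) ^ k / (4 k log (4 Q)) ^ k`.  `k log (4 Q) ≥ (2 - 4 c) L - log (4 Q)`, and
`k log (4 k log (4 Q)) ≤ 2 √L (log 4 + log (2 √L) + log (√L + 2)) ≤ (c / 2) L`, `log (4 Q) ≤ √L + 2 ≤ (c / 4) L`.  So
`#SSs ≥ T ^ (2 - 5 c)`.
`#PPs ≥ ⌊T⌋ / (2 log ⌊T⌋) ≥ T ^ (1 - c / 4)` (`Pool.Agent.FML.prM` at `Y = ⌊T⌋₊`).
`J / (8 W) ≥ T ^ (1 - 2 c) / (16 W) ≥ T ^ (1 - 2 c - c / 4)`.
Total exponent `4 - 7 c - c / 2 ≥ 4 - 8 c`.
-/

set_option autoImplicit false

namespace Pool.Agent.SMP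

private theorem ParC_s (s0 : ℝ) : ∃ T0 : ℝ, ∀ T : ℝ, T0 ≤ T → s0 ≤ √(Real.log T) := by
  refine ⟨Real.exp (s0 ^ 2), fun T hT => ?_⟩
  have hpos : 0 < T := lt_of_lt_of_le (Real.exp_pos _) hT
  apply Real.le_sqrt_of_sq_le
  exact (Real.le_log_iff_exp_le hpos).2 hT

private theorem ParC_log {y : ℝ} (hy : 0 < y) : Real.log y ≤ 2 * √y := by
  have h1 : 0 < √y := Real.sqrt_pos.2 hy
  have h2 : Real.log y = 2 * Real.log (√y) := by
    rw [Real.log_sqrt hy.le]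
    ring
  have h3 := Real.log_le_sub_one_of_pos h1
  rw [h2]
  linarith

/-- the number of the sets `S` -/
private theorem ParC_S (c : ℝ) (hc : 0 < c) (hc1 : c ≤ 1 / 100) :
    ∃ T0 : ℝ, ∀ T : ℝ, T0 ≤ T → T ^ (2 - 9 / 2 * c) ≤ ((SSs T c).card : ℝ) := by
  obtain ⟨T1, h1⟩ := para0 c hc hc1
  obtain ⟨P0, hP02, hP0⟩ := Pool.Agent.GLI.cheb
  obtain ⟨T2, h2⟩ := ParC_s (Real.log P0)
  obtain ⟨T3, h3⟩ := ParC_s ((64 / c) ^ 2)
  refine ⟨max T1 (max T2 T3), fun T hT => ?_⟩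
  obtain ⟨hT7, hs100, hl1, hl2, hk1, hk2, hkl, _⟩ := h1 T ((le_max_left _ _).trans hT)
  have hs2 := h2 T (((le_max_left _ _).trans (le_max_right _ _)).trans hT)
  have hs3 := h3 T (((le_max_right _ _).trans (le_max_right _ _)).trans hT)
  set L : ℝ := Real.log T with hL
  set s : ℝ := √L with hs
  set Q : ℕ := Qp T with hQ
  set k : ℕ := kp T c with hk
  have hT0 : (0 : ℝ) < T := by linarith
  have hL0 : 0 ≤ L := Real.log_nonneg (by linarith)
  have hsL : s ^ 2 = L := Real.sq_sqrt hL0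
  have hs0 : 0 < s := by linarith
  have hQpos : 0 < Q := by
    rcases Nat.eq_zero_or_pos Q with h | h
    · rw [h] at hl1
      simp at hl1
      linarith
    · exact h
  have hQr : (0 : ℝ) < (Q : ℝ) := by exact_mod_cast hQpos
  have h4Q : Real.exp s ≤ 4 * (Q : ℝ) := by
    rw [← Real.exp_log (show (0 : ℝ) < 4 * (Q : ℝ) by positivity)]
    exact Real.exp_le_exp.2 hl1
  have hP : P0 ≤ 4 * Q := by
    have hP0pos : (0 : ℝ) < (P0 : ℝ) := by
      have : 0 < P0 := by omega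
      exact_mod_cast this
    have h5 : (P0 : ℝ) ≤ 4 * (Q : ℝ) := by
      calc (P0 : ℝ) = Real.exp (Real.log P0) := (Real.exp_log hP0pos).symm
        _ ≤ Real.exp s := Real.exp_le_exp.2 hs2
        _ ≤ 4 * (Q : ℝ) := h4Q
    exact_mod_cast h5
  have hch := (hP0 (4 * Q) hP).1
  have h4 : 4 * Q / 4 = Q := by omega
  rw [h4] at hch
  set n : ℕ := (QQs T).card with hn
  have hn1 : (Q : ℝ) / Real.log (4 * Q) ≤ (n : ℝ) := by
    have h5 : (((Finset.Ioc Q (4 * Q)).filter Nat.Prime).card : ℝ) = (n : ℝ) := rfl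
    rw [← h5]
    refine le_trans (le_of_eq ?_) hch
    push_cast
    rw [mul_div_mul_left _ _ (by norm_num : (4 : ℝ) ≠ 0)]
  have hl0 : 0 < Real.log (4 * Q) := by linarith
  have hs3' : s ^ 3 / 6 ≤ Real.exp s := by
    have := Real.pow_div_factorial_le_exp s hs0.le 3
    have h6 : ((Nat.factorial 3 : ℕ) : ℝ) = 6 := by norm_num [Nat.factorial]
    rwa [h6] at this
  have hkn : (k : ℝ) ≤ (n : ℝ) := by
    refine le_trans ?_ hn1
    rw [le_div_iff₀ hl0]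
    have h7 : (k : ℝ) * Real.log (4 * Q) ≤ 2 * s * (s + 2) :=
      mul_le_mul hk1 hl2 hl0.le (by positivity)
    have h8 : s ^ 3 / 24 ≤ (Q : ℝ) := by linarith
    have h9 : 2 * s * (s + 2) ≤ s ^ 3 / 24 := by
      have u1 : 100 * s ≤ s * s := mul_le_mul_of_nonneg_right hs100 hs0.le
      have u2 : 100 * (s * s) ≤ s * (s * s) := mul_le_mul_of_nonneg_right hs100 (by positivity)
      have u3 : s ^ 3 / 24 = s * (s * s) / 24 := by ring
      have u4 : 2 * s * (s + 2) = 2 * (s * s) + 4 * s := by ring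
      rw [u3, u4]
      linarith
    linarith
  have hkn' : k ≤ n := by exact_mod_cast hkn
  have hkpos : (0 : ℝ) < (k : ℝ) := by linarith
  have hnpos : (0 : ℝ) < (n : ℝ) := by linarith
  have hsup := Pool.Agent.GLI.supply_choose k n hkn'
  have hcard : (SSs T c).card = n.choose k := by
    unfold SSs
    rw [Finset.card_powersetCard]
  rw [hcard]
  refine le_trans ?_ hsup
  have e1 : ((n : ℝ) / k) ^ k = Real.exp (k * Real.log ((n : ℝ) / k)) := by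
    rw [Real.exp_nat_mul, Real.exp_log (div_pos hnpos hkpos)]
  rw [e1, Real.rpow_def_of_pos hT0]
  apply Real.exp_le_exp.2
  have e2 : Real.log ((n : ℝ) / k) = Real.log n - Real.log k :=
    Real.log_div hnpos.ne' hkpos.ne'
  have e3 : Real.log ((Q : ℝ) / Real.log (4 * Q)) ≤ Real.log n :=
    Real.log_le_log (div_pos hQr hl0) hn1
  have e4 : Real.log ((Q : ℝ) / Real.log (4 * Q)) = Real.log Q - Real.log (Real.log (4 * Q)) :=
    Real.log_div hQr.ne' hl0.ne'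
  have e5 : Real.log (4 * (Q : ℝ)) = Real.log 4 + Real.log Q :=
    Real.log_mul (by norm_num) hQr.ne'
  have e6 : Real.log (Real.log (4 * Q)) ≤ Real.log (s + 2) := Real.log_le_log hl0 hl2
  have e7 : Real.log (s + 2) ≤ 2 * √(s + 2) := ParC_log (by linarith)
  have e8 : Real.log (k : ℝ) ≤ Real.log (2 * s) := Real.log_le_log hkpos hk1
  have e9 : Real.log (2 * s) ≤ 2 * √(2 * s) := ParC_log (by linarith)
  set q : ℝ := √s with hq
  have hqq : q ^ 2 = s := Real.sq_sqrt hs0.le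
  have hq0 : 0 ≤ q := Real.sqrt_nonneg _
  have hq10 : 10 ≤ q := by
    apply Real.le_sqrt_of_sq_le
    linarith
  have f1 : √(s + 2) ≤ 3 / 2 * q := by
    apply Real.sqrt_le_iff.2
    refine ⟨by positivity, ?_⟩
    nlinarith
  have f2 : √(2 * s) ≤ 3 / 2 * q := by
    apply Real.sqrt_le_iff.2
    refine ⟨by positivity, ?_⟩
    nlinarith
  have f3 : Real.log 4 ≤ 3 := by
    have := Real.log_le_sub_one_of_pos (show (0 : ℝ) < 4 by norm_num)
    linarith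
  have f4 : Real.log 4 + Real.log (Real.log (4 * Q)) + Real.log (k : ℝ) ≤ 8 * q := by linarith
  have f5 : Real.log (4 * Q) - 8 * q ≤ Real.log ((n : ℝ) / k) := by
    rw [e2]
    linarith only [e3, e4, e5, f4]
  have f6 : (k : ℝ) * (Real.log (4 * Q) - 8 * q) ≤ k * Real.log ((n : ℝ) / k) :=
    mul_le_mul_of_nonneg_left f5 hkpos.le
  refine le_trans ?_ f6
  -- q large
  have g1 : 64 / c ≤ q := by
    apply Real.le_sqrt_of_sq_le
    exact hs3
  have g2 : 64 ≤ c * q := by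
    rw [div_le_iff₀ hc] at g1
    linarith
  have g3 : (k : ℝ) * (8 * q) ≤ 2 * s * (8 * q) := mul_le_mul_of_nonneg_right hk1 (by positivity)
  have g4 : 2 * s * (8 * q) ≤ c / 4 * L := by
    rw [← hsL, ← hqq]
    have h11 : 0 ≤ q ^ 3 := by positivity
    have h12 : q ^ 3 * 64 ≤ q ^ 3 * (c * q) := mul_le_mul_of_nonneg_left g2 h11
    have h13 : 2 * q ^ 2 * (8 * q) = (q ^ 3 * 64) / 4 := by ring
    have h14 : c / 4 * (q ^ 2) ^ 2 = (q ^ 3 * (c * q)) / 4 := by ring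
    rw [h13, h14]
    linarith only [h12]
  have g5 : s + 2 ≤ c / 4 * L := by
    rw [← hsL]
    have h15 : q ≤ s := by
      rw [← hqq]
      nlinarith only [hq10]
    have h10 : c * q ≤ c * s := mul_le_mul_of_nonneg_left h15 hc.le
    have h16 : 64 * s ≤ (c * s) * s := mul_le_mul_of_nonneg_right (g2.trans h10) hs0.le
    have h17 : c / 4 * s ^ 2 = (c * s) * s / 4 := by ring
    rw [h17]
    linarith only [h16, hs100]
  have g6 : (2 - 4 * c) * L ≤ (k : ℝ) * Real.log (4 * Q) + Real.log (4 * Q) := by linarith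
  have g7 : (k : ℝ) * (Real.log (4 * Q) - 8 * q) = k * Real.log (4 * Q) - k * (8 * q) := by ring
  rw [g7]
  have g8 : L * (2 - 9 / 2 * c) = (2 - 4 * c) * L - c / 4 * L - c / 4 * L := by ring
  rw [g8]
  linarith only [g3, g4, g5, g6, hl2]

theorem parc (W : ℕ) (hW : 1 ≤ W) (c : ℝ) (hc : 0 < c) (hc1 : c ≤ 1 / 100) :
    ∃ T0 : ℝ, ∀ T : ℝ, T0 ≤ T →
      T ^ (4 - 8 * c) ≤ ((PPs T).card : ℝ) * (SSs T c).card * ((Jp T c : ℝ) / (8 * W)) := by
  obtain ⟨T1, h1⟩ := ParC_S c hc hc1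
  obtain ⟨Y0, hY0⟩ := Pool.Agent.FML.prM
  obtain ⟨T2, hT21, h2⟩ := asyl 4 (1 - c / 4) 1 (by linarith)
  obtain ⟨T3, hT31, h3⟩ := asy (16 * W) (1 - 2 * c - c / 4) (1 - 2 * c) (by linarith)
  obtain ⟨T4, hT41, h4⟩ := asy 2 0 (1 - 2 * c) (by linarith)
  refine ⟨max T1 (max T2 (max T3 (max T4 (max (Y0 + 1) 2)))), fun T hT => ?_⟩
  have hTa : T1 ≤ T := (le_max_left _ _).trans hT
  have hT' := (le_max_right _ _).trans hT
  have hTb : T2 ≤ T := (le_max_left _ _).trans hT'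
  have hT'' := (le_max_right _ _).trans hT'
  have hTc : T3 ≤ T := (le_max_left _ _).trans hT''
  have hT3 := (le_max_right _ _).trans hT''
  have hTd : T4 ≤ T := (le_max_left _ _).trans hT3
  have hT4 := (le_max_right _ _).trans hT3
  have hTe : (Y0 : ℝ) + 1 ≤ T := (le_max_left _ _).trans hT4
  have hTf : (2 : ℝ) ≤ T := (le_max_right _ _).trans hT4
  have hT0 : (0 : ℝ) < T := by linarith
  have hWr : (1 : ℝ) ≤ (W : ℝ) := by exact_mod_cast hW
  have hL0 : 0 < Real.log T := Real.log_pos (by linarith)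
  have a1 := h1 T hTa
  have a2 : T ^ (1 - c / 4) ≤ ((PPs T).card : ℝ) := by
    have hY : Y0 ≤ ⌊T⌋₊ := Nat.le_floor (by linarith)
    have b1 := hY0 ⌊T⌋₊ hY
    have b2 : T < (⌊T⌋₊ : ℝ) + 1 := Nat.lt_floor_add_one T
    have b3 : (⌊T⌋₊ : ℝ) ≤ T := Nat.floor_le hT0.le
    have b4 : 1 ≤ ⌊T⌋₊ := Nat.le_floor (by norm_num; linarith)
    have b5 : (1 : ℝ) ≤ (⌊T⌋₊ : ℝ) := by exact_mod_cast b4
    have b6 : Real.log (⌊T⌋₊ : ℝ) ≤ Real.log T := Real.log_le_log (by linarith) b3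
    have b7 : (0 : ℝ) ≤ ((PPs T).card : ℝ) := Nat.cast_nonneg _
    have b8 : (⌊T⌋₊ : ℝ) ≤ 2 * Real.log T * ((PPs T).card : ℝ) := by
      refine b1.trans ?_
      exact mul_le_mul_of_nonneg_right (by linarith) (Nat.cast_nonneg _)
    have b9 := h2 T hTb
    rw [Real.rpow_one] at b9
    have b10 : T / 2 ≤ (⌊T⌋₊ : ℝ) := by linarith
    have b11 : 4 * Real.log T * T ^ (1 - c / 4) ≤ 4 * Real.log T * ((PPs T).card : ℝ) := by linarith
    exact le_of_mul_le_mul_left b11 (by positivity)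
  have a3 : T ^ (1 - 2 * c - c / 4) ≤ (Jp T c : ℝ) / (8 * W) := by
    have b1 : T ^ (1 - 2 * c) < (Jp T c : ℝ) + 1 := Nat.lt_floor_add_one _
    have b2 := h4 T hTd
    rw [Real.rpow_zero] at b2
    have b3 := h3 T hTc
    rw [le_div_iff₀ (by positivity)]
    have b4 : T ^ (1 - 2 * c) / 2 ≤ (Jp T c : ℝ) := by linarith
    linarith
  have e : T ^ (4 - 8 * c) ≤ T ^ (1 - c / 4) * T ^ (2 - 9 / 2 * c) * T ^ (1 - 2 * c - c / 4) := by
    rw [← Real.rpow_add hT0, ← Real.rpow_add hT0]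
    exact Real.rpow_le_rpow_of_exponent_le (by linarith) (by linarith)
  refine e.trans ?_
  have p1 : 0 ≤ T ^ (1 - c / 4) := Real.rpow_nonneg hT0.le _
  have p2 : 0 ≤ T ^ (2 - 9 / 2 * c) := Real.rpow_nonneg hT0.le _
  have p3 : 0 ≤ T ^ (1 - 2 * c - c / 4) := Real.rpow_nonneg hT0.le _
  exact mul_le_mul (mul_le_mul a2 a1 p2 (Nat.cast_nonneg _)) a3 p3
    (mul_nonneg (Nat.cast_nonneg _) (Nat.cast_nonneg _))

end Pool.Agent.SMP
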