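import Pool.Agent.SMP.FamC
import Pool.Agent.SMP.Jgo
import Pool.Agent.SMP.Fib
import Pool.Agent.SMP.ParC
import Pool.Agent.FTA.Fib

/-!
# SMP/FamN (size 3): THEOREM A

PROOF.  `T ≥ T0` (with `famc`, `jgo`, `fibS`, `parc`).  Let `B p1 S` be the set of `jgo`.  Let `Ω` be the finite set of the
triples `(p1, S, j)`, `p1 ∈ PPs`, `S ∈ SSs`, `j ∈ B p1 S`; `#Ω ≥ #PPs #SSs J / (8 W) ≥ T ^ (4 - 8 c)`.  For a triple let `v = (p1, y)` be
the vector of `famc` (choice), `V` the image of `Ω`.  Over an element `(p1, y)` of `V` there are at most `T ^ c`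
triples: `p1` is given, `pS S * j = y 0 y 1 y 2` is given (`fibS`).  `#Ω ≤ T ^ c #V` (`Finset.card_le_mul_card_image` in real
form, or `Pool.Agent.FTA.fib_const` in Pool/Agent/FTA/Fib.lean).
-/

set_option autoImplicit false

namespace Pool.Agent.SMP

open Pool.Agent.SLB (V3 det3)

theorem famn (W : ℕ) (hW : WP W) (c : ℝ) (hc : 0 < c) (hc1 : c ≤ 1 / 100) :
    ∃ T0 : ℝ, ∀ T : ℝ, T0 ≤ T → ∃ V : Finset (ℕ × V3),
      (∀ v ∈ V, ∃ m : ℕ, Fam W T c v.1 v.2 m) ∧ T ^ (4 - 9 * c) ≤ (V.card : ℝ) := by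
  classical
  obtain ⟨T1, h1⟩ := famc W hW c hc hc1
  obtain ⟨T2, h2⟩ := jgo W hW c hc hc1
  obtain ⟨T3, h3⟩ := fibS c hc hc1 W
  obtain ⟨T4, h4⟩ := parc W hW.one c hc hc1
  refine ⟨max (max T1 T2) (max (max T3 T4) 1), ?_⟩
  intro T hT
  have hT1 : T1 ≤ T := le_trans (le_trans (le_max_left _ _) (le_max_left _ _)) hT
  have hT2 : T2 ≤ T := le_trans (le_trans (le_max_right _ _) (le_max_left _ _)) hT
  have hT3 : T3 ≤ T := le_trans (le_trans (le_trans (le_max_left _ _) (le_max_left _ _))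
    (le_max_right _ _)) hT
  have hT4 : T4 ≤ T := le_trans (le_trans (le_trans (le_max_right _ _) (le_max_left _ _))
    (le_max_right _ _)) hT
  have hT5 : (1 : ℝ) ≤ T := le_trans (le_trans (le_max_right _ _) (le_max_right _ _)) hT
  have hT0 : (0 : ℝ) < T := by linarith
  have g1 := h1 T hT1
  have g2 := h2 T hT2
  have g3 := h3 T hT3
  have g4 := h4 T hT4
  choose! B hB using g2
  choose! Y M hY using g1
  set Ω : Finset (Σ _ : ℕ × Finset ℕ, ℕ) :=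
    (PPs T ×ˢ SSs T c).sigma (fun x => B x.1 x.2) with hΩ
  have hmem : ∀ x ∈ Ω, x.1.1 ∈ PPs T ∧ x.1.2 ∈ SSs T c ∧ x.2 ∈ B x.1.1 x.1.2 := by
    intro x hx
    rw [hΩ, Finset.mem_sigma, Finset.mem_product] at hx
    exact ⟨hx.1.1, hx.1.2, hx.2⟩
  have hF : ∀ x ∈ Ω, x.2 ∈ AAs W T c ∧
      Fam W T c x.1.1 (Y x.1.1 x.1.2 x.2) (M x.1.1 x.1.2 x.2) ∧
      (Y x.1.1 x.1.2 x.2) 0 * (Y x.1.1 x.1.2 x.2) 1 * (Y x.1.1 x.1.2 x.2) 2
        = ((pS x.1.2 * x.2 : ℕ) : ℤ) := by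
    intro x hx
    obtain ⟨ha, hb, hj⟩ := hmem x hx
    obtain ⟨hs, hg, -⟩ := hB _ ha _ hb
    exact ⟨hs hj, hY _ ha _ hb _ (hs hj) (hg _ hj)⟩
  let F : (Σ _ : ℕ × Finset ℕ, ℕ) → ℕ × V3 := fun x => (x.1.1, Y x.1.1 x.1.2 x.2)
  refine ⟨Ω.image F, ?_, ?_⟩
  · intro v hv
    obtain ⟨x, hx, rfl⟩ := Finset.mem_image.1 hv
    exact ⟨_, (hF x hx).2.1⟩
  -- the lower bound for `Ω`
  have hlow : T ^ (4 - 8 * c) ≤ (Ω.card : ℝ) := by
    refine le_trans g4 ?_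
    rw [hΩ, Finset.card_sigma]
    push_cast
    have : ∑ _x ∈ PPs T ×ˢ SSs T c, ((Jp T c : ℝ) / (8 * W))
        ≤ ∑ x ∈ PPs T ×ˢ SSs T c, ((B x.1 x.2).card : ℝ) := by
      refine Finset.sum_le_sum ?_
      intro x hx
      rw [Finset.mem_product] at hx
      exact (hB _ hx.1 _ hx.2).2.2
    refine le_trans (le_of_eq ?_) this
    rw [Finset.sum_const, Finset.card_product, nsmul_eq_mul]
    push_cast
    ring
  have hfib : (Ω.card : ℝ) ≤ ((Ω.image F).card : ℝ) * T ^ c := by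
    refine Pool.Agent.FTA.fib_const Ω F (Ω.image F) (fun a ha => Finset.mem_image_of_mem F ha) _ ?_
    intro v _
    have hinj : Set.InjOn (fun x : (Σ _ : ℕ × Finset ℕ, ℕ) => (x.1.2, x.2))
        ↑(Ω.filter (fun a => F a = v)) := by
      intro x hx x' hx' hxx
      rw [Finset.mem_coe, Finset.mem_filter] at hx hx'
      have e1 : x.1.1 = x'.1.1 := by
        have := congrArg Prod.fst (hx.2.trans hx'.2.symm)
        exact this
      have e2 : x.1.2 = x'.1.2 := congrArg Prod.fst hxx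
      have e3 : x.2 = x'.2 := congrArg Prod.snd hxx
      obtain ⟨⟨a, b⟩, d⟩ := x
      obtain ⟨⟨a', b'⟩, d'⟩ := x'
      simp only at e1 e2 e3
      subst e1 e2 e3
      rfl
    rw [← Finset.card_image_of_injOn hinj]
    refine g3 ((v.2 0 * v.2 1 * v.2 2).toNat) _ ?_
    intro q hq
    obtain ⟨x, hx, rfl⟩ := Finset.mem_image.1 hq
    rw [Finset.mem_filter] at hx
    obtain ⟨ha, hb, -⟩ := hmem x hx.1
    obtain ⟨hj, -, hp⟩ := hF x hx.1
    refine ⟨hb, hj, ?_⟩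
    have e : v.2 = Y x.1.1 x.1.2 x.2 := by rw [← hx.2]
    rw [e, hp, Int.toNat_natCast]
  have hpos : (0 : ℝ) < T ^ c := Real.rpow_pos_of_pos hT0 c
  have hsplit : T ^ (4 - 9 * c) * T ^ c = T ^ (4 - 8 * c) := by
    rw [← Real.rpow_add hT0]
    congr 1
    ring
  have : T ^ (4 - 9 * c) * T ^ c ≤ ((Ω.image F).card : ℝ) * T ^ c := by
    rw [hsplit]
    exact le_trans hlow hfib
  exact le_of_mul_le_mul_right this hpos

end Pool.Agent.SMP
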