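import Pool.Agent.SMP.Pln
import Pool.Agent.SMP.SbA

/-!
# SMP/Ind (size 4): (P8) three independent short vectors of the lattice

PROOF.  `A0 ≥ 1` (since `55 m ≤ A0 r`, `m ≥ 1`).  The `A0 ^ 3` points of `{0, …, A0 - 1} ^ 3` are mapped to
`(e 0 x 1 - e 1 x 0, e 0 x 2 - e 2 x 0)` modulo `m`: `m ^ 2` values (`ZMod m × ZMod m`), so some fibre has `f` elements with
`A0 ^ 3 ≤ f m ^ 2` (`Finset.exists_le_card_fiber_of_mul_le_card_of_maps_to` or
`Finset.card_le_mul_card_image`).  Let `q0` be in this fibre and `Q` the set of the `q - q0`: `Q ⊆ Lam m e` (the third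
congruence `e 1 x 2 ≡ e 2 x 1` follows by multiplying by `e 0`, which is prime to `m`), `|q i| ≤ A0`, `0 ∈ Q`, `A0 ^ 3 ≤ #Q m ^ 2`.
If some `det3 ≠ 0` on `Q`: done.  Otherwise: if all `cr q q' = 0` on `Q` choose any primitive `κ` orthogonal to `Q`...
simplest: in this case `lin` with `s = r ^ 2 / 3` gives `#Q ≤ 6 A0 / r ^ 2 + 1`.  If `cr q q' ≠ 0` for a pair let `κ` be the primitive
vector proportional to it (`primOf`); `dt κ q'' = 0` for all `q'' ∈ Q` (`det3 q q' q'' = 0`), and `pln` with `U = Lam m e`,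
`m1 = 1` (`sbA_cr`), `B = A0`, `K = r` gives `#Q ≤ 12 A0 / r ^ 2 + 2 + 54 A0 ^ 2 / (m r)`.
In both cases `A0 ^ 3 / m ^ 2 ≤ 12 A0 / r ^ 2 + 2 + 54 A0 ^ 2 / (m r)`.  Multiply by `r ^ 3 / m ≤ 1` (`Lat.r3`): `a = A0 r / m ≥ 55`,
`a ^ 3 ≤ 12 a + 2 + 54 a ^ 2` (`12 A0 / r ^ 2 * r ^ 3 / m = 12 a`, `2 r ^ 3 / m ≤ 2`), which is false for `a ≥ 55`.
-/

set_option autoImplicit false

namespace Pool.Agent.SMP

open Pool.Agent.SLB (V3 det3)

private theorem mem_lam_of {m : ℕ} {e h : V3} (he : IsCoprime (e 0) (m : ℤ))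
    (h1 : (m : ℤ) ∣ e 0 * h 1 - e 1 * h 0) (h2 : (m : ℤ) ∣ e 0 * h 2 - e 2 * h 0) : h ∈ Lam m e := by
  have k01 : (m : ℤ) ∣ h 0 * e 1 - h 1 * e 0 := by
    have := (dvd_neg (a := (m : ℤ))).2 h1
    have e1 : h 0 * e 1 - h 1 * e 0 = -(e 0 * h 1 - e 1 * h 0) := by ring
    rw [e1]; exact this
  have k02 : (m : ℤ) ∣ h 0 * e 2 - h 2 * e 0 := by
    have := (dvd_neg (a := (m : ℤ))).2 h2
    have e1 : h 0 * e 2 - h 2 * e 0 = -(e 0 * h 2 - e 2 * h 0) := by ring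
    rw [e1]; exact this
  have k12 : (m : ℤ) ∣ h 1 * e 2 - h 2 * e 1 := by
    have h3 : (m : ℤ) ∣ e 0 * (h 1 * e 2 - h 2 * e 1) := by
      have e1 : e 0 * (h 1 * e 2 - h 2 * e 1)
          = e 2 * (e 0 * h 1 - e 1 * h 0) - e 1 * (e 0 * h 2 - e 2 * h 0) := by ring
      rw [e1]
      exact dvd_sub (Dvd.dvd.mul_left h1 _) (Dvd.dvd.mul_left h2 _)
    exact he.symm.dvd_of_dvd_mul_left h3
  have neg : ∀ a b : Fin 3, (m : ℤ) ∣ h a * e b - h b * e a → (m : ℤ) ∣ h b * e a - h a * e b := by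
    intro a b hab
    have := (dvd_neg (a := (m : ℤ))).2 hab
    have e1 : h b * e a - h a * e b = -(h a * e b - h b * e a) := by ring
    rw [e1]; exact this
  rw [mem_Lam]
  intro a b
  fin_cases a <;> fin_cases b
  · simp
  · exact k01
  · exact k02
  · exact neg 0 1 k01
  · simp
  · exact k12
  · exact neg 0 2 k02
  · exact neg 1 2 k12
  · simp

theorem indv {m r : ℕ} {e : V3} (hL : Lat m e r) (A0 : ℕ) (hA : 55 * m ≤ A0 * r) :
    ∃ h1 ∈ Lam m e, ∃ h2 ∈ Lam m e, ∃ h3 ∈ Lam m e,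
      (∀ i, |h1 i| ≤ (A0 : ℤ) ∧ |h2 i| ≤ (A0 : ℤ) ∧ |h3 i| ≤ (A0 : ℤ)) ∧ det3 h1 h2 h3 ≠ 0 := by
  classical
  have hm1 : 1 ≤ m := hL.hm
  have hr1 : 1 ≤ r := hL.hr
  have : NeZero m := ⟨by omega⟩
  have hA0 : 1 ≤ A0 := by
    rcases Nat.eq_zero_or_pos A0 with h | h
    · rw [h] at hA; omega
    · exact h
  obtain ⟨B, hB⟩ : ∃ B : Finset V3, B = Fintype.piFinset (fun _ : Fin 3 => Finset.Ico (0 : ℤ) A0) := ⟨_, rfl⟩
  have hBc : B.card = A0 ^ 3 := by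
    rw [hB, Fintype.card_piFinset]
    simp
  have hBm : ∀ x ∈ B, ∀ i, 0 ≤ x i ∧ x i < A0 := by
    intro x hx i
    rw [hB, Fintype.mem_piFinset] at hx
    exact Finset.mem_Ico.1 (hx i)
  obtain ⟨φ, hφ⟩ : ∃ φ : V3 → ZMod m × ZMod m, φ = fun x =>
    (((e 0 * x 1 - e 1 * x 0 : ℤ) : ZMod m), ((e 0 * x 2 - e 2 * x 0 : ℤ) : ZMod m)) := ⟨_, rfl⟩
  obtain ⟨t, _, ht⟩ := Finset.exists_max_image (Finset.univ : Finset (ZMod m × ZMod m))
    (fun t => (B.filter (fun x => φ x = t)).card) Finset.univ_nonempty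
  obtain ⟨F, hF⟩ : ∃ F : Finset V3, F = B.filter (fun x => φ x = t) := ⟨_, rfl⟩
  have hcount : A0 ^ 3 ≤ m ^ 2 * F.card := by
    calc A0 ^ 3 = B.card := hBc.symm
      _ = ∑ t' ∈ (Finset.univ : Finset (ZMod m × ZMod m)), (B.filter (fun x => φ x = t')).card :=
          Finset.card_eq_sum_card_fiberwise (fun x _ => Finset.mem_univ _)
      _ ≤ ∑ _t' ∈ (Finset.univ : Finset (ZMod m × ZMod m)), F.card := by
          apply Finset.sum_le_sum
          intro t' _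
          rw [hF]; exact ht t' (Finset.mem_univ _)
      _ = m ^ 2 * F.card := by
          rw [Finset.sum_const, smul_eq_mul, Finset.card_univ, Fintype.card_prod, ZMod.card]
          ring
  have hFne : F.Nonempty := by
    rw [← Finset.card_pos]
    rcases Nat.eq_zero_or_pos F.card with h | h
    · rw [h, mul_zero] at hcount
      have : 0 < A0 ^ 3 := by positivity
      omega
    · exact h
  obtain ⟨q0, hq0⟩ := hFne
  have hFm : ∀ x ∈ F, x ∈ B ∧ φ x = t := by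
    intro x hx
    rw [hF, Finset.mem_filter] at hx
    exact hx
  obtain ⟨Q, hQ⟩ : ∃ Q : Finset V3, Q = F.image (fun q => q - q0) := ⟨_, rfl⟩
  have hQc : Q.card = F.card := by
    rw [hQ]
    apply Finset.card_image_of_injective
    intro x y hxy
    exact sub_left_injective hxy
  have hQL : ∀ q ∈ Q, q ∈ Lam m e := by
    intro q hq
    rw [hQ, Finset.mem_image] at hq
    obtain ⟨x, hx, rfl⟩ := hq
    have h1 := (hFm x hx).2.trans (hFm q0 hq0).2.symm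
    rw [hφ] at h1
    simp only [Prod.mk.injEq] at h1
    apply mem_lam_of (hL.co 0)
    · have h2 := (ZMod.intCast_eq_intCast_iff_dvd_sub _ _ _).1 h1.1
      have h3 := (dvd_neg (a := (m : ℤ))).2 h2
      have e1 : e 0 * (x - q0) 1 - e 1 * (x - q0) 0
          = -(e 0 * q0 1 - e 1 * q0 0 - (e 0 * x 1 - e 1 * x 0)) := by
        simp only [Pi.sub_apply]; ring
      rw [e1]; exact h3
    · have h2 := (ZMod.intCast_eq_intCast_iff_dvd_sub _ _ _).1 h1.2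
      have h3 := (dvd_neg (a := (m : ℤ))).2 h2
      have e1 : e 0 * (x - q0) 2 - e 2 * (x - q0) 0
          = -(e 0 * q0 2 - e 2 * q0 0 - (e 0 * x 2 - e 2 * x 0)) := by
        simp only [Pi.sub_apply]; ring
      rw [e1]; exact h3
  have hQb : ∀ q ∈ Q, ∀ i, |q i| ≤ (A0 : ℤ) := by
    intro q hq i
    rw [hQ, Finset.mem_image] at hq
    obtain ⟨x, hx, rfl⟩ := hq
    have h1 := hBm x (hFm x hx).1 i
    have h2 := hBm q0 (hFm q0 hq0).1 i
    rw [Pi.sub_apply, abs_le]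
    constructor <;> linarith [h1.1, h1.2, h2.1, h2.2]
  by_cases hdet : ∃ a ∈ Q, ∃ b ∈ Q, ∃ c ∈ Q, det3 a b c ≠ 0
  · obtain ⟨a, ha, b, hb, c, hc, hne⟩ := hdet
    exact ⟨a, hQL a ha, b, hQL b hb, c, hQL c hc, fun i => ⟨hQb a ha i, hQb b hb i, hQb c hc i⟩, hne⟩
  exfalso
  push Not at hdet
  have hmR : (1 : ℝ) ≤ m := by exact_mod_cast hm1
  have hrR : (1 : ℝ) ≤ r := by exact_mod_cast hr1
  have hm0 : (0 : ℝ) < m := by linarith
  have hr0 : (0 : ℝ) < r := by linarith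
  have hA0R : (1 : ℝ) ≤ A0 := by exact_mod_cast hA0
  have key : (Q.card : ℝ) ≤ 12 * A0 / (r : ℝ) ^ 2 + 2 + 54 * (A0 : ℝ) ^ 2 / (m * r) := by
    by_cases hcr : ∀ q ∈ Q, ∀ q' ∈ Q, ∀ a b : Fin 3, q a * q' b = q b * q' a
    · have h1 := lin Q hcr (A0 : ℝ) ((r : ℝ) ^ 2 / 3) (by positivity) (by positivity)
        (by
          intro q hq i
          have := hQb q hq i
          have h2 : ((|q i| : ℤ) : ℝ) ≤ ((A0 : ℤ) : ℝ) := by exact_mod_cast this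
          rw [Int.cast_abs] at h2
          simpa using h2)
        (by
          intro q hq q' hq' hne
          obtain ⟨i, hi⟩ := shv' hL (q - q') ((Lam m e).sub_mem (hQL q hq) (hQL q' hq')) (sub_ne_zero.2 hne)
          exact ⟨i, by simpa using hi⟩)
      have h2 : 2 * (A0 : ℝ) / ((r : ℝ) ^ 2 / 3) = 6 * A0 / (r : ℝ) ^ 2 := by
        field_simp
        ring
      rw [h2] at h1
      have h3 : 0 ≤ 54 * (A0 : ℝ) ^ 2 / (m * r) := by positivity
      have h4 : 6 * (A0 : ℝ) / (r : ℝ) ^ 2 ≤ 12 * A0 / (r : ℝ) ^ 2 := by gcongr; norm_num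
      linarith
    · push Not at hcr
      obtain ⟨q1, hq1, q2, hq2, a, b, hab⟩ := hcr
      have hcne : cr q1 q2 ≠ 0 := by
        intro h0
        have c0 : q1 1 * q2 2 - q1 2 * q2 1 = 0 := congrFun h0 0
        have c1 : q1 2 * q2 0 - q1 0 * q2 2 = 0 := congrFun h0 1
        have c2 : q1 0 * q2 1 - q1 1 * q2 0 = 0 := congrFun h0 2
        apply hab
        fin_cases a <;> fin_cases b <;> simp only [Fin.zero_eta, Fin.mk_one, Fin.reduceFinMk] <;> linarith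
      obtain ⟨d, κ, hd, hκ, hdk⟩ := primOf (cr q1 q2) hcne
      have horth : ∀ q ∈ Q, dt κ q = 0 := by
        intro q hq
        have h1 : d * dt κ q = det3 q1 q2 q := by
          have e0 : q1 1 * q2 2 - q1 2 * q2 1 = d * κ 0 := hdk 0
          have e1 : q1 2 * q2 0 - q1 0 * q2 2 = d * κ 1 := hdk 1
          have e2 : q1 0 * q2 1 - q1 1 * q2 0 = d * κ 2 := hdk 2
          unfold dt det3
          linear_combination (-q 0) * e0 - q 1 * e1 - q 2 * e2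
        rw [hdet q1 hq1 q2 hq2 q hq] at h1
        rcases mul_eq_zero.1 h1 with h2 | h2
        · omega
        · exact h2
      have h1 := pln hL κ hκ (Lam m e) le_rfl 1 le_rfl
        (by
          intro h hh h' hh'
          obtain ⟨w, hw, hw2⟩ := sbA_cr hm1 hL.co hh hh'
          exact ⟨w, hw, fun i => by rw [hw2 i]; push_cast; ring⟩)
        A0 r hr1 (Or.inl le_rfl) Q (fun q hq => ⟨hQL q hq, horth q hq, hQb q hq⟩)
      simpa using h1
  have hcR : (A0 : ℝ) ^ 3 ≤ (m : ℝ) ^ 2 * Q.card := by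
    rw [hQc]; exact_mod_cast hcount
  have hr3 : (r : ℝ) ^ 3 ≤ m := by exact_mod_cast hL.r3
  obtain ⟨α, hα⟩ : ∃ α : ℝ, α = A0 * r / m := ⟨_, rfl⟩
  have hα55 : 55 ≤ α := by
    rw [hα, le_div_iff₀ hm0]
    exact_mod_cast hA
  have hfin : α ^ 3 ≤ 12 * α + 2 + 54 * α ^ 2 := by
    have h1 : (A0 : ℝ) ^ 3 / (m : ℝ) ^ 2 ≤ 12 * A0 / (r : ℝ) ^ 2 + 2 + 54 * (A0 : ℝ) ^ 2 / (m * r) := by
      rw [div_le_iff₀ (by positivity)]
      calc (A0 : ℝ) ^ 3 ≤ (m : ℝ) ^ 2 * Q.card := hcR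
        _ = Q.card * (m : ℝ) ^ 2 := by ring
        _ ≤ _ := by gcongr
    have h2 : (r : ℝ) ^ 3 / m ≤ 1 := by rw [div_le_one hm0]; exact hr3
    calc α ^ 3 = (A0 : ℝ) ^ 3 / (m : ℝ) ^ 2 * ((r : ℝ) ^ 3 / m) := by rw [hα]; field_simp
      _ ≤ (12 * A0 / (r : ℝ) ^ 2 + 2 + 54 * (A0 : ℝ) ^ 2 / (m * r)) * ((r : ℝ) ^ 3 / m) := by gcongr
      _ = 12 * α + 2 * ((r : ℝ) ^ 3 / m) + 54 * α ^ 2 := by rw [hα]; field_simp
      _ ≤ 12 * α + 2 + 54 * α ^ 2 := by linarith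
  nlinarith [mul_nonneg (sub_nonneg.2 hα55) (sq_nonneg α), mul_nonneg (sub_nonneg.2 hα55) (by linarith : (0:ℝ) ≤ α)]

end Pool.Agent.SMP
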