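import Pool.Agent.SMP.Defs

/-!
# SMP/Kap (size 3): (P3) a short vector orthogonal to `g`

PROOF of `kap`.  The `(H + 1) ^ 3` vectors `k ∈ [0, H] ^ 3` have `dt k g` in an interval `[-H N1, H N2]`, `N1 + N2 = ∑ |g i| ≤ 3 B`,
with at most `3 H B + 1` integers; `(H + 1) ^ 3 > H ^ 3 + 1 > ...`: `H ^ 3 ≥ 3 H B`, so `(H + 1) ^ 3 > 3 H B + 1`
(`H ≥ 1` as `B ≥ 1`).  Two different `k, k'` have the same `dt`; `w = k - k' ≠ 0`, `|w i| ≤ H`, `dt w g = 0`.
`d = gcd (w 0, w 1, w 2) ≥ 1` (`Int.gcd (w 0) (Int.gcd (w 1) (w 2))`), `w = d k0`, `dt k0 g = 0`, `|k0 i| ≤ |w i| ≤ H`, and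
`k0` is primitive: Bezout (`Int.gcd_eq_gcd_ab`) gives `a` with `dt a w = d`, so `dt a k0 = 1`.
PROOF of `kapM`.  `m ∣ g 0 * dt k e - e 0 * dt k g` (sum of `k j (g 0 e j - g j e 0)`), `dt k g = 0`, `g 0` is prime to `m`.
PROOF of `crp`.  `Prim w`: `dt a w = 1`; `cr k k' = t w` with `t = dt a (cr k k')`: identity
`(dt a w) cr k k' = (dt a (cr k k')) w + (terms with dt k w, dt k' w)` (compare
`Pool.Agent.SMQ.crp` in Pool/Agent/SMQ/Crs.lean).
-/

set_option autoImplicit false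

namespace Pool.Agent.SMP

open Pool.Agent.SLB (V3 det3)

/-- a primitive vector proportional to a given nonzero vector -/
theorem primOf (w : V3) (hw : w ≠ 0) : ∃ (d : ℤ) (k : V3), 1 ≤ d ∧ Prim k ∧ ∀ i, w i = d * k i := by
  have hd0 : ((Int.gcd (w 0) (Int.gcd (w 1) (w 2) : ℕ) : ℕ) : ℤ) ∣ w 0 := Int.gcd_dvd_left ..
  have hdg : ((Int.gcd (w 0) (Int.gcd (w 1) (w 2) : ℕ) : ℕ) : ℤ) ∣ ((Int.gcd (w 1) (w 2) : ℕ) : ℤ) :=
    Int.gcd_dvd_right ..
  have hd1 : ((Int.gcd (w 0) (Int.gcd (w 1) (w 2) : ℕ) : ℕ) : ℤ) ∣ w 1 :=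
    hdg.trans (Int.gcd_dvd_left ..)
  have hd2 : ((Int.gcd (w 0) (Int.gcd (w 1) (w 2) : ℕ) : ℕ) : ℤ) ∣ w 2 :=
    hdg.trans (Int.gcd_dvd_right ..)
  have hb1 := Int.gcd_eq_gcd_ab (w 0) ((Int.gcd (w 1) (w 2) : ℕ) : ℤ)
  have hb2 := Int.gcd_eq_gcd_ab (w 1) (w 2)
  generalize Int.gcdA (w 0) ((Int.gcd (w 1) (w 2) : ℕ) : ℤ) = x at hb1
  generalize Int.gcdB (w 0) ((Int.gcd (w 1) (w 2) : ℕ) : ℤ) = y at hb1
  generalize Int.gcdA (w 1) (w 2) = x2 at hb2
  generalize Int.gcdB (w 1) (w 2) = y2 at hb2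
  have hpos : 0 < Int.gcd (w 0) (Int.gcd (w 1) (w 2) : ℕ) := by
    rw [Nat.pos_iff_ne_zero]
    intro h0
    rw [Int.gcd_eq_zero_iff] at h0
    obtain ⟨h0, h1⟩ := h0
    have h1' : Int.gcd (w 1) (w 2) = 0 := by exact_mod_cast h1
    rw [Int.gcd_eq_zero_iff] at h1'
    apply hw
    funext i
    fin_cases i
    · exact h0
    · exact h1'.1
    · exact h1'.2
  generalize Int.gcd (w 0) (Int.gcd (w 1) (w 2) : ℕ) = d at *
  obtain ⟨k0, hk0⟩ := hd0
  obtain ⟨k1, hk1⟩ := hd1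
  obtain ⟨k2, hk2⟩ := hd2
  have hdz : (d : ℤ) ≠ 0 := by
    have : (0 : ℤ) < d := by exact_mod_cast hpos
    omega
  refine ⟨d, ![k0, k1, k2], by exact_mod_cast hpos, ⟨![x, x2 * y, y2 * y], ?_⟩, ?_⟩
  · have h1 : (d : ℤ) * (x * k0 + x2 * y * k1 + y2 * y * k2) = d * 1 := by
      have e1 : (d : ℤ) * (x * k0 + x2 * y * k1 + y2 * y * k2)
          = (d * k0) * x + ((d * k1) * x2 + (d * k2) * y2) * y := by ring
      rw [e1, ← hk0, ← hk1, ← hk2, ← hb2, mul_one]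
      exact hb1.symm
    have h2 := mul_left_cancel₀ hdz h1
    show x * k0 + x2 * y * k1 + y2 * y * k2 = 1
    exact h2
  · intro i
    fin_cases i
    · exact hk0
    · exact hk1
    · exact hk2

private lemma term_bd (a t : ℤ) (H : ℤ) (h0 : 0 ≤ t) (h1 : t ≤ H) :
    min 0 a * H ≤ t * a ∧ t * a ≤ max 0 a * H := by
  rcases le_total 0 a with h | h
  · rw [min_eq_left h, max_eq_right h]
    constructor
    · nlinarith [mul_nonneg h0 h]
    · nlinarith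
  · rw [min_eq_right h, max_eq_left h]
    constructor
    · nlinarith
    · nlinarith [mul_nonneg h0 (neg_nonneg.2 h)]

private lemma mm_abs (a : ℤ) : max 0 a - min 0 a = |a| := by
  rcases le_total 0 a with h | h
  · rw [min_eq_left h, max_eq_right h, abs_of_nonneg h]; ring
  · rw [min_eq_right h, max_eq_left h, abs_of_nonpos h]; ring

theorem kap (g : V3) (B H : ℕ) (hB : 1 ≤ B) (hg : ∀ i, |g i| ≤ (B : ℤ)) (hH : 3 * B ≤ H ^ 2) :
    ∃ k : V3, Prim k ∧ dt k g = 0 ∧ ∀ i, |k i| ≤ (H : ℤ) := by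
  classical
  have hH1 : 1 ≤ H := by
    rcases Nat.eq_zero_or_pos H with h | h
    · subst h
      simp at hH
      omega
    · exact h
  have hex : ∃ k ∈ Fintype.piFinset (fun _ : Fin 3 => Finset.Icc (0 : ℤ) (H : ℤ)),
      ∃ k' ∈ Fintype.piFinset (fun _ : Fin 3 => Finset.Icc (0 : ℤ) (H : ℤ)),
        k ≠ k' ∧ dt k g = dt k' g := by
    refine Finset.exists_ne_map_eq_of_card_lt_of_maps_to
      (t := Finset.Icc ((min 0 (g 0) + min 0 (g 1) + min 0 (g 2)) * (H : ℤ))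
        ((max 0 (g 0) + max 0 (g 1) + max 0 (g 2)) * (H : ℤ))) ?_ ?_
    · have hc : (Fintype.piFinset (fun _ : Fin 3 => Finset.Icc (0 : ℤ) (H : ℤ))).card
          = (H + 1) ^ 3 := by
        rw [Fintype.card_piFinset]
        simp
      rw [hc, Int.card_Icc]
      have h1 : (max 0 (g 0) + max 0 (g 1) + max 0 (g 2)) * (H : ℤ) + 1
          - (min 0 (g 0) + min 0 (g 1) + min 0 (g 2)) * (H : ℤ) ≤ 3 * B * H + 1 := by
        have e1 : (max 0 (g 0) + max 0 (g 1) + max 0 (g 2)) * (H : ℤ) + 1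
            - (min 0 (g 0) + min 0 (g 1) + min 0 (g 2)) * (H : ℤ)
            = (|g 0| + |g 1| + |g 2|) * H + 1 := by
          rw [← mm_abs (g 0), ← mm_abs (g 1), ← mm_abs (g 2)]
          ring
        rw [e1]
        have h2 : |g 0| + |g 1| + |g 2| ≤ 3 * B := by
          have := hg 0
          have := hg 1
          have := hg 2
          omega
        have h3 : (|g 0| + |g 1| + |g 2|) * (H : ℤ) ≤ 3 * B * H :=
          mul_le_mul_of_nonneg_right h2 (by positivity)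
        omega
      have h4 : 3 * B * H + 1 < (H + 1) ^ 3 := by
        have h5 : 3 * B * H ≤ H ^ 2 * H := Nat.mul_le_mul_right _ hH
        nlinarith
      refine lt_of_le_of_lt (Int.toNat_le_toNat h1) ?_
      have h6 : ((3 * B * H + 1 : ℤ)).toNat = 3 * B * H + 1 := by
        have : ((3 * B * H + 1 : ℤ)) = ((3 * B * H + 1 : ℕ) : ℤ) := by push_cast; ring
        rw [this, Int.toNat_natCast]
      rw [h6]
      exact h4
    · intro k hk
      rw [Finset.mem_coe, Fintype.mem_piFinset] at hk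
      rw [Finset.mem_coe, Finset.mem_Icc]
      have hk0 := Finset.mem_Icc.1 (hk 0)
      have hk1 := Finset.mem_Icc.1 (hk 1)
      have hk2 := Finset.mem_Icc.1 (hk 2)
      have t0 := term_bd (g 0) (k 0) H hk0.1 hk0.2
      have t1 := term_bd (g 1) (k 1) H hk1.1 hk1.2
      have t2 := term_bd (g 2) (k 2) H hk2.1 hk2.2
      unfold dt
      constructor
      · rw [add_mul, add_mul]
        linarith [t0.1, t1.1, t2.1]
      · rw [add_mul, add_mul]
        linarith [t0.2, t1.2, t2.2]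
  obtain ⟨k, hk, k', hk', hne, heq⟩ := hex
  rw [Fintype.mem_piFinset] at hk hk'
  have hw : k - k' ≠ 0 := sub_ne_zero.2 hne
  obtain ⟨d, q, hd, hq, hdq⟩ := primOf (k - k') hw
  refine ⟨q, hq, ?_, ?_⟩
  · have h1 : d * dt q g = 0 := by
      have e1 : d * dt q g = (d * q 0) * g 0 + (d * q 1) * g 1 + (d * q 2) * g 2 := by
        unfold dt
        ring
      rw [e1, ← hdq 0, ← hdq 1, ← hdq 2]
      have e2 : (k - k') 0 * g 0 + (k - k') 1 * g 1 + (k - k') 2 * g 2 = dt k g - dt k' g := by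
        unfold dt
        simp only [Pi.sub_apply]
        ring
      rw [e2, heq, sub_self]
    rcases mul_eq_zero.1 h1 with h | h
    · omega
    · exact h
  · intro i
    have h1 := Finset.mem_Icc.1 (hk i)
    have h2 := Finset.mem_Icc.1 (hk' i)
    have h3 : |(k - k') i| ≤ (H : ℤ) := by
      rw [Pi.sub_apply, abs_le]
      constructor <;> omega
    rw [hdq i, abs_mul] at h3
    have h4 : (1 : ℤ) ≤ |d| := le_trans hd (le_abs_self d)
    nlinarith [abs_nonneg (q i)]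

theorem kapM {m : ℕ} {e g k : V3} (hg : g ∈ Lam m e) (h0 : IsCoprime (g 0) (m : ℤ))
    (hk : dt k g = 0) : k ∈ Mm m e := by
  rw [mem_Lam] at hg
  rw [mem_Mm]
  have h1 : (m : ℤ) ∣ g 0 * dt k e := by
    have e1 : g 0 * dt k e = k 0 * (g 0 * e 0 - g 0 * e 0) + k 1 * (g 0 * e 1 - g 1 * e 0)
        + k 2 * (g 0 * e 2 - g 2 * e 0) + e 0 * dt k g := by
      unfold dt
      ring
    rw [e1, hk, mul_zero, add_zero]
    exact dvd_add (dvd_add (Dvd.dvd.mul_left (hg 0 0) _) (Dvd.dvd.mul_left (hg 0 1) _))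
      (Dvd.dvd.mul_left (hg 0 2) _)
  exact (h0.symm).dvd_of_dvd_mul_left h1

theorem crp (w k k' : V3) (h : Prim w) (hk : dt w k = 0) (hk' : dt w k' = 0) :
    ∃ t : ℤ, ∀ i, cr k k' i = t * w i := by
  obtain ⟨a, ha⟩ := h
  refine ⟨dt a (cr k k'), ?_⟩
  have c0 : cr k k' 0 = k 1 * k' 2 - k 2 * k' 1 := rfl
  have c1 : cr k k' 1 = k 2 * k' 0 - k 0 * k' 2 := rfl
  have c2 : cr k k' 2 = k 0 * k' 1 - k 1 * k' 0 := rfl
  have ht : dt a (cr k k') = a 0 * (k 1 * k' 2 - k 2 * k' 1) + a 1 * (k 2 * k' 0 - k 0 * k' 2)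
      + a 2 * (k 0 * k' 1 - k 1 * k' 0) := by
    unfold dt
    rw [c0, c1, c2]
  rw [ht]
  unfold dt at ha hk hk'
  intro i
  fin_cases i
  · show cr k k' 0 = _ * w 0
    rw [c0]
    linear_combination (-(k 1 * k' 2 - k 2 * k' 1)) * ha + (a 1 * k' 2 - a 2 * k' 1) * hk
      + (-a 1 * k 2 + a 2 * k 1) * hk'
  · show cr k k' 1 = _ * w 1
    rw [c1]
    linear_combination (-(k 2 * k' 0 - k 0 * k' 2)) * ha + (a 2 * k' 0 - a 0 * k' 2) * hk
      + (-a 2 * k 0 + a 0 * k 2) * hk'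
  · show cr k k' 2 = _ * w 2
    rw [c2]
    linear_combination (-(k 0 * k' 1 - k 1 * k' 0)) * ha + (a 0 * k' 1 - a 1 * k' 0) * hk
      + (-a 0 * k 1 + a 1 * k 0) * hk'

end Pool.Agent.SMP
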