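import Pool.Agent.SMP.Defs
import Pool.Agent.SLB.NsC

/-!
# SMP/Ns2 (size 2): (P5), (P6) points of a plane lattice; points on a line

PROOF of `ns2`.  `M` = the subgroup of the `h : V3` with `(h 0, h 1) ∈ U` (comap).  Its `det3` are divisible by `m0`:
expand along the last coordinate.  `Q' = Q.image (fun q => ![q.1, q.2, 0]) ∪ {![0, 0, 1]}`.  `det3` of three elements
of `Q'`: 0 if none or two of them are the last vector, otherwise `±(a.1 b.2 - a.2 b.1)`: `≤ R` in absolute value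
(`R ≥ 0` from `hne`), and one is nonzero.  `Pool.Agent.SLB.ns`; `#Q ≤ #Q'`.
PROOF of `lin`.  If all `q ∈ Q` are 0 then `#Q ≤ 1`.  Otherwise choose `q* ∈ Q` and `i` with `|q* i|` maximal over all
elements and coordinates (`≠ 0`).  `q j * q* i = q i * q* j` for all `q ∈ Q`.  So `|q j - q' j| |q* i| = |q i - q' i| |q* j| ≤
|q i - q' i| |q* i|`: `|q j - q' j| ≤ |q i - q' i|`, hence `|q i - q' i| ≥ s` for `q ≠ q'`.  The numbers `q i`, `q ∈ Q`, are
`s`-separated in `[-B, B]`: `q ↦ ⌊(q i + B) / s⌋` is injective with values in `[0, 2 B / s]`.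
-/

set_option autoImplicit false

namespace Pool.Agent.SMP

open Pool.Agent.SLB (V3 det3)

theorem ns2 (U : AddSubgroup (ℤ × ℤ)) (m0 : ℕ) (hm : 1 ≤ m0)
    (hdet : ∀ a ∈ U, ∀ b ∈ U, (m0 : ℤ) ∣ a.1 * b.2 - a.2 * b.1) (Q : Finset (ℤ × ℤ))
    (hQ : ∀ q ∈ Q, q ∈ U) (R : ℝ)
    (hR : ∀ a ∈ Q, ∀ b ∈ Q, |((a.1 * b.2 - a.2 * b.1 : ℤ) : ℝ)| ≤ R)
    (hne : ∃ a ∈ Q, ∃ b ∈ Q, a.1 * b.2 - a.2 * b.1 ≠ 0) : (Q.card : ℝ) ≤ 27 * R / m0 := by
  obtain ⟨a0, ha0, b0, hb0, hab⟩ := hne
  have hR0 : 0 ≤ R := by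
    have h := hR a0 ha0 a0 ha0
    exact (abs_nonneg _).trans h
  let em : ℤ × ℤ → V3 := fun q => ![q.1, q.2, 0]
  let ev : V3 := ![0, 0, 1]
  let f : V3 →+ ℤ × ℤ := AddMonoidHom.mk' (fun h => (h 0, h 1)) (by intro a b; rfl)
  let M : AddSubgroup V3 := U.comap f
  have hM : ∀ h : V3, h ∈ M ↔ (h 0, h 1) ∈ U := fun h => Iff.rfl
  have hQ' : ∀ q ∈ insert ev (Q.image em), q = ev ∨ ∃ a ∈ Q, em a = q := by
    intro q hq
    rcases Finset.mem_insert.mp hq with h | h
    · exact Or.inl h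
    · exact Or.inr (Finset.mem_image.mp h)
  have hz : |((0 : ℤ) : ℝ)| ≤ R := by simpa using hR0
  have hinj : Function.Injective em := by
    intro x y hxy
    have h1 := congrFun hxy 0
    have h2 := congrFun hxy 1
    exact Prod.ext h1 h2
  have hcard : (Q.card : ℝ) ≤ ((insert ev (Q.image em)).card : ℝ) := by
    have h1 : Q.card = (Q.image em).card := (Finset.card_image_of_injective Q hinj).symm
    have h2 : (Q.image em).card ≤ (insert ev (Q.image em)).card :=
      Finset.card_le_card (Finset.subset_insert _ _)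
    exact_mod_cast h1.le.trans h2
  refine hcard.trans (Pool.Agent.SLB.ns M m0 hm ?_ (insert ev (Q.image em)) ?_ R ?_ ?_)
  · intro a ha b hb c hc
    have h1 := hdet _ ((hM a).mp ha) _ ((hM b).mp hb)
    have h2 := hdet _ ((hM a).mp ha) _ ((hM c).mp hc)
    have h3 := hdet _ ((hM b).mp hb) _ ((hM c).mp hc)
    have e : det3 a b c = c 2 * (a 0 * b 1 - a 1 * b 0) - b 2 * (a 0 * c 1 - a 1 * c 0) +
        a 2 * (b 0 * c 1 - b 1 * c 0) := by
      unfold Pool.Agent.SLB.det3
      ring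
    rw [e]
    exact dvd_add (dvd_sub (Dvd.dvd.mul_left h1 _) (Dvd.dvd.mul_left h2 _))
      (Dvd.dvd.mul_left h3 _)
  · intro q hq
    rcases hQ' q hq with h | ⟨a, ha, h⟩
    · rw [h, hM]
      exact U.zero_mem
    · rw [← h, hM]
      exact hQ a ha
  · intro a ha b hb c hc
    rcases hQ' a ha with h | ⟨a', ha', h⟩
    · subst h
      rcases hQ' b hb with h' | ⟨b', hb', h'⟩
      · subst h'
        have e : det3 ev ev c = 0 := by
          simp [Pool.Agent.SLB.det3, ev]
        rw [e]; exact hz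
      · subst h'
        rcases hQ' c hc with h'' | ⟨c', hc', h''⟩
        · subst h''
          have e : det3 ev (em b') ev = 0 := by
            simp [Pool.Agent.SLB.det3, ev, em]
          rw [e]; exact hz
        · subst h''
          have e : det3 ev (em b') (em c') = b'.1 * c'.2 - b'.2 * c'.1 := by
            simp [Pool.Agent.SLB.det3, ev, em]
          rw [e]; exact hR b' hb' c' hc'
    · subst h
      rcases hQ' b hb with h' | ⟨b', hb', h'⟩
      · subst h'
        rcases hQ' c hc with h'' | ⟨c', hc', h''⟩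
        · subst h''
          have e : det3 (em a') ev ev = 0 := by
            simp [Pool.Agent.SLB.det3, ev, em]
          rw [e]; exact hz
        · subst h''
          have e : det3 (em a') ev (em c') = c'.1 * a'.2 - c'.2 * a'.1 := by
            simp [Pool.Agent.SLB.det3, ev, em]
            ring
          rw [e]; exact hR c' hc' a' ha'
      · subst h'
        rcases hQ' c hc with h'' | ⟨c', hc', h''⟩
        · subst h''
          have e : det3 (em a') (em b') ev = a'.1 * b'.2 - a'.2 * b'.1 := by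
            simp [Pool.Agent.SLB.det3, ev, em]
          rw [e]; exact hR a' ha' b' hb'
        · subst h''
          have e : det3 (em a') (em b') (em c') = 0 := by
            simp [Pool.Agent.SLB.det3, em]
          rw [e]; exact hz
  · refine ⟨em a0, Finset.mem_insert_of_mem (Finset.mem_image_of_mem em ha0), em b0,
      Finset.mem_insert_of_mem (Finset.mem_image_of_mem em hb0), ev,
      Finset.mem_insert_self _ _, ?_⟩
    intro h
    apply hab
    simpa [Pool.Agent.SLB.det3, em, ev] using h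

theorem lin (Q : Finset V3) (hc : ∀ q ∈ Q, ∀ q' ∈ Q, ∀ a b : Fin 3, q a * q' b = q b * q' a)
    (B s : ℝ) (hB0 : 0 ≤ B) (hs : 0 < s) (hB : ∀ q ∈ Q, ∀ i, |(q i : ℝ)| ≤ B)
    (hsep : ∀ q ∈ Q, ∀ q' ∈ Q, q ≠ q' → ∃ i, s ≤ |((q i - q' i : ℤ) : ℝ)|) :
    (Q.card : ℝ) ≤ 2 * B / s + 1 := by
  by_cases h0 : ∀ q ∈ Q, ∀ j, q j = 0
  · have h1 : Q.card ≤ 1 := by
      apply Finset.card_le_one.mpr
      intro a ha b hb
      funext j
      rw [h0 a ha j, h0 b hb j]
    have h2 : (Q.card : ℝ) ≤ 1 := by exact_mod_cast h1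
    have h3 : 0 ≤ 2 * B / s := by positivity
    linarith
  · push Not at h0
    obtain ⟨q0, hq0, j0, hj0⟩ := h0
    obtain ⟨⟨qs, i⟩, hm, hmax⟩ := Finset.exists_max_image (Q ×ˢ (Finset.univ : Finset (Fin 3)))
      (fun x => |x.1 x.2|) ⟨(q0, j0), Finset.mem_product.mpr ⟨hq0, Finset.mem_univ _⟩⟩
    have hqs : qs ∈ Q := (Finset.mem_product.mp hm).1
    have hmx : ∀ q ∈ Q, ∀ j, |q j| ≤ |qs i| := fun q hq j =>
      hmax (q, j) (Finset.mem_product.mpr ⟨hq, Finset.mem_univ _⟩)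
    have hpos : 0 < |qs i| := lt_of_lt_of_le (abs_pos.mpr hj0) (hmx q0 hq0 j0)
    have hcmp : ∀ q ∈ Q, ∀ q' ∈ Q, ∀ j, |q j - q' j| ≤ |q i - q' i| := by
      intro q hq q' hq' j
      have e1 : (q j - q' j) * qs i = (q i - q' i) * qs j := by
        have h1 := hc q hq qs hqs j i
        have h2 := hc q' hq' qs hqs j i
        linear_combination h1 - h2
      have e2 : |q j - q' j| * |qs i| = |q i - q' i| * |qs j| := by
        rw [← abs_mul, ← abs_mul, e1]
      have e3 : |q j - q' j| * |qs i| ≤ |q i - q' i| * |qs i| := by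
        rw [e2]
        exact mul_le_mul_of_nonneg_left (hmx qs hqs j) (abs_nonneg _)
      exact le_of_mul_le_mul_right e3 hpos
    have hsp : ∀ q ∈ Q, ∀ q' ∈ Q, q ≠ q' → s ≤ |((q i : ℝ) - (q' i : ℝ))| := by
      intro q hq q' hq' hne
      obtain ⟨j, hj⟩ := hsep q hq q' hq' hne
      have h1 : |((q j - q' j : ℤ) : ℝ)| ≤ |((q i - q' i : ℤ) : ℝ)| := by
        exact_mod_cast hcmp q hq q' hq' j
      have h2 := hj.trans h1
      push_cast at h2
      exact h2
    have hmaps : Set.MapsTo (fun q : V3 => ⌊((q i : ℝ) + B) / s⌋₊) (Q : Set V3)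
        (Finset.range (⌊2 * B / s⌋₊ + 1) : Finset ℕ) := by
      intro q hq
      have hq' : q ∈ Q := hq
      have h1 := abs_le.mp (hB q hq' i)
      rw [Finset.coe_range, Set.mem_Iio]
      refine Nat.lt_succ_of_le (Nat.floor_le_floor ?_)
      gcongr
      linarith [h1.2]
    have hinj : Set.InjOn (fun q : V3 => ⌊((q i : ℝ) + B) / s⌋₊) (Q : Set V3) := by
      intro q hq q' hq' hqq
      by_contra hne
      have h1 := hsp q hq q' hq' hne
      have h2 := abs_le.mp (hB q hq i)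
      have h3 := abs_le.mp (hB q' hq' i)
      have hqq' : ⌊((q i : ℝ) + B) / s⌋₊ = ⌊((q' i : ℝ) + B) / s⌋₊ := hqq
      have f1 : (⌊((q i : ℝ) + B) / s⌋₊ : ℝ) ≤ ((q i : ℝ) + B) / s :=
        Nat.floor_le (div_nonneg (by linarith [h2.1]) hs.le)
      have f2 : ((q i : ℝ) + B) / s < (⌊((q i : ℝ) + B) / s⌋₊ : ℝ) + 1 := Nat.lt_floor_add_one _
      have f3 : (⌊((q' i : ℝ) + B) / s⌋₊ : ℝ) ≤ ((q' i : ℝ) + B) / s :=
        Nat.floor_le (div_nonneg (by linarith [h3.1]) hs.le)
      have f4 : ((q' i : ℝ) + B) / s < (⌊((q' i : ℝ) + B) / s⌋₊ : ℝ) + 1 := Nat.lt_floor_add_one _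
      rw [hqq'] at f1 f2
      have f5 : |((q i : ℝ) + B) / s - ((q' i : ℝ) + B) / s| < 1 := by
        rw [abs_lt]
        constructor <;> linarith
      have f6 : ((q i : ℝ) + B) / s - ((q' i : ℝ) + B) / s = ((q i : ℝ) - q' i) / s := by ring
      rw [f6, abs_div, abs_of_pos hs, div_lt_one hs] at f5
      linarith
    have hcard := Finset.card_le_card_of_injOn _ hmaps hinj
    rw [Finset.card_range] at hcard
    have h4 : (Q.card : ℝ) ≤ (⌊2 * B / s⌋₊ : ℝ) + 1 := by exact_mod_cast hcard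
    have h5 : (⌊2 * B / s⌋₊ : ℝ) ≤ 2 * B / s := Nat.floor_le (by positivity)
    linarith

end Pool.Agent.SMP
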