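import Pool.Agent.SMP.Defs
import Pool.Agent.SMP.Asy

/-!
# SMP/ParA (size 3): (A8) (a), (b), (c), (e), the simple properties of the parameters

Write `L = log T`, `Q = Qp T`, `k = kp T c`.  `exp (√L) - 1 < Q ≤ exp (√L)`, so for `T` large
`√L ≤ log (4 Q) ≤ √L + 2` (`4 Q ≥ exp (√L)`), `k ≤ 2 L / log (4 Q) ≤ 2 √L`.
`a1`: `4 exp (√L) < exp L`.  `a2`: `exp (√L) - 1 > 10 ^ 6`.  `a3`: `10 ^ 5 * 2 √L ≤ exp (√L) - 1`.
`hb`: `k log (4 Q) ≤ (2 - 4 c) L` by definition of `k` (`Nat.floor_le`), exponentiate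
(`Real.rpow_def_of_pos`, `Real.log_pow`).
`hc`: `2 a ≤ k`, so `2 a log (4 Q) ≤ (2 - 4 c) L`.
`he`: `J ≤ T ^ (1 - 2 c)`, `R ≤ c k / 100`, `4 R log (4 Q) ≤ (c / 25) k log (4 Q) ≤ (c / 25) (2 - 4 c) L ≤ (2 c / 25) L`,
`10 log (4 Q) ≤ 10 (√L + 2) ≤ (c / 2) L` for `T` large, and `1 - 2 c + 2 c / 25 + c / 2 ≤ 1 - c`.
-/

set_option autoImplicit false

namespace Pool.Agent.SMP

private theorem pa_e100 : (2 : ℝ) ^ 100 ≤ Real.exp 100 := by
  have h1 : (2 : ℝ) ≤ Real.exp 1 := by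
    have := Real.add_one_le_exp (1 : ℝ)
    linarith
  have h2 : Real.exp 100 = Real.exp 1 ^ 100 := by
    rw [← Real.exp_nat_mul]
    norm_num
  rw [h2]
  exact pow_le_pow_left₀ (by norm_num) h1 100

private theorem pa_s (T : ℝ) (hT : Real.exp 10000 ≤ T) :
    0 < T ∧ 100 ≤ √(Real.log T) ∧ √(Real.log T) ^ 2 = Real.log T := by
  have hT0 : 0 < T := lt_of_lt_of_le (Real.exp_pos _) hT
  have hL : 10000 ≤ Real.log T := (Real.le_log_iff_exp_le hT0).mpr hT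
  refine ⟨hT0, ?_, Real.sq_sqrt (by linarith)⟩
  apply Real.le_sqrt_of_sq_le
  linarith

private theorem pa_q (T : ℝ) (hT : Real.exp 10000 ≤ T) :
    √(Real.log T) ≤ Real.log (4 * Qp T) ∧ Real.log (4 * Qp T) ≤ √(Real.log T) + 2 ∧
      Real.exp (√(Real.log T)) ≤ 4 * (Qp T : ℝ) := by
  obtain ⟨hT0, hs, hsq⟩ := pa_s T hT
  obtain ⟨s, hsd⟩ : ∃ s, s = √(Real.log T) := ⟨_, rfl⟩
  rw [← hsd] at hs ⊢
  have hE : (2 : ℝ) ^ 100 ≤ Real.exp s := pa_e100.trans (Real.exp_le_exp.mpr hs)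
  have hE2 : (2 : ℝ) ≤ Real.exp s := le_trans (by norm_num) hE
  have h1 : (Qp T : ℝ) ≤ Real.exp s := by
    unfold Qp
    rw [← hsd]
    exact Nat.floor_le (Real.exp_pos _).le
  have h2 : Real.exp s < (Qp T : ℝ) + 1 := by
    unfold Qp
    rw [← hsd]
    exact Nat.lt_floor_add_one _
  have h3 : Real.exp s ≤ 4 * (Qp T : ℝ) := by linarith
  have h4 : 0 < 4 * (Qp T : ℝ) := by linarith [Real.exp_pos s]
  refine ⟨(Real.le_log_iff_exp_le h4).mpr h3, ?_, h3⟩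
  rw [Real.log_le_iff_le_exp h4, Real.exp_add]
  have h5 : (4 : ℝ) ≤ Real.exp 2 := by
    have h6 : (2 : ℝ) ≤ Real.exp 1 := by
      have := Real.add_one_le_exp (1 : ℝ)
      linarith
    have h7 : Real.exp 2 = Real.exp 1 * Real.exp 1 := by
      rw [← Real.exp_add]
      norm_num
    rw [h7]
    nlinarith
  nlinarith [Real.exp_pos s]

private theorem pa_pow (x : ℝ) (n : ℕ) (hx : 0 < x) : x ^ n = Real.exp (n * Real.log x) := by
  rw [← Real.log_pow, Real.exp_log (pow_pos hx n)]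

/-- the parameters: `Q`, `k`, `log (4 Q)` -/
theorem para0 (c : ℝ) (hc : 0 < c) (hc1 : c ≤ 1 / 100) :
    ∃ T0 : ℝ, ∀ T : ℝ, T0 ≤ T → 10 ^ 7 ≤ T ∧ 100 ≤ √(Real.log T) ∧
      √(Real.log T) ≤ Real.log (4 * Qp T) ∧ Real.log (4 * Qp T) ≤ √(Real.log T) + 2 ∧
      (kp T c : ℝ) ≤ 2 * √(Real.log T) ∧ √(Real.log T) ≤ kp T c ∧
      (2 - 4 * c) * Real.log T ≤ (kp T c + 1) * Real.log (4 * Qp T) ∧
      kp T c * Real.log (4 * Qp T) ≤ (2 - 4 * c) * Real.log T := by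
  refine ⟨Real.exp 10000, fun T hT => ?_⟩
  obtain ⟨hT0, hs, hsq⟩ := pa_s T hT
  obtain ⟨hq1, hq2, hq3⟩ := pa_q T hT
  obtain ⟨L, hLd⟩ : ∃ L, L = Real.log T := ⟨_, rfl⟩
  obtain ⟨s, hsd⟩ : ∃ s, s = √(Real.log T) := ⟨_, rfl⟩
  obtain ⟨l, hld⟩ : ∃ l, l = Real.log (4 * Qp T) := ⟨_, rfl⟩
  have hk1 : (kp T c : ℝ) ≤ (2 - 4 * c) * Real.log T / Real.log (4 * Qp T) := by
    unfold kp
    apply Nat.floor_le
    apply div_nonneg
    · apply mul_nonneg (by linarith)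
      rw [← hsq]
      positivity
    · linarith
  have hk2 : (2 - 4 * c) * Real.log T / Real.log (4 * Qp T) < (kp T c : ℝ) + 1 := by
    unfold kp
    exact Nat.lt_floor_add_one _
  have hsq2 : s ^ 2 = Real.log T := by rw [hsd]; exact hsq
  rw [← hsq2, ← hld] at hk1 hk2
  rw [← hsd] at hs hq1 hq2 hq3 ⊢
  rw [← hld] at hq1 hq2 ⊢
  rw [← hsq2]
  have hl0 : 0 < l := by linarith
  have hk1' : (kp T c : ℝ) * l ≤ (2 - 4 * c) * s ^ 2 := (le_div_iff₀ hl0).mp hk1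
  have hk2' : (2 - 4 * c) * s ^ 2 < ((kp T c : ℝ) + 1) * l := (div_lt_iff₀ hl0).mp hk2
  have hk0 : (0 : ℝ) ≤ kp T c := Nat.cast_nonneg _
  refine ⟨?_, hs, hq1, hq2, ?_, ?_, hk2'.le, hk1'⟩
  · have h1 : Real.exp 100 ≤ Real.exp 10000 := Real.exp_le_exp.mpr (by norm_num)
    have h2 := pa_e100
    have h3 : (10 : ℝ) ^ 7 ≤ 2 ^ 100 := by norm_num
    linarith
  · have h1 : (kp T c : ℝ) * s ≤ (kp T c : ℝ) * l := mul_le_mul_of_nonneg_left hq1 hk0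
    have h2 : (kp T c : ℝ) * s ≤ (2 * s) * s := by nlinarith [sq_nonneg s]
    exact le_of_mul_le_mul_right h2 (by linarith)
  · have h1 : ((kp T c : ℝ) + 1) * l ≤ ((kp T c : ℝ) + 1) * (s + 2) :=
      mul_le_mul_of_nonneg_left hq2 (by linarith)
    have h2 : 196 / 100 * s ^ 2 ≤ ((kp T c : ℝ) + 1) * (s + 2) := by nlinarith [sq_nonneg s]
    by_contra hcon
    have h3 : (kp T c : ℝ) < s := not_le.mp hcon
    have h4 : ((kp T c : ℝ) + 1) * (s + 2) ≤ (s + 1) * (s + 2) :=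
      mul_le_mul_of_nonneg_right (by linarith) (by linarith)
    nlinarith

theorem para (c : ℝ) (hc : 0 < c) (hc1 : c ≤ 1 / 100) :
    ∃ T0 : ℝ, ∀ T : ℝ, T0 ≤ T → 10 ^ 7 ≤ T ∧ 4 * (Qp T : ℝ) < T ∧ 10 ^ 6 < Qp T ∧
      10 ^ 5 * kp T c ≤ Qp T ∧ (4 * (Qp T : ℝ)) ^ kp T c ≤ T ^ (2 - 4 * c) ∧
      (∀ a : ℕ, 2 * a ≤ kp T c → (4 * (Qp T : ℝ)) ^ a ≤ T ^ (1 - 2 * c)) ∧
      (Jp T c : ℝ) * (4 * (Qp T : ℝ)) ^ (4 * Rp T c + 10) ≤ T ^ (1 - c) := by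
  obtain ⟨T1, h1⟩ := para0 c hc hc1
  refine ⟨max T1 (max (Real.exp 10000) (Real.exp ((40 / c) ^ 2))), fun T hT => ?_⟩
  obtain ⟨b1, b2, b3, b4, b5, b6, b7, b8⟩ := h1 T ((le_max_left _ _).trans hT)
  have hT2 : Real.exp 10000 ≤ T := ((le_max_left _ _).trans (le_max_right _ _)).trans hT
  have hT3 : Real.exp ((40 / c) ^ 2) ≤ T := ((le_max_right _ _).trans (le_max_right _ _)).trans hT
  obtain ⟨hT0, hs, hsq⟩ := pa_s T hT2
  obtain ⟨hq1, hq2, hq3⟩ := pa_q T hT2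
  have hsc : 40 / c ≤ √(Real.log T) := by
    apply Real.le_sqrt_of_sq_le
    exact (Real.le_log_iff_exp_le hT0).mpr hT3
  have hk0 : (0 : ℝ) ≤ kp T c := Nat.cast_nonneg _
  have hTe : ∀ x : ℝ, T ^ x = Real.exp (Real.log T * x) := fun x => Real.rpow_def_of_pos hT0 x
  obtain ⟨s, hsd⟩ : ∃ s, s = √(Real.log T) := ⟨_, rfl⟩
  obtain ⟨l, hld⟩ : ∃ l, l = Real.log (4 * Qp T) := ⟨_, rfl⟩
  obtain ⟨L, hLd⟩ : ∃ L, L = Real.log T := ⟨_, rfl⟩
  obtain ⟨k, hkd⟩ : ∃ k : ℝ, k = (kp T c : ℝ) := ⟨_, rfl⟩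
  have hq4 : 0 < 4 * (Qp T : ℝ) := lt_of_lt_of_le (Real.exp_pos _) hq3
  have hpw : ∀ n : ℕ, (4 * (Qp T : ℝ)) ^ n = Real.exp (n * l) := by
    intro n
    rw [hld]
    exact pa_pow _ n hq4
  rw [← hsd, ← hLd] at hsq
  rw [← hsd] at hs hq3 hsc b5 b6
  rw [← hLd, ← hkd, ← hld] at b8
  rw [← hld, ← hsd] at hq1 hq2
  rw [← hkd] at b5 b6 hk0
  have hL0 : 0 < L := by nlinarith
  have hl0 : 0 < l := by linarith
  -- exp s is large
  have hexp : 8 * 10 ^ 5 * s ≤ Real.exp s := by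
    have e1 : Real.exp s = Real.exp 100 * Real.exp (s - 100) := by
      rw [← Real.exp_add]
      congr 1
      ring
    have e2 : s - 99 ≤ Real.exp (s - 100) := by
      have := Real.add_one_le_exp (s - 100)
      linarith
    have e3 : (2 : ℝ) ^ 100 * (s - 99) ≤ Real.exp 100 * Real.exp (s - 100) :=
      mul_le_mul pa_e100 e2 (by linarith) (Real.exp_pos _).le
    rw [e1]
    refine le_trans ?_ e3
    have e4 : (8 * 10 ^ 5 * 100 : ℝ) * (s - 99) ≤ 2 ^ 100 * (s - 99) :=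
      mul_le_mul_of_nonneg_right (by norm_num) (by linarith)
    nlinarith
  refine ⟨b1, ?_, ?_, ?_, ?_, ?_, ?_⟩
  · have e1 : 4 * (Qp T : ℝ) = Real.exp l := by rw [hld, Real.exp_log hq4]
    have e2 : T = Real.exp L := by rw [hLd, Real.exp_log hT0]
    rw [e1]
    rw [e2]
    apply Real.exp_lt_exp.mpr
    nlinarith
  · have e1 : (10 : ℝ) ^ 6 < Qp T := by nlinarith
    exact_mod_cast e1
  · have e1 : (10 : ℝ) ^ 5 * k ≤ Qp T := by nlinarith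
    rw [hkd] at e1
    exact_mod_cast e1
  · rw [hpw, hTe, ← hLd, ← hkd]
    apply Real.exp_le_exp.mpr
    linarith
  · intro a ha
    rw [hpw, hTe, ← hLd]
    apply Real.exp_le_exp.mpr
    have e1 : 2 * (a : ℝ) ≤ k := by
      rw [hkd]
      exact_mod_cast ha
    have e2 : 2 * (a : ℝ) * l ≤ k * l := mul_le_mul_of_nonneg_right e1 hl0.le
    linarith
  · have j1 : (Jp T c : ℝ) ≤ Real.exp (L * (1 - 2 * c)) := by
      rw [hLd, ← hTe]
      unfold Jp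
      exact Nat.floor_le (Real.rpow_nonneg hT0.le _)
    have r1 : (Rp T c : ℝ) ≤ c * k / 100 := by
      rw [hkd]
      unfold Rp
      exact Nat.floor_le (by positivity)
    rw [hpw, hTe, ← hLd]
    refine (mul_le_mul_of_nonneg_right j1 (Real.exp_pos _).le).trans ?_
    rw [← Real.exp_add]
    apply Real.exp_le_exp.mpr
    push_cast
    have r2 : (4 * (Rp T c : ℝ) + 10) * l ≤ (4 * (c * k / 100) + 10) * l :=
      mul_le_mul_of_nonneg_right (by linarith) hl0.le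
    have r3 : c * (k * l) ≤ c * ((2 - 4 * c) * L) := mul_le_mul_of_nonneg_left b8 hc.le
    have r4 : c * ((2 - 4 * c) * L) ≤ c * (2 * L) := by
      apply mul_le_mul_of_nonneg_left _ hc.le
      nlinarith
    have r5 : 40 ≤ c * s := by
      rw [div_le_iff₀ hc] at hsc
      linarith
    have r6 : 10 * l ≤ c / 2 * L := by
      have : 40 * s ≤ (c * s) * s := mul_le_mul_of_nonneg_right r5 (by linarith)
      have e : c / 2 * L = (c * s) * s / 2 := by rw [← hsq]; ring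
      rw [e]
      linarith
    have r7 : 0 ≤ c * L := by positivity
    have r8 : (4 * (c * k / 100) + 10) * l = c * (k * l) / 25 + 10 * l := by ring
    have r9 : L * (1 - 2 * c) = L - 2 * (c * L) := by ring
    have r10 : L * (1 - c) = L - c * L := by ring
    have r11 : c / 2 * L = (c * L) / 2 := by ring
    rw [r9, r10]
    rw [r11] at r6
    linarith

end Pool.Agent.SMP
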