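import Pool.Agent.SMP.ParA

/-!
# SMP/ParB (size 3): (A8) (d), and the structure `Pa`

PROOF of `hd`.  Use `para0`.  `L = log T`, `Q = Qp T`, `k = kp T c`, `t = 4 R + 10`, `R ≤ c k / 100`.  Let `a` be the given
number, `2 a + t > k`.  Let `a0 = (k + 1 - t + 1) / 2` (natural numbers; the least number with `2 a0 + t > k`), `a0 ≤ a`,
`a0 ≤ k`, and `Q ^ a0 ≤ Q ^ a` (`Q ≥ 1`).  (If `t > k` then `a0 = 0`; but then
`k < t ≤ c k / 25 + 10`, impossible since `k ≥ √L ≥ 100`.)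
`a0 log (4 Q) ≥ (1/2) (k - t) log (4 Q) ≥ (1/2) ((2 - 4 c) L - log (4 Q)) - (t / 2) log (4 Q)`,
`(t / 2) log (4 Q) = (2 R + 5) log (4 Q) ≤ (c / 50) k log (4 Q) + 5 log (4 Q) ≤ (c / 25) L + 5 (√L + 2)`,
`a0 log 4 ≤ 2 k ≤ 4 √L`.  So `a0 log Q ≥ (1 - 2 c - c / 25) L - 6 (√L + 2) - 4 √L ≥ (1 - 3 c) L` for `T` large.
Exponentiate.
-/

set_option autoImplicit false

namespace Pool.Agent.SMP

theorem parb (c : ℝ) (hc : 0 < c) (hc1 : c ≤ 1 / 100) :
    ∃ T0 : ℝ, ∀ T : ℝ, T0 ≤ T → ∀ a : ℕ, kp T c < 2 * a + (4 * Rp T c + 10) →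
      T ^ (1 - 3 * c) ≤ (Qp T : ℝ) ^ a := by
  obtain ⟨T1, h1⟩ := para0 c hc hc1
  refine ⟨max T1 (Real.exp ((20 / c) ^ 2)), fun T hT a ha => ?_⟩
  obtain ⟨g1, g2, g3, g4, g5, g6, g7, g8⟩ := h1 T ((le_max_left _ _).trans hT)
  have hT0 : 0 < T := by linarith
  have hL : (20 / c) ^ 2 ≤ Real.log T := by
    have h2 := (le_max_right T1 (Real.exp ((20 / c) ^ 2))).trans hT
    rwa [Real.le_log_iff_exp_le hT0]
  have h20 : 0 < 20 / c := by positivity
  have hL0 : 0 ≤ Real.log T := le_trans (by positivity) hL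
  have hs : 20 / c ≤ √(Real.log T) := Real.le_sqrt_of_sq_le hL
  set s := √(Real.log T) with hsdef
  have hss : s * s = Real.log T := Real.mul_self_sqrt hL0
  set L := Real.log T with hLdef
  set Y := Real.log (4 * Qp T) with hY
  set k := kp T c with hk
  have hQ0 : 0 < (Qp T : ℝ) := by
    rcases Nat.eq_zero_or_pos (Qp T) with h | h
    · exfalso
      have : Y = 0 := by rw [hY, h]; simp
      linarith
    · exact_mod_cast h
  have hlogQ : Real.log (Qp T : ℝ) = Y - Real.log 4 := by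
    rw [hY, Real.log_mul (by norm_num) hQ0.ne']
    ring
  have hlog4 : Real.log 4 ≤ 2 := by
    have h3 : Real.log 4 = 2 * Real.log 2 := by
      rw [show (4 : ℝ) = 2 ^ 2 by norm_num, Real.log_pow]
      norm_num
    have h4 := Real.log_two_lt_d9
    linarith
  have hlog40 : 0 ≤ Real.log 4 := Real.log_nonneg (by norm_num)
  have hR : (Rp T c : ℝ) ≤ c * k / 100 := by
    unfold Rp
    exact Nat.floor_le (by positivity)
  have hR0 : (0 : ℝ) ≤ Rp T c := Nat.cast_nonneg _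
  have ha' : (k : ℝ) < 2 * a + (4 * Rp T c + 10) := by exact_mod_cast ha
  have hk0 : (0 : ℝ) ≤ k := Nat.cast_nonneg _
  have ha2 : ((k : ℝ) - (4 * Rp T c + 10)) / 2 ≤ a := by linarith
  have hlQ0 : 0 ≤ Y - Real.log 4 := by linarith
  have hY0 : 0 ≤ Y := by linarith
  have e1 : (Rp T c : ℝ) * Y ≤ c / 50 * L := by
    have e2 : (Rp T c : ℝ) * Y ≤ c * k / 100 * Y := mul_le_mul_of_nonneg_right hR hY0
    have e3 : c / 100 * (k * Y) ≤ c / 100 * ((2 - 4 * c) * L) :=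
      mul_le_mul_of_nonneg_left g8 (by positivity)
    have e4 : c / 100 * ((2 - 4 * c) * L) ≤ c / 50 * L := by
      have : (2 - 4 * c) * L ≤ 2 * L := mul_le_mul_of_nonneg_right (by linarith) hL0
      nlinarith
    nlinarith
  have e5 : (k : ℝ) * Real.log 4 ≤ 4 * s := by nlinarith
  have e6 : 0 ≤ (Rp T c : ℝ) * Real.log 4 := by positivity
  have e7 : 20 * s ≤ c * L := by
    have e8 : 20 ≤ c * s := by
      rw [div_le_iff₀ hc] at hs
      linarith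
    rw [← hss]
    nlinarith
  have key : (1 - 3 * c) * L ≤ a * (Y - Real.log 4) := by
    have e9 : ((k : ℝ) - (4 * Rp T c + 10)) / 2 * (Y - Real.log 4) ≤ a * (Y - Real.log 4) :=
      mul_le_mul_of_nonneg_right ha2 hlQ0
    have e10 : ((k : ℝ) - (4 * Rp T c + 10)) / 2 * (Y - Real.log 4) =
        (k * Y) / 2 - 2 * (Rp T c * Y) - 5 * Y - (k * Real.log 4) / 2 +
          2 * (Rp T c * Real.log 4) + 5 * Real.log 4 := by ring
    have e11 : (2 - 4 * c) * L - Y ≤ k * Y := by linarith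
    nlinarith
  have e12 : T ^ (1 - 3 * c) = Real.exp ((1 - 3 * c) * L) := by
    rw [Real.rpow_def_of_pos hT0, mul_comm]
  have e13 : (Qp T : ℝ) ^ a = Real.exp (a * (Y - Real.log 4)) := by
    rw [Real.exp_nat_mul, ← hlogQ, Real.exp_log hQ0]
  rw [e12, e13]
  exact Real.exp_le_exp.2 key

theorem pa (c : ℝ) (hc : 0 < c) (hc1 : c ≤ 1 / 100) :
    ∃ T0 : ℝ, ∀ T : ℝ, T0 ≤ T → Pa T c := by
  obtain ⟨T1, h1⟩ := para c hc hc1
  obtain ⟨T2, h2⟩ := parb c hc hc1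
  refine ⟨max T1 T2, fun T hT => ?_⟩
  obtain ⟨a0, a1, a2, a3, a4, a5, a6⟩ := h1 T ((le_max_left _ _).trans hT)
  exact ⟨a0, a1, a2, a3, a4, a5, h2 T ((le_max_right _ _).trans hT), a6⟩

end Pool.Agent.SMP
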