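import Pool.Agent.SMP.Cub

/-!
# SMP/Pig (size 2): (A2) pigeonhole modulo cubes

PROOF.  `(ZMod n)ˣ` is a finite commutative group (`NeZero n`).  Let `φ = powMonoidHom 3`, `H = φ.range`.
`Nat.card (G ⧸ H) = Nat.card φ.ker`: `card G = card (range) * card (ker)` (`Subgroup.card_range..`/
`MonoidHom` first isomorphism theorem: `Subgroup.index_ker`, `Subgroup.card_mul_index`) and
`card G = card (G ⧸ H) * card H` (`Subgroup.card_eq_card_quotient_mul_card_subgroup`).
`Nat.card φ.ker = Nat.card {u // u ^ 3 = 1} ≤ 3 ^ ω(n)` (`cub`).  So `i ↦ (f i : G ⧸ H)` is not injective on `I`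
(`Finset.exists_ne_map_eq_of_card_lt_of_maps_to` into `Finset.univ`); equal classes: `(f i)⁻¹ * f j ∈ H`, which is
`u ^ 3`.
-/

set_option autoImplicit false

namespace Pool.Agent.SMP

theorem pig (n : ℕ) (hn : 1 ≤ n) {ι : Type*} (I : Finset ι) (f : ι → (ZMod n)ˣ)
    (h : 3 ^ n.primeFactors.card < I.card) :
    ∃ i ∈ I, ∃ j ∈ I, i ≠ j ∧ ∃ u : (ZMod n)ˣ, f j = f i * u ^ 3 := by
  classical
  have : NeZero n := ⟨by omega⟩
  let φ : (ZMod n)ˣ →* (ZMod n)ˣ := powMonoidHom 3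
  have h1 : Nat.card ((ZMod n)ˣ ⧸ φ.range) = Nat.card φ.ker := by
    have e1 := Subgroup.card_eq_card_quotient_mul_card_subgroup φ.range
    have e2 := Subgroup.card_eq_card_quotient_mul_card_subgroup φ.ker
    have e3 : Nat.card ((ZMod n)ˣ ⧸ φ.ker) = Nat.card φ.range :=
      Nat.card_congr (QuotientGroup.quotientKerEquivRange φ).toEquiv
    rw [e3] at e2
    have e4 : 0 < Nat.card φ.range := Nat.card_pos
    have e5 : Nat.card ((ZMod n)ˣ ⧸ φ.range) * Nat.card φ.range =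
        Nat.card φ.ker * Nat.card φ.range := by
      rw [← e1, e2, Nat.mul_comm]
    exact Nat.eq_of_mul_eq_mul_right e4 e5
  have h2 : Nat.card φ.ker ≤ 3 ^ n.primeFactors.card := by
    refine le_trans (le_of_eq ?_) (cub n hn)
    refine Nat.card_congr (Equiv.subtypeEquivRight ?_)
    intro u
    rw [MonoidHom.mem_ker]
    rfl
  have h3 : (Finset.univ : Finset ((ZMod n)ˣ ⧸ φ.range)).card < I.card := by
    rw [Finset.card_univ, ← Nat.card_eq_fintype_card, h1]
    exact lt_of_le_of_lt h2 h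
  obtain ⟨i, hi, j, hj, hij, he⟩ := Finset.exists_ne_map_eq_of_card_lt_of_maps_to h3
    (f := fun i => (f i : (ZMod n)ˣ ⧸ φ.range)) (fun _ _ => Finset.mem_coe.2 (Finset.mem_univ _))
  refine ⟨i, hi, j, hj, hij, ?_⟩
  have h4 := QuotientGroup.eq.1 he
  obtain ⟨u, hu⟩ := h4
  refine ⟨u, ?_⟩
  have h5 : u ^ 3 = (f i)⁻¹ * f j := hu
  rw [h5, mul_inv_cancel_left]

end Pool.Agent.SMP
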