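import Pool.Agent.SMP.Shv
import Pool.Agent.SMP.Kap
import Pool.Agent.SMP.Ns2

/-!
# SMP/Pln (size 4): (P7) the points of a lattice in the plane orthogonal to `κ`

PROOF.  Case 1: `cr q q' = 0` for all `q, q' ∈ Q`: `lin` with `s = r ^ 2 / 3` (`q - q' ∈ U ≤ Lam m e`, `shv'`):
`#Q ≤ 2 B / (r ^ 2 / 3) + 1 = 6 B / r ^ 2 + 1`.
Case 2: some `cr q q' ≠ 0`.  Choose `i` with `|κ i|` maximal (so `≥ 1`, and `≥ K` in the second case of `hK`).
Let `n0 ≥ 1` be the generator of the subgroup `{n : ℤ | n κ ∈ Mm m e}` of `ℤ` (it contains `m`, `m ≥ 1`;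
`Int.subgroup_cyclic` or `Int.exists_gcd..`; or: the least positive `n` with `n κ ∈ Mm m e`, it divides all the others).
For `h, h' ∈ U` with `dt κ h = dt κ h' = 0`: `crp` gives `cr h h' = τ κ`; `hcr` gives `τ κ j = m1 m w j`, so
`m1 m ∣ τ` (`κ` primitive: `τ = dt a (τ κ) = m1 m dt a w`), `τ = m1 m τ'`, and `w = τ' κ`, so `n0 ∣ τ'`.
So `(cr h h') i = m1 m τ' κ i` is divisible by `m0 = m1 m n0 |κ i|`.
`m0 ≥ m1 m K`: if `K ≤ r`: `n0 κ ∈ Mm m e` is not 0, so by `Lat.hyp` it has a coordinate `> r`, so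
`n0 |κ i| ≥ r + 1 > K`; in the second case `|κ i| ≥ K`.
Let `i1, i2` be the other two coordinates (`i + 1, i + 2`).  `U2` = the image of `{h ∈ U | dt κ h = 0}` under
`h ↦ (h i1, h i2)`; its `2 × 2` determinants are `±(cr h h') i`.  `Q2` = the image of `Q`; the map is injective on the plane
(`κ i ≠ 0`: `κ i h i = - κ i1 h i1 - κ i2 h i2`).  `ns2` with `R = 2 B ^ 2`; a nonzero determinant exists: `cr q q' = τ κ ≠ 0` and
`κ i ≠ 0`.  `#Q ≤ 27 (2 B ^ 2) / m0 ≤ 54 B ^ 2 / (m1 m K)`.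
-/

set_option autoImplicit false

namespace Pool.Agent.SMP

open Pool.Agent.SLB (V3 det3)

private theorem Pln_dt (κ q : V3) (i : Fin 3) :
    dt κ q = κ i * q i + κ (i + 1) * q (i + 1) + κ (i + 2) * q (i + 2) := by
  fin_cases i
  · simp [dt]
  · show dt κ q = κ 1 * q 1 + κ 2 * q 2 + κ 0 * q 0
    simp only [dt]; ring
  · show dt κ q = κ 2 * q 2 + κ 0 * q 0 + κ 1 * q 1
    simp only [dt]; ring

private theorem Pln_cr (a b : V3) (i : Fin 3) :
    cr a b i = a (i + 1) * b (i + 2) - a (i + 2) * b (i + 1) := by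
  fin_cases i
  · rfl
  · rfl
  · rfl

private theorem Pln_gen (m : ℕ) (hm : 1 ≤ m) (d : ℤ) :
    ∃ n0 : ℕ, 1 ≤ n0 ∧ (m : ℤ) ∣ n0 * d ∧ ∀ n : ℤ, (m : ℤ) ∣ n * d → (n0 : ℤ) ∣ n := by
  have hm0 : (m : ℤ) ≠ 0 := by exact_mod_cast (by omega : m ≠ 0)
  have hg : Int.gcd (m : ℤ) d ≠ 0 := by
    intro h
    exact hm0 (Int.gcd_eq_zero_iff.1 h).1
  obtain ⟨m', hm'⟩ : ((Int.gcd (m : ℤ) d : ℕ) : ℤ) ∣ (m : ℤ) := Int.gcd_dvd_left _ _
  obtain ⟨d', hd'⟩ : ((Int.gcd (m : ℤ) d : ℕ) : ℤ) ∣ d := Int.gcd_dvd_right _ _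
  obtain ⟨g, hgdef⟩ : ∃ g : ℕ, g = Int.gcd (m : ℤ) d := ⟨_, rfl⟩
  rw [← hgdef] at hm' hd' hg
  have hg0 : (0 : ℤ) < (g : ℤ) := by exact_mod_cast Nat.pos_of_ne_zero hg
  have hmp : (0 : ℤ) < m' := by
    have : (0 : ℤ) < (g : ℤ) * m' := by rw [← hm']; exact_mod_cast hm
    exact (mul_pos_iff_of_pos_left hg0).1 this
  have hco : IsCoprime m' d' := by
    rw [Int.isCoprime_iff_gcd_eq_one]
    have h1 : Int.gcd ((g : ℤ) * m') ((g : ℤ) * d') = g * Int.gcd m' d' := by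
      rw [Int.gcd_mul_left]; simp
    rw [← hm', ← hd', ← hgdef] at h1
    have h2 : g * Int.gcd m' d' = g * 1 := by rw [← h1, mul_one]
    exact Nat.eq_of_mul_eq_mul_left (Nat.pos_of_ne_zero hg) h2
  refine ⟨m'.toNat, ?_, ?_, ?_⟩
  · omega
  · rw [Int.toNat_of_nonneg hmp.le]
    exact ⟨d', by rw [hm', hd']; ring⟩
  · intro n hn
    rw [Int.toNat_of_nonneg hmp.le]
    have h3 : (g : ℤ) * m' ∣ (g : ℤ) * (n * d') := by
      have h4 : (g : ℤ) * (n * d') = n * d := by rw [hd']; ring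
      rw [h4, ← hm']; exact hn
    have h5 : m' ∣ n * d' := (mul_dvd_mul_iff_left hg0.ne').1 h3
    exact hco.dvd_of_dvd_mul_right h5

theorem pln {m r : ℕ} {e : V3} (hL : Lat m e r) (κ : V3) (hκ : Prim κ) (U : AddSubgroup V3)
    (hU : U ≤ Lam m e) (m1 : ℕ) (hm1 : 1 ≤ m1)
    (hcr : ∀ h ∈ U, ∀ h' ∈ U, ∃ w ∈ Mm m e, ∀ i, cr h h' i = (m1 : ℤ) * m * w i)
    (B K : ℕ) (hK1 : 1 ≤ K) (hK : K ≤ r ∨ ∃ i, (K : ℤ) ≤ |κ i|) (Q : Finset V3)
    (hQ : ∀ q ∈ Q, q ∈ U ∧ dt κ q = 0 ∧ ∀ i, |q i| ≤ (B : ℤ)) :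
    (Q.card : ℝ) ≤ 12 * B / (r : ℝ) ^ 2 + 2 + 54 * (B : ℝ) ^ 2 / ((m1 : ℝ) * m * K) := by
  classical
  have hr1 : (1 : ℝ) ≤ (r : ℝ) := by exact_mod_cast hL.hr
  have hm1' : (1 : ℝ) ≤ (m1 : ℝ) := by exact_mod_cast hm1
  have hmr : (1 : ℝ) ≤ (m : ℝ) := by exact_mod_cast hL.hm
  have hKr : (1 : ℝ) ≤ (K : ℝ) := by exact_mod_cast hK1
  have hBr : (0 : ℝ) ≤ (B : ℝ) := Nat.cast_nonneg B
  have hr2 : (0 : ℝ) < (r : ℝ) ^ 2 := by positivity
  have hmm : (0 : ℝ) < (m1 : ℝ) * m * K := by positivity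
  have hpos1 : 0 ≤ 6 * (B : ℝ) / (r : ℝ) ^ 2 := by positivity
  have hpos2 : 0 ≤ 54 * (B : ℝ) ^ 2 / ((m1 : ℝ) * m * K) := by positivity
  have h12 : 12 * (B : ℝ) / (r : ℝ) ^ 2 = 6 * B / (r : ℝ) ^ 2 + 6 * B / (r : ℝ) ^ 2 := by ring
  by_cases hall : ∀ q ∈ Q, ∀ q' ∈ Q, ∀ i, cr q q' i = 0
  · have h1 := lin Q (by
      intro q hq q' hq' a b
      have h0 := hall q hq q' hq' 0
      have h1 := hall q hq q' hq' 1
      have h2 := hall q hq q' hq' 2
      rw [Pln_cr] at h0 h1 h2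
      have e0 : q 1 * q' 2 - q 2 * q' 1 = 0 := h0
      have e1 : q 2 * q' 0 - q 0 * q' 2 = 0 := h1
      have e2 : q 0 * q' 1 - q 1 * q' 0 = 0 := h2
      fin_cases a <;> fin_cases b <;> simp only [Fin.zero_eta, Fin.mk_one, Fin.reduceFinMk,
        Fin.isValue] <;> linarith) (B : ℝ) ((r : ℝ) ^ 2 / 3) hBr (by positivity)
      (by
        intro q hq i
        have := (hQ q hq).2.2 i
        have h2 : ((|q i| : ℤ) : ℝ) ≤ ((B : ℤ) : ℝ) := by exact_mod_cast this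
        rw [Int.cast_abs] at h2
        simpa using h2)
      (by
        intro q hq q' hq' hne
        have hmem : q - q' ∈ Lam m e := hU (U.sub_mem (hQ q hq).1 (hQ q' hq').1)
        obtain ⟨i, hi⟩ := shv' hL (q - q') hmem (sub_ne_zero.2 hne)
        exact ⟨i, hi⟩)
    have h2 : 2 * (B : ℝ) / ((r : ℝ) ^ 2 / 3) = 6 * B / (r : ℝ) ^ 2 := by
      field_simp
      ring
    rw [h2] at h1
    linarith
  · push Not at hall
    obtain ⟨qa, hqa, qb, hqb, ia, hia⟩ := hall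
    obtain ⟨a0, ha0⟩ := hκ
    obtain ⟨i0, hi0⟩ := Finite.exists_max (fun i : Fin 3 => |κ i|)
    have hκ0 : κ i0 ≠ 0 := by
      intro h0
      have hz : ∀ j, κ j = 0 := by
        intro j
        have := hi0 j
        simp only [h0, abs_zero] at this
        exact abs_eq_zero.1 (le_antisymm this (abs_nonneg _))
      rw [dt, hz 0, hz 1, hz 2] at ha0
      simp at ha0
    have hκ1 : 1 ≤ |κ i0| := Int.one_le_abs hκ0
    obtain ⟨n0, hn0, hnm, hnd⟩ := Pln_gen m hL.hm (dt κ e)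
    have hn0z : (1 : ℤ) ≤ (n0 : ℤ) := by exact_mod_cast hn0
    -- lower bound of `n0 |κ i0|`
    have hbig : (K : ℤ) ≤ n0 * |κ i0| := by
      rcases hK with hK | ⟨j, hj⟩
      · by_contra hlt
        push Not at hlt
        have hmem : (fun j => (n0 : ℤ) * κ j : V3) ∈ Mm m e := by
          rw [mem_Mm]
          have : dt (fun j => (n0 : ℤ) * κ j : V3) e = n0 * dt κ e := by
            simp only [dt]; ring
          rw [this]; exact hnm
        have h0 := hL.hyp _ hmem (by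
          intro j
          show |(n0 : ℤ) * κ j| ≤ (r : ℤ)
          rw [abs_mul, abs_of_nonneg (by omega : (0 : ℤ) ≤ (n0 : ℤ))]
          have h1 : (n0 : ℤ) * |κ j| ≤ n0 * |κ i0| :=
            mul_le_mul_of_nonneg_left (hi0 j) (by omega)
          have h2 : (K : ℤ) ≤ (r : ℤ) := by exact_mod_cast hK
          linarith)
        have h3 : (n0 : ℤ) * κ i0 = 0 := congrFun h0 i0
        rcases mul_eq_zero.1 h3 with h | h
        · omega
        · exact hκ0 h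
      · have h1 := hi0 j
        have h2 : |κ i0| ≤ n0 * |κ i0| := by nlinarith [abs_nonneg (κ i0)]
        linarith
    -- divisibility
    have hdiv : ∀ h ∈ U, ∀ h' ∈ U, dt κ h = 0 → dt κ h' = 0 →
        ∃ t : ℤ, (∀ i, cr h h' i = t * κ i) ∧ (m1 : ℤ) * m * n0 ∣ t := by
      intro h hh h' hh' hd hd'
      obtain ⟨t, ht⟩ := crp κ h h' ⟨a0, ha0⟩ hd hd'
      obtain ⟨w, hw, hww⟩ := hcr h hh h' hh'
      refine ⟨t, ht, ?_⟩
      have hmz : (m1 : ℤ) * m ≠ 0 := by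
        have h1 : (m1 : ℤ) ≠ 0 := by exact_mod_cast (by omega : m1 ≠ 0)
        have h2 : (m : ℤ) ≠ 0 := by
          have := hL.hm
          exact_mod_cast (by omega : m ≠ 0)
        exact mul_ne_zero h1 h2
      have hj : ∀ j, t * κ j = (m1 : ℤ) * m * w j := by
        intro j; rw [← ht j, hww j]
      have htt : t = (m1 : ℤ) * m * dt a0 w := by
        have : t * dt a0 κ = (m1 : ℤ) * m * dt a0 w := by
          simp only [dt]
          linear_combination a0 0 * hj 0 + a0 1 * hj 1 + a0 2 * hj 2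
        rw [ha0, mul_one] at this
        exact this
      have hwκ : ∀ j, w j = dt a0 w * κ j := by
        intro j
        have h1 := hj j
        rw [htt] at h1
        have h2 : (m1 : ℤ) * m * (dt a0 w * κ j) = (m1 : ℤ) * m * w j := by rw [← h1]; ring
        exact (mul_left_cancel₀ hmz h2).symm
      have hwd : dt w e = dt a0 w * dt κ e := by
        have e0 := hwκ 0
        have e1 := hwκ 1
        have e2 := hwκ 2
        calc dt w e = w 0 * e 0 + w 1 * e 1 + w 2 * e 2 := rfl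
          _ = (dt a0 w * κ 0) * e 0 + (dt a0 w * κ 1) * e 1 + (dt a0 w * κ 2) * e 2 := by
              rw [← e0, ← e1, ← e2]
          _ = dt a0 w * dt κ e := by
              show _ = dt a0 w * (κ 0 * e 0 + κ 1 * e 1 + κ 2 * e 2)
              ring
      have h3 : (n0 : ℤ) ∣ dt a0 w := by
        apply hnd
        rw [← hwd]
        exact (mem_Mm m e w).1 hw
      rw [htt]
      exact mul_dvd_mul_left _ h3
    obtain ⟨m0, hm0def⟩ : ∃ m0 : ℕ, m0 = m1 * m * n0 * (κ i0).natAbs := ⟨_, rfl⟩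
    have hm0z : (m0 : ℤ) = (m1 : ℤ) * m * n0 * |κ i0| := by
      rw [hm0def]; push_cast; rfl
    have hm0big : (m1 : ℤ) * m * K ≤ m0 := by
      rw [hm0z, mul_assoc ((m1 : ℤ) * m)]
      exact mul_le_mul_of_nonneg_left hbig (by positivity)
    have hm0R : (m1 : ℝ) * m * K ≤ (m0 : ℝ) := by exact_mod_cast hm0big
    have hm01 : 1 ≤ m0 := by
      have h1 : (0 : ℝ) < (m0 : ℝ) := lt_of_lt_of_le hmm hm0R
      have h2 : 0 < m0 := by exact_mod_cast h1
      omega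
    let φ : V3 → ℤ × ℤ := fun h => (h (i0 + 1), h (i0 + 2))
    let U2 : AddSubgroup (ℤ × ℤ) :=
      { carrier := {z | ∃ h ∈ U, dt κ h = 0 ∧ z = φ h}
        zero_mem' := ⟨0, U.zero_mem, by simp [dt], rfl⟩
        add_mem' := by
          rintro _ _ ⟨h, hh, hd, rfl⟩ ⟨h', hh', hd', rfl⟩
          refine ⟨h + h', U.add_mem hh hh', ?_, rfl⟩
          have : dt κ (h + h') = dt κ h + dt κ h' := by
            simp only [dt, Pi.add_apply]; ring
          rw [this, hd, hd', add_zero]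
        neg_mem' := by
          rintro _ ⟨h, hh, hd, rfl⟩
          refine ⟨-h, U.neg_mem hh, ?_, rfl⟩
          have : dt κ (-h) = - dt κ h := by
            simp only [dt, Pi.neg_apply]; ring
          rw [this, hd, neg_zero] }
    have hinj : Set.InjOn φ (Q : Set V3) := by
      intro q hq q' hq' heq
      have h1 : q (i0 + 1) = q' (i0 + 1) := congrArg Prod.fst heq
      have h2 : q (i0 + 2) = q' (i0 + 2) := congrArg Prod.snd heq
      have hd := (hQ q hq).2.1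
      have hd' := (hQ q' hq').2.1
      rw [Pln_dt κ q i0] at hd
      rw [Pln_dt κ q' i0] at hd'
      have h0 : q i0 = q' i0 := by
        have : κ i0 * q i0 = κ i0 * q' i0 := by rw [h1, h2] at hd; linarith
        exact mul_left_cancel₀ hκ0 this
      funext j
      have hj : j = i0 ∨ j = i0 + 1 ∨ j = i0 + 2 := by
        fin_cases i0 <;> fin_cases j <;> decide
      rcases hj with rfl | rfl | rfl
      · exact h0
      · exact h1
      · exact h2
    have hcard : (Q.image φ).card = Q.card := Finset.card_image_of_injOn hinj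
    have hns := ns2 U2 m0 hm01 (by
        rintro _ ⟨h, hh, hd, rfl⟩ _ ⟨h', hh', hd', rfl⟩
        obtain ⟨t, ht, hdv⟩ := hdiv h hh h' hh' hd hd'
        have h1 : (φ h).1 * (φ h').2 - (φ h).2 * (φ h').1 = t * κ i0 := by
          rw [← ht i0, Pln_cr]
        rw [h1, hm0z]
        exact mul_dvd_mul hdv (by rw [abs_dvd]))
      (Q.image φ) (by
        intro z hz
        obtain ⟨q, hq, rfl⟩ := Finset.mem_image.1 hz
        exact ⟨q, (hQ q hq).1, (hQ q hq).2.1, rfl⟩)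
      (2 * (B : ℝ) ^ 2) (by
        intro z hz z' hz'
        obtain ⟨q, hq, rfl⟩ := Finset.mem_image.1 hz
        obtain ⟨q', hq', rfl⟩ := Finset.mem_image.1 hz'
        have hb : ∀ q ∈ Q, ∀ i, |((q i : ℤ) : ℝ)| ≤ (B : ℝ) := by
          intro q hq i
          have := (hQ q hq).2.2 i
          have h2 : ((|q i| : ℤ) : ℝ) ≤ ((B : ℤ) : ℝ) := by exact_mod_cast this
          rw [Int.cast_abs] at h2
          simpa using h2
        have p1 := hb q hq (i0 + 1)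
        have p2 := hb q hq (i0 + 2)
        have p3 := hb q' hq' (i0 + 1)
        have p4 := hb q' hq' (i0 + 2)
        show |((q (i0 + 1) * q' (i0 + 2) - q (i0 + 2) * q' (i0 + 1) : ℤ) : ℝ)| ≤ 2 * (B : ℝ) ^ 2
        push_cast
        calc |(q (i0 + 1) : ℝ) * (q' (i0 + 2) : ℝ) - (q (i0 + 2) : ℝ) * (q' (i0 + 1) : ℝ)|
            ≤ |(q (i0 + 1) : ℝ) * (q' (i0 + 2) : ℝ)| + |(q (i0 + 2) : ℝ) * (q' (i0 + 1) : ℝ)| :=
              abs_sub _ _
          _ = |(q (i0 + 1) : ℝ)| * |(q' (i0 + 2) : ℝ)| + |(q (i0 + 2) : ℝ)| * |(q' (i0 + 1) : ℝ)| := by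
              rw [abs_mul, abs_mul]
          _ ≤ (B : ℝ) * B + (B : ℝ) * B := by
              gcongr
          _ = 2 * (B : ℝ) ^ 2 := by ring)
      (by
        refine ⟨φ qa, Finset.mem_image_of_mem _ hqa, φ qb, Finset.mem_image_of_mem _ hqb, ?_⟩
        obtain ⟨t, ht, -⟩ := hdiv qa (hQ qa hqa).1 qb (hQ qb hqb).1 (hQ qa hqa).2.1
          (hQ qb hqb).2.1
        have h1 : (φ qa).1 * (φ qb).2 - (φ qa).2 * (φ qb).1 = t * κ i0 := by
          rw [← ht i0, Pln_cr]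
        rw [h1]
        apply mul_ne_zero _ hκ0
        rintro rfl
        apply hia
        rw [ht ia, zero_mul])
    rw [hcard] at hns
    have h5 : 27 * (2 * (B : ℝ) ^ 2) / (m0 : ℝ) ≤ 54 * (B : ℝ) ^ 2 / ((m1 : ℝ) * m * K) := by
      have : 27 * (2 * (B : ℝ) ^ 2) = 54 * (B : ℝ) ^ 2 := by ring
      rw [this]
      exact div_le_div_of_nonneg_left (by positivity) hmm hm0R
    have h6 : 0 ≤ 12 * (B : ℝ) / (r : ℝ) ^ 2 := by positivity
    linarith

end Pool.Agent.SMP
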