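import Pool.Agent.SMP.SbC

/-!
# SMP/SbG (size 2): the five subgroups with the congruences modulo `W`

PROOF.  `sbF` with `U = Lam m e`, `Lam m e ⊓ Dv l {i}`, `Lam m e ⊓ Dv l {i, j}`, `Lam (l m) e'`, `Lam m e ⊓ Dv l univ`.
`Ok` of `U`: `det` from `sbA_det`, `sbD`, `sbC_det`, `sbA_det` for `(l m, e')` (`(l m) ^ 2 = l ^ 2 m ^ 2`), `sbE`; `sh` from `shv'` with
`s = r ^ 2 / 3` (`U ≤ Lam m e`, `sbB`).  `hd`: `W` is prime to `m` and to `l`: `m ∣ W (h a e b - h b e a)` gives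
`m ∣ h a e b - h b e a`; `l ∣ W h i` gives `l ∣ h i`.
-/

set_option autoImplicit false

namespace Pool.Agent.SMP

open Pool.Agent.SLB (V3 det3)

private theorem shl {m r : ℕ} {e : V3} (hL : Lat m e r) :
    (0 : ℝ) < (r : ℝ) ^ 2 / 3 := by
  have hrR : (0 : ℝ) < r := by exact_mod_cast (Nat.lt_of_lt_of_le Nat.zero_lt_one hL.hr)
  positivity

private theorem hdm {m W : ℕ} {e : V3} (hWm : Nat.Coprime W m) (h : V3)
    (hh : (fun i => (W : ℤ) * h i) ∈ Lam m e) : h ∈ Lam m e := by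
  rw [mem_Lam] at hh ⊢
  intro p q
  have h2 := hh p q
  have h3 : (W : ℤ) * h p * e q - (W : ℤ) * h q * e p =
      (W : ℤ) * (h p * e q - h q * e p) := by ring
  have h4 : (m : ℤ) ∣ (W : ℤ) * (h p * e q - h q * e p) := by
    rw [← h3]
    exact h2
  exact (Nat.isCoprime_iff_coprime.2 hWm).symm.dvd_of_dvd_mul_left h4

private theorem hdl {l W : ℕ} (hl : l.Prime) (hlW : ¬ l ∣ W) (s : Finset (Fin 3)) (h : V3)
    (hh : (fun i => (W : ℤ) * h i) ∈ Dv l s) : h ∈ Dv l s := by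
  intro i hi
  have h1 : (l : ℤ) ∣ (W : ℤ) * h i := hh i hi
  have h2 : IsCoprime (l : ℤ) (W : ℤ) :=
    Nat.isCoprime_iff_coprime.2 ((Nat.Prime.coprime_iff_not_dvd hl).2 hlW)
  exact h2.dvd_of_dvd_mul_left h1

theorem sg0 {W m r : ℕ} {e : V3} (hL : Lat m e r) (hW : 1 ≤ W) (hWm : Nat.Coprime W m) :
    Ok (Lam m e ⊓ Dv W Finset.univ) (W ^ 3 * m ^ 2) (W * ((r : ℝ) ^ 2 / 3)) := by
  have hm := hL.hm
  refine sbF (Lam m e) (m ^ 2) ((r : ℝ) ^ 2 / 3) ⟨?_, shl hL, ?_, ?_⟩ W hW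
    (fun h hh => hdm hWm h hh)
  · exact Nat.one_le_iff_ne_zero.2 (pow_ne_zero _ (by omega))
  · intro a ha b hb c hc
    exact sbA_det hL.hm hL.co ha hb hc
  · intro h hh h0
    exact shv' hL h hh h0

theorem sg1 {W m r l : ℕ} {e : V3} (hL : Lat m e r) (hW : 1 ≤ W) (hWm : Nat.Coprime W m)
    (hl : l.Prime) (hlW : ¬ l ∣ W) (i : Fin 3) :
    Ok ((Lam m e ⊓ Dv l {i}) ⊓ Dv W Finset.univ) (W ^ 3 * (l * m ^ 2))
      (W * ((r : ℝ) ^ 2 / 3)) := by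
  have hm := hL.hm
  have hl0 := hl.pos
  refine sbF (Lam m e ⊓ Dv l {i}) (l * m ^ 2) ((r : ℝ) ^ 2 / 3) ⟨?_, shl hL, ?_, ?_⟩ W hW
    (fun h hh => ⟨hdm hWm h hh.1, hdl hl hlW _ h hh.2⟩)
  · exact Nat.one_le_iff_ne_zero.2 (Nat.mul_ne_zero (by omega) (pow_ne_zero _ (by omega)))
  · intro a ha b hb c hc
    exact sbD hL.hm hL.co hl ha hb hc
  · intro h hh h0
    exact shv' hL h hh.1 h0

theorem sg2 {W m r l : ℕ} {e : V3} (hL : Lat m e r) (hW : 1 ≤ W) (hWm : Nat.Coprime W m)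
    (hl : l.Prime) (hlW : ¬ l ∣ W) (hlm : ¬ l ∣ m) {i j : Fin 3} (hij : i ≠ j) :
    Ok ((Lam m e ⊓ Dv l {i, j}) ⊓ Dv W Finset.univ) (W ^ 3 * (l ^ 2 * m ^ 2))
      (W * ((r : ℝ) ^ 2 / 3)) := by
  have hm := hL.hm
  have hl0 := hl.pos
  refine sbF (Lam m e ⊓ Dv l {i, j}) (l ^ 2 * m ^ 2) ((r : ℝ) ^ 2 / 3) ⟨?_, shl hL, ?_, ?_⟩ W hW
    (fun h hh => ⟨hdm hWm h hh.1, hdl hl hlW _ h hh.2⟩)
  · exact Nat.one_le_iff_ne_zero.2 (Nat.mul_ne_zero (pow_ne_zero _ (by omega))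
      (pow_ne_zero _ (by omega)))
  · intro a ha b hb c hc
    exact sbC_det hL.hm hL.co hl hlm hij ha hb hc
  · intro h hh h0
    exact shv' hL h hh.1 h0

theorem sg3 {W m r l : ℕ} {e e' : V3} (hL : Lat m e r) (hW : 1 ≤ W) (hWm : Nat.Coprime W m)
    (hl : l.Prime) (hlW : ¬ l ∣ W) (he' : ∀ i, IsCoprime (e' i) ((l * m : ℕ) : ℤ))
    (hee : e' ∈ Lam m e) :
    Ok (Lam (l * m) e' ⊓ Dv W Finset.univ) (W ^ 3 * (l ^ 2 * m ^ 2))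
      (W * ((r : ℝ) ^ 2 / 3)) := by
  have hm := hL.hm
  have hl0 := hl.pos
  have hWlm : Nat.Coprime W (l * m) :=
    Nat.Coprime.mul_right (((Nat.Prime.coprime_iff_not_dvd hl).2 hlW).symm) hWm
  have hlm1 : 1 ≤ l * m := Nat.one_le_iff_ne_zero.2 (Nat.mul_ne_zero (by omega) (by omega))
  have hle := (sbB hL.co he' hee).1
  refine sbF (Lam (l * m) e') (l ^ 2 * m ^ 2) ((r : ℝ) ^ 2 / 3) ⟨?_, shl hL, ?_, ?_⟩ W hW
    (fun h hh => hdm hWlm h hh)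
  · exact Nat.one_le_iff_ne_zero.2 (Nat.mul_ne_zero (pow_ne_zero _ (by omega))
      (pow_ne_zero _ (by omega)))
  · intro a ha b hb c hc
    have h1 := sbA_det hlm1 he' ha hb hc
    rw [← mul_pow]
    exact h1
  · intro h hh h0
    exact shv' hL h (hle hh) h0

theorem sg4 {W m r l : ℕ} {e : V3} (hL : Lat m e r) (hW : 1 ≤ W) (hWm : Nat.Coprime W m)
    (hl : l.Prime) (hlW : ¬ l ∣ W) (hlm : ¬ l ∣ m) :
    Ok ((Lam m e ⊓ Dv l Finset.univ) ⊓ Dv W Finset.univ) (W ^ 3 * (l ^ 3 * m ^ 2))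
      (W * (l * ((r : ℝ) ^ 2 / 3))) :=
  sbF (Lam m e ⊓ Dv l Finset.univ) (l ^ 3 * m ^ 2) (l * ((r : ℝ) ^ 2 / 3)) (sbE hL hl hlm) W hW
    (fun h hh => ⟨hdm hWm h hh.1, hdl hl hlW _ h hh.2⟩)

end Pool.Agent.SMP
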