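import Pool.Agent.SMP.Defs

/-!
# SMP/SetA (size 3): (P11) (i), (ii) the solution `e` of the congruences

`e = ![y 0 λ, y 0 λ ^ 2, p]`, `λ ^ 3 y 0 ≡ y 1` modulo `m`, `p ^ 3 ≡ y 0 y 1 y 2` modulo `m`.
PROOF of `seta`.  (i) coprimality: products of numbers prime to `m`.  (ii) `i = 0`: `p y0² λ² = y0 (y0 λ² p)`.
`i = 1`: `p y0² λ⁴ - y1 (p y0 λ) = p y0 λ (y0 λ³ - y1)`.  `i = 2`: `p³ - y2 y0² λ³ = (p³ - y0 y1 y2) - y0 y2 (y0 λ³ - y1)`.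
(In `Fin 3`: `1 + 1 = 2`, `1 + 2 = 0`, `2 + 1 = 0`, `2 + 2 = 1`; `Fin.forall_fin_succ`, `show`.)
(iii) `k ∈ Mm m e`.  Let `A = e 0 k 0`, `B = e 1 k 1`, `C = e 2 k 2`, `m ∣ A + B + C`, which divides
`A³ + B³ + C³ - 3 A B C`; and `y0 y1 Cv(k) + m k2³ = y0² y1 k0³ + y0 y1² k1³ + p³ k2³ - 3 p y0 y1 k0 k1 k2 ≡ A³ + B³ + C³ - 3 A B C` modulo
`m` (`e0³ ≡ y0² y1`, `e1³ ≡ y0 y1²`, `e0 e1 ≡ y0 y1`: all multiples of `y0 λ³ - y1`).  So `m ∣ y0 y1 Cv(k)`.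
-/

set_option autoImplicit false

namespace Pool.Agent.SMP

open Pool.Agent.SLB (V3 det3)

theorem seta (m : ℕ) (p lam : ℤ) (y : V3) (hm : (m : ℤ) = p ^ 3 - y 0 * y 1 * y 2)
    (hl : IsCoprime lam (m : ℤ)) (hl3 : (m : ℤ) ∣ lam ^ 3 * y 0 - y 1)
    (hp : IsCoprime p (m : ℤ)) (h0 : IsCoprime (y 0) (m : ℤ)) (h1 : IsCoprime (y 1) (m : ℤ)) :
    (∀ i, IsCoprime ((![y 0 * lam, y 0 * lam ^ 2, p] : V3) i) (m : ℤ)) ∧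
    (∀ i : Fin 3, (m : ℤ) ∣ p * (![y 0 * lam, y 0 * lam ^ 2, p] : V3) i ^ 2 -
      y i * ((![y 0 * lam, y 0 * lam ^ 2, p] : V3) (i + 1) *
        (![y 0 * lam, y 0 * lam ^ 2, p] : V3) (i + 2))) ∧
    (∀ k ∈ Mm m (![y 0 * lam, y 0 * lam ^ 2, p] : V3), (m : ℤ) ∣ Cv p y k) := by
  obtain ⟨w, hw⟩ := hl3
  refine ⟨?_, ?_, ?_⟩
  · intro i
    fin_cases i
    · exact h0.mul_left hl
    · exact h0.mul_left hl.pow_left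
    · exact hp
  · intro i
    fin_cases i
    · show (m : ℤ) ∣ p * (y 0 * lam) ^ 2 - y 0 * ((y 0 * lam ^ 2) * p)
      refine ⟨0, ?_⟩
      ring
    · show (m : ℤ) ∣ p * (y 0 * lam ^ 2) ^ 2 - y 1 * (p * (y 0 * lam))
      refine ⟨p * y 0 * lam * w, ?_⟩
      linear_combination (p * y 0 * lam) * hw
    · show (m : ℤ) ∣ p * p ^ 2 - y 2 * ((y 0 * lam) * (y 0 * lam ^ 2))
      refine ⟨1 - y 0 * y 2 * w, ?_⟩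
      linear_combination (-(y 0 * y 2)) * hw - hm
  · intro k hk
    rw [mem_Mm] at hk
    obtain ⟨c, hc⟩ := hk
    have hc' : k 0 * (y 0 * lam) + k 1 * (y 0 * lam ^ 2) + k 2 * p = (m : ℤ) * c := hc
    have hcop : IsCoprime (m : ℤ) (y 0 * y 1) := (h0.mul_left h1).symm
    refine hcop.dvd_of_dvd_mul_left ?_
    unfold Cv
    have hw' : lam ^ 3 * y 0 = y 1 + (m : ℤ) * w := by linarith
    refine ⟨c * ((k 0 * (y 0 * lam)) ^ 2 + (k 1 * (y 0 * lam ^ 2)) ^ 2 + (k 2 * p) ^ 2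
      - (k 0 * (y 0 * lam)) * (k 1 * (y 0 * lam ^ 2)) - (k 1 * (y 0 * lam ^ 2)) * (k 2 * p)
      - (k 2 * p) * (k 0 * (y 0 * lam))) - k 0 ^ 3 * y 0 ^ 2 * w
      - k 1 ^ 3 * y 0 * ((m : ℤ) * w ^ 2 + 2 * w * y 1) - k 2 ^ 3
      + 3 * (k 0 * k 1 * k 2) * p * y 0 * w, ?_⟩
    linear_combination ((k 0 * (y 0 * lam)) ^ 2 + (k 1 * (y 0 * lam ^ 2)) ^ 2 + (k 2 * p) ^ 2
      - (k 0 * (y 0 * lam)) * (k 1 * (y 0 * lam ^ 2)) - (k 1 * (y 0 * lam ^ 2)) * (k 2 * p)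
      - (k 2 * p) * (k 0 * (y 0 * lam))) * hc' - (k 0 ^ 3 * y 0 ^ 2) * hw'
      - (k 1 ^ 3 * y 0) * (lam ^ 3 * y 0 + y 1 + (m : ℤ) * w) * hw' + (k 2 ^ 3) * hm
      + (3 * (k 0 * k 1 * k 2) * p * y 0) * hw'

/-- `m ∣ p g_i² - y_i g_{i+1} g_{i+2}` for `g ∈ Lam m e`.
PROOF: `e 0 ^ 2` times it is `≡ g 0 ^ 2 (p e_i² - y_i e_{i+1} e_{i+2})` (`e 0 g j ≡ g 0 e j`), `e 0` is prime to `m`. -/
theorem dvdL (m : ℕ) (p : ℤ) (y e g : V3) (h0 : IsCoprime (e 0) (m : ℤ))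
    (he : ∀ i : Fin 3, (m : ℤ) ∣ p * e i ^ 2 - y i * (e (i + 1) * e (i + 2)))
    (hg : g ∈ Lam m e) (i : Fin 3) : (m : ℤ) ∣ p * g i ^ 2 - y i * (g (i + 1) * g (i + 2)) := by
  rw [mem_Lam] at hg
  obtain ⟨c0, hc0⟩ := hg i 0
  obtain ⟨c1, hc1⟩ := hg (i + 1) 0
  obtain ⟨c2, hc2⟩ := hg (i + 2) 0
  obtain ⟨w, hw⟩ := he i
  have hcop : IsCoprime (m : ℤ) (e 0 ^ 2) := h0.symm.pow_right
  refine hcop.dvd_of_dvd_mul_left ?_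
  have a0 : e 0 * g i = g 0 * e i + (m : ℤ) * c0 := by linarith
  have a1 : e 0 * g (i + 1) = g 0 * e (i + 1) + (m : ℤ) * c1 := by linarith
  have a2 : e 0 * g (i + 2) = g 0 * e (i + 2) + (m : ℤ) * c2 := by linarith
  have e1 : e 0 ^ 2 * (p * g i ^ 2 - y i * (g (i + 1) * g (i + 2))) =
      p * (e 0 * g i) ^ 2 - y i * ((e 0 * g (i + 1)) * (e 0 * g (i + 2))) := by ring
  rw [e1, a0, a1, a2]
  refine ⟨g 0 ^ 2 * w + p * (2 * g 0 * e i * c0 + (m : ℤ) * c0 ^ 2)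
    - y i * (g 0 * e (i + 1) * c2 + g 0 * e (i + 2) * c1 + (m : ℤ) * (c1 * c2)), ?_⟩
  linear_combination (g 0 ^ 2) * hw

end Pool.Agent.SMP
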