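import Pool.Agent.SMP.Defs
import Pool.Agent.SMP.Asy

/-!
# SMP/Siz (size 2): the parameters of the points and their sizes

PROOF.  `⌊x⌋₊ ≥ x / 2` for `x ≥ 1`, `⌊x⌋₊ ≤ x`; all exponents are positive so `T ^ a ≥ 2 * 10 ^ 6` for `T` large.
`H = √(6 G) + 1` (`Nat.sqrt`): `6 G < H ^ 2` (`Nat.lt_succ_sqrt'`), `H ≤ √(6 G) + 1 ≤ √6 T ^ (1 + γ / 2) + 1 ≤ 3 T ^ (1 + γ / 2)`.
-/

set_option autoImplicit false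

namespace Pool.Agent.SMP

/-- `r` -/
noncomputable def rT (γ T : ℝ) : ℕ := ⌊T ^ (1 - γ / 100)⌋₊

/-- `G` -/
noncomputable def GT (γ T : ℝ) : ℕ := ⌊T ^ (2 + γ)⌋₊

/-- `L0` -/
noncomputable def LT (γ T : ℝ) : ℕ := ⌊T ^ (3 / 5 * γ)⌋₊

/-- `H` -/
noncomputable def HT (γ T : ℝ) : ℕ := Nat.sqrt (6 * GT γ T) + 1

/-- `R1` -/
noncomputable def R1T (γ T : ℝ) : ℕ := ⌊T ^ (1 + γ / 4)⌋₊

/-- the sizes of the parameters -/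
structure Sz (γ T : ℝ) : Prop where
  T1 : 10 ^ 7 ≤ T
  r1 : T ^ (1 - γ / 100) / 2 ≤ (rT γ T : ℝ)
  r2 : (rT γ T : ℝ) ≤ T ^ (1 - γ / 100)
  r3 : 2 ≤ rT γ T
  G1 : T ^ (2 + γ) / 2 ≤ (GT γ T : ℝ)
  G2 : (GT γ T : ℝ) ≤ T ^ (2 + γ)
  G3 : 1 ≤ GT γ T
  L1 : T ^ (3 / 5 * γ) / 2 ≤ (LT γ T : ℝ)
  L2 : (LT γ T : ℝ) ≤ T ^ (3 / 5 * γ)
  L3 : 10 ^ 6 ≤ LT γ T
  H1 : 6 * GT γ T ≤ HT γ T ^ 2
  H2 : (HT γ T : ℝ) ≤ 3 * T ^ (1 + γ / 2)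
  H3 : 1 ≤ HT γ T
  R1 : T ^ (1 + γ / 4) / 2 ≤ (R1T γ T : ℝ)
  R2 : (R1T γ T : ℝ) ≤ T ^ (1 + γ / 4)
  R3 : 1 ≤ R1T γ T

private theorem siz_big (a : ℝ) (ha : 0 < a) :
    ∃ T0 : ℝ, ∀ T : ℝ, T0 ≤ T → 2 * 10 ^ 6 ≤ T ^ a := by
  have h := (tendsto_rpow_atTop ha).eventually_ge_atTop (2 * 10 ^ 6)
  obtain ⟨T1, hT1⟩ := Filter.eventually_atTop.1 h
  exact ⟨T1, fun T hT => hT1 T hT⟩

private theorem siz_floor (x : ℝ) (hx : 2 * 10 ^ 6 ≤ x) :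
    x / 2 ≤ (⌊x⌋₊ : ℝ) ∧ (⌊x⌋₊ : ℝ) ≤ x ∧ 10 ^ 6 ≤ ⌊x⌋₊ := by
  refine ⟨?_, Nat.floor_le (by linarith), ?_⟩
  · have := Nat.lt_floor_add_one x
    linarith
  · apply Nat.le_floor
    push_cast
    linarith

theorem siz (γ : ℝ) (hγ : 0 < γ) (hγ1 : γ ≤ 1 / 100) : ∃ T0 : ℝ, ∀ T : ℝ, T0 ≤ T → Sz γ T := by
  obtain ⟨A1, h1⟩ := siz_big (1 - γ / 100) (by linarith)
  obtain ⟨A2, h2⟩ := siz_big (2 + γ) (by linarith)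
  obtain ⟨A3, h3⟩ := siz_big (3 / 5 * γ) (by linarith)
  obtain ⟨A4, h4⟩ := siz_big (1 + γ / 2) (by linarith)
  obtain ⟨A5, h5⟩ := siz_big (1 + γ / 4) (by linarith)
  refine ⟨max (10 ^ 7) (max A1 (max A2 (max A3 (max A4 A5)))), fun T hT => ?_⟩
  simp only [max_le_iff] at hT
  obtain ⟨t0, t1, t2, t3, t4, t5⟩ := hT
  obtain ⟨a1, b1, c1⟩ := siz_floor _ (h1 T t1)
  obtain ⟨a2, b2, c2⟩ := siz_floor _ (h2 T t2)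
  obtain ⟨a3, b3, c3⟩ := siz_floor _ (h3 T t3)
  obtain ⟨a5, b5, c5⟩ := siz_floor _ (h5 T t5)
  have hT0 : (0 : ℝ) < T := by linarith
  have hy := h4 T t4
  have hyy : T ^ (2 + γ) = (T ^ (1 + γ / 2)) ^ 2 := by
    rw [← Real.rpow_natCast, ← Real.rpow_mul hT0.le]
    congr 1
    push_cast
    ring
  refine ⟨t0, a1, b1, ?_, a2, b2, ?_, a3, b3, c3, ?_, ?_, ?_, a5, b5, ?_⟩
  · unfold rT
    omega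
  · unfold GT
    omega
  · unfold HT
    exact (Nat.lt_succ_sqrt' _).le
  · have e1 : Nat.sqrt (6 * GT γ T) ^ 2 ≤ 6 * GT γ T := Nat.sqrt_le' _
    have e2 : ((Nat.sqrt (6 * GT γ T) : ℕ) : ℝ) ^ 2 ≤ 6 * (GT γ T : ℝ) := by exact_mod_cast e1
    have e3 : (GT γ T : ℝ) ≤ (T ^ (1 + γ / 2)) ^ 2 := by
      rw [← hyy]
      exact b2
    have e4 : (HT γ T : ℝ) = ((Nat.sqrt (6 * GT γ T) : ℕ) : ℝ) + 1 := by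
      unfold HT
      push_cast
      ring
    rw [e4]
    have e5 : ((Nat.sqrt (6 * GT γ T) : ℕ) : ℝ) ≤ 5 / 2 * T ^ (1 + γ / 2) := by
      by_contra hlt
      rw [not_le] at hlt
      nlinarith
    linarith
  · unfold HT
    omega
  · unfold R1T
    omega


end Pool.Agent.SMP
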