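import Pool.Agent.SMP.Cov
import Pool.Agent.SMP.SetP

/-!
# SMP/Zct (size 3): (P11) (iii) the number of points of `Z0`

PROOF.  `W` is prime to `m`: there is `g* : V3` with `g* i ≡ g0 i` modulo `W` and `g* i ≡ e i` modulo `m` (CRT; Bezout).
`g* ∈ Lam m e`.  `A = G / W - 1` (natural numbers; `4 A0 ≤ A`), `u i = ⌈(G - g* i) / W⌉` (so `G ≤ W u i + g* i ≤ G + W - 1`;
e.g. `u i = -((g* i - G) / W)` with floor division).  `box` gives `Q`; the image of `Q` under `h ↦ g* + W h` (injective):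
in `Lam m e`, `≡ g0` modulo `W`, and `G ≤ g* i + W h i ≤ G + W - 1 + W A ≤ 2 G` since `W (A + 1) = W (G / W) ≤ G`.
So it is contained in `Z0`.
-/

set_option autoImplicit false

namespace Pool.Agent.SMP

open Pool.Agent.SLB (V3 det3)

theorem zct {W p1 m r : ℕ} {y e : V3} (h : Ps W p1 m r y e) (g0 : V3) (G A0 : ℕ)
    (hA : 55 * m ≤ A0 * r) (hG : 4 * A0 + 1 ≤ G / W) :
    (G / W - 1 - 4 * A0) ^ 3 ≤ (Z0 W m e g0 G).card * m ^ 2 := by
  classical
  have hW1 : 1 ≤ W := h.hW.one
  have hWz : (0 : ℤ) < (W : ℤ) := by exact_mod_cast hW1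
  have hcop : IsCoprime (W : ℤ) (m : ℤ) := Nat.isCoprime_iff_coprime.2 (psW h).1
  obtain ⟨a, b, hab⟩ := hcop
  -- the vector `g*`
  set gs : V3 := fun i => g0 i * (b * m) + e i * (a * W) with hgs
  have hgW : ∀ i, (W : ℤ) ∣ gs i - g0 i := by
    intro i
    refine ⟨a * (e i - g0 i), ?_⟩
    have hb : b * (m : ℤ) = 1 - a * W := by linarith
    simp only [hgs]
    rw [hb]
    ring
  have hgm : ∀ i, (m : ℤ) ∣ gs i - e i := by
    intro i
    refine ⟨b * (g0 i - e i), ?_⟩
    have ha : a * (W : ℤ) = 1 - b * m := by linarith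
    simp only [hgs]
    rw [ha]
    ring
  have hgL : gs ∈ Lam m e := by
    rw [mem_Lam]
    intro i j
    have h1 := dvd_mul_of_dvd_left (hgm i) (e j)
    have h2 := dvd_mul_of_dvd_left (hgm j) (e i)
    have h3 := dvd_sub h1 h2
    have e1 : gs i * e j - gs j * e i = (gs i - e i) * e j - (gs j - e j) * e i := by ring
    rw [e1]
    exact h3
  set A : ℕ := G / W - 1 with hAdef
  have hAA : 4 * A0 ≤ A := by omega
  set u : V3 := fun i => -((gs i - G) / (W : ℤ)) with hu
  have hu1 : ∀ i, (G : ℤ) ≤ W * u i + gs i ∧ W * u i + gs i ≤ G + W - 1 := by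
    intro i
    have h1 := Int.emod_add_mul_ediv (gs i - G) (W : ℤ)
    have h2 := Int.emod_nonneg (gs i - G) hWz.ne'
    have h3 := Int.emod_lt_of_pos (gs i - G) hWz
    simp only [hu]
    constructor
    · linarith
    · linarith
  obtain ⟨Q, hQ1, hQ2⟩ := box h.lat A0 hA u A hAA
  have hWA : (W : ℤ) * A + W ≤ G := by
    have h1 : W * (A + 1) ≤ G := by
      have h2 : A + 1 = G / W := by omega
      rw [h2]
      exact Nat.mul_div_le G W
    have h3 : ((W * (A + 1) : ℕ) : ℤ) ≤ (G : ℤ) := by exact_mod_cast h1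
    push_cast at h3
    linarith
  have hinj : Function.Injective (fun (v : V3) => (fun i => gs i + (W : ℤ) * v i : V3)) := by
    intro v w hvw
    funext i
    have h1 := congrFun hvw i
    have h2 : (W : ℤ) * v i = W * w i := by
      have h3 : gs i + (W : ℤ) * v i = gs i + (W : ℤ) * w i := h1
      linarith
    exact mul_left_cancel₀ hWz.ne' h2
  have hsub : Q.image (fun (v : V3) => (fun i => gs i + (W : ℤ) * v i : V3)) ⊆ Z0 W m e g0 G := by
    intro g hg
    rw [Finset.mem_image] at hg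
    obtain ⟨v, hv, rfl⟩ := hg
    obtain ⟨hv1, hv2⟩ := hQ1 v hv
    rw [mem_Z0]
    refine ⟨?_, ?_, ?_⟩
    · intro i
      obtain ⟨h1, h2⟩ := hv2 i
      obtain ⟨h3, h4⟩ := hu1 i
      have h5 : (W : ℤ) * u i ≤ W * v i := mul_le_mul_of_nonneg_left h1 hWz.le
      have h6 : (W : ℤ) * v i ≤ W * (u i + A) := mul_le_mul_of_nonneg_left h2 hWz.le
      constructor
      · show (G : ℤ) ≤ gs i + W * v i
        linarith
      · show gs i + (W : ℤ) * v i ≤ 2 * G
        rw [mul_add] at h6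
        linarith
    · have h1 : (fun i => gs i + (W : ℤ) * v i : V3) = gs + (W : ℤ) • v := by
        funext i
        simp only [Pi.add_apply, Pi.smul_apply, smul_eq_mul]
      rw [h1]
      exact (Lam m e).add_mem hgL ((Lam m e).zsmul_mem hv1 _)
    · intro i
      have h1 := dvd_add (hgW i) (Dvd.intro (v i) rfl : (W : ℤ) ∣ W * v i)
      have e1 : gs i + (W : ℤ) * v i - g0 i = gs i - g0 i + W * v i := by ring
      show (W : ℤ) ∣ gs i + (W : ℤ) * v i - g0 i
      rw [e1]
      exact h1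
  have hcard : Q.card ≤ (Z0 W m e g0 G).card := by
    rw [← Finset.card_image_of_injective Q hinj]
    exact Finset.card_le_card hsub
  calc (A - 4 * A0) ^ 3 ≤ Q.card * m ^ 2 := hQ2
    _ ≤ (Z0 W m e g0 G).card * m ^ 2 := Nat.mul_le_mul_right _ hcard

end Pool.Agent.SMP
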